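import Pool.Agent.Z55B.A2

/-!
# Z55B, piece A: the law of the frozen process
-/

set_option autoImplicit false
open MeasureTheory ProbabilityTheory Set Metric Filter Topology
open scoped NNReal ENNReal InnerProductSpace

namespace Pool.Agent.Z55B

/-- A sequence of random variables each of which is independent of the past is independent. -/
lemma iIndepFun_of_past {Ω E : Type*} [MeasurableSpace Ω] [MeasurableSpace E] {P : Measure Ω}
    [IsProbabilityMeasure P] (f : ℕ → Ω → E) (F : ℕ → MeasurableSpace Ω)
    (hF : ∀ i j, i < j → Measurable[F j] (f i))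
    (h : ∀ j, Indep (MeasurableSpace.comap (f j) inferInstance) (F j) P) : iIndepFun f P := by
  rw [iIndepFun_iff_measure_inter_preimage_eq_mul]
  intro S sets hs
  induction S using Finset.induction_on_max with
  | empty => simp [measure_univ]
  | insert a S ha ih =>
    have haS : a ∉ S := fun h => lt_irrefl a (ha a h)
    rw [Finset.prod_insert haS, ← ih (fun i hi => hs i (Finset.mem_insert_of_mem hi))]
    have h1 : (⋂ i ∈ insert a S, f i ⁻¹' sets i) = (f a ⁻¹' sets a) ∩ (⋂ i ∈ S, f i ⁻¹' sets i) := by
      rw [Finset.set_biInter_insert]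
    rw [h1]
    have h2 := (Indep_iff _ _ _).mp (h a)
    refine h2 _ _ ?_ ?_
    · exact ⟨sets a, hs a (Finset.mem_insert_self a S), rfl⟩
    · refine @Finset.measurableSet_biInter Ω ℕ (F a) _ S fun i hi => ?_
      exact hF i a (ha i hi) (hs i (Finset.mem_insert_of_mem hi))

/-- A5 -/
theorem pA5 : S_A5 := by
  intro Ω _ P _ B z hm hc h0 hB
  have hmp : ∀ u, Measurable (fun ω => pathOf B z hc ω u) := by
    intro u
    have h1 : (fun ω => pathOf B z hc ω u) = fun ω => (((B u ω).1 - z.1 : ℝ) : ℂ) +
        (((B u ω).2 - z.2 : ℝ) : ℂ) * Complex.I := by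
      funext ω
      apply Complex.ext <;> simp [pathOf]
    rw [h1]
    have h2 := hm u
    fun_prop
  have hmeas : Measurable (pathOf B z hc) := measurable_pth hmp
  refine ⟨hmeas, ?_⟩
  -- increments
  have hinc : ∀ s t ω, pathOf B z hc ω t - pathOf B z hc ω s =
      Complex.equivRealProdCLM.symm (B t ω - B s ω) := by
    intro s t ω
    apply Complex.ext <;> simp [pathOf]
  have hval : ∀ t ω, pathOf B z hc ω t = Complex.equivRealProdCLM.symm (B t ω - B 0 ω) := by
    intro t ω
    rw [h0 ω]
    apply Complex.ext <;> simp [pathOf]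
  have hzero : ∀ ω, pathOf B z hc ω 0 = 0 := by
    intro ω
    rw [hval, sub_self, map_zero]
  have hlaw0 : ∀ t, P.map (fun ω => B t ω - B 0 ω) =
      (gaussianReal 0 t).prod (gaussianReal 0 t) := by
    intro t
    have := (hB 0 t zero_le).1
    rwa [tsub_zero] at this
  have hmd : ∀ s t, Measurable (fun ω => B t ω - B s ω) := fun s t => (hm t).sub (hm s)
  have hpast : ∀ s t : ℝ≥0, s ≤ t → Indep
      (MeasurableSpace.comap (fun ω => pathOf B z hc ω t - pathOf B z hc ω s) inferInstance)
      (⨆ (u : ℝ≥0) (_ : u ≤ s), MeasurableSpace.comap (B u) inferInstance) P := by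
    intro s t hst
    refine indep_of_indep_of_le_left (hB s t hst).2 ?_
    have h1 : (fun ω => pathOf B z hc ω t - pathOf B z hc ω s) =
        (fun p : ℝ × ℝ => (Complex.equivRealProdCLM.symm p : ℂ)) ∘ (fun ω => B t ω - B s ω) := by
      funext ω
      exact hinc s t ω
    rw [h1, ← MeasurableSpace.comap_comp]
    refine MeasurableSpace.comap_mono ?_
    exact (Complex.equivRealProdCLM.symm.continuous.measurable).comap_le
  have hpm : ∀ s r : ℝ≥0, r ≤ s → Measurable[⨆ (u : ℝ≥0) (_ : u ≤ s),
      MeasurableSpace.comap (B u) inferInstance] (fun ω => pathOf B z hc ω r) := by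
    intro s r hr
    have h1 : Measurable[⨆ (u : ℝ≥0) (_ : u ≤ s), MeasurableSpace.comap (B u) inferInstance] (B r) := by
      rw [measurable_iff_comap_le]
      exact le_iSup₂_of_le r hr le_rfl
    have h2 : (fun ω => pathOf B z hc ω r) = (fun p : ℝ × ℝ =>
        (Complex.equivRealProdCLM.symm (p - z) : ℂ)) ∘ (B r) := by
      funext ω
      rw [Function.comp_apply, hval r ω, h0 ω]
    rw [h2]
    have h3 : Measurable (fun p : ℝ × ℝ => (Complex.equivRealProdCLM.symm (p - z) : ℂ)) := by
      have : Continuous (fun p : ℝ × ℝ => (Complex.equivRealProdCLM.symm (p - z) : ℂ)) := by fun_prop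
      exact this.measurable
    exact h3.comp h1
  have hII : HasIndepIncrements (fun (t : ℝ≥0) ω => pathOf B z hc ω t) P := by
    rw [hasIndepIncrements_iff_nat]
    intro t ht
    refine iIndepFun_of_past _ (fun i => ⨆ (u : ℝ≥0) (_ : u ≤ t i),
      MeasurableSpace.comap (B u) inferInstance) ?_ ?_
    · intro i j hij
      have h1 := hpm (t j) (t (i + 1)) (ht hij)
      have h2 := hpm (t j) (t i) (ht hij.le)
      exact Measurable.sub h1 h2
    · intro j
      exact hpast _ _ (ht (Nat.le_succ j))
  have hG : ∀ t, HasGaussianLaw (fun ω => pathOf B z hc ω t) P := by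
    intro t
    have h1 : HasGaussianLaw (fun ω => B t ω - B 0 ω) P := ⟨by rw [hlaw0 t]; infer_instance⟩
    have h2 := h1.map (Complex.equivRealProdCLM.symm : ℝ × ℝ →L[ℝ] ℂ)
    have h3 : (fun ω => pathOf B z hc ω t) = (Complex.equivRealProdCLM.symm : ℝ × ℝ →L[ℝ] ℂ) ∘
        (fun ω => B t ω - B 0 ω) := by
      funext ω
      exact hval t ω
    rw [h3]
    exact h2
  have hGP : IsGaussianProcess (fun (t : ℝ≥0) ω => pathOf B z hc ω t) P :=
    hII.isGaussianProcess hG (Eventually.of_forall fun ω => hzero ω)
  have hre : ∀ t ω, (pathOf B z hc ω t).re = (B t ω - B 0 ω).1 := by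
    intro t ω
    rw [h0 ω]
    simp [pathOf]
  have him : ∀ t ω, (pathOf B z hc ω t).im = (B t ω - B 0 ω).2 := by
    intro t ω
    rw [h0 ω]
    simp [pathOf]
  have hLre : ∀ t : ℝ≥0, HasLaw (fun ω => (pathOf B z hc ω t).re) (gaussianReal 0 t) P := by
    intro t
    refine ⟨(Complex.measurable_re.comp (hmp t)).aemeasurable, ?_⟩
    have h1 : (fun ω => (pathOf B z hc ω t).re) = Prod.fst ∘ (fun ω => B t ω - B 0 ω) := by
      funext ω
      exact hre t ω
    rw [h1, ← Measure.map_map measurable_fst (hmd 0 t), hlaw0, Measure.map_fst_prod]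
    simp
  have hLim : ∀ t : ℝ≥0, HasLaw (fun ω => (pathOf B z hc ω t).im) (gaussianReal 0 t) P := by
    intro t
    refine ⟨(Complex.measurable_im.comp (hmp t)).aemeasurable, ?_⟩
    have h1 : (fun ω => (pathOf B z hc ω t).im) = Prod.snd ∘ (fun ω => B t ω - B 0 ω) := by
      funext ω
      exact him t ω
    rw [h1, ← Measure.map_map measurable_snd (hmd 0 t), hlaw0, Measure.map_snd_prod]
    simp
  have hPre : IsPreBrownianReal (fun (t : ℝ≥0) ω => (pathOf B z hc ω t).re) P :=
    HasIndepIncrements.isPreBrownianReal_of_hasLaw hLre (hII.map Complex.reCLM)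
  have hPim : IsPreBrownianReal (fun (t : ℝ≥0) ω => (pathOf B z hc ω t).im) P :=
    HasIndepIncrements.isPreBrownianReal_of_hasLaw hLim (hII.map Complex.imCLM)
  refine IsWf.isW ⟨hmeas, hPre, hPim, ?_⟩
  have mre : ∀ t, MemLp (fun ω => (pathOf B z hc ω t).re) 2 P := fun t =>
    (hPre.isGaussianProcess.hasGaussianLaw_eval t).memLp_two
  have mim : ∀ t, MemLp (fun ω => (pathOf B z hc ω t).im) 2 P := fun t =>
    (hPim.isGaussianProcess.hasGaussianLaw_eval t).memLp_two
  -- the two coordinates at the same time are independent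
  have hsame : ∀ t, cov[fun ω => (pathOf B z hc ω t).re, fun ω => (pathOf B z hc ω t).im; P] = 0 := by
    intro t
    have h1 : IndepFun (fun ω => (B t ω - B 0 ω).1) (fun ω => (B t ω - B 0 ω).2) P := by
      have a1 : AEMeasurable (fun ω => (B t ω - B 0 ω).1) P :=
        (measurable_fst.comp (hmd 0 t)).aemeasurable
      have a2 : AEMeasurable (fun ω => (B t ω - B 0 ω).2) P :=
        (measurable_snd.comp (hmd 0 t)).aemeasurable
      rw [indepFun_iff_map_prod_eq_prod_map_map a1 a2]
      have b1 : P.map (fun ω => (B t ω - B 0 ω).1) = gaussianReal 0 t := by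
        have := (hLre t).map_eq
        simp_rw [hre] at this
        exact this
      have b2 : P.map (fun ω => (B t ω - B 0 ω).2) = gaussianReal 0 t := by
        have := (hLim t).map_eq
        simp_rw [him] at this
        exact this
      rw [b1, b2]
      exact hlaw0 t
    have h2 : IndepFun (fun ω => (pathOf B z hc ω t).re) (fun ω => (pathOf B z hc ω t).im) P := by
      simp_rw [hre, him]
      exact h1
    exact h2.covariance_eq_zero (mre t) (mim t)
  have hinc2 : ∀ s t : ℝ≥0, s ≤ t → IndepFun (fun ω => pathOf B z hc ω s)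
      (fun ω => pathOf B z hc ω t - pathOf B z hc ω s) P := by
    intro s t hst
    have h1 : IndepFun (fun ω => pathOf B z hc ω t - pathOf B z hc ω s)
        (fun ω => pathOf B z hc ω s) P := by
      rw [IndepFun_iff_Indep]
      exact indep_of_indep_of_le_right (hpast s t hst) (hpm s s le_rfl).comap_le
    exact h1.symm
  refine IsGaussianProcess.indepFun_of_covariance_eq_zero
      (X := fun (t : ℝ≥0) ω => (pathOf B z hc ω t).re)
      (Y := fun (t : ℝ≥0) ω => (pathOf B z hc ω t).im) ?_ ?_ ?_ ?_
  · refine hGP.of_isGaussianProcess ?_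
    rintro (t | t)
    · exact ⟨{t}, Complex.reCLM.comp (ContinuousLinearMap.proj ⟨t, by simp⟩), fun x => rfl⟩
    · exact ⟨{t}, Complex.imCLM.comp (ContinuousLinearMap.proj ⟨t, by simp⟩), fun x => rfl⟩
  · exact fun t => (Complex.measurable_re.comp (hmp t)).aemeasurable
  · exact fun t => (Complex.measurable_im.comp (hmp t)).aemeasurable
  · intro s t
    rcases le_total s t with hst | hst
    · have h1 : IndepFun (fun ω => (pathOf B z hc ω s).re)
          (fun ω => (pathOf B z hc ω t - pathOf B z hc ω s).im) P :=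
        (hinc2 s t hst).comp Complex.measurable_re Complex.measurable_im
      have h2 : (fun ω => (pathOf B z hc ω t - pathOf B z hc ω s).im) =
          (fun ω => (pathOf B z hc ω t).im) - (fun ω => (pathOf B z hc ω s).im) := by
        funext ω
        simp
      have h3 := h1.covariance_eq_zero (mre s) (by rw [h2]; exact (mim t).sub (mim s))
      rw [h2, covariance_sub_right (mre s) (mim t) (mim s), hsame s, sub_zero] at h3
      exact h3
    · have h1 : IndepFun (fun ω => (pathOf B z hc ω t).im)
          (fun ω => (pathOf B z hc ω s - pathOf B z hc ω t).re) P :=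
        (hinc2 t s hst).comp Complex.measurable_im Complex.measurable_re
      have h2 : (fun ω => (pathOf B z hc ω s - pathOf B z hc ω t).re) =
          (fun ω => (pathOf B z hc ω s).re) - (fun ω => (pathOf B z hc ω t).re) := by
        funext ω
        simp
      have h3 := h1.covariance_eq_zero (mim t) (by rw [h2]; exact (mre s).sub (mre t))
      rw [h2, covariance_sub_right (mim t) (mre s) (mre t), covariance_comm
        (fun ω => (pathOf B z hc ω t).im) (fun ω => (pathOf B z hc ω t).re), hsame t, sub_zero] at h3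
      rw [covariance_comm]
      exact h3

end Pool.Agent.Z55B
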