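import Mathlib

/-!
# MP_677d31_pr (frozen statement S19381): Brownian loops separate sets of dimension less than one

Statements of the independent pieces.  The whole proof is in `NOTES.md` of this folder.
-/

set_option autoImplicit false
open MeasureTheory ProbabilityTheory Set Metric Filter Topology
open scoped NNReal ENNReal

namespace Pool.Agent.Z55B

/-- paths in the plane -/
abbrev Pth : Type := C(ℝ≥0, ℂ)

noncomputable instance instMeasPth : MeasurableSpace Pth := borel _
instance instBorelPth : BorelSpace Pth := ⟨rfl⟩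

/-- the path restarted at time `t`, moved to the origin -/
noncomputable def rs (t : ℝ≥0) (x : Pth) : Pth :=
  ⟨fun s => x (t + s) - x t, by fun_prop⟩

/-- the path stopped at time `t` -/
noncomputable def stp (t : ℝ≥0) (x : Pth) : Pth :=
  ⟨fun s => x (min s t), by fun_prop⟩

/-- Brownian scaling -/
noncomputable def sc (h : ℝ) (x : Pth) : Pth :=
  ⟨fun s => ((1 / h : ℝ) : ℂ) * x (Real.toNNReal (h ^ 2) * s), by fun_prop⟩

/-- rotation -/
noncomputable def rot (c : ℂ) (x : Pth) : Pth :=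
  ⟨fun s => c * x s, by fun_prop⟩

/-- the path moved by `v` -/
noncomputable def mv (v : ℂ) (x : Pth) : Pth :=
  ⟨fun s => v + x s, by fun_prop⟩

/-- Wiener measure -/
structure IsW (μ : Measure Pth) : Prop where
  prob : IsProbabilityMeasure μ
  zero : ∀ᵐ x ∂μ, x 0 = 0
  re : IsPreBrownianReal (fun (t : ℝ≥0) (x : Pth) => (x t).re) μ
  im : IsPreBrownianReal (fun (t : ℝ≥0) (x : Pth) => (x t).im) μ
  ind : IndepFun (fun (x : Pth) (t : ℝ≥0) => (x t).re) (fun (x : Pth) (t : ℝ≥0) => (x t).im) μ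

/-! ### Piece A: laws -/

/-- A1: uniqueness of the law.  (The σ-algebra of `Pth` is generated by the evaluations:
`borel_eq_generateFrom_of_subbasis`, `ContinuousMap.compactOpen_eq`, second countability; the law on
`ℝ≥0 → ℝ` of one coordinate is unique, see `Pool.Agent.Helper56_LP.real_law`.) -/
def S_A1 : Prop := ∀ μ ν : Measure Pth, IsW μ → IsW ν → μ = ν

/-- A2: invariance under rotations (`IsGaussian.map_rotation_eq_self`). -/
def S_A2 : Prop := ∀ μ : Measure Pth, IsW μ → ∀ c : ℂ, ‖c‖ = 1 → IsW (μ.map (rot c))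

/-- A3: Brownian scaling (`IsPreBrownianReal.smul`). -/
def S_A3 : Prop := ∀ μ : Measure Pth, IsW μ → ∀ h : ℝ, 0 < h → IsW (μ.map (sc h))

/-- A4: the Markov property (`IsPreBrownianReal.shift`, `IsPreBrownianReal.indepFun_shift`, see also
`Pool.Agent.Helper56_LP.past_future`). -/
def S_A4 : Prop := ∀ μ : Measure Pth, IsW μ → ∀ t : ℝ≥0,
  IndepFun (stp t) (rs t) μ ∧ IsW (μ.map (rs t))

/-- the path of the frozen statement as a path in the plane, moved to the origin -/
noncomputable def pathOf {Ω : Type} (B : ℝ≥0 → Ω → ℝ × ℝ) (z : ℝ × ℝ)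
    (hc : ∀ ω, Continuous (fun u => B u ω)) (ω : Ω) : Pth :=
  ⟨fun u => ((⟨(B u ω).1 - z.1, (B u ω).2 - z.2⟩ : ℂ)), by
    have h := hc ω
    have h1 : Continuous fun u => (((B u ω).1 - z.1 : ℝ) : ℂ) +
        (((B u ω).2 - z.2 : ℝ) : ℂ) * Complex.I := by fun_prop
    refine h1.congr fun u => ?_
    apply Complex.ext <;> simp⟩

/-- A5: the process of the frozen statement has the law `IsW`. -/
def S_A5 : Prop :=
  ∀ (Ω : Type) [MeasurableSpace Ω] (P : Measure Ω) [IsProbabilityMeasure P]
    (B : ℝ≥0 → Ω → ℝ × ℝ) (z : ℝ × ℝ), (∀ u, Measurable (B u)) →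
    ∀ hc : (∀ ω, Continuous (fun u => B u ω)), (∀ ω, B 0 ω = z) →
    (∀ s t : ℝ≥0, s ≤ t →
        Measure.map (fun ω => B t ω - B s ω) P
            = (gaussianReal 0 (t - s)).prod (gaussianReal 0 (t - s)) ∧
        Indep (MeasurableSpace.comap (fun ω => B t ω - B s ω) inferInstance)
          (⨆ (u : ℝ≥0) (_ : u ≤ s), MeasurableSpace.comap (B u) inferInstance) P) →
    Measurable (pathOf B z hc) ∧ IsW (P.map (pathOf B z hc))

/-! ### Separation -/

/-- the path `y` does not meet `E` up to time `T` and one of its loops before time `T` separates two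
points of `E` -/
def SepT (E : Set ℂ) (T : ℝ≥0) (y : Pth) : Prop :=
  (∀ u ≤ T, y u ∉ E) ∧ ∃ s t : ℝ≥0, s < t ∧ t ≤ T ∧ y s = y t ∧ ∃ x ∈ E, ∃ x' ∈ E,
    connectedComponentIn (y '' Icc s t)ᶜ x ≠ connectedComponentIn (y '' Icc s t)ᶜ x'

/-- stable separation up to time `T`: all the paths close to `y` separate -/
def CertT (E : Set ℂ) (T : ℝ≥0) : Set Pth := interior {y : Pth | SepT E T y}

/-- stable separation -/
def Cert (E : Set ℂ) : Set Pth := ⋃ T : ℝ≥0, CertT E T

/-- the probability that the path started at `v` does not separate `E` in a stable way -/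
noncomputable def uu (μ : Measure Pth) (E : Set ℂ) (v : ℂ) : ℝ :=
  μ.real {x | mv v x ∉ Cert E}

/-! ### Piece B: the function `uu` -/

/-- B: `uu` is upper semicontinuous, has the sub-mean value property off `E`, and either vanishes off
`E` or has supremum `1` there. -/
def S_B : Prop := ∀ μ : Measure Pth, IsW μ → ∀ E : Set ℂ, IsCompact E →
  UpperSemicontinuous (uu μ E) ∧
  (∀ (v : ℂ) (ρ : ℝ), 0 < ρ → Disjoint (closedBall v ρ) E →
    uu μ E v ≤ Real.circleAverage (uu μ E) v ρ) ∧
  ((∃ v, v ∉ E ∧ 0 < uu μ E v) → ∀ ε : ℝ, 0 < ε → ∃ v, v ∉ E ∧ 1 - ε < uu μ E v)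

/-! ### Piece C: lattice loops are followed with positive probability -/

/-- the sum of the angles under which the steps of the chain `p` are seen from `e` -/
noncomputable def wn (p : ℕ → ℂ) (n : ℕ) (e : ℂ) : ℝ :=
  ∑ i ∈ Finset.range n, Complex.arg ((p (i + 1) - e) / (p i - e))

/-- a closed lattice path with `n` steps of length `h` based at `v`, far from `E`, which winds
differently around two points of `E` -/
structure Loop (E : Set ℂ) (v : ℂ) (h : ℝ) (n : ℕ) (p : ℕ → ℂ) : Prop where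
  start : p 0 = v
  fin : p n = v
  step : ∀ i < n, p (i + 1) - p i = h ∨ p (i + 1) - p i = -h ∨
    p (i + 1) - p i = h * Complex.I ∨ p (i + 1) - p i = -(h * Complex.I)
  far : ∀ i ≤ n, 15 * h ≤ infDist (p i) E
  sep : ∃ x ∈ E, ∃ y ∈ E, wn p n x ≠ wn p n y

/-- C: lower bound for the probability to separate near a lattice loop. -/
def S_C : Prop := ∀ N : ℕ, ∃ c : ℝ, 0 < c ∧ ∀ μ : Measure Pth, IsW μ →
  ∀ E : Set ℂ, IsCompact E → ∀ (v : ℂ) (h : ℝ) (n : ℕ) (p : ℕ → ℂ), 0 < h → n ≤ N →
    Loop E v h n p → c ≤ μ.real {x | mv v x ∈ Cert E}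

/-! ### Piece D: domains whose complement is not connected contain lattice loops -/

/-- the component of `v` in the set of points at distance more than `20 h` from `E` in the disc of
radius `r` about `v` -/
def Wd (E : Set ℂ) (v : ℂ) (h r : ℝ) : Set ℂ :=
  connectedComponentIn ({w | 20 * h < infDist w E} ∩ ball v r) v

/-- D: if the complement of the domain `Wd` is the disjoint union of two closed sets which both meet
`E`, then there is a lattice loop with a bounded number of steps. -/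
def S_D : Prop := ∀ R : ℝ, 0 < R → ∃ N : ℕ, ∀ (E : Set ℂ) (v : ℂ) (h : ℝ), IsClosed E → 0 < h →
  20 * h < infDist v E → ∀ A B : Set ℂ, IsClosed A → IsClosed B → Disjoint A B →
    A ∪ B = (Wd E v h (R * h))ᶜ → (A ∩ E).Nonempty → (B ∩ E).Nonempty →
    ∃ n ≤ N, ∃ p : ℕ → ℂ, Loop E v h n p

/-- H: every point off a nontrivial compact set of dimension less than one is the base point of a
lattice loop. -/
def S_H : Prop := ∀ E : Set ℂ, IsCompact E → E.Nontrivial → dimH E < 1 → ∀ v, v ∉ E →
  ∃ (h : ℝ) (n : ℕ) (p : ℕ → ℂ), 0 < h ∧ Loop E v h n p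

/-! ### Piece F: conformal invariance of the sub-mean value property -/

/-- F -/
def S_F : Prop := ∀ (E : Set ℂ) (u : ℂ → ℝ), IsClosed E → UpperSemicontinuous u →
  (∀ w, 0 ≤ u w ∧ u w ≤ 1) →
  (∀ (v : ℂ) (ρ : ℝ), 0 < ρ → Disjoint (closedBall v ρ) E → u v ≤ Real.circleAverage u v ρ) →
  ∀ f : ℂ → ℂ, DifferentiableOn ℂ f (ball 0 1) → InjOn f (ball 0 1) →
    (∀ z ∈ ball (0 : ℂ) 1, f z ∉ E) → ∀ r : ℝ, 0 < r → r < 1 →
    u (f 0) ≤ Real.circleAverage (fun z => u (f z)) 0 r

end Pool.Agent.Z55B
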