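import Mathlib
import Pool.Agent.Z55B.Stm

/-!
# Z55B, piece B, part 1: topology of path space and stable separation
-/

set_option autoImplicit false
open MeasureTheory ProbabilityTheory Set Metric Filter Topology
open scoped NNReal ENNReal

namespace Pool.Agent.Z55B

/-- the map `(v, x) ↦ v + x` is continuous -/
lemma continuous_mv : Continuous fun p : ℂ × Pth => mv p.1 p.2 := by
  refine ContinuousMap.continuous_of_continuous_uncurry _ ?_
  show Continuous fun q : (ℂ × Pth) × ℝ≥0 => q.1.1 + q.1.2 q.2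
  fun_prop

lemma continuous_mv_left (v : ℂ) : Continuous (mv v) :=
  continuous_mv.comp (by fun_prop : Continuous fun x : Pth => (v, x))

lemma continuous_rot (c : ℂ) : Continuous (rot c) := by
  refine ContinuousMap.continuous_of_continuous_uncurry _ ?_
  show Continuous fun q : Pth × ℝ≥0 => c * q.1 q.2
  fun_prop

lemma continuous_stp (t : ℝ≥0) : Continuous (stp t) := by
  refine ContinuousMap.continuous_of_continuous_uncurry _ ?_
  show Continuous fun q : Pth × ℝ≥0 => q.1 (min q.2 t)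
  fun_prop

lemma continuous_rs (t : ℝ≥0) : Continuous (rs t) := by
  refine ContinuousMap.continuous_of_continuous_uncurry _ ?_
  show Continuous fun q : Pth × ℝ≥0 => q.1 (t + q.2) - q.1 t
  fun_prop

/-- shift of a path by the time `t` -/
noncomputable def shf (t : ℝ≥0) (y : Pth) : Pth := ⟨fun s => y (t + s), by fun_prop⟩

lemma continuous_shf (t : ℝ≥0) : Continuous (shf t) := by
  refine ContinuousMap.continuous_of_continuous_uncurry _ ?_
  show Continuous fun q : Pth × ℝ≥0 => q.1 (t + q.2)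
  fun_prop

lemma shf_mv (t : ℝ≥0) (v : ℂ) (x : Pth) : shf t (mv v x) = mv (v + x t) (rs t x) := by
  ext s
  show v + x (t + s) = v + x t + (x (t + s) - x t)
  ring

/-- avoiding `E` up to time `t` -/
def Av (E : Set ℂ) (t : ℝ≥0) : Set Pth := {y | ∀ u ≤ t, y u ∉ E}

lemma isOpen_Av {E : Set ℂ} (hE : IsClosed E) (t : ℝ≥0) : IsOpen (Av E t) := by
  have h := ContinuousMap.isOpen_setOfPred_mapsTo (X := ℝ≥0) (Y := ℂ) (K := Icc 0 t) isCompact_Icc
    hE.isOpen_compl
  convert h using 1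
  ext y
  simp [Av, MapsTo]

lemma Av_mono {E : Set ℂ} {s t : ℝ≥0} (h : s ≤ t) : Av E t ⊆ Av E s :=
  fun _ hy u hu => hy u (hu.trans h)

lemma CertT_subset (E : Set ℂ) (T : ℝ≥0) : CertT E T ⊆ {y | SepT E T y} := interior_subset

lemma CertT_subset_Av (E : Set ℂ) (T : ℝ≥0) : CertT E T ⊆ Av E T :=
  fun _ hy => (CertT_subset E T hy).1

lemma isOpen_CertT (E : Set ℂ) (T : ℝ≥0) : IsOpen (CertT E T) := isOpen_interior

lemma isOpen_Cert (E : Set ℂ) : IsOpen (Cert E) := isOpen_iUnion fun T => isOpen_CertT E T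

/-- separation depends only on the path up to time `T` -/
lemma SepT_congr {E : Set ℂ} {T : ℝ≥0} {y y' : Pth} (h : ∀ u ≤ T, y u = y' u) :
    SepT E T y → SepT E T y' := by
  rintro ⟨h1, s, t, hst, htT, hy, x, hx, x', hx', hne⟩
  refine ⟨fun u hu => by rw [← h u hu]; exact h1 u hu, s, t, hst, htT, ?_, x, hx, x', hx', ?_⟩
  · rw [← h s (hst.le.trans htT), ← h t htT, hy]
  · have him : y '' Icc s t = y' '' Icc s t :=
      image_congr fun u hu => h u (hu.2.trans htT)
    rw [← him]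
    exact hne

/-- stable separation depends only on the path up to time `T` -/
lemma CertT_congr {E : Set ℂ} {T : ℝ≥0} {y y' : Pth} (h : ∀ u ≤ T, y u = y' u)
    (hy : y ∈ CertT E T) : y' ∈ CertT E T := by
  -- the map z ↦ y + (z - y') stopped at T
  set g : Pth → Pth := fun z => ⟨fun u => y u + (z (min u T) - y' (min u T)), by fun_prop⟩
    with hg
  have hgc : Continuous g := by
    refine ContinuousMap.continuous_of_continuous_uncurry _ ?_
    show Continuous fun q : Pth × ℝ≥0 => y q.2 + (q.1 (min q.2 T) - y' (min q.2 T))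
    fun_prop
  have hgy : g y' = y := by
    ext u
    show y u + (y' (min u T) - y' (min u T)) = y u
    ring
  have hopen : IsOpen (g ⁻¹' CertT E T) := (isOpen_CertT E T).preimage hgc
  refine mem_interior.2 ⟨g ⁻¹' CertT E T, ?_, hopen, ?_⟩
  · intro z hz
    refine SepT_congr (fun u hu => ?_) (CertT_subset E T hz)
    show y u + (z (min u T) - y' (min u T)) = z u
    rw [min_eq_left hu, h u hu]
    ring
  · show g y' ∈ CertT E T
    rw [hgy]
    exact hy

lemma mem_CertT_stp {E : Set ℂ} {T : ℝ≥0} {v : ℂ} {x : Pth} :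
    mv v (stp T x) ∈ CertT E T ↔ mv v x ∈ CertT E T := by
  have h : ∀ u ≤ T, mv v (stp T x) u = mv v x u := by
    intro u hu
    show v + x (min u T) = v + x u
    rw [min_eq_left hu]
  exact ⟨CertT_congr h, CertT_congr fun u hu => (h u hu).symm⟩

lemma SepT_mono {E : Set ℂ} {T T' : ℝ≥0} (hT : T ≤ T') {y : Pth} (h : SepT E T y)
    (ha : y ∈ Av E T') : SepT E T' y := by
  obtain ⟨_, s, t, hst, htT, hy, x, hx, x', hx', hne⟩ := h
  exact ⟨ha, s, t, hst, htT.trans hT, hy, x, hx, x', hx', hne⟩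

lemma CertT_mono {E : Set ℂ} (hE : IsClosed E) {T T' : ℝ≥0} (hT : T ≤ T') {y : Pth}
    (h : y ∈ CertT E T) (ha : y ∈ Av E T') : y ∈ CertT E T' := by
  refine mem_interior.2 ⟨CertT E T ∩ Av E T', ?_, (isOpen_CertT E T).inter (isOpen_Av hE T'),
    h, ha⟩
  rintro z ⟨hz, hz'⟩
  exact SepT_mono hT (CertT_subset E T hz) hz'

lemma SepT_shf {E : Set ℂ} {t T : ℝ≥0} {y : Pth} (ha : y ∈ Av E t) (h : SepT E T (shf t y)) :
    SepT E (t + T) y := by
  obtain ⟨h1, s, r, hsr, hrT, hy, x, hx, x', hx', hne⟩ := h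
  refine ⟨?_, t + s, t + r, by gcongr, by gcongr, hy, x, hx, x', hx', ?_⟩
  · intro u hu
    rcases le_total u t with hut | hut
    · exact ha u hut
    · have : u = t + (u - t) := (add_tsub_cancel_of_le hut).symm
      rw [this]
      exact h1 (u - t) (tsub_le_iff_left.2 hu)
  · have him : y '' Icc (t + s) (t + r) = shf t y '' Icc s r := by
      ext w
      constructor
      · rintro ⟨u, ⟨hu1, hu2⟩, rfl⟩
        have hut : t ≤ u := le_self_add.trans hu1
        refine ⟨u - t, ⟨?_, ?_⟩, ?_⟩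
        · exact (le_tsub_iff_left hut).2 hu1
        · exact tsub_le_iff_left.2 hu2
        · show y (t + (u - t)) = y u
          rw [add_tsub_cancel_of_le hut]
      · rintro ⟨u, ⟨hu1, hu2⟩, rfl⟩
        exact ⟨t + u, ⟨by gcongr, by gcongr⟩, rfl⟩
    rw [him]
    exact hne

lemma CertT_shf {E : Set ℂ} (hE : IsClosed E) {t T : ℝ≥0} {y : Pth} (ha : y ∈ Av E t)
    (h : shf t y ∈ CertT E T) : y ∈ CertT E (t + T) := by
  refine mem_interior.2 ⟨Av E t ∩ shf t ⁻¹' CertT E T, ?_,
    (isOpen_Av hE t).inter ((isOpen_CertT E T).preimage (continuous_shf t)), ha, h⟩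
  rintro z ⟨hz, hz'⟩
  exact SepT_shf hz (CertT_subset E T hz')

lemma Cert_shf {E : Set ℂ} (hE : IsClosed E) {t : ℝ≥0} {y : Pth} (ha : y ∈ Av E t)
    (h : shf t y ∈ Cert E) : y ∈ Cert E := by
  obtain ⟨T, hT⟩ := mem_iUnion.1 h
  exact mem_iUnion.2 ⟨t + T, CertT_shf hE ha hT⟩

/-! ### upper semicontinuity -/

/-- the probability not to separate, in `ℝ≥0∞` -/
noncomputable def uE (μ : Measure Pth) (E : Set ℂ) (v : ℂ) : ℝ≥0∞ := μ {x | mv v x ∉ Cert E}

lemma uu_eq (μ : Measure Pth) (E : Set ℂ) (v : ℂ) : uu μ E v = (uE μ E v).toReal := rfl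

lemma isClosed_not_Cert (E : Set ℂ) (v : ℂ) : IsClosed {x : Pth | mv v x ∉ Cert E} :=
  ((isOpen_Cert E).preimage (continuous_mv_left v)).isClosed_compl

lemma uE_le_one (μ : Measure Pth) [IsProbabilityMeasure μ] (E : Set ℂ) (v : ℂ) :
    uE μ E v ≤ 1 := prob_le_one

lemma uE_ne_top (μ : Measure Pth) [IsProbabilityMeasure μ] (E : Set ℂ) (v : ℂ) :
    uE μ E v ≠ ⊤ := measure_ne_top _ _

lemma usc_uE (μ : Measure Pth) [IsProbabilityMeasure μ] (E : Set ℂ) :
    UpperSemicontinuous (uE μ E) := by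
  intro v c hc
  set G : Set (ℂ × Pth) := (fun p : ℂ × Pth => mv p.1 p.2) ⁻¹' Cert E with hG
  have hGo : IsOpen G := (isOpen_Cert E).preimage continuous_mv
  set A : ℕ → Set Pth := fun n => {x | ∀ v' ∈ ball v (1 / ((n : ℝ) + 1)), (v', x) ∈ G} with hA
  have hAm : Monotone A := by
    intro m n hmn x hx v' hv'
    refine hx v' (ball_subset_ball ?_ hv')
    apply one_div_le_one_div_of_le (by positivity)
    have : (m : ℝ) ≤ n := by exact_mod_cast hmn
    linarith
  have hU : ⋃ n, A n = {x | (v, x) ∈ G} := by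
    ext x
    simp only [mem_iUnion, mem_ofPred_eq]
    constructor
    · rintro ⟨n, hn⟩
      exact hn v (mem_ball_self (by positivity))
    · intro hx
      have h1 : ∀ᶠ v' in 𝓝 v, (v', x) ∈ G := by
        have hc : Continuous fun v' : ℂ => (v', x) := by fun_prop
        exact hc.continuousAt.eventually (hGo.mem_nhds hx)
      obtain ⟨ε, hε, hb⟩ := Metric.eventually_nhds_iff_ball.1 h1
      obtain ⟨n, hn⟩ := exists_nat_one_div_lt hε
      exact ⟨n, fun v' hv' => hb v' (ball_subset_ball hn.le hv')⟩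
  have hm : ∀ w : ℂ, MeasurableSet {x : Pth | (w, x) ∈ G} := fun w =>
    ((isOpen_Cert E).preimage (continuous_mv_left w)).measurableSet
  have hcompl : ∀ w : ℂ, uE μ E w = 1 - μ {x | (w, x) ∈ G} := by
    intro w
    have : {x : Pth | mv w x ∉ Cert E} = {x : Pth | (w, x) ∈ G}ᶜ := rfl
    rw [uE, this, prob_compl_eq_one_sub (hm w)]
  have key : ∀ w : ℂ, 1 - c < μ {x | (w, x) ∈ G} → c ≤ 1 → uE μ E w < c := by
    intro w hw hc1
    by_contra hle
    push Not at hle
    rw [hcompl] at hle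
    have h1 : μ {x | (w, x) ∈ G} ≤ 1 := prob_le_one
    have h2 : c + μ {x | (w, x) ∈ G} ≤ 1 := by
      calc c + μ {x | (w, x) ∈ G} ≤ (1 - μ {x | (w, x) ∈ G}) + μ {x | (w, x) ∈ G} := by gcongr
        _ = 1 := tsub_add_cancel_of_le h1
    have h3 : μ {x | (w, x) ∈ G} ≤ 1 - c :=
      ENNReal.le_sub_of_add_le_left (ne_top_of_le_ne_top ENNReal.one_ne_top hc1) h2
    exact absurd hw (not_lt.2 h3)
  rcases lt_or_ge 1 c with hc1 | hc1
  · exact Eventually.of_forall fun w => (uE_le_one μ E w).trans_lt hc1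
  have hlt : 1 - c < μ {x | (v, x) ∈ G} := by
    rw [hcompl] at hc
    by_contra hle
    push Not at hle
    have : 1 - μ {x | (v, x) ∈ G} ≥ 1 - (1 - c) := tsub_le_tsub_left hle 1
    rw [ENNReal.sub_sub_cancel ENNReal.one_ne_top hc1] at this
    exact absurd hc (not_lt.2 this)
  rw [← hU, hAm.measure_iUnion] at hlt
  obtain ⟨n, hn⟩ := lt_iSup_iff.1 hlt
  filter_upwards [ball_mem_nhds v (show (0 : ℝ) < 1 / ((n : ℝ) + 1) by positivity)] with w hw
  refine key w (hn.trans_le (measure_mono ?_)) hc1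
  intro x hx
  exact hx w hw

lemma measurable_uE (μ : Measure Pth) [IsProbabilityMeasure μ] (E : Set ℂ) :
    Measurable (uE μ E) := (usc_uE μ E).measurable

lemma usc_uu (μ : Measure Pth) [IsProbabilityMeasure μ] (E : Set ℂ) :
    UpperSemicontinuous (uu μ E) := by
  intro v c hc
  rw [uu_eq] at hc
  have hc0 : 0 < c := ENNReal.toReal_nonneg.trans_lt hc
  have h1 : uE μ E v < ENNReal.ofReal c := by
    rwa [← ENNReal.lt_ofReal_iff_toReal_lt (uE_ne_top μ E v)] at hc
  filter_upwards [usc_uE μ E v _ h1] with w hw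
  rw [uu_eq]
  exact (ENNReal.lt_ofReal_iff_toReal_lt (uE_ne_top μ E w)).1 hw

end Pool.Agent.Z55B
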