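import Mathlib
import Pool.Agent.Z55B.B1

/-!
# Z55B, piece B, part 2: the Markov inequality at discrete stopping times
-/

set_option autoImplicit false
open MeasureTheory ProbabilityTheory Set Metric Filter Topology
open scoped NNReal ENNReal

namespace Pool.Agent.Z55B

lemma map_rs_eq (h1 : S_A1) (h4 : S_A4) {μ : Measure Pth} (hμ : IsW μ) (t : ℝ≥0) :
    μ.map (rs t) = μ := h1 _ _ (h4 μ hμ t).2 hμ

lemma map_rot_eq (h1 : S_A1) (h2 : S_A2) {μ : Measure Pth} (hμ : IsW μ) {c : ℂ} (hc : ‖c‖ = 1) :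
    μ.map (rot c) = μ := h1 _ _ (h2 μ hμ c hc) hμ

/-- one step of the Markov inequality -/
lemma markov_step (h1 : S_A1) (h4 : S_A4) {μ : Measure Pth} (hμ : IsW μ) {E : Set ℂ}
    (hE : IsClosed E) (v : ℂ) (t : ℝ≥0) {S : Set Pth} (hS : MeasurableSet S)
    (hSt : ∀ x, stp t x ∈ S ↔ x ∈ S) :
    μ (S ∩ {x | mv v x ∉ Cert E}) ≤ μ (S ∩ {x | mv v x ∉ Av E t}) +
      ∫⁻ x in S ∩ {x | mv v x ∉ CertT E t}, uE μ E (v + x t) ∂μ := by
  have := hμ.prob
  have hmst : Measurable (stp t) := (continuous_stp t).measurable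
  have hmrs : Measurable (rs t) := (continuous_rs t).measurable
  set Q : Set (Pth × Pth) := {p | (p.1 ∈ S ∧ mv v p.1 ∉ CertT E t) ∧
    mv (v + p.1 t) p.2 ∉ Cert E} with hQ
  set S' : Set Pth := S ∩ {x | mv v x ∉ CertT E t} with hS'
  have hmS' : MeasurableSet S' := hS.inter
    (((isOpen_CertT E t).preimage (continuous_mv_left v)).isClosed_compl).measurableSet
  have hQm : MeasurableSet Q := by
    have ha : MeasurableSet (Prod.fst ⁻¹' S' : Set (Pth × Pth)) := hmS'.preimage measurable_fst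
    have hb : MeasurableSet {p : Pth × Pth | mv (v + p.1 t) p.2 ∉ Cert E} := by
      have hc : Continuous fun p : Pth × Pth => mv (v + p.1 t) p.2 := by
        have : Continuous fun p : Pth × Pth => (v + p.1 t, p.2) := by fun_prop
        exact continuous_mv.comp this
      exact (((isOpen_Cert E).preimage hc).isClosed_compl).measurableSet
    exact ha.inter hb
  have hlaw : μ.map (fun x => (stp t x, rs t x)) = (μ.map (stp t)).prod μ := by
    rw [(indepFun_iff_map_prod_eq_prod_map_map hmst.aemeasurable hmrs.aemeasurable).1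
      (h4 μ hμ t).1, map_rs_eq h1 h4 hμ t]
  have hsub : S ∩ {x | mv v x ∉ Cert E} ⊆ (S ∩ {x | mv v x ∉ Av E t}) ∪
      (fun x => (stp t x, rs t x)) ⁻¹' Q := by
    rintro x ⟨hxS, hxC⟩
    by_cases hav : mv v x ∈ Av E t
    · right
      refine ⟨⟨(hSt x).2 hxS, fun hcon => ?_⟩, fun hcon => ?_⟩
      · exact hxC (mem_iUnion.2 ⟨t, mem_CertT_stp.1 hcon⟩)
      · have e1 : (stp t x) t = x t := by
          show x (min t t) = x t
          rw [min_self]
        simp only [e1] at hcon
        rw [← shf_mv] at hcon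
        exact hxC (Cert_shf hE hav hcon)
    · exact Or.inl ⟨hxS, hav⟩
  refine (measure_mono hsub).trans ((measure_union_le _ _).trans ?_)
  gcongr
  have hprodm : Measurable fun x => (stp t x, rs t x) := hmst.prodMk hmrs
  rw [← Measure.map_apply hprodm hQm, hlaw, Measure.prod_apply hQm]
  have hin : ∀ a : Pth, μ (Prod.mk a ⁻¹' Q) = S'.indicator (fun a => uE μ E (v + a t)) a := by
    intro a
    by_cases ha : a ∈ S'
    · rw [indicator_of_mem ha]
      have : Prod.mk a ⁻¹' Q = {x | mv (v + a t) x ∉ Cert E} := by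
        ext b
        exact ⟨fun h => h.2, fun h => ⟨ha, h⟩⟩
      rw [this]
      rfl
    · rw [indicator_of_notMem ha]
      have : Prod.mk a ⁻¹' Q = ∅ := by
        ext b
        exact ⟨fun h => absurd h.1 ha, fun h => absurd h (Set.notMem_empty _)⟩
      rw [this, measure_empty]
  simp_rw [hin]
  rw [lintegral_indicator hmS']
  have hmu : Measurable fun a : Pth => uE μ E (v + a t) := by
    refine (measurable_uE μ E).comp ?_
    have : Continuous fun a : Pth => v + a t := by fun_prop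
    exact this.measurable
  rw [setLIntegral_map hmS' hmu hmst]
  have hpre : stp t ⁻¹' S' = S' := by
    ext x
    show (stp t x ∈ S ∧ mv v (stp t x) ∉ CertT E t) ↔ (x ∈ S ∧ mv v x ∉ CertT E t)
    rw [hSt, mem_CertT_stp]
  rw [hpre]
  refine le_of_eq (lintegral_congr fun x => ?_)
  show uE μ E (v + x (min t t)) = _
  rw [min_self]

/-- grid times -/
noncomputable def gr (n k : ℕ) : ℝ≥0 := (k : ℝ≥0) / 2 ^ n

lemma gr_mono {n j k : ℕ} (h : j ≤ k) : gr n j ≤ gr n k := by
  unfold gr
  gcongr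

open Classical in
/-- first grid time at which the path `v + x` is in `F`, or `K` -/
noncomputable def NN (n K : ℕ) (F : Set ℂ) (v : ℂ) (x : Pth) : ℕ :=
  Nat.find (p := fun k => v + x (gr n k) ∈ F ∨ K ≤ k) ⟨K, Or.inr le_rfl⟩

lemma NN_le (n K : ℕ) (F : Set ℂ) (v : ℂ) (x : Pth) : NN n K F v x ≤ K := by
  classical
  exact Nat.find_min' _ (Or.inr le_rfl)

lemma NN_spec (n K : ℕ) (F : Set ℂ) (v : ℂ) (x : Pth) :
    v + x (gr n (NN n K F v x)) ∈ F ∨ K ≤ NN n K F v x := by
  classical
  exact Nat.find_spec (p := fun k => v + x (gr n k) ∈ F ∨ K ≤ k) ⟨K, Or.inr le_rfl⟩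

lemma NN_le_of_mem {n K : ℕ} {F : Set ℂ} {v : ℂ} {x : Pth} {k : ℕ} (h : v + x (gr n k) ∈ F) :
    NN n K F v x ≤ k := by
  classical
  exact Nat.find_min' _ (Or.inl h)

lemma not_mem_of_lt_NN {n K : ℕ} {F : Set ℂ} {v : ℂ} {x : Pth} {k : ℕ}
    (h : k < NN n K F v x) : v + x (gr n k) ∉ F := by
  classical
  have := Nat.find_min (p := fun k => v + x (gr n k) ∈ F ∨ K ≤ k) ⟨K, Or.inr le_rfl⟩ h
  push Not at this
  exact this.1

lemma NN_eq_iff {n K : ℕ} {F : Set ℂ} {v : ℂ} {x : Pth} {k : ℕ} :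
    NN n K F v x = k ↔ (v + x (gr n k) ∈ F ∨ K ≤ k) ∧ ∀ j < k, ¬ (v + x (gr n j) ∈ F ∨ K ≤ j) := by
  classical
  exact Nat.find_eq_iff _

lemma measurableSet_NN {n K : ℕ} {F : Set ℂ} (hF : MeasurableSet F) (v : ℂ) (k : ℕ) :
    MeasurableSet {x | NN n K F v x = k} := by
  have hm : ∀ j, MeasurableSet {x : Pth | v + x (gr n j) ∈ F ∨ K ≤ j} := by
    intro j
    have : Continuous fun a : Pth => v + a (gr n j) := by fun_prop
    exact (this.measurable hF).union (MeasurableSet.const _)
  have : {x | NN n K F v x = k} = {x : Pth | v + x (gr n k) ∈ F ∨ K ≤ k} ∩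
      ⋂ j, ⋂ (_ : j < k), {x : Pth | v + x (gr n j) ∈ F ∨ K ≤ j}ᶜ := by
    ext x
    simp only [mem_inter_iff, mem_iInter, mem_compl_iff]
    exact NN_eq_iff
  rw [this]
  exact (hm k).inter (MeasurableSet.iInter fun j => MeasurableSet.iInter fun _ => (hm j).compl)

lemma NN_stp {n K : ℕ} {F : Set ℂ} {v : ℂ} {k : ℕ} (x : Pth) :
    stp (gr n k) x ∈ {x | NN n K F v x = k} ↔ x ∈ {x | NN n K F v x = k} := by
  have h : ∀ j ≤ k, (stp (gr n k) x) (gr n j) = x (gr n j) := by
    intro j hj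
    show x (min (gr n j) (gr n k)) = _
    rw [min_eq_left (gr_mono hj)]
  show NN n K F v _ = k ↔ NN n K F v x = k
  rw [NN_eq_iff, NN_eq_iff, h k le_rfl]
  refine and_congr_right fun _ => forall_congr' fun j => ?_
  refine imp_congr_right fun hj => ?_
  rw [h j hj.le]

/-- the Markov inequality at the discrete stopping time `NN` -/
theorem markov_NN (h1 : S_A1) (h4 : S_A4) {μ : Measure Pth} (hμ : IsW μ) {E : Set ℂ}
    (hE : IsClosed E) (v : ℂ) (n K : ℕ) {F : Set ℂ} (hF : MeasurableSet F) :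
    uE μ E v ≤ μ {x | mv v x ∉ Av E (gr n (NN n K F v x))} +
      ∫⁻ x in {x | mv v x ∉ CertT E (gr n (NN n K F v x))},
        uE μ E (v + x (gr n (NN n K F v x))) ∂μ := by
  have := hμ.prob
  set S : ℕ → Set Pth := fun k => {x | NN n K F v x = k} with hS
  have hSm : ∀ k, MeasurableSet (S k) := fun k => measurableSet_NN hF v k
  have hSd : Pairwise (Function.onFun Disjoint S) := by
    intro i j hij
    refine Set.disjoint_left.2 fun x hx hx' => hij ?_
    exact (show NN n K F v x = i from hx).symm.trans hx'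
  have hdec : ∀ A : Set Pth, A = ⋃ k, S k ∩ A := by
    intro A
    ext x
    simp only [mem_iUnion, mem_inter_iff]
    exact ⟨fun h => ⟨NN n K F v x, rfl, h⟩, fun ⟨_, _, h⟩ => h⟩
  have hdisj : ∀ A : ℕ → Set Pth, Pairwise (Function.onFun Disjoint fun k => S k ∩ A k) := by
    intro A i j hij
    exact (hSd hij).mono inter_subset_left inter_subset_left
  have hCm : MeasurableSet {x : Pth | mv v x ∉ Cert E} := (isClosed_not_Cert E v).measurableSet
  have hAvm : ∀ t, MeasurableSet {x : Pth | mv v x ∉ Av E t} := fun t =>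
    (((isOpen_Av hE t).preimage (continuous_mv_left v)).isClosed_compl).measurableSet
  have hCTm : ∀ t, MeasurableSet {x : Pth | mv v x ∉ CertT E t} := fun t =>
    (((isOpen_CertT E t).preimage (continuous_mv_left v)).isClosed_compl).measurableSet
  have e1 : uE μ E v = ∑' k, μ (S k ∩ {x | mv v x ∉ Cert E}) := by
    rw [uE]
    conv_lhs => rw [hdec {x | mv v x ∉ Cert E}]
    exact measure_iUnion (hdisj _) fun k => (hSm k).inter hCm
  have e2 : μ {x | mv v x ∉ Av E (gr n (NN n K F v x))} =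
      ∑' k, μ (S k ∩ {x | mv v x ∉ Av E (gr n k)}) := by
    rw [← measure_iUnion (hdisj _) fun k => (hSm k).inter (hAvm _)]
    congr 1
    ext x
    simp only [mem_iUnion]
    constructor
    · intro h
      exact ⟨NN n K F v x, rfl, h⟩
    · rintro ⟨k, hk, h⟩
      rw [← (show NN n K F v x = k from hk)] at h
      exact h
  have e3 : ∫⁻ x in {x | mv v x ∉ CertT E (gr n (NN n K F v x))},
        uE μ E (v + x (gr n (NN n K F v x))) ∂μ =
      ∑' k, ∫⁻ x in S k ∩ {x | mv v x ∉ CertT E (gr n k)}, uE μ E (v + x (gr n k)) ∂μ := by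
    have hset : {x | mv v x ∉ CertT E (gr n (NN n K F v x))} =
        ⋃ k, S k ∩ {x | mv v x ∉ CertT E (gr n k)} := by
      ext x
      simp only [mem_iUnion]
      constructor
      · intro h
        exact ⟨NN n K F v x, rfl, h⟩
      · rintro ⟨k, hk, h⟩
        rw [← (show NN n K F v x = k from hk)] at h
        exact h
    rw [hset, lintegral_iUnion (fun k => (hSm k).inter (hCTm _)) (hdisj _)]
    refine tsum_congr fun k => ?_
    refine setLIntegral_congr_fun ((hSm k).inter (hCTm _)) fun x hx => ?_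
    have : NN n K F v x = k := hx.1
    simp only [this]
  rw [e1, e2, e3, ← ENNReal.tsum_add]
  exact ENNReal.tsum_le_tsum fun k => markov_step h1 h4 hμ hE v (gr n k) (hSm k) NN_stp

end Pool.Agent.Z55B
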