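import Mathlib
import Pool.Agent.Z55B.B2

/-!
# Z55B, piece B, part 3: sub-mean value property
-/

set_option autoImplicit false
open MeasureTheory ProbabilityTheory Set Metric Filter Topology
open scoped NNReal ENNReal

namespace Pool.Agent.Z55B

lemma gr_zero (n : ℕ) : gr n 0 = 0 := by simp [gr]

lemma gr_mul (n k : ℕ) : gr n (k * 2 ^ n) = k := by
  unfold gr
  push_cast
  field_simp

lemma gr_succ (n j : ℕ) : gr n (j + 1) = gr n j + 1 / 2 ^ n := by
  unfold gr
  push_cast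
  ring

/-- uniform continuity of a path on a bounded time interval, along the grids -/
lemma path_unif (x : Pth) (T : ℝ≥0) {ε : ℝ} (hε : 0 < ε) :
    ∀ᶠ n : ℕ in atTop, ∀ s t : ℝ≥0, s ≤ t → t ≤ T → t ≤ s + 1 / 2 ^ n → ‖x t - x s‖ < ε := by
  have huc := isCompact_Icc.uniformContinuousOn_of_continuous
    (s := Icc (0 : ℝ≥0) T) x.continuous.continuousOn
  rw [Metric.uniformContinuousOn_iff] at huc
  obtain ⟨δ, hδ, h⟩ := huc ε hε
  obtain ⟨N, hN⟩ := exists_pow_lt_of_lt_one hδ (show (1 / 2 : ℝ) < 1 by norm_num)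
  filter_upwards [eventually_ge_atTop N] with n hn s t hst htT hts
  rw [← dist_eq_norm]
  refine h t ⟨zero_le, htT⟩ s ⟨zero_le, hst.trans htT⟩ ?_
  rw [NNReal.dist_eq]
  have h1 : (s : ℝ) ≤ t := by exact_mod_cast hst
  have h2 : (t : ℝ) ≤ s + 1 / 2 ^ n := by exact_mod_cast hts
  have h3 : (1 / 2 : ℝ) ^ n ≤ (1 / 2 : ℝ) ^ N :=
    pow_le_pow_of_le_one (by norm_num) (by norm_num) hn
  have h4 : (1 / 2 : ℝ) ^ n = 1 / 2 ^ n := by rw [div_pow, one_pow]
  rw [abs_of_nonneg (by linarith)]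
  linarith

/-- the grid point before a time `s ≤ gr n N` -/
lemma grid_before {n N : ℕ} {s : ℝ≥0} (hN : 0 < N) (hs : s ≤ gr n N) :
    ∃ j < N, gr n j ≤ s ∧ s ≤ gr n j + 1 / 2 ^ n := by
  have hp : (0 : ℝ≥0) < 2 ^ n := by positivity
  rcases lt_or_ge s (gr n (N - 1)) with h | h
  · refine ⟨⌊s * 2 ^ n⌋₊, ?_, ?_, ?_⟩
    · rw [Nat.floor_lt zero_le]
      have h1 : s * 2 ^ n < ((N - 1 : ℕ) : ℝ≥0) := by
        unfold gr at h
        rwa [lt_div_iff₀ hp] at h
      refine h1.trans_le ?_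
      exact_mod_cast Nat.sub_le N 1
    · unfold gr
      rw [div_le_iff₀ hp]
      exact Nat.floor_le zero_le
    · rw [← gr_succ]
      unfold gr
      rw [le_div_iff₀ hp]
      push_cast
      exact (Nat.lt_floor_add_one (s * 2 ^ n)).le
  · refine ⟨N - 1, by omega, h, ?_⟩
    rw [← gr_succ, Nat.sub_add_cancel hN]
    exact hs

/-- position at the stopping time -/
noncomputable def XX (n K : ℕ) (F : Set ℂ) (v : ℂ) (x : Pth) : ℂ := x (gr n (NN n K F v x))

lemma measurable_NN {n K : ℕ} {F : Set ℂ} (hF : MeasurableSet F) (v : ℂ) :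
    Measurable (NN n K F v) :=
  measurable_to_countable' fun k => measurableSet_NN hF v k

lemma measurable_eval (t : ℝ≥0) : Measurable fun x : Pth => x t := by
  have : Continuous fun x : Pth => x t := by fun_prop
  exact this.measurable

lemma measurable_XX {n K : ℕ} {F : Set ℂ} (hF : MeasurableSet F) (v : ℂ) :
    Measurable (XX n K F v) := by
  have h : Measurable fun p : Pth × ℕ => p.1 (gr n p.2) :=
    measurable_from_prod_countable_left fun k => measurable_eval (gr n k)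
  exact h.comp (measurable_id.prodMk (measurable_NN hF v))

/-- complement of the open disc -/
def Fo (v : ℂ) (ρ : ℝ) : Set ℂ := {w | ρ ≤ ‖w - v‖}

lemma measurableSet_Fo (v : ℂ) (ρ : ℝ) : MeasurableSet (Fo v ρ) := by
  have : IsClosed (Fo v ρ) := isClosed_le continuous_const (by fun_prop)
  exact this.measurableSet

lemma mem_Fo {v : ℂ} {ρ : ℝ} {z : ℂ} : v + z ∈ Fo v ρ ↔ ρ ≤ ‖z‖ := by
  show ρ ≤ ‖v + z - v‖ ↔ _
  rw [add_sub_cancel_left]

lemma NN_rot {n K : ℕ} {v : ℂ} {ρ : ℝ} {c : ℂ} (hc : ‖c‖ = 1) (x : Pth) :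
    NN n K (Fo v ρ) v (rot c x) = NN n K (Fo v ρ) v x := by
  have h : ∀ j, (v + (rot c x) (gr n j) ∈ Fo v ρ) ↔ (v + x (gr n j) ∈ Fo v ρ) := by
    intro j
    rw [mem_Fo, mem_Fo]
    show ρ ≤ ‖c * x (gr n j)‖ ↔ _
    rw [norm_mul, hc, one_mul]
  rw [NN_eq_iff]
  have := (NN_eq_iff (n := n) (K := K) (F := Fo v ρ) (v := v) (x := x)).1 rfl
  refine ⟨?_, fun j hj => ?_⟩
  · rw [h]; exact this.1
  · rw [h]; exact this.2 j hj

lemma XX_rot {n K : ℕ} {v : ℂ} {ρ : ℝ} {c : ℂ} (hc : ‖c‖ = 1) (x : Pth) :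
    XX n K (Fo v ρ) v (rot c x) = c * XX n K (Fo v ρ) v x := by
  unfold XX
  rw [NN_rot hc]
  rfl

/-- the path property used in the limit -/
lemma path_exit {x : Pth} (hx0 : x 0 = 0) {ρ : ℝ} (hρ : 0 < ρ) {k0 : ℕ}
    (hk0 : ρ ≤ ‖x (k0 : ℝ≥0)‖) (v : ℂ) {ε : ℝ} (hε : 0 < ε) :
    ∀ᶠ n : ℕ in atTop, ρ ≤ ‖XX n (n * 2 ^ n) (Fo v ρ) v x‖ ∧
      ∀ s ≤ gr n (NN n (n * 2 ^ n) (Fo v ρ) v x), ‖x s‖ < ρ + ε := by
  filter_upwards [path_unif x k0 hε, eventually_ge_atTop k0] with n hn hnk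
  set N := NN n (n * 2 ^ n) (Fo v ρ) v x with hN
  have hmem : v + x (gr n (k0 * 2 ^ n)) ∈ Fo v ρ := by
    rw [mem_Fo, gr_mul]
    exact hk0
  have hNle : N ≤ k0 * 2 ^ n := NN_le_of_mem hmem
  have hgN : gr n N ≤ k0 := by
    rw [← gr_mul n k0]
    exact gr_mono hNle
  have hXmem : v + x (gr n N) ∈ Fo v ρ := by
    rcases NN_spec n (n * 2 ^ n) (Fo v ρ) v x with h | h
    · exact h
    · have h2 : k0 * 2 ^ n ≤ n * 2 ^ n := Nat.mul_le_mul_right _ hnk
      have h3 : N = k0 * 2 ^ n := le_antisymm hNle (h2.trans h)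
      rw [h3]
      exact hmem
  have hNpos : 0 < N := by
    rcases Nat.eq_zero_or_pos N with h | h
    · exfalso
      rw [h, gr_zero, hx0, mem_Fo, norm_zero] at hXmem
      linarith
    · exact h
  refine ⟨mem_Fo.1 hXmem, fun s hs => ?_⟩
  obtain ⟨j, hj, hjs, hsj⟩ := grid_before hNpos hs
  have h1 : ‖x (gr n j)‖ < ρ := by
    have := not_mem_of_lt_NN hj
    rw [mem_Fo] at this
    push Not at this
    exact this
  have h2 := hn (gr n j) s hjs (hs.trans hgN) hsj
  calc ‖x s‖ = ‖x (gr n j) + (x s - x (gr n j))‖ := by ring_nf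
    _ ≤ ‖x (gr n j)‖ + ‖x s - x (gr n j)‖ := norm_add_le _ _
    _ < ρ + ε := by linarith

/-- almost every path leaves the disc at an integer time -/
lemma ae_exit {μ : Measure Pth} (hμ : IsW μ) (ρ : ℝ) :
    ∀ᵐ x ∂μ, ∃ k : ℕ, ρ ≤ ‖x (k : ℝ≥0)‖ := by
  have := hμ.prob
  have hbound : ∀ k : ℕ, 0 < k → μ {x : Pth | ¬ ∃ k : ℕ, ρ ≤ ‖x (k : ℝ≥0)‖} ≤
      ENNReal.ofReal ((√(2 * Real.pi * k))⁻¹ * (2 * ρ)) := by
    intro k hk
    have hlaw := (hμ.re).hasLaw_eval (k : ℝ≥0)
    have hsub : {x : Pth | ¬ ∃ k : ℕ, ρ ≤ ‖x (k : ℝ≥0)‖} ⊆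
        (fun x : Pth => (x (k : ℝ≥0)).re) ⁻¹' Ioo (-ρ) ρ := by
      intro x hx
      have hx' : ∀ k : ℕ, ‖x (k : ℝ≥0)‖ < ρ := by
        intro k
        by_contra hcon
        exact hx ⟨k, not_lt.1 hcon⟩
      have h1 := (Complex.abs_re_le_norm (x (k : ℝ≥0))).trans_lt (hx' k)
      exact abs_lt.1 h1
    refine (measure_mono hsub).trans ?_
    have hm : Measurable fun x : Pth => (x (k : ℝ≥0)).re :=
      Complex.measurable_re.comp (measurable_eval _)
    rw [← Measure.map_apply hm measurableSet_Ioo, hlaw.map_eq,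
      gaussianReal_apply 0 (by exact_mod_cast hk.ne')]
    calc ∫⁻ x in Ioo (-ρ) ρ, gaussianPDF 0 (k : ℝ≥0) x
        ≤ ∫⁻ x in Ioo (-ρ) ρ, ENNReal.ofReal ((√(2 * Real.pi * k))⁻¹) := by
          refine lintegral_mono fun x => ?_
          unfold gaussianPDF gaussianPDFReal
          refine ENNReal.ofReal_le_ofReal ?_
          have h1 : Real.exp (-(x - 0) ^ 2 / (2 * ((k : ℝ≥0) : ℝ))) ≤ 1 := by
            rw [Real.exp_le_one_iff]
            apply div_nonpos_of_nonpos_of_nonneg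
            · nlinarith [sq_nonneg (x - 0)]
            · positivity
          have h2 : (0 : ℝ) ≤ (√(2 * Real.pi * ((k : ℝ≥0) : ℝ)))⁻¹ := by positivity
          calc _ ≤ (√(2 * Real.pi * ((k : ℝ≥0) : ℝ)))⁻¹ * 1 := by gcongr
            _ = _ := by rw [mul_one]; norm_cast
      _ = ENNReal.ofReal ((√(2 * Real.pi * k))⁻¹) * ENNReal.ofReal (2 * ρ) := by
          rw [setLIntegral_const, Real.volume_Ioo]
          congr 2
          ring
      _ = _ := (ENNReal.ofReal_mul (by positivity)).symm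
  have hlim : Tendsto (fun k : ℕ => ENNReal.ofReal ((√(2 * Real.pi * k))⁻¹ * (2 * ρ))) atTop
      (𝓝 0) := by
    rw [← ENNReal.ofReal_zero]
    refine ENNReal.tendsto_ofReal ?_
    rw [show (0 : ℝ) = 0 * (2 * ρ) by ring]
    refine Tendsto.mul_const _ ?_
    refine tendsto_inv_atTop_zero.comp ?_
    refine Real.tendsto_sqrt_atTop.comp ?_
    exact Tendsto.const_mul_atTop (by positivity) tendsto_natCast_atTop_atTop
  have hzero : μ {x : Pth | ¬ ∃ k : ℕ, ρ ≤ ‖x (k : ℝ≥0)‖} ≤ 0 := by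
    refine ge_of_tendsto hlim ?_
    filter_upwards [eventually_gt_atTop 0] with k hk using hbound k hk
  exact le_antisymm hzero zero_le

/-- average over the circle -/
noncomputable def cav (μ : Measure Pth) (E : Set ℂ) (v : ℂ) (r : ℝ) : ℝ≥0∞ :=
  ∫⁻ θ in Ioc (0 : ℝ) (2 * Real.pi), uE μ E (v + r * Complex.exp (θ * Complex.I))

lemma cav_rot (μ : Measure Pth) (E : Set ℂ) (v : ℂ) (z : ℂ) :
    ∫⁻ θ in Ioc (0 : ℝ) (2 * Real.pi), uE μ E (v + Complex.exp (θ * Complex.I) * z) =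
      cav μ E v ‖z‖ := by
  have : Fact (0 < 2 * Real.pi) := ⟨Real.two_pi_pos⟩
  set f : ℝ → ℝ≥0∞ := fun θ => uE μ E (v + ‖z‖ * Complex.exp (θ * Complex.I)) with hf
  have hper : Function.Periodic f (2 * Real.pi) := by
    intro θ
    simp only [hf]
    congr 3
    push_cast
    rw [add_mul]
    exact Complex.exp_periodic _
  have h1 : ∀ θ : ℝ, uE μ E (v + Complex.exp (θ * Complex.I) * z) = f (θ + Complex.arg z) := by
    intro θ
    simp only [hf]
    congr 2
    conv_lhs => rw [← Complex.norm_mul_exp_arg_mul_I z]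
    push_cast
    rw [add_mul, Complex.exp_add]
    ring
  simp_rw [h1]
  set F : AddCircle (2 * Real.pi) → ℝ≥0∞ := hper.lift with hF
  have h2 : ∀ θ : ℝ, F (θ : AddCircle (2 * Real.pi)) = f θ := fun θ => hper.lift_coe θ
  have h3 : ∫⁻ θ in Ioc (0 : ℝ) (2 * Real.pi), f (θ + Complex.arg z) =
      ∫⁻ b : AddCircle (2 * Real.pi), F (b + (Complex.arg z : ℝ)) := by
    rw [← AddCircle.lintegral_preimage (2 * Real.pi) 0]
    rw [zero_add]
    refine setLIntegral_congr_fun measurableSet_Ioc fun θ _ => ?_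
    show _ = F ((θ : AddCircle (2 * Real.pi)) + (Complex.arg z : ℝ))
    rw [← AddCircle.coe_add, h2]
  have h4 : cav μ E v ‖z‖ = ∫⁻ b : AddCircle (2 * Real.pi), F b := by
    rw [← AddCircle.lintegral_preimage (2 * Real.pi) 0]
    rw [zero_add]
    refine setLIntegral_congr_fun measurableSet_Ioc fun θ _ => ?_
    exact (h2 θ).symm
  rw [h3, h4]
  exact lintegral_add_right_eq_self F _

lemma cav_usc {μ : Measure Pth} [IsProbabilityMeasure μ] (E : Set ℂ) (v : ℂ) {r : ℕ → ℝ} {ρ : ℝ}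
    (hr : Tendsto r atTop (𝓝 ρ)) : limsup (fun n => cav μ E v (r n)) atTop ≤ cav μ E v ρ := by
  unfold cav
  have hm : ∀ a : ℝ, Measurable fun θ : ℝ => uE μ E (v + a * Complex.exp (θ * Complex.I)) := by
    intro a
    refine (measurable_uE μ E).comp ?_
    have : Continuous fun θ : ℝ => v + a * Complex.exp (θ * Complex.I) := by fun_prop
    exact this.measurable
  refine (limsup_lintegral_le (fun _ => 1) (fun n => hm _)
    (fun n => Eventually.of_forall fun θ => uE_le_one μ E _) ?_).trans ?_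
  · rw [lintegral_const, one_mul, Measure.restrict_apply_univ, Real.volume_Ioc]
    exact ENNReal.ofReal_ne_top
  · refine lintegral_mono fun θ => ?_
    set g : ℝ → ℂ := fun a => v + a * Complex.exp (θ * Complex.I) with hg
    have hgc : Continuous g := by fun_prop
    have h1 : Tendsto (fun n => g (r n)) atTop (𝓝 (g ρ)) := (hgc.tendsto ρ).comp hr
    have h2 : limsup (fun n => uE μ E (g (r n))) atTop ≤ limsup (uE μ E) (𝓝 (g ρ)) :=
      Tendsto.limsup_comp_le_limsup (u := uE μ E) h1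
    exact h2.trans (UpperSemicontinuousAt.limsup_le (usc_uE μ E (g ρ)))

/-- the sub-mean value property -/
theorem submean_uE (h1 : S_A1) (h2 : S_A2) (h4 : S_A4) {μ : Measure Pth} (hμ : IsW μ) {E : Set ℂ}
    (hE : IsClosed E) {v : ℂ} {ρ : ℝ} (hρ : 0 < ρ) (hd : Disjoint (closedBall v ρ) E) :
    ENNReal.ofReal (2 * Real.pi) * uE μ E v ≤ cav μ E v ρ := by
  have := hμ.prob
  set F : Set ℂ := Fo v ρ with hF
  have hFm : MeasurableSet F := measurableSet_Fo v ρ
  set N : ℕ → Pth → ℕ := fun n => NN n (n * 2 ^ n) F v with hN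
  set X : ℕ → Pth → ℂ := fun n => XX n (n * 2 ^ n) F v with hX
  have hXm : ∀ n, Measurable (X n) := fun n => measurable_XX hFm v
  -- the bad sets
  set B : ℕ → Set Pth := fun n => {x | mv v x ∉ Av E (gr n (N n x))} with hB
  have hAvm : ∀ t, MeasurableSet {x : Pth | mv v x ∉ Av E t} := fun t =>
    (((isOpen_Av hE t).preimage (continuous_mv_left v)).isClosed_compl).measurableSet
  have hBm : ∀ n, MeasurableSet (B n) := by
    intro n
    have : B n = ⋃ k, {x | N n x = k} ∩ {x | mv v x ∉ Av E (gr n k)} := by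
      ext x
      simp only [mem_iUnion]
      constructor
      · intro h
        exact ⟨N n x, rfl, h⟩
      · rintro ⟨k, hk, h⟩
        rw [← (show N n x = k from hk)] at h
        exact h
    rw [this]
    exact MeasurableSet.iUnion fun k => (measurableSet_NN hFm v k).inter (hAvm _)
  obtain ⟨δ, hδ, hδE⟩ : ∃ δ > 0, Disjoint (closedBall v (ρ + δ)) E := by
    obtain ⟨δ, hδ, hsub⟩ := (isCompact_closedBall v ρ).exists_cthickening_subset_open
      hE.isOpen_compl (disjoint_left.1 hd)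
    refine ⟨δ, hδ, ?_⟩
    rw [cthickening_closedBall hδ.le hρ.le] at hsub
    rw [add_comm]
    exact disjoint_left.2 fun a ha hb => hsub ha hb
  have hgood : ∀ᵐ x ∂μ, x 0 = 0 ∧ ∃ k : ℕ, ρ ≤ ‖x (k : ℝ≥0)‖ := by
    filter_upwards [hμ.zero, ae_exit hμ ρ] with x h h' using ⟨h, h'⟩
  have hB0 : Tendsto (fun n => μ (B n)) atTop (𝓝 0) := by
    rw [← measure_empty (μ := μ)]
    refine tendsto_measure_of_ae_tendsto_indicator_of_isFiniteMeasure (L := atTop)
      MeasurableSet.empty hBm ?_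
    filter_upwards [hgood] with x hx
    obtain ⟨hx0, k, hk⟩ := hx
    filter_upwards [path_exit hx0 hρ hk v hδ] with n hn
    simp only [Set.mem_empty_iff_false, iff_false]
    intro hcon
    apply hcon
    intro s hs
    have h3 := hn.2 s hs
    intro hmem
    refine disjoint_left.1 hδE ?_ hmem
    rw [mem_closedBall, dist_eq_norm]
    show ‖v + x s - v‖ ≤ _
    rw [add_sub_cancel_left]
    exact h3.le
  have hXlim : ∀ᵐ x ∂μ, Tendsto (fun n => ‖X n x‖) atTop (𝓝 ρ) := by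
    filter_upwards [hgood] with x hx
    obtain ⟨hx0, k, hk⟩ := hx
    rw [Metric.tendsto_atTop']
    intro ε hε
    obtain ⟨n0, hn0⟩ := eventually_atTop.1 (path_exit hx0 hρ hk v hε)
    refine ⟨n0, fun n hn => ?_⟩
    obtain ⟨h3, h4⟩ := hn0 n hn.le
    have h5 := h4 _ le_rfl
    rw [Real.dist_eq, abs_of_nonneg (by
      have : ρ ≤ ‖X n x‖ := h3
      linarith)]
    have : ‖X n x‖ < ρ + ε := h5
    linarith
  -- the rotation argument
  have hrot : ∀ n, ENNReal.ofReal (2 * Real.pi) * ∫⁻ x, uE μ E (v + X n x) ∂μ =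
      ∫⁻ x, cav μ E v ‖X n x‖ ∂μ := by
    intro n
    have hr1 : ∀ θ : ℝ, ∫⁻ x, uE μ E (v + X n x) ∂μ =
        ∫⁻ x, uE μ E (v + Complex.exp (θ * Complex.I) * X n x) ∂μ := by
      intro θ
      have hc : ‖Complex.exp (θ * Complex.I)‖ = 1 := Complex.norm_exp_ofReal_mul_I θ
      have hgm : Measurable fun x => uE μ E (v + X n x) :=
        (measurable_uE _ E).comp ((hXm n).const_add v)
      calc ∫⁻ x, uE μ E (v + X n x) ∂μ
          = ∫⁻ x, uE μ E (v + X n x) ∂(μ.map (rot (Complex.exp (θ * Complex.I)))) := by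
            rw [map_rot_eq h1 h2 hμ hc]
        _ = ∫⁻ x, uE μ E (v + X n (rot (Complex.exp (θ * Complex.I)) x)) ∂μ :=
            lintegral_map hgm (continuous_rot _).measurable
        _ = _ := by
            refine lintegral_congr fun x => ?_
            simp only [hX]
            rw [XX_rot hc]
    calc ENNReal.ofReal (2 * Real.pi) * ∫⁻ x, uE μ E (v + X n x) ∂μ
        = ∫⁻ θ in Ioc (0 : ℝ) (2 * Real.pi), ∫⁻ x, uE μ E (v + X n x) ∂μ := by
          rw [setLIntegral_const, Real.volume_Ioc, sub_zero, mul_comm]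
      _ = ∫⁻ θ in Ioc (0 : ℝ) (2 * Real.pi),
            ∫⁻ x, uE μ E (v + Complex.exp (θ * Complex.I) * X n x) ∂μ :=
          lintegral_congr fun θ => hr1 θ
      _ = ∫⁻ x, (∫⁻ θ in Ioc (0 : ℝ) (2 * Real.pi),
            uE μ E (v + Complex.exp (θ * Complex.I) * X n x)) ∂μ := by
          refine lintegral_lintegral_swap ?_
          refine Measurable.aemeasurable ?_
          refine (measurable_uE μ E).comp ?_
          have he : Continuous fun p : ℝ × Pth => Complex.exp (p.1 * Complex.I) := by fun_prop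
          exact (he.measurable.mul ((hXm n).comp measurable_snd)).const_add v
      _ = ∫⁻ x, cav μ E v ‖X n x‖ ∂μ := lintegral_congr fun x => cav_rot μ E v _
  -- the Markov inequality
  have hmk : ∀ n, uE μ E v ≤ μ (B n) + ∫⁻ x, uE μ E (v + X n x) ∂μ := by
    intro n
    exact (markov_NN h1 h4 hμ hE v n (n * 2 ^ n) hFm).trans
      (add_le_add le_rfl (setLIntegral_le_lintegral _ _))
  have hmk2 : ∀ n, ENNReal.ofReal (2 * Real.pi) * uE μ E v ≤
      ENNReal.ofReal (2 * Real.pi) * μ (B n) + ∫⁻ x, cav μ E v ‖X n x‖ ∂μ := by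
    intro n
    rw [← hrot n, ← mul_add]
    gcongr
    exact hmk n
  have hcavle : ∀ r, cav μ E v r ≤ ENNReal.ofReal (2 * Real.pi) := by
    intro r
    unfold cav
    calc _ ≤ ∫⁻ θ in Ioc (0 : ℝ) (2 * Real.pi), 1 := lintegral_mono fun θ => uE_le_one μ E _
      _ = _ := by rw [setLIntegral_const, Real.volume_Ioc, sub_zero, one_mul]
  have hcavm : Measurable (cav μ E v) := by
    unfold cav
    refine Measurable.lintegral_prod_right' (f := fun p : ℝ × ℝ =>
      uE μ E (v + p.1 * Complex.exp (p.2 * Complex.I))) ?_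
    refine (measurable_uE μ E).comp ?_
    have he : Continuous fun p : ℝ × ℝ => v + p.1 * Complex.exp (p.2 * Complex.I) := by fun_prop
    exact he.measurable
  have hlims : limsup (fun n => ∫⁻ x, cav μ E v ‖X n x‖ ∂μ) atTop ≤ cav μ E v ρ := by
    refine (limsup_lintegral_le (fun _ => ENNReal.ofReal (2 * Real.pi))
      (fun n => hcavm.comp (hXm n).norm) (fun n => Eventually.of_forall fun x => hcavle _)
      ?_).trans ?_
    · rw [lintegral_const, measure_univ, mul_one]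
      exact ENNReal.ofReal_ne_top
    · calc ∫⁻ x, limsup (fun n => cav μ E v ‖X n x‖) atTop ∂μ ≤ ∫⁻ x, cav μ E v ρ ∂μ := by
            refine lintegral_mono_ae ?_
            filter_upwards [hXlim] with x hx using cav_usc E v hx
        _ = cav μ E v ρ := by rw [lintegral_const, measure_univ, mul_one]
  have hlimB : Tendsto (fun n => ENNReal.ofReal (2 * Real.pi) * μ (B n)) atTop (𝓝 0) := by
    rw [show (0 : ℝ≥0∞) = ENNReal.ofReal (2 * Real.pi) * 0 by rw [mul_zero]]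
    exact ENNReal.Tendsto.const_mul hB0 (Or.inr ENNReal.ofReal_ne_top)
  refine ENNReal.le_of_forall_pos_le_add fun ε hε _ => ?_
  have hε' : (0 : ℝ≥0∞) < (ε : ℝ≥0∞) / 2 := by
    apply ENNReal.div_pos
    · exact_mod_cast hε.ne'
    · exact ENNReal.ofNat_ne_top
  by_cases htop : cav μ E v ρ = ⊤
  · rw [htop]; simp
  have h5 : ∀ᶠ n in atTop, ∫⁻ x, cav μ E v ‖X n x‖ ∂μ < cav μ E v ρ + (ε : ℝ≥0∞) / 2 := by
    refine eventually_lt_of_limsup_lt (hlims.trans_lt ?_)
    exact ENNReal.lt_add_right htop hε'.ne'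
  have h6 : ∀ᶠ n in atTop, ENNReal.ofReal (2 * Real.pi) * μ (B n) < (ε : ℝ≥0∞) / 2 :=
    hlimB.eventually_lt_const hε'
  obtain ⟨n, hn5, hn6⟩ := (h5.and h6).exists
  calc ENNReal.ofReal (2 * Real.pi) * uE μ E v ≤ _ := hmk2 n
    _ ≤ (ε : ℝ≥0∞) / 2 + (cav μ E v ρ + (ε : ℝ≥0∞) / 2) := by gcongr
    _ = cav μ E v ρ + ((ε : ℝ≥0∞) / 2 + (ε : ℝ≥0∞) / 2) := by ring
    _ = cav μ E v ρ + ε := by rw [ENNReal.add_halves]

theorem submean_uu (h1 : S_A1) (h2 : S_A2) (h4 : S_A4) {μ : Measure Pth} (hμ : IsW μ) {E : Set ℂ}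
    (hE : IsClosed E) {v : ℂ} {ρ : ℝ} (hρ : 0 < ρ) (hd : Disjoint (closedBall v ρ) E) :
    uu μ E v ≤ Real.circleAverage (uu μ E) v ρ := by
  have := hμ.prob
  have h := submean_uE h1 h2 h4 hμ hE hρ hd
  have hm : Measurable fun θ : ℝ => uE μ E (v + ρ * Complex.exp (θ * Complex.I)) := by
    refine (measurable_uE μ E).comp ?_
    have : Continuous fun θ : ℝ => v + ρ * Complex.exp (θ * Complex.I) := by fun_prop
    exact this.measurable
  have hint : ∫ θ in (0 : ℝ)..2 * Real.pi, uu μ E (circleMap v ρ θ) = (cav μ E v ρ).toReal := by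
    rw [intervalIntegral.integral_of_le Real.two_pi_pos.le]
    unfold cav
    rw [← integral_toReal hm.aemeasurable
      (Eventually.of_forall fun θ => (uE_ne_top μ E _).lt_top)]
    rfl
  have hfin : cav μ E v ρ ≠ ⊤ := by
    unfold cav
    have h5 : ∫⁻ θ in Ioc (0 : ℝ) (2 * Real.pi), uE μ E (v + ρ * Complex.exp (θ * Complex.I)) ≤
        ENNReal.ofReal (2 * Real.pi) := by
      calc _ ≤ ∫⁻ θ in Ioc (0 : ℝ) (2 * Real.pi), 1 := lintegral_mono fun θ => uE_le_one μ E _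
        _ = _ := by rw [setLIntegral_const, Real.volume_Ioc, sub_zero, one_mul]
    exact ne_top_of_le_ne_top ENNReal.ofReal_ne_top h5
  have h6 := ENNReal.toReal_mono hfin h
  rw [ENNReal.toReal_mul, ENNReal.toReal_ofReal Real.two_pi_pos.le, ← hint] at h6
  rw [Real.circleAverage_def, smul_eq_mul, uu_eq]
  rw [← div_eq_inv_mul, le_div_iff₀ Real.two_pi_pos, mul_comm]
  exact h6

end Pool.Agent.Z55B
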