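import Mathlib
import Pool.Agent.Z55B.B3

/-!
# Z55B, piece B: the function `uu`
-/

set_option autoImplicit false
open MeasureTheory ProbabilityTheory Set Metric Filter Topology
open scoped NNReal ENNReal

namespace Pool.Agent.Z55B

/-- neighbourhood of `E` -/
def Fm (E : Set ℂ) (m : ℕ) : Set ℂ := {w | infDist w E ≤ 1 / ((m : ℝ) + 1)}

lemma measurableSet_Fm (E : Set ℂ) (m : ℕ) : MeasurableSet (Fm E m) := by
  have : IsClosed (Fm E m) := isClosed_le (continuous_infDist_pt E) continuous_const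
  exact this.measurableSet

/-- separated before time `m` and before coming `1/(m+1)`-close to `E` -/
def Gm (E : Set ℂ) (m : ℕ) : Set Pth :=
  ⋃ T : ℝ≥0, ⋃ (_ : T ≤ m), CertT E T ∩ {y | ∀ s ≤ T, 1 / ((m : ℝ) + 1) < infDist (y s) E}

lemma isOpen_Gm (E : Set ℂ) (m : ℕ) : IsOpen (Gm E m) := by
  refine isOpen_iUnion fun T => isOpen_iUnion fun _ => (isOpen_CertT E T).inter ?_
  have ho : IsOpen {w : ℂ | 1 / ((m : ℝ) + 1) < infDist w E} :=
    isOpen_lt continuous_const (continuous_infDist_pt E)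
  have h := ContinuousMap.isOpen_setOfPred_mapsTo (X := ℝ≥0) (Y := ℂ) (K := Icc 0 T)
    isCompact_Icc ho
  convert h using 1
  ext y
  simp [MapsTo]

lemma Cert_eventually_Gm {E : Set ℂ} (hE : IsClosed E) {y : Pth} (hy : y ∈ Cert E) :
    ∀ᶠ m : ℕ in atTop, y ∈ Gm E m := by
  obtain ⟨T, hT⟩ := mem_iUnion.1 hy
  obtain ⟨hav, _, _, _, _, _, e, he, _⟩ := CertT_subset E T hT
  have hne : E.Nonempty := ⟨e, he⟩
  have hcont : ContinuousOn (fun s : ℝ≥0 => infDist (y s) E) (Icc 0 T) :=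
    ((continuous_infDist_pt E).comp y.continuous).continuousOn
  obtain ⟨s0, hs0, hmin⟩ := isCompact_Icc.exists_isMinOn (nonempty_Icc.2 (zero_le : 0 ≤ T)) hcont
  have hpos : 0 < infDist (y s0) E :=
    (hE.notMem_iff_infDist_pos hne).1 (hav s0 hs0.2)
  obtain ⟨m0, hm0⟩ := exists_nat_one_div_lt hpos
  obtain ⟨m1, hm1⟩ := exists_nat_ge T
  filter_upwards [eventually_ge_atTop (max m0 m1)] with m hm
  have hTm : T ≤ m := hm1.trans (by exact_mod_cast (le_max_right m0 m1).trans hm)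
  refine mem_iUnion.2 ⟨T, mem_iUnion.2 ⟨hTm, hT, fun s hs => ?_⟩⟩
  have h1 : infDist (y s0) E ≤ infDist (y s) E := hmin ⟨zero_le, hs⟩
  have h2 : 1 / ((m : ℝ) + 1) ≤ 1 / ((m0 : ℝ) + 1) := by
    apply one_div_le_one_div_of_le (by positivity)
    have : (m0 : ℝ) ≤ m := by exact_mod_cast (le_max_left m0 m1).trans hm
    linarith
  linarith

lemma Gm_CertT {E : Set ℂ} (hE : IsClosed E) {m n : ℕ} {v : ℂ} {x : Pth}
    (hG : mv v x ∈ Gm E m) (hav : mv v x ∈ Av E (gr n (NN n (m * 2 ^ n) (Fm E m) v x))) :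
    mv v x ∈ CertT E (gr n (NN n (m * 2 ^ n) (Fm E m) v x)) := by
  obtain ⟨T, hT⟩ := mem_iUnion.1 hG
  obtain ⟨hTm, hT1, hT2⟩ := mem_iUnion.1 hT
  refine CertT_mono hE ?_ hT1 hav
  rcases NN_spec n (m * 2 ^ n) (Fm E m) v x with h | h
  · by_contra hlt
    push Not at hlt
    have h1 := hT2 _ hlt.le
    exact absurd h (not_le.2 h1)
  · calc T ≤ m := hTm
      _ = gr n (m * 2 ^ n) := (gr_mul n m).symm
      _ ≤ _ := gr_mono h

lemma path_Av {E : Set ℂ} {v : ℂ} (hv : v ∉ E) {x : Pth} (hx0 : x 0 = 0) (m : ℕ) :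
    ∀ᶠ n : ℕ in atTop, mv v x ∈ Av E (gr n (NN n (m * 2 ^ n) (Fm E m) v x)) := by
  have hε : (0 : ℝ) < 1 / ((m : ℝ) + 1) := by positivity
  filter_upwards [path_unif x m hε] with n hn
  set N := NN n (m * 2 ^ n) (Fm E m) v x with hN
  have hgN : gr n N ≤ m := by
    rw [← gr_mul n m]
    exact gr_mono (NN_le _ _ _ _ _)
  intro s hs
  rcases Nat.eq_zero_or_pos N with h | h
  · rw [h, gr_zero] at hs
    have : s = 0 := le_antisymm hs zero_le
    rw [this]
    show v + x 0 ∉ E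
    rw [hx0, add_zero]
    exact hv
  · obtain ⟨j, hj, hjs, hsj⟩ := grid_before h hs
    have h1 : 1 / ((m : ℝ) + 1) < infDist (v + x (gr n j)) E := by
      have := not_mem_of_lt_NN hj
      unfold Fm at this
      simpa using this
    have h2 := hn (gr n j) s hjs (hs.trans hgN) hsj
    intro hmem
    have h3 := infDist_le_dist_of_mem (x := v + x (gr n j)) hmem
    have h4 : dist (v + x (gr n j)) ((mv v x) s) = ‖x s - x (gr n j)‖ := by
      show dist (v + x (gr n j)) (v + x s) = _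
      rw [dist_add_left, dist_comm, dist_eq_norm]
    rw [h4] at h3
    linarith

/-- the event that the path meets `E` before the stopping time -/
def Bm (E : Set ℂ) (v : ℂ) (m n : ℕ) : Set Pth :=
  {x | mv v x ∉ Av E (gr n (NN n (m * 2 ^ n) (Fm E m) v x))}

/-- the event that the path separates, but not before time `m` and `1/(m+1)`-far from `E` -/
def Rm (E : Set ℂ) (v : ℂ) (m : ℕ) : Set Pth := {x | mv v x ∈ Cert E ∧ mv v x ∉ Gm E m}

lemma measurableSet_bad {E : Set ℂ} (hE : IsClosed E) (v : ℂ) (n K : ℕ) {F : Set ℂ}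
    (hF : MeasurableSet F) : MeasurableSet {x | mv v x ∉ Av E (gr n (NN n K F v x))} := by
  have hAvm : ∀ t, MeasurableSet {x : Pth | mv v x ∉ Av E t} := fun t =>
    (((isOpen_Av hE t).preimage (continuous_mv_left v)).isClosed_compl).measurableSet
  have : {x | mv v x ∉ Av E (gr n (NN n K F v x))} = ⋃ k, {x | NN n K F v x = k} ∩
      {x | mv v x ∉ Av E (gr n k)} := by
    ext x
    simp only [mem_iUnion]
    constructor
    · intro h
      exact ⟨_, rfl, h⟩
    · rintro ⟨k, hk, h⟩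
      rw [← (show NN n K F v x = k from hk)] at h
      exact h
  rw [this]
  exact MeasurableSet.iUnion fun k => (measurableSet_NN hF v k).inter (hAvm _)

lemma measurableSet_Bm {E : Set ℂ} (hE : IsClosed E) (v : ℂ) (m n : ℕ) :
    MeasurableSet (Bm E v m n) :=
  measurableSet_bad hE v n (m * 2 ^ n) (measurableSet_Fm E m)

lemma measurableSet_Rm (E : Set ℂ) (v : ℂ) (m : ℕ) : MeasurableSet (Rm E v m) :=
  ((isOpen_Cert E).preimage (continuous_mv_left v)).measurableSet.inter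
    (((isOpen_Gm E m).preimage (continuous_mv_left v)).isClosed_compl).measurableSet

lemma tendsto_Bm {μ : Measure Pth} (hμ : IsW μ) {E : Set ℂ} (hE : IsClosed E) {v : ℂ}
    (hv : v ∉ E) (m : ℕ) : Tendsto (fun n => μ (Bm E v m n)) atTop (𝓝 0) := by
  have := hμ.prob
  have h0 : Tendsto (fun n => μ (Bm E v m n)) atTop (𝓝 (μ ∅)) := by
    refine tendsto_measure_of_ae_tendsto_indicator_of_isFiniteMeasure (L := atTop)
      MeasurableSet.empty (measurableSet_Bm hE v m) ?_
    filter_upwards [hμ.zero] with x hx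
    filter_upwards [path_Av hv hx m] with n hn
    simp only [Set.mem_empty_iff_false, iff_false]
    intro hcon
    exact hcon hn
  rwa [measure_empty] at h0

lemma tendsto_Rm {μ : Measure Pth} (hμ : IsW μ) {E : Set ℂ} (hE : IsClosed E) (v : ℂ) :
    Tendsto (fun m => μ (Rm E v m)) atTop (𝓝 0) := by
  have := hμ.prob
  have h0 : Tendsto (fun m => μ (Rm E v m)) atTop (𝓝 (μ ∅)) := by
    refine tendsto_measure_of_ae_tendsto_indicator_of_isFiniteMeasure (L := atTop)
      MeasurableSet.empty (measurableSet_Rm E v) ?_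
    refine Eventually.of_forall fun x => ?_
    by_cases hx : mv v x ∈ Cert E
    · filter_upwards [Cert_eventually_Gm hE hx] with m hm
      simp only [Set.mem_empty_iff_false, iff_false]
      exact fun hcon => hcon.2 hm
    · refine Eventually.of_forall fun m => ?_
      simp only [Set.mem_empty_iff_false, iff_false]
      exact fun hcon => hx hcon.1
  rwa [measure_empty] at h0

lemma dich_step (h1 : S_A1) (h4 : S_A4) {μ : Measure Pth} (hμ : IsW μ) {E : Set ℂ}
    (hE : IsClosed E) (v : ℂ) {M : ℝ≥0∞} (hMu : ∀ w, w ∉ E → uE μ E w ≤ M) (m n : ℕ) :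
    uE μ E v ≤ μ (Bm E v m n) +
      (M * (μ (Bm E v m n) + (uE μ E v + μ (Rm E v m))) + μ (Bm E v m n)) := by
  have := hμ.prob
  refine (markov_NN h1 h4 hμ hE v n (m * 2 ^ n) (measurableSet_Fm E m)).trans ?_
  refine add_le_add le_rfl ?_
  set S : Set Pth := {x | mv v x ∉ CertT E (gr n (NN n (m * 2 ^ n) (Fm E m) v x))} with hS
  have hsub : S ⊆ Bm E v m n ∪ ({x | mv v x ∉ Cert E} ∪ Rm E v m) := by
    intro x hx
    by_cases hav : mv v x ∈ Av E (gr n (NN n (m * 2 ^ n) (Fm E m) v x))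
    · right
      by_cases hC : mv v x ∈ Cert E
      · right
        exact ⟨hC, fun hG => hx (Gm_CertT hE hG hav)⟩
      · exact Or.inl hC
    · exact Or.inl hav
  have hSμ : μ S ≤ μ (Bm E v m n) + (uE μ E v + μ (Rm E v m)) := by
    refine (measure_mono hsub).trans ((measure_union_le _ _).trans ?_)
    exact add_le_add le_rfl (measure_union_le _ _)
  have hle : ∀ x, uE μ E (v + x (gr n (NN n (m * 2 ^ n) (Fm E m) v x))) ≤
      M + (Bm E v m n).indicator (fun _ => 1) x := by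
    intro x
    by_cases hx : v + x (gr n (NN n (m * 2 ^ n) (Fm E m) v x)) ∈ E
    · have : x ∈ Bm E v m n := fun hav => hav _ le_rfl hx
      rw [indicator_of_mem this]
      exact (uE_le_one μ E _).trans le_add_self
    · exact (hMu _ hx).trans le_self_add
  calc ∫⁻ x in S, uE μ E (v + x (gr n (NN n (m * 2 ^ n) (Fm E m) v x))) ∂μ
      ≤ ∫⁻ x in S, (M + (Bm E v m n).indicator (fun _ => 1) x) ∂μ := lintegral_mono hle
    _ = M * μ S + ∫⁻ x in S, (Bm E v m n).indicator (fun _ => 1) x ∂μ := by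
        rw [lintegral_add_left measurable_const, setLIntegral_const]
    _ ≤ M * μ S + μ (Bm E v m n) := by
        refine add_le_add le_rfl ((setLIntegral_le_lintegral _ _).trans ?_)
        rw [lintegral_indicator (measurableSet_Bm hE v m n), setLIntegral_const, one_mul]
    _ ≤ _ := add_le_add (mul_le_mul' le_rfl hSμ) le_rfl

/-- dichotomy -/
theorem dichotomy (h1 : S_A1) (h4 : S_A4) {μ : Measure Pth} (hμ : IsW μ) {E : Set ℂ}
    (hE : IsClosed E) {v : ℂ} (hv : v ∉ E) (hpos : 0 < uu μ E v) {ε : ℝ} (hε : 0 < ε) :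
    ∃ w, w ∉ E ∧ 1 - ε < uu μ E w := by
  have := hμ.prob
  by_contra hcon
  push Not at hcon
  -- reduce to `ε ≤ 1`
  have hε1 : ε ≤ 1 := by
    have h := hcon v hv
    linarith
  have hM0 : 0 ≤ 1 - ε := by linarith
  have hMu : ∀ w, w ∉ E → uE μ E w ≤ ENNReal.ofReal (1 - ε) := by
    intro w hw
    have h := hcon w hw
    rw [uu_eq] at h
    exact (ENNReal.le_ofReal_iff_toReal_le (uE_ne_top μ E w) hM0).2 h
  have hu0 : 0 ≤ uu μ E v := hpos.le
  have hu : uE μ E v = ENNReal.ofReal (uu μ E v) := by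
    rw [uu_eq, ENNReal.ofReal_toReal (uE_ne_top μ E v)]
  have hureal : ∀ δ : ℝ, 0 < δ → ε * uu μ E v ≤ 4 * δ := by
    intro δ hδ
    have hδ' : (0 : ℝ≥0∞) < ENNReal.ofReal δ := ENNReal.ofReal_pos.2 hδ
    obtain ⟨m, hm⟩ := ((tendsto_Rm hμ hE v).eventually_lt_const hδ').exists
    obtain ⟨n, hn⟩ := ((tendsto_Bm hμ hE hv m).eventually_lt_const hδ').exists
    have h5 : uE μ E v ≤ ENNReal.ofReal δ + (ENNReal.ofReal (1 - ε) *
        (ENNReal.ofReal δ + (uE μ E v + ENNReal.ofReal δ)) + ENNReal.ofReal δ) :=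
      (dich_step h1 h4 hμ hE v hMu m n).trans (add_le_add hn.le
        (add_le_add (mul_le_mul' le_rfl (add_le_add hn.le (add_le_add le_rfl hm.le))) hn.le))
    rw [hu, ← ENNReal.ofReal_add hu0 hδ.le, ← ENNReal.ofReal_add hδ.le (add_nonneg hu0 hδ.le),
      ← ENNReal.ofReal_mul hM0, ← ENNReal.ofReal_add
        (mul_nonneg hM0 (add_nonneg hδ.le (add_nonneg hu0 hδ.le))) hδ.le,
      ← ENNReal.ofReal_add hδ.le (add_nonneg
        (mul_nonneg hM0 (add_nonneg hδ.le (add_nonneg hu0 hδ.le))) hδ.le)] at h5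
    have h6 := (ENNReal.ofReal_le_ofReal_iff (add_nonneg hδ.le (add_nonneg
        (mul_nonneg hM0 (add_nonneg hδ.le (add_nonneg hu0 hδ.le))) hδ.le))).1 h5
    nlinarith
  have h7 := hureal (ε * uu μ E v / 8) (by positivity)
  have h8 : 0 < ε * uu μ E v := by positivity
  linarith

/-- **Piece B.** -/
theorem pB (h1 : S_A1) (h2 : S_A2) (h4 : S_A4) : S_B := by
  intro μ hμ E hE
  have := hμ.prob
  refine ⟨usc_uu μ E, fun v ρ hρ hd => submean_uu h1 h2 h4 hμ hE.isClosed hρ hd, ?_⟩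
  rintro ⟨v, hv, hpos⟩ ε hε
  exact dichotomy h1 h4 hμ hE.isClosed hv hpos hε

end Pool.Agent.Z55B
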