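import Pool.Agent.Z55B.CC
import Pool.Agent.Helper363_LBM.BM

/-!
# Piece C: lattice loops are followed with positive probability

`dense_nnrat`, `Fol.dense`, `Fol.ends`, `Fol.real` are copied from `Pool.Agent.Helper363_LBM.BMLoop`
(the import of that file is much heavier).
-/

set_option autoImplicit false
open MeasureTheory ProbabilityTheory Set Metric Filter Topology
open scoped NNReal ENNReal

namespace Pool.Agent.Z55B.CW

open Pool.Agent.Helper363_LBM

/-! ### From rational times to real times -/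

theorem dense_nnrat : DenseRange ((↑) : ℚ≥0 → ℝ≥0) := by
  rw [denseRange_iff_closure_range]
  refine eq_univ_of_forall fun x => ?_
  rw [mem_closure_iff_nhds_basis (Metric.nhds_basis_ball)]
  intro e he
  obtain ⟨p, hp1, hp2⟩ := exists_rat_btwn (show (x : ℝ) < x + e by linarith)
  have hp0 : (0 : ℚ) ≤ p := by
    have : (0 : ℝ) ≤ (p : ℝ) := x.2.trans hp1.le
    exact_mod_cast this
  obtain ⟨p', hp'⟩ : ∃ p' : ℚ≥0, (p' : ℚ) = p := ⟨⟨p, hp0⟩, rfl⟩
  refine ⟨(p' : ℝ≥0), mem_range_self _, ?_⟩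
  rw [Metric.mem_ball, NNReal.dist_eq]
  have e1 : ((p' : ℝ≥0) : ℝ) = (p : ℝ) := by
    rw [← hp', cast_eq']
    exact (Rat.cast_nnratCast p').symm
  rw [e1, abs_of_nonneg (by linarith)]
  linarith

theorem Fol_dense {δ : ℚ≥0} (hδ : 0 < δ) {η : ℝ} {v : ℕ → ℝ} {n : ℕ} {x : ℝ≥0 → ℝ}
    (hx : Continuous x) (h : Fol δ η v n x) {i : ℕ} (hi : i < n) {s : ℝ≥0} (hs : s ≤ δ) :
    |x (i * δ + s) - x (i * δ) - (s / δ : ℝ) * v i| ≤ η := by
  set A : Set ℝ≥0 := {s | |x (i * δ + s) - x (i * δ) - (s / δ : ℝ) * v i| ≤ η} with hA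
  have hclosed : IsClosed A := by
    refine isClosed_le ?_ continuous_const
    fun_prop
  have hδ' : (0 : ℝ≥0) < (δ : ℝ≥0) := by exact_mod_cast hδ
  have h1 := dense_nnrat.open_subset_closure_inter (isOpen_Iio (a := (δ : ℝ≥0)))
  have h2 : Iio (δ : ℝ≥0) ∩ range ((↑) : ℚ≥0 → ℝ≥0) ⊆ A := by
    rintro _ ⟨h3, ⟨q, rfl⟩⟩
    have h4 : (q : ℝ≥0) < δ := h3
    exact h i hi q (by exact_mod_cast h4.le)
  have h3 : closure (Iio (δ : ℝ≥0)) ⊆ A :=
    closure_minimal (h1.trans (closure_minimal h2 hclosed)) hclosed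
  have h4 : (Iio (δ : ℝ≥0)).Nonempty := ⟨0, hδ'⟩
  rw [closure_Iio' h4] at h3
  exact h3 hs

theorem Fol_ends {δ : ℚ≥0} (hδ : 0 < δ) {η : ℝ} {v : ℕ → ℝ} {n : ℕ} {x : ℝ≥0 → ℝ}
    (h0 : x 0 = 0) (h : Fol δ η v n x) (i : ℕ) (hi : i ≤ n) :
    |x (i * δ) - ∑ j ∈ Finset.range i, v j| ≤ i * η := by
  induction i with
  | zero =>
    simp [h0]
  | succ i ih =>
    have h1 := ih (by omega)
    have h2 := h i (by omega) δ le_rfl
    have hδ' : (δ : ℝ) ≠ 0 := by exact_mod_cast hδ.ne'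
    rw [div_self hδ', one_mul] at h2
    rw [Finset.sum_range_succ]
    have e1 : (((i + 1 : ℕ) : ℝ≥0) * (δ : ℝ≥0) : ℝ≥0) = i * δ + δ := by
      push_cast
      ring
    rw [e1]
    have e2 : x (i * δ + δ) - (∑ j ∈ Finset.range i, v j + v i) =
      (x (i * δ + δ) - x (i * δ) - v i) + (x (i * δ) - ∑ j ∈ Finset.range i, v j) := by ring
    rw [e2]
    refine (abs_add_le _ _).trans ?_
    push_cast
    linarith

theorem Fol_real {δ : ℚ≥0} (hδ : 0 < δ) {η : ℝ} {v : ℕ → ℝ} {n : ℕ} {x : ℝ≥0 → ℝ}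
    (hx : Continuous x) (h0 : x 0 = 0) (h : Fol δ η v n x) {i : ℕ} (hi : i < n) {r : ℝ≥0}
    (hr1 : (i : ℝ) ≤ r) (hr2 : (r : ℝ) ≤ i + 1) :
    |x (δ * r) - (∑ j ∈ Finset.range i, v j + (r - i) * v i)| ≤ (i + 1) * η := by
  have hδ' : (δ : ℝ) ≠ 0 := by exact_mod_cast hδ.ne'
  obtain ⟨r', hr'⟩ : ∃ r' : ℝ≥0, r = i + r' := by
    have : (i : ℝ≥0) ≤ r := by exact_mod_cast hr1
    exact exists_add_of_le this
  subst hr'
  have hr1' : (r' : ℝ) ≤ 1 := by
    push_cast at hr2
    linarith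
  have h1 := Fol_ends hδ h0 h i hi.le
  have h2 := Fol_dense hδ hx h hi (s := δ * r') (by
    calc (δ : ℝ≥0) * r' ≤ δ * 1 := mul_le_mul_of_nonneg_left (by exact_mod_cast hr1') bot_le
      _ = δ := mul_one _)
  have e1 : ((δ : ℝ≥0) * (i + r') : ℝ≥0) = i * δ + δ * r' := by ring
  have e2 : (((δ : ℝ≥0) * r' : ℝ≥0) : ℝ) / δ = r' := by
    rw [NNReal.coe_mul, cast_eq', mul_comm, mul_div_assoc, div_self hδ', mul_one]
  rw [e2] at h2
  rw [e1]
  have e3 : x (i * δ + δ * r') -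
      (∑ j ∈ Finset.range i, v j + (((i + r' : ℝ≥0) : ℝ) - i) * v i) =
      (x (i * δ + δ * r') - x (i * δ) - r' * v i) + (x (i * δ) - ∑ j ∈ Finset.range i, v j) := by
    push_cast
    ring
  rw [e3]
  refine (abs_add_le _ _).trans ?_
  linarith

/-! ### The tube is open -/

theorem isOpen_tube (n : ℕ) (u : ℕ → ℂ) : IsOpen {z : Pth | Tube n u z} := by
  have h : {z : Pth | Tube n u z} = ⋂ i ∈ Finset.range (n + 5), {z : Pth | MapsTo
      (z - (⟨fun r : ℝ≥0 => ∑ j ∈ Finset.range i, V n u j + (((r : ℝ) - i : ℝ) : ℂ) * V n u i,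
        by fun_prop⟩ : Pth)) (Icc (i : ℝ≥0) (i + 1)) (ball 0 (1 / 4))} := by
    ext z
    simp only [mem_ofPred_eq, mem_iInter, Finset.mem_range, Tube, MapsTo, mem_Icc, mem_ball,
      dist_zero_right, and_imp]
    refine forall₂_congr fun i _ => forall_congr' fun r => ?_
    have e1 : ((i : ℝ) ≤ r) ↔ ((i : ℝ≥0) ≤ r) := by exact_mod_cast Iff.rfl
    have e2 : ((r : ℝ) ≤ i + 1) ↔ (r ≤ (i : ℝ≥0) + 1) := by exact_mod_cast Iff.rfl
    rw [e1, e2]
    rfl
  rw [h]
  refine isOpen_biInter_finset fun i _ => ?_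
  have h1 : IsOpen {f : Pth | MapsTo f (Icc (i : ℝ≥0) (i + 1)) (ball 0 (1 / 4))} :=
    ContinuousMap.isOpen_setOfPred_mapsTo isCompact_Icc isOpen_ball
  exact h1.preimage (continuous_id.sub continuous_const)

/-- time change by a factor -/
noncomputable def tc (τ : ℝ≥0) (x : Pth) : Pth := x.comp ⟨fun r => τ * r, by fun_prop⟩

theorem continuous_tc (τ : ℝ≥0) : Continuous (tc τ) := ContinuousMap.continuous_precomp _

theorem continuous_sc (h : ℝ) : Continuous (sc h) := by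
  have h1 : sc h = fun x => (⟨fun z : ℂ => ((1 / h : ℝ) : ℂ) * z, by fun_prop⟩ : C(ℂ, ℂ)).comp
      (x.comp (⟨fun r => Real.toNNReal (h ^ 2) * r, by fun_prop⟩ : C(ℝ≥0, ℝ≥0))) := by
    funext x
    rfl
  rw [h1]
  exact (ContinuousMap.continuous_postcomp _).comp (ContinuousMap.continuous_precomp _)

theorem continuous_mv (v : ℂ) : Continuous (mv v) := by
  have h1 : mv v = fun x => (⟨fun z : ℂ => v + z, by fun_prop⟩ : C(ℂ, ℂ)).comp x := by
    funext x
    rfl
  rw [h1]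
  exact ContinuousMap.continuous_postcomp _

/-- the paths which, after scaling, follow the pattern, are certified -/
theorem cert_of_tube {E : Set ℂ} {v : ℂ} {h : ℝ} {n : ℕ} {p : ℕ → ℂ} (hh : 0 < h)
    (hl : Loop E v h n p) {δ : ℝ≥0} (hδ : 0 < δ) {x : Pth}
    (ht : Tube n (fun j => (p (j + 1) - p j) / h) (tc δ (sc h x))) : mv v x ∈ Cert E := by
  have hh2 : 0 < Real.toNNReal (h ^ 2) := Real.toNNReal_pos.2 (by positivity)
  set W : Set Pth := {y : Pth | Tube n (fun j => (p (j + 1) - p j) / h) (tc δ (sc h (mv (-v) y)))}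
    with hW
  have hWo : IsOpen W := (isOpen_tube n _).preimage
    ((continuous_tc δ).comp ((continuous_sc h).comp (continuous_mv (-v))))
  have hsub : W ⊆ {y : Pth | SepT E (Real.toNNReal (h ^ 2) * δ * (n + 5)) y} := by
    intro y hy
    apply sep_of_tube hh hl (mul_pos hh2 hδ)
    have e : (fun r : ℝ≥0 => (y (Real.toNNReal (h ^ 2) * δ * r) - v) / (h : ℂ)) =
        (tc δ (sc h (mv (-v) y)) : ℝ≥0 → ℂ) := by
      funext r
      show _ = ((1 / h : ℝ) : ℂ) * (-v + y (Real.toNNReal (h ^ 2) * (δ * r)))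
      rw [mul_assoc]
      push_cast
      ring
    rw [e]
    exact hy
  have hmem : mv v x ∈ W := by
    have e : mv (-v) (mv v x) = x := by
      ext r
      show -v + (v + x r) = x r
      ring
    show Tube n _ (tc δ (sc h (mv (-v) (mv v x))))
    rw [e]
    exact ht
  exact mem_iUnion.2 ⟨Real.toNNReal (h ^ 2) * δ * (n + 5), mem_interior.2 ⟨W, hsub, hWo, hmem⟩⟩

theorem Tube.congr {n : ℕ} {u u' : ℕ → ℂ} (h : ∀ j < n, u j = u' j) {z : ℝ≥0 → ℂ}
    (ht : Tube n u z) : Tube n u' z := by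
  have hV : V n u = V n u' := by
    funext i
    unfold V
    split_ifs with h1 h2 h3 h4 h5
    · rfl
    · rfl
    · exact h _ (by omega)
    · rfl
    · rfl
    · rfl
  intro i hi r hr0 hr1
  rw [← hV]
  exact ht i hi r hr0 hr1

/-! ### The probability of the tube -/

theorem tube_of_fol {n N : ℕ} (hn : n ≤ N) {u : ℕ → ℂ} {δ : ℚ≥0} (hδ : 0 < δ) {x : Pth}
    (h0 : x 0 = 0)
    (hre : Fol δ (1 / (16 * (N + 5))) (fun i => (V n u i).re) (n + 5) (fun t => (x t).re))
    (him : Fol δ (1 / (16 * (N + 5))) (fun i => (V n u i).im) (n + 5) (fun t => (x t).im)) :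
    Tube n u (tc δ x) := by
  intro i hi r hr0 hr1
  have cre : Continuous (fun t => (x t).re) := Complex.continuous_re.comp x.continuous
  have cim : Continuous (fun t => (x t).im) := Complex.continuous_im.comp x.continuous
  have a1 := Fol_real hδ cre (by rw [h0]; rfl) hre hi hr0 hr1
  have a2 := Fol_real hδ cim (by rw [h0]; rfl) him hi hr0 hr1
  have hi' : ((i : ℝ) + 1) * (1 / (16 * (N + 5))) ≤ 1 / 16 := by
    have h1 : (i : ℝ) + 1 ≤ N + 5 := by
      have : i + 1 ≤ N + 5 := by omega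
      exact_mod_cast this
    rw [mul_one_div, div_le_div_iff₀ (by positivity) (by norm_num)]
    linarith
  have hN : Complex.re (tc δ x r - (∑ j ∈ Finset.range i, V n u j +
      (((r : ℝ) - i : ℝ) : ℂ) * V n u i)) =
      (x (δ * r)).re - (∑ j ∈ Finset.range i, (V n u j).re + (r - i) * (V n u i).re) := by
    rw [Complex.sub_re, Complex.add_re, Complex.re_sum, Complex.re_ofReal_mul]
    rfl
  have hM : Complex.im (tc δ x r - (∑ j ∈ Finset.range i, V n u j +
      (((r : ℝ) - i : ℝ) : ℂ) * V n u i)) =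
      (x (δ * r)).im - (∑ j ∈ Finset.range i, (V n u j).im + (r - i) * (V n u i).im) := by
    rw [Complex.sub_im, Complex.add_im, Complex.im_sum, Complex.im_ofReal_mul]
    rfl
  refine (Complex.norm_le_abs_re_add_abs_im _).trans_lt ?_
  rw [hN, hM]
  linarith

theorem prob_tube {μ : Measure Pth} (hμ : IsW μ) (N : ℕ) : ∃ δ : ℚ≥0, 0 < δ ∧
    ∀ n ≤ N, ∀ u : ℕ → ℂ, 0 < μ {x | Tube n u (tc δ x)} := by
  have := hμ.prob
  have hη : (0 : ℝ) < 1 / (16 * (N + 5)) := by positivity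
  have hB : IsBrownianReal (fun (t : ℝ≥0) (x : Pth) => (x t).re) μ :=
    { toIsPreBrownianReal := hμ.re
      cont := Eventually.of_forall fun x => Complex.continuous_re.comp x.continuous }
  obtain ⟨δ, hδ, h1⟩ := exists_short hB (η := 1 / (16 * (N + 5)) / 4) (by positivity)
  have h2 : 0 < μ {x : Pth | Sh δ (1 / (16 * (N + 5)) / 4) (fun t => (x t).im)} := by
    rw [prob_Sh_eq hμ.im hμ.re]
    exact h1
  refine ⟨δ, hδ, fun n hn u => ?_⟩
  have h3 := prob_Fol hδ hη (n + 5) hμ.re h1 (fun i => (V n u i).re)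
  have h4 := prob_Fol hδ hη (n + 5) hμ.im h2 (fun i => (V n u i).im)
  have h5 := hμ.ind.measure_inter_preimage_eq_mul _ _
    (meas_Fol δ (1 / (16 * (N + 5))) (fun i => (V n u i).re) (n + 5))
    (meas_Fol δ (1 / (16 * (N + 5))) (fun i => (V n u i).im) (n + 5))
  have h6 : 0 < μ ((fun (x : Pth) (t : ℝ≥0) => (x t).re) ⁻¹'
      {x | Fol δ (1 / (16 * (N + 5))) (fun i => (V n u i).re) (n + 5) x} ∩
      (fun (x : Pth) (t : ℝ≥0) => (x t).im) ⁻¹'
      {x | Fol δ (1 / (16 * (N + 5))) (fun i => (V n u i).im) (n + 5) x}) := by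
    rw [h5]
    exact ENNReal.mul_pos h3.ne' h4.ne'
  refine h6.trans_le (measure_mono_ae ?_)
  filter_upwards [hμ.zero] with x hx hx'
  exact tube_of_fol hn hδ hx hx'.1 hx'.2

/-- the four directions -/
noncomputable def dir : Fin 4 → ℂ := ![1, -1, Complex.I, -Complex.I]

/-- a finite list of directions as a sequence -/
noncomputable def seq {N : ℕ} (f : Fin N → Fin 4) (j : ℕ) : ℂ :=
  if hj : j < N then dir (f ⟨j, hj⟩) else 0

/-- **Piece C.** -/
theorem pC (hA1 : S_A1) (hA3 : S_A3) : S_C := by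
  intro N
  by_cases hex : ∃ μ : Measure Pth, IsW μ
  · obtain ⟨μ₀, hμ₀⟩ := hex
    have := hμ₀.prob
    obtain ⟨δ, hδ, hpos⟩ := prob_tube hμ₀ N
    have hδ' : (0 : ℝ≥0) < (δ : ℝ≥0) := by exact_mod_cast hδ
    obtain ⟨i₀, hi₀⟩ := Finite.exists_min
      (fun q : Fin (N + 1) × (Fin N → Fin 4) => μ₀.real {x | Tube q.1 (seq q.2) (tc δ x)})
    refine ⟨μ₀.real {x | Tube i₀.1 (seq i₀.2) (tc δ x)}, ?_, ?_⟩
    · exact ENNReal.toReal_pos (hpos _ (by omega) _).ne' (measure_ne_top _ _)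
    · intro μ hμ E hE v h n p hh hn hl
      have := hμ.prob
      have hmap : μ.map (sc h) = μ₀ := hA1 _ _ (hA3 μ hμ h hh) hμ₀
      set u : ℕ → ℂ := fun j => (p (j + 1) - p j) / h with hu
      have hhc : (h : ℂ) ≠ 0 := by exact_mod_cast hh.ne'
      -- the pattern of the loop
      have hdir : ∀ j < n, ∃ d : Fin 4, u j = dir d := by
        intro j hj
        rcases hl.step j hj with h1 | h1 | h1 | h1
        · refine ⟨0, ?_⟩
          rw [hu]
          simp only
          rw [h1, div_self hhc]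
          rfl
        · refine ⟨1, ?_⟩
          rw [hu]
          simp only
          rw [h1, neg_div, div_self hhc]
          rfl
        · refine ⟨2, ?_⟩
          rw [hu]
          simp only
          rw [h1, mul_div_cancel_left₀ _ hhc]
          rfl
        · refine ⟨3, ?_⟩
          rw [hu]
          simp only
          rw [h1, neg_div, mul_div_cancel_left₀ _ hhc]
          rfl
      choose! d hd using hdir
      have h1 := hi₀ (⟨n, by omega⟩, fun j => d j)
      refine h1.trans ?_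
      have hO : IsOpen {x : Pth | Tube n (seq (fun j : Fin N => d j)) (tc δ x)} :=
        (isOpen_tube n _).preimage (continuous_tc _)
      have h2 : μ₀.real {x : Pth | Tube n (seq (fun j : Fin N => d j)) (tc δ x)} =
          μ.real (sc h ⁻¹' {x : Pth | Tube n (seq (fun j : Fin N => d j)) (tc δ x)}) := by
        rw [← hmap, map_measureReal_apply (continuous_sc h).measurable hO.measurableSet]
      show μ₀.real {x : Pth | Tube n (seq (fun j : Fin N => d j)) (tc δ x)} ≤ _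
      rw [h2]
      refine measureReal_mono ?_ (measure_ne_top _ _)
      intro x hx
      refine cert_of_tube hh hl hδ' (x := x) ?_
      refine Tube.congr (fun j hj => ?_) hx
      rw [seq, dif_pos (lt_of_lt_of_le hj hn), ← hd j hj]
  · exact ⟨1, one_pos, fun μ hμ => (hex ⟨μ, hμ⟩).elim⟩

end Pool.Agent.Z55B.CW
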