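import Pool.Agent.Z55B.D3

/-!
# Project Z55B, piece D (helper23): domains whose complement is not connected contain lattice loops
-/

set_option autoImplicit false
open Set Metric Filter Topology

namespace Pool.Agent.Z55B

section
variable {E : Set ℂ} {v : ℂ} {h : ℝ} {K : ℕ} {e e' : ℂ}

lemma pass_reach {R : ℝ} (hh : 0 < h) (hK : R + 3 ≤ K) {w w0 : ℂ} (h1 : 20 * h < infDist w E)
    (h2 : ‖w - v‖ < R * h) (hw : ‖w - w0‖ < h / 4)
    (hr : (Gr E v h K).Reachable (0, 0) (rd v h w0)) :
    (Gr E v h K).Reachable (0, 0) (rd v h w) := by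
  obtain ⟨c, hc1, hc2, -, -, -⟩ := rd_pass hh hK h1 h2 hw
  have hrc : (Gr E v h K).Reachable (0, 0) c := by
    rcases hc1 with rfl | hc1
    · exact hr
    · exact hr.trans hc1.reachable
  rcases hc2 with rfl | hc2
  · exact hrc
  · exact hrc.trans hc2.reachable

lemma pass_FF {R : ℝ} (hh : 0 < h) (hK : R + 3 ≤ K) {N : ℕ} (he : e ∈ E) (he' : e' ∈ E)
    (ho : Ok E v h K (0, 0)) (hno : NoSep E v h K N e e') (hN : 2 * (box K).card + 1 ≤ N)
    {w w0 : ℂ} (h1 : 20 * h < infDist w E)
    (h2 : ‖w - v‖ < R * h) (hw : ‖w - w0‖ < h / 4)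
    (hr : (Gr E v h K).Reachable (0, 0) (rd v h w0)) :
    FF E v h K e e' ho (rd v h w) w = FF E v h K e e' ho (rd v h w0) w := by
  obtain ⟨c, hc1, hc2, -, n2, n3⟩ := rd_pass hh hK h1 h2 hw
  have hrc : (Gr E v h K).Reachable (0, 0) c ∧
      FF E v h K e e' ho c w = FF E v h K e e' ho (rd v h w0) w := by
    rcases hc1 with rfl | hc1
    · exact ⟨hr, rfl⟩
    · exact ⟨hr.trans hc1.reachable, (FF_step hh he he' ho hno hN hc1 hr n2).symm⟩
  rw [← hrc.2]
  rcases hc2 with rfl | hc2
  · rfl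
  · exact (FF_step hh he he' ho hno hN hc2 hrc.1 n3).symm

lemma open_base {r : ℝ} : IsOpen ({w | 20 * h < infDist w E} ∩ ball v r) :=
  (isOpen_lt continuous_const (continuous_infDist_pt E)).inter isOpen_ball

lemma reach_all {R : ℝ} (hR : 0 < R) (hh : 0 < h) (hK : R + 3 ≤ K) (hv : 20 * h < infDist v E) :
    ∀ w ∈ Wd E v h (R * h), (Gr E v h K).Reachable (0, 0) (rd v h w) := by
  have hsub : Wd E v h (R * h) ⊆ {w | 20 * h < infDist w E} ∩ ball v (R * h) :=
    connectedComponentIn_subset _ _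
  have hvm : v ∈ {w | 20 * h < infDist w E} ∩ ball v (R * h) :=
    ⟨hv, mem_ball_self (by positivity)⟩
  have hWo : IsOpen (Wd E v h (R * h)) := open_base.connectedComponentIn
  have hWc : IsPreconnected (Wd E v h (R * h)) := isPreconnected_connectedComponentIn
  set W := Wd E v h (R * h) with hW
  have hmem : ∀ w ∈ W, 20 * h < infDist w E ∧ ‖w - v‖ < R * h := fun w hw => by
    have := hsub hw
    exact ⟨this.1, by simpa [dist_eq_norm] using this.2⟩
  set U : Set ℂ := {w | w ∈ W ∧ (Gr E v h K).Reachable (0, 0) (rd v h w)} with hU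
  set U' : Set ℂ := {w | w ∈ W ∧ ¬ (Gr E v h K).Reachable (0, 0) (rd v h w)} with hU'
  have hUo : IsOpen U := by
    rw [Metric.isOpen_iff]
    intro w0 hw0
    obtain ⟨ε, hε, hεW⟩ := Metric.isOpen_iff.1 hWo w0 hw0.1
    refine ⟨min ε (h / 4), lt_min hε (by positivity), fun w hw => ?_⟩
    have hw1 : w ∈ W := hεW (ball_subset_ball (min_le_left _ _) hw)
    have hw2 : ‖w - w0‖ < h / 4 := by
      rw [← dist_eq_norm]
      exact lt_of_lt_of_le hw (min_le_right _ _)
    exact ⟨hw1, pass_reach hh hK (hmem w hw1).1 (hmem w hw1).2 hw2 hw0.2⟩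
  have hU'o : IsOpen U' := by
    rw [Metric.isOpen_iff]
    intro w0 hw0
    obtain ⟨ε, hε, hεW⟩ := Metric.isOpen_iff.1 hWo w0 hw0.1
    refine ⟨min ε (h / 4), lt_min hε (by positivity), fun w hw => ?_⟩
    have hw1 : w ∈ W := hεW (ball_subset_ball (min_le_left _ _) hw)
    have hw2 : ‖w0 - w‖ < h / 4 := by
      rw [norm_sub_rev, ← dist_eq_norm]
      exact lt_of_lt_of_le hw (min_le_right _ _)
    exact ⟨hw1, fun hr => hw0.2 (pass_reach hh hK (hmem w0 hw0.1).1 (hmem w0 hw0.1).2 hw2 hr)⟩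
  have hcov : W ⊆ U ∪ U' := fun w hw => by
    by_cases hr : (Gr E v h K).Reachable (0, 0) (rd v h w)
    · exact Or.inl ⟨hw, hr⟩
    · exact Or.inr ⟨hw, hr⟩
  have hdis : Disjoint U U' := by
    rw [disjoint_left]
    rintro w hw hw'
    exact hw'.2 hw.2
  have hvU : v ∈ U := by
    refine ⟨mem_connectedComponentIn hvm, ?_⟩
    have : rd v h v = (0, 0) := by simp [rd]
    rw [this]
  have h3 := hWc.subset_left_of_subset_union hUo hU'o hdis hcov
    ⟨v, mem_connectedComponentIn hvm, hvU⟩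
  exact fun w hw => (h3 hw).2

/-- the branch of `log ((w - e) / (w - e'))` on the domain -/
lemma exists_branch {R : ℝ} (hR : 0 < R) (hh : 0 < h) (hK : R + 3 ≤ K) (hv : 20 * h < infDist v E)
    {N : ℕ} (he : e ∈ E) (he' : e' ∈ E) (hno : NoSep E v h K N e e')
    (hN : 2 * (box K).card + 1 ≤ N) :
    ∃ L : ℂ → ℂ, ContinuousOn L (Wd E v h (R * h)) ∧
      ∀ w ∈ Wd E v h (R * h), w - e = (w - e') * Complex.exp (L w) := by
  have hsub : Wd E v h (R * h) ⊆ {w | 20 * h < infDist w E} ∩ ball v (R * h) :=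
    connectedComponentIn_subset _ _
  have hvm : v ∈ {w | 20 * h < infDist w E} ∩ ball v (R * h) :=
    ⟨hv, mem_ball_self (by positivity)⟩
  have hWo : IsOpen (Wd E v h (R * h)) := open_base.connectedComponentIn
  have hreach := reach_all (K := K) hR hh hK hv
  have hvW : v ∈ Wd E v h (R * h) := mem_connectedComponentIn hvm
  set W := Wd E v h (R * h) with hW
  have hmem : ∀ w ∈ W, 20 * h < infDist w E ∧ ‖w - v‖ < R * h := fun w hw => by
    have := hsub hw
    exact ⟨this.1, by simpa [dist_eq_norm] using this.2⟩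
  have ho : Ok E v h K (0, 0) :=
    ok_near hh hK hv (by simp; positivity) (by rw [pt_zero, sub_self, norm_zero]; positivity)
  have hne : ∀ w ∈ W, w ≠ e ∧ w ≠ e' := by
    intro w hw
    have h1 := (hmem w hw).1
    constructor
    · rintro rfl
      rw [infDist_zero_of_mem he] at h1
      linarith
    · rintro rfl
      rw [infDist_zero_of_mem he'] at h1
      linarith
  set κ := Complex.log ((v - e) / (v - e')) with hκ
  refine ⟨fun w => κ + FF E v h K e e' ho (rd v h w) w, ?_, ?_⟩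
  · intro w0 hw0
    apply ContinuousAt.continuousWithinAt
    have hr0 := hreach w0 hw0
    have hev : ∀ᶠ w in 𝓝 w0, κ + FF E v h K e e' ho (rd v h w) w =
        κ + FF E v h K e e' ho (rd v h w0) w := by
      filter_upwards [hWo.mem_nhds hw0, Metric.ball_mem_nhds w0 (show 0 < h / 4 by positivity)]
        with w hw hwb
      have hw2 : ‖w - w0‖ < h / 4 := by
        rw [← dist_eq_norm]
        exact hwb
      rw [pass_FF hh hK he he' ho hno hN (hmem w hw).1 (hmem w hw).2 hw2 hr0]
    refine ContinuousAt.congr ?_ (hev.mono fun w hw => hw.symm)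
    obtain ⟨c, -, -, n1, -, -⟩ := rd_pass hh hK (hmem w0 hw0).1 (hmem w0 hw0).2
      (w := w0) (w0 := w0) (by rw [sub_self, norm_zero]; positivity)
    have hok := ok_near hh hK (hmem w0 hw0).1 (hmem w0 hw0).2 n1
    have hsl : ∀ x ∈ E, (w0 - x) / (pt v h (rd v h w0) - x) ∈ Complex.slitPlane := by
      intro x hx
      have h1 := near_ratio hh n1 (ne_of_ok hh hok hx)
      refine Complex.mem_slitPlane_iff.2 (Or.inl ?_)
      have h2 := (Complex.abs_re_le_norm ((w0 - x) / (pt v h (rd v h w0) - x) - 1)).trans_lt h1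
      have h3 := abs_lt.1 h2
      simp only [Complex.sub_re, Complex.one_re] at h3
      linarith [h3.1]
    have hlog : ∀ x ∈ E, ContinuousAt
        (fun w => Complex.log ((w - x) / (pt v h (rd v h w0) - x))) w0 := by
      intro x hx
      refine ContinuousAt.clog ?_ (hsl x hx)
      exact (continuousAt_id.sub continuousAt_const).div_const _
    unfold FF
    exact continuousAt_const.add ((continuousAt_const.add (hlog e he)).sub (hlog e' he'))
  · intro w hw
    have hr := hreach w hw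
    obtain ⟨c, -, -, n1, -, -⟩ := rd_pass hh hK (hmem w hw).1 (hmem w hw).2
      (w := w) (w0 := w) (by rw [sub_self, norm_zero]; positivity)
    have hok := ok_near hh hK (hmem w hw).1 (hmem w hw).2 n1
    have h1 : v - e ≠ 0 := sub_ne_zero.2 (hne v hvW).1
    have h2 : v - e' ≠ 0 := sub_ne_zero.2 (hne v hvW).2
    have h3 : w - e ≠ 0 := sub_ne_zero.2 (hne w hw).1
    have h4 : w - e' ≠ 0 := sub_ne_zero.2 (hne w hw).2
    rw [Complex.exp_add, exp_FF hh he he' ho hr hok (hne w hw).1 (hne w hw).2, hκ,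
      Complex.exp_log (div_ne_zero h1 h2)]
    field_simp

end

/-- the exterior of a disc is connected -/
lemma ext_conn (v : ℂ) {ρ : ℝ} (_hρ : 0 < ρ) : IsPreconnected {w : ℂ | ρ ≤ ‖w - v‖} := by
  have h1 : {w : ℂ | ρ ≤ ‖w - v‖} =
      (fun x : ℝ × ℝ => v + x.1 * Complex.exp (x.2 * Complex.I)) '' (Ici ρ ×ˢ univ) := by
    ext w
    constructor
    · intro hw
      refine ⟨(‖w - v‖, Complex.arg (w - v)), ⟨hw, mem_univ _⟩, ?_⟩
      simp only
      rw [Complex.norm_mul_exp_arg_mul_I]
      ring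
    · rintro ⟨⟨r, t⟩, ⟨hr, -⟩, rfl⟩
      simp only [mem_ofPred_eq, add_sub_cancel_left, norm_mul, Complex.norm_exp_ofReal_mul_I,
        mul_one, Complex.norm_real, Real.norm_eq_abs]
      exact le_trans hr (le_abs_self _)
  rw [h1]
  have h2 : IsPreconnected (Ici ρ ×ˢ (univ : Set ℝ)) :=
    ((convex_Ici ρ).prod convex_univ).isPreconnected
  exact h2.image _ (by fun_prop)

theorem pD : S_D := by
  intro R hR
  set K : ℕ := ⌈R⌉₊ + 3 with hKd
  have hK : R + 3 ≤ K := by
    rw [hKd]
    push_cast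
    linarith [Nat.le_ceil R]
  refine ⟨2 * (box K).card + 1, ?_⟩
  intro E v h hE hh hv A B hA hB hAB hW ⟨e, heA, heE⟩ ⟨e', heB, heE'⟩
  by_contra hcon
  push Not at hcon
  -- no lattice loop distinguishes two points of `E`
  have hno : ∀ x ∈ E, ∀ y ∈ E, NoSep E v h K (2 * (box K).card + 1) x y := by
    intro x hx y hy w hw
    by_contra hne
    have hvok : Ok E v h K (0, 0) :=
      ok_near hh hK hv (by simp; positivity) (by rw [pt_zero, sub_self, norm_zero]; positivity)
    refine hcon w.length hw (fun i => pt v h (w.getVert i)) ⟨?_, ?_, ?_, ?_, x, hx, y, hy, hne⟩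
    · simp [pt_zero]
    · simp [pt_zero]
    · intro i hi
      exact pt_step (w.adj_getVert_succ hi).1
    · intro i hi
      rcases hi.lt_or_eq with hi | rfl
      · exact (w.adj_getVert_succ hi).2.1.2.2
      · simp only [SimpleGraph.Walk.getVert_length]
        exact hvok.2.2
  have hsub : Wd E v h (R * h) ⊆ {w | 20 * h < infDist w E} ∩ ball v (R * h) :=
    connectedComponentIn_subset _ _
  have hRh : 0 < R * h := by positivity
  have hext : {w : ℂ | R * h ≤ ‖w - v‖} ⊆ A ∪ B := by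
    rw [hW]
    intro w hw hw'
    have := (hsub hw').2
    rw [mem_ball, dist_eq_norm] at this
    exact absurd hw (not_le.2 this)
  have hdich : {w : ℂ | R * h ≤ ‖w - v‖} ⊆ A ∨ {w : ℂ | R * h ≤ ‖w - v‖} ⊆ B := by
    by_cases hn1 : ({w : ℂ | R * h ≤ ‖w - v‖} ∩ A).Nonempty
    · by_cases hn2 : ({w : ℂ | R * h ≤ ‖w - v‖} ∩ B).Nonempty
      · obtain ⟨x, -, hx⟩ := isPreconnected_closed_iff.1 (ext_conn v hRh) A B hA hB hext hn1 hn2
        exact absurd hx.2 (disjoint_left.1 hAB hx.1)
      · left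
        intro w hw
        rcases hext hw with h2 | h2
        · exact h2
        · exact absurd ⟨w, hw, h2⟩ hn2
    · right
      intro w hw
      rcases hext hw with h2 | h2
      · exact absurd ⟨w, hw, h2⟩ hn1
      · exact h2
  rcases hdich with h1 | h1
  · obtain ⟨L, hL, hLe⟩ := exists_branch hR hh hK hv heE' heE (hno e' heE' e heE) le_rfl
    exact no_branch _ B A hB hA hAB.symm (by rw [union_comm]; exact hW) e' e heB heA L hL hLe v
      (R * h) (fun w hw => h1 hw)
  · obtain ⟨L, hL, hLe⟩ := exists_branch hR hh hK hv heE heE' (hno e heE e' heE') le_rfl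
    exact no_branch _ A B hA hB hAB hW e e' heA heB L hL hLe v (R * h) (fun w hw => h1 hw)

end Pool.Agent.Z55B
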