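import Mathlib
import Pool.Agent.Z55B.Stm
import Pool.Agent.Helper469.Univalent

/-!
# Piece F of Z55B (written by helper53)

Upper semicontinuous functions with the sub-mean value property, composed with an injective
holomorphic function, have the sub-mean value property.
-/

set_option autoImplicit false
open MeasureTheory Set Metric Filter Topology

namespace Pool.Agent.Z55B.PF

/-! ### Lipschitz approximations from above -/

noncomputable def lipUp (v : ℝ → ℝ) (k : ℕ) (θ : ℝ) : ℝ := ⨆ t : ℝ, (v t - k * |θ - t|)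

lemma lipUp_bdd {v : ℝ → ℝ} (hv1 : ∀ t, v t ≤ 1) (k : ℕ) (θ : ℝ) :
    BddAbove (range fun t : ℝ => v t - k * |θ - t|) := by
  refine ⟨1, ?_⟩
  rintro _ ⟨t, rfl⟩
  have h1 : (0 : ℝ) ≤ (k : ℝ) * |θ - t| := by positivity
  have h2 := hv1 t
  simp only
  linarith

lemma le_lipUp {v : ℝ → ℝ} (hv1 : ∀ t, v t ≤ 1) (k : ℕ) (θ : ℝ) : v θ ≤ lipUp v k θ := by
  have h := le_ciSup (lipUp_bdd hv1 k θ) θ
  simpa [lipUp] using h

lemma lipUp_le_one {v : ℝ → ℝ} (hv1 : ∀ t, v t ≤ 1) (k : ℕ) (θ : ℝ) : lipUp v k θ ≤ 1 := by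
  refine ciSup_le fun t => ?_
  have h1 : (0 : ℝ) ≤ (k : ℝ) * |θ - t| := by positivity
  have h2 := hv1 t
  linarith

lemma lipUp_le_add {v : ℝ → ℝ} (hv1 : ∀ t, v t ≤ 1) (k : ℕ) (θ θ' : ℝ) :
    lipUp v k θ ≤ lipUp v k θ' + k * |θ - θ'| := by
  refine ciSup_le fun t => ?_
  have h := le_ciSup (lipUp_bdd hv1 k θ') t
  have h1 : |θ' - t| ≤ |θ - t| + |θ - θ'| := by
    have := abs_sub_le θ' θ t
    rw [abs_sub_comm θ' θ] at this
    linarith
  have h2 : (k : ℝ) * |θ' - t| ≤ k * (|θ - t| + |θ - θ'|) :=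
    mul_le_mul_of_nonneg_left h1 (by positivity)
  have h3 : v t - k * |θ' - t| ≤ lipUp v k θ' := h
  nlinarith

lemma lipUp_continuous {v : ℝ → ℝ} (hv1 : ∀ t, v t ≤ 1) (k : ℕ) : Continuous (lipUp v k) := by
  have : LipschitzWith (k : NNReal) (lipUp v k) := by
    refine LipschitzWith.of_le_add_mul _ fun x y => ?_
    have := lipUp_le_add hv1 k x y
    rw [Real.dist_eq]
    simpa using this
  exact this.continuous

lemma lipUp_periodic {v : ℝ → ℝ} {c : ℝ} (hper : Function.Periodic v c) (k : ℕ) :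
    Function.Periodic (lipUp v k) c := by
  intro θ
  unfold lipUp
  rw [← (Equiv.addRight c).iSup_comp (g := fun t : ℝ => v t - k * |θ + c - t|)]
  congr 1
  ext t
  simp only [Equiv.coe_addRight]
  rw [hper t]
  congr 3
  ring

lemma lipUp_tendsto {v : ℝ → ℝ} (hv0 : ∀ t, 0 ≤ v t) (hv1 : ∀ t, v t ≤ 1)
    (husc : UpperSemicontinuous v) (θ : ℝ) :
    Tendsto (fun k => lipUp v k θ) atTop (𝓝 (v θ)) := by
  rw [Metric.tendsto_atTop]
  intro ε hε
  have h1 : ∀ᶠ t in 𝓝 θ, v t < v θ + ε / 2 := husc θ _ (by linarith)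
  obtain ⟨δ, hδ, h2⟩ := Metric.eventually_nhds_iff.1 h1
  obtain ⟨N, hN⟩ := exists_nat_gt (1 / δ)
  refine ⟨N, fun k hk => ?_⟩
  have hk1 : 1 < (k : ℝ) * δ := by
    have h3 : (1 : ℝ) / δ < k := hN.trans_le (by exact_mod_cast hk)
    rwa [div_lt_iff₀ hδ] at h3
  have h4 : lipUp v k θ ≤ v θ + ε / 2 := by
    refine ciSup_le fun t => ?_
    by_cases ht : |θ - t| < δ
    · have h5 := h2 (y := t) (by rw [Real.dist_eq, abs_sub_comm]; exact ht)
      have h6 : (0 : ℝ) ≤ (k : ℝ) * |θ - t| := by positivity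
      linarith
    · push Not at ht
      have h5 : (k : ℝ) * δ ≤ k * |θ - t| := mul_le_mul_of_nonneg_left ht (by positivity)
      have h6 := hv1 t
      have h7 := hv0 θ
      linarith
  have h5 := le_lipUp hv1 k θ
  rw [Real.dist_eq, abs_lt]
  constructor <;> linarith

/-! ### Trigonometric approximation by real parts of entire functions -/

lemma span_fourier_entire {r : ℝ} (hr : 0 < r) (q : C(AddCircle (2 * Real.pi), ℂ))
    (hq : q ∈ Submodule.span ℂ (range (@fourier (2 * Real.pi)))) :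
    ∃ P Q : ℂ → ℂ, Differentiable ℂ P ∧ Differentiable ℂ Q ∧
      ∀ θ : ℝ, q (θ : AddCircle (2 * Real.pi)) =
        P (circleMap 0 r θ) + (starRingEnd ℂ) (Q (circleMap 0 r θ)) := by
  induction hq using Submodule.span_induction with
  | mem x hx =>
    obtain ⟨n, rfl⟩ := hx
    have hr' : (r : ℂ) ≠ 0 := by exact_mod_cast hr.ne'
    have hpi : (Real.pi : ℂ) ≠ 0 := by exact_mod_cast Real.pi_ne_zero
    have key : ∀ m : ℕ, ∀ θ : ℝ, (circleMap 0 r θ / r) ^ m = Complex.exp (m * θ * Complex.I) := by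
      intro m θ
      rw [circleMap_zero, mul_div_cancel_left₀ _ hr', ← Complex.exp_nat_mul]
      congr 1
      ring
    obtain ⟨m, rfl | rfl⟩ := n.eq_nat_or_neg
    · refine ⟨fun z => (z / r) ^ m, fun _ => 0, by fun_prop, by fun_prop, fun θ => ?_⟩
      simp only [map_zero, add_zero]
      rw [key, fourier_coe_apply]
      congr 1
      push_cast
      field_simp
    · refine ⟨fun _ => 0, fun z => (z / r) ^ m, by fun_prop, by fun_prop, fun θ => ?_⟩
      simp only [zero_add]
      rw [key, fourier_coe_apply, ← Complex.exp_conj]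
      congr 1
      simp only [map_mul, Complex.conj_I, Complex.conj_ofReal, map_natCast]
      push_cast
      field_simp
  | zero => exact ⟨fun _ => 0, fun _ => 0, by fun_prop, by fun_prop, fun θ => by simp⟩
  | add x y _ _ hx hy =>
    obtain ⟨P, Q, hP, hQ, h⟩ := hx
    obtain ⟨P', Q', hP', hQ', h'⟩ := hy
    refine ⟨fun z => P z + P' z, fun z => Q z + Q' z, by fun_prop, by fun_prop, fun θ => ?_⟩
    simp only [ContinuousMap.add_apply, map_add, h, h']
    ring
  | smul a x _ hx =>
    obtain ⟨P, Q, hP, hQ, h⟩ := hx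
    refine ⟨fun z => a * P z, fun z => (starRingEnd ℂ) a * Q z, by fun_prop, by fun_prop,
      fun θ => ?_⟩
    simp only [ContinuousMap.smul_apply, smul_eq_mul, map_mul, h, Complex.conj_conj]
    ring

lemma exists_entire_approx {φ : ℝ → ℝ} (hφ : Continuous φ)
    (hper : Function.Periodic φ (2 * Real.pi)) {r : ℝ} (hr : 0 < r) {ε : ℝ} (hε : 0 < ε) :
    ∃ P : ℂ → ℂ, Differentiable ℂ P ∧ ∀ θ : ℝ, |(P (circleMap 0 r θ)).re - φ θ| < ε := by
  have : Fact (0 < 2 * Real.pi) := ⟨by positivity⟩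
  let g : C(AddCircle (2 * Real.pi), ℂ) :=
    ⟨fun x => ((hper.lift x : ℝ) : ℂ), by
      refine Complex.continuous_ofReal.comp ?_
      exact continuous_coinduced_dom.2 hφ⟩
  have hg : ∀ θ : ℝ, g (θ : AddCircle (2 * Real.pi)) = (φ θ : ℂ) := by
    intro θ
    simp [g, Function.Periodic.lift_coe]
  have hmem : g ∈ closure ((Submodule.span ℂ (range (@fourier (2 * Real.pi))) :
      Submodule ℂ C(AddCircle (2 * Real.pi), ℂ)) : Set C(AddCircle (2 * Real.pi), ℂ)) := by
    have h := span_fourier_closure_eq_top (T := 2 * Real.pi)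
    have h1 : g ∈ (Submodule.span ℂ (range (@fourier (2 * Real.pi)))).topologicalClosure := by
      rw [h]; trivial
    exact h1
  obtain ⟨q, hq, hqg⟩ := Metric.mem_closure_iff.1 hmem ε hε
  obtain ⟨P, Q, hP, hQ, h⟩ := span_fourier_entire hr q hq
  refine ⟨fun z => P z + Q z, by fun_prop, fun θ => ?_⟩
  have h1 : ‖g (θ : AddCircle (2 * Real.pi)) - q (θ : AddCircle (2 * Real.pi))‖ < ε := by
    have h2 := ContinuousMap.norm_coe_le_norm (g - q) (θ : AddCircle (2 * Real.pi))
    rw [dist_eq_norm] at hqg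
    exact h2.trans_lt hqg
  have h3 : (P (circleMap 0 r θ) + Q (circleMap 0 r θ)).re
      = (q (θ : AddCircle (2 * Real.pi))).re := by
    rw [h θ]
    simp
  rw [h3, abs_sub_comm]
  refine lt_of_le_of_lt ?_ h1
  rw [hg]
  have h4 := Complex.abs_re_le_norm ((φ θ : ℂ) - q (θ : AddCircle (2 * Real.pi)))
  simpa using h4

/-! ### Maximum principle -/

lemma circleAverage_re_eq {H : ℂ → ℂ} {w : ℂ} {ρ : ℝ} (hρ : 0 < ρ)
    (hH : DifferentiableOn ℂ H (closedBall w ρ)) :
    Real.circleAverage (fun z => (H z).re) w ρ = (H w).re := by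
  have h1 : DiffContOnCl ℂ H (ball w |ρ|) := by
    refine DifferentiableOn.diffContOnCl ?_
    rw [abs_of_pos hρ, closure_ball _ hρ.ne']
    exact hH
  have h2 := h1.circleAverage
  have hint : CircleIntegrable H w ρ := by
    refine ContinuousOn.circleIntegrable' ?_
    rw [abs_of_pos hρ]
    exact hH.continuousOn.mono sphere_subset_closedBall
  have h3 := Complex.reCLM.circleAverage_comp_comm hint
  have h4 : (Complex.reCLM ∘ H) = fun z => (H z).re := rfl
  rw [h4] at h3
  rw [h3, h2]
  rfl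

lemma circleIntegrable_of_measurable {g : ℂ → ℝ} {w : ℂ} {ρ : ℝ}
    (hg : AEStronglyMeasurable (fun θ => g (circleMap w ρ θ)) volume)
    (h01 : ∀ θ, |g (circleMap w ρ θ)| ≤ 1) : CircleIntegrable g w ρ := by
  unfold CircleIntegrable
  rw [intervalIntegrable_iff]
  refine Measure.integrableOn_of_bounded (M := 1)
    (by rw [Set.uIoc_of_le (by positivity)]; exact measure_Ioc_lt_top.ne) hg ?_
  exact ae_of_all _ fun θ => by rw [Real.norm_eq_abs]; exact h01 θ

/-- Local holomorphic inverse of an injective holomorphic function. -/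
lemma exists_local_inverse {f : ℂ → ℂ} {U : Set ℂ} (hU : IsOpen U) (hf : DifferentiableOn ℂ f U)
    (hinj : InjOn f U) {z₀ : ℂ} (hz : z₀ ∈ U) :
    ∃ (ρ : ℝ) (G : ℂ → ℂ), 0 < ρ ∧ DifferentiableOn ℂ G (closedBall (f z₀) ρ) ∧
      G (f z₀) = z₀ ∧ ∀ w ∈ closedBall (f z₀) ρ, G w ∈ U ∧ f (G w) = w := by
  have hd : ∀ z ∈ U, HasStrictDerivAt f (deriv f z) z := fun z hz =>
    (hf.analyticAt (hU.mem_nhds hz)).hasStrictDerivAt
  have hne : ∀ z ∈ U, deriv f z ≠ 0 := fun z hz =>
    Pool.Agent.Helper469.Univalent.deriv_ne_zero_of_injOn hU hf hinj hz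
  let e := (hd z₀ hz).hasStrictFDerivAt_equiv (hne z₀ hz) |>.toOpenPartialHomeomorph f
  have he : (e : ℂ → ℂ) = f := rfl
  have hz0 : z₀ ∈ e.source :=
    ((hd z₀ hz).hasStrictFDerivAt_equiv (hne z₀ hz)).mem_toOpenPartialHomeomorph_source
  have hsymm : e.symm (f z₀) = z₀ := by
    rw [← he]
    exact e.left_inv hz0
  have hopen : IsOpen (e.target ∩ e.symm ⁻¹' U) := e.isOpen_inter_preimage_symm hU
  have hmem : f z₀ ∈ e.target ∩ e.symm ⁻¹' U := by
    refine ⟨?_, ?_⟩
    · rw [← he]
      exact e.map_source hz0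
    · rw [mem_preimage, hsymm]
      exact hz
  obtain ⟨ρ, hρ, hball⟩ := Metric.isOpen_iff.1 hopen _ hmem
  have hsub : closedBall (f z₀) (ρ / 2) ⊆ e.target ∩ e.symm ⁻¹' U :=
    (closedBall_subset_ball (by linarith)).trans hball
  refine ⟨ρ / 2, e.symm, by linarith, ?_, hsymm, ?_⟩
  · intro w hw
    obtain ⟨h1, h2⟩ := hsub hw
    have h3 : HasDerivAt e (deriv f (e.symm w)) (e.symm w) := (hd _ h2).hasDerivAt
    exact (e.hasDerivAt_symm h1 (hne _ h2) h3).differentiableAt.differentiableWithinAt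
  · intro w hw
    obtain ⟨h1, h2⟩ := hsub hw
    refine ⟨h2, ?_⟩
    rw [← he]
    exact e.right_inv h1

lemma max_principle {E : Set ℂ} {u : ℂ → ℝ} (husc : UpperSemicontinuous u)
    (h01 : ∀ w, 0 ≤ u w ∧ u w ≤ 1)
    (hsub : ∀ (v : ℂ) (ρ : ℝ), 0 < ρ → Disjoint (closedBall v ρ) E →
      u v ≤ Real.circleAverage u v ρ)
    {f : ℂ → ℂ} (hf : DifferentiableOn ℂ f (ball 0 1)) (hinj : InjOn f (ball 0 1))
    (hE : ∀ z ∈ ball (0 : ℂ) 1, f z ∉ E) {r : ℝ} (hr : 0 < r) (hr1 : r < 1)
    {P : ℂ → ℂ} (hP : Differentiable ℂ P) (hb : ∀ z ∈ sphere (0 : ℂ) r, u (f z) ≤ (P z).re) :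
    u (f 0) ≤ (P 0).re := by
  have hcont : ContinuousOn f (closedBall 0 r) :=
    hf.continuousOn.mono (closedBall_subset_ball hr1)
  obtain ⟨M, hM⟩ := (isCompact_closedBall (0 : ℂ) r).exists_bound_of_continuousOn hcont
  have key : ∀ ε : ℝ, 0 < ε → u (f 0) ≤ (P 0).re + ε * M ^ 2 := by
    intro ε hε
    let h : ℂ → ℝ := fun z => u (f z) + (ε * ‖f z‖ ^ 2 - (P z).re)
    have h1 : UpperSemicontinuousOn (fun z => u (f z)) (closedBall 0 r) := by
      intro z hz y hy
      have h2 := husc (f z) y hy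
      exact (hcont z hz).eventually h2
    have h2 : ContinuousOn (fun z => ε * ‖f z‖ ^ 2 - (P z).re) (closedBall 0 r) := by
      have h3 : Continuous P := hP.continuous
      fun_prop
    have husc' : UpperSemicontinuousOn h (closedBall 0 r) :=
      h1.add h2.upperSemicontinuousOn
    obtain ⟨z₀, hz₀, hmax⟩ := husc'.exists_isMaxOn ⟨0, by simp [hr.le]⟩ (isCompact_closedBall 0 r)
    have h0 : h 0 ≤ h z₀ := hmax (by simp [hr.le])
    have hM0 : ‖f z₀‖ ^ 2 ≤ M ^ 2 := pow_le_pow_left₀ (norm_nonneg _) (hM _ hz₀) 2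
    have hn0 : 0 ≤ ε * ‖f 0‖ ^ 2 := by positivity
    rcases (mem_closedBall_zero_iff.1 hz₀).lt_or_eq with hlt | heq
    · exfalso
      have hz₀' : z₀ ∈ ball (0 : ℂ) r := by simpa using hlt
      obtain ⟨ρ, G, hρ, hG, hG0, hGw⟩ := exists_local_inverse isOpen_ball
        (hf.mono (ball_subset_ball hr1.le)) (hinj.mono (ball_subset_ball hr1.le)) hz₀'
      set w₀ := f z₀ with hw₀
      let H : ℂ → ℂ := fun w => P (G w) - 2 * ε * (starRingEnd ℂ) w₀ * (w - w₀)
      have hH : DifferentiableOn ℂ H (closedBall w₀ ρ) := by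
        have h3 : DifferentiableOn ℂ (fun w => P (G w)) (closedBall w₀ ρ) :=
          hP.comp_differentiableOn hG
        exact h3.sub (by fun_prop)
      have hav := circleAverage_re_eq hρ hH
      have hle : ∀ w ∈ sphere w₀ ρ,
          u w ≤ (H w).re + (u w₀ - (P z₀).re - ε * ρ ^ 2) := by
        intro w hw
        have hw' : w ∈ closedBall w₀ ρ := sphere_subset_closedBall hw
        obtain ⟨h3, h4⟩ := hGw w hw'
        have h5 : h (G w) ≤ h z₀ := hmax (ball_subset_closedBall h3)
        simp only [h] at h5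
        rw [h4, ← hw₀] at h5
        have h6 : ‖w‖ ^ 2 = ‖w₀‖ ^ 2 + 2 * ((starRingEnd ℂ) w₀ * (w - w₀)).re + ρ ^ 2 := by
          have h7 : ‖w - w₀‖ = ρ := by simpa [dist_eq_norm] using hw
          rw [← h7, ← Complex.normSq_eq_norm_sq, ← Complex.normSq_eq_norm_sq,
            ← Complex.normSq_eq_norm_sq, Complex.normSq_apply, Complex.normSq_apply,
            Complex.normSq_apply]
          simp only [Complex.mul_re, Complex.conj_re, Complex.conj_im, Complex.sub_re,
            Complex.sub_im]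
          ring
        have h8 : (H w).re = (P (G w)).re - 2 * ε * ((starRingEnd ℂ) w₀ * (w - w₀)).re := by
          simp only [H, Complex.sub_re]
          have : (2 * (ε : ℂ) * (starRingEnd ℂ) w₀ * (w - w₀))
              = ((2 * ε : ℝ) : ℂ) * ((starRingEnd ℂ) w₀ * (w - w₀)) := by
            push_cast
            ring
          rw [this, Complex.re_ofReal_mul]
        rw [h8]
        rw [h6] at h5
        nlinarith
      have hdis : Disjoint (closedBall w₀ ρ) E := by
        rw [Set.disjoint_left]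
        intro w hw hwE
        obtain ⟨h3, h4⟩ := hGw w hw
        exact hE (G w) (ball_subset_ball hr1.le h3) (by rw [h4]; exact hwE)
      have hsm := hsub w₀ ρ hρ hdis
      have hui : CircleIntegrable u w₀ ρ := by
        refine circleIntegrable_of_measurable ?_ fun θ => ?_
        · exact (husc.measurable.comp (continuous_circleMap w₀ ρ).measurable).aestronglyMeasurable
        · rw [abs_of_nonneg (h01 _).1]
          exact (h01 _).2
      have hHi : CircleIntegrable (fun w => (H w).re) w₀ ρ := by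
        refine ContinuousOn.circleIntegrable' ?_
        rw [abs_of_pos hρ]
        exact Complex.continuous_re.comp_continuousOn
          (hH.continuousOn.mono sphere_subset_closedBall)
      have hci : CircleIntegrable (fun _ : ℂ => (u w₀ - (P z₀).re - ε * ρ ^ 2)) w₀ ρ :=
        circleIntegrable_const _ _ _
      have h9 : Real.circleAverage u w₀ ρ ≤
          Real.circleAverage (fun w => (H w).re + (u w₀ - (P z₀).re - ε * ρ ^ 2)) w₀ ρ := by
        refine Real.circleAverage_mono hui (hHi.add hci) ?_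
        rw [abs_of_pos hρ]
        exact hle
      rw [Real.circleAverage_fun_add hHi hci, hav, Real.circleAverage_const] at h9
      have h10 : (H w₀).re = (P z₀).re := by
        simp [H, hG0]
      rw [h10] at h9
      have : 0 < ε * ρ ^ 2 := by positivity
      linarith
    · have h3 := hb z₀ (by simpa using heq)
      have h4 : ε * ‖f z₀‖ ^ 2 ≤ ε * M ^ 2 := mul_le_mul_of_nonneg_left hM0 hε.le
      simp only [h] at h0
      linarith
  refine le_of_forall_pos_le_add fun δ hδ => ?_
  have h1 := key (δ / (M ^ 2 + 1)) (by positivity)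
  have h2 : δ / (M ^ 2 + 1) * M ^ 2 ≤ δ := by
    rw [div_mul_eq_mul_div, div_le_iff₀ (by positivity)]
    nlinarith
  linarith

/-- Piece F. -/
theorem pF : S_F := by
  intro E u _ husc h01 hsub f hf hinj hE r hr hr1
  have hcont : ContinuousOn f (sphere 0 r) :=
    hf.continuousOn.mono (sphere_subset_closedBall.trans (closedBall_subset_ball hr1))
  let v : ℝ → ℝ := fun θ => u (f (circleMap 0 r θ))
  have hc : Continuous fun θ : ℝ => f (circleMap 0 r θ) := by
    refine hcont.comp_continuous (continuous_circleMap 0 r) fun θ => ?_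
    have := circleMap_mem_sphere (0 : ℂ) hr.le θ
    exact this
  have hvusc : UpperSemicontinuous v := by
    intro θ y hy
    exact hc.continuousAt.eventually (husc _ y hy)
  have hv0 : ∀ t, 0 ≤ v t := fun t => (h01 _).1
  have hv1 : ∀ t, v t ≤ 1 := fun t => (h01 _).2
  have hper : Function.Periodic v (2 * Real.pi) := by
    intro θ
    simp only [v]
    rw [periodic_circleMap 0 r θ]
  have hk : ∀ k : ℕ, u (f 0) ≤ (2 * Real.pi)⁻¹ * ∫ θ in (0 : ℝ)..2 * Real.pi, lipUp v k θ := by
    intro k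
    refine le_of_forall_pos_le_add fun ε hε => ?_
    obtain ⟨P, hP, hPa⟩ := exists_entire_approx
      (φ := fun θ => lipUp v k θ + ε / 2) ((lipUp_continuous hv1 k).add continuous_const)
      (by
        intro θ
        simp only
        rw [lipUp_periodic hper k θ]) hr (half_pos hε)
    have h1 : u (f 0) ≤ (P 0).re := by
      refine max_principle husc h01 hsub hf hinj hE hr hr1 hP fun z hz => ?_
      have hz' : ‖z‖ = r := by simpa using hz
      have h2 : z = circleMap 0 r (Complex.arg z) := by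
        rw [circleMap_zero, ← hz']
        exact (Complex.norm_mul_exp_arg_mul_I z).symm
      have h3 := (abs_lt.1 (hPa (Complex.arg z))).1
      have h4 := le_lipUp hv1 k (Complex.arg z)
      rw [← h2] at h3
      have h5 : v (Complex.arg z) = u (f z) := by
        simp only [v]
        rw [← h2]
      rw [h5] at h4
      linarith
    have h2 : (P 0).re = Real.circleAverage (fun z => (P z).re) 0 r :=
      (circleAverage_re_eq hr hP.differentiableOn).symm
    have h3 : Real.circleAverage (fun z => (P z).re) 0 r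
        ≤ (2 * Real.pi)⁻¹ * ∫ θ in (0 : ℝ)..2 * Real.pi, (lipUp v k θ + ε) := by
      rw [Real.circleAverage_def, smul_eq_mul]
      refine mul_le_mul_of_nonneg_left ?_ (by positivity)
      refine intervalIntegral.integral_mono_on (by positivity) ?_ ?_ ?_
      · refine Continuous.intervalIntegrable ?_ _ _
        exact Complex.continuous_re.comp (hP.continuous.comp (continuous_circleMap 0 r))
      · exact ((lipUp_continuous hv1 k).add continuous_const).intervalIntegrable _ _
      · intro θ _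
        have := (abs_lt.1 (hPa θ)).2
        linarith
    have h4 : (2 * Real.pi)⁻¹ * ∫ θ in (0 : ℝ)..2 * Real.pi, (lipUp v k θ + ε)
        = (2 * Real.pi)⁻¹ * (∫ θ in (0 : ℝ)..2 * Real.pi, lipUp v k θ) + ε := by
      rw [intervalIntegral.integral_add ((lipUp_continuous hv1 k).intervalIntegrable _ _)
        intervalIntegrable_const, intervalIntegral.integral_const]
      have := Real.pi_pos
      field_simp
      simp
    linarith
  have hlim : Tendsto (fun k : ℕ => (2 * Real.pi)⁻¹ * ∫ θ in (0 : ℝ)..2 * Real.pi, lipUp v k θ)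
      atTop (𝓝 ((2 * Real.pi)⁻¹ * ∫ θ in (0 : ℝ)..2 * Real.pi, v θ)) := by
    refine Tendsto.const_mul _ ?_
    refine intervalIntegral.tendsto_integral_filter_of_dominated_convergence (fun _ => 1) ?_ ?_
      intervalIntegrable_const ?_
    · exact Eventually.of_forall fun k => (lipUp_continuous hv1 k).aestronglyMeasurable
    · refine Eventually.of_forall fun k => ae_of_all _ fun θ _ => ?_
      rw [Real.norm_eq_abs, abs_of_nonneg ((hv0 θ).trans (le_lipUp hv1 k θ))]
      exact lipUp_le_one hv1 k θ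
    · exact ae_of_all _ fun θ _ => lipUp_tendsto hv0 hv1 hvusc θ
  have h := ge_of_tendsto' hlim hk
  rw [Real.circleAverage_def, smul_eq_mul]
  exact h

end Pool.Agent.Z55B.PF
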