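import Pool.Agent.Z55B.Stm2

/-!
# Piece G1: the complement of the domain is connected if it has no splitting with both parts meeting `E`
-/

set_option autoImplicit false
open MeasureTheory ProbabilityTheory Set Metric Filter Topology
open scoped NNReal ENNReal

namespace Pool.Agent.Z55B

namespace PG1

variable {E : Set ℂ} {v : ℂ} {h r : ℝ}

/-- the open set of which `Wd` is a component -/
def UU (E : Set ℂ) (v : ℂ) (h r : ℝ) : Set ℂ := {w | 20 * h < infDist w E} ∩ ball v r

theorem isOpen_UU : IsOpen (UU E v h r) :=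
  (isOpen_lt continuous_const (continuous_infDist_pt E)).inter isOpen_ball

theorem wd_sub : Wd E v h r ⊆ UU E v h r := connectedComponentIn_subset _ _

theorem isOpen_Wd : IsOpen (Wd E v h r) := isOpen_UU.connectedComponentIn

/-- near `E` -/
theorem near (hE : IsClosed E) (hne : E.Nonempty) {a : ℂ} (ha : infDist a E ≤ 20 * h) :
    ∃ C : Set ℂ, IsPreconnected C ∧ C ⊆ (Wd E v h r)ᶜ ∧ a ∈ C ∧ (C ∩ E).Nonempty := by
  obtain ⟨e', he', hd⟩ := hE.exists_infDist_eq_dist hne a
  refine ⟨segment ℝ a e', (convex_segment a e').isPreconnected, ?_, left_mem_segment ℝ a e',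
    ⟨e', right_mem_segment ℝ a e', he'⟩⟩
  intro w hw hwW
  have h1 := (wd_sub hwW).1
  have h2 : 20 * h < infDist w E := h1
  have h3 : infDist w E ≤ dist w e' := infDist_le_dist_of_mem he'
  have h4 : dist w e' ≤ dist a e' := by
    obtain ⟨s, t, hs, ht, hst, rfl⟩ := hw
    rw [dist_eq_norm, dist_eq_norm]
    have e1 : s • a + t • e' - e' = s • (a - e') := by
      have : t = 1 - s := by linarith
      rw [this, smul_sub, sub_smul, one_smul]
      ring
    rw [e1, norm_smul, Real.norm_eq_abs, abs_of_nonneg hs]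
    exact mul_le_of_le_one_left (norm_nonneg _) (by linarith)
  linarith [hd ▸ ha]

/-- the exterior of the disc -/
theorem ext_conn (hr : 0 < r) : IsPreconnected {w : ℂ | r ≤ dist w v} := by
  have h1 : IsPreconnected (sphere (0 : ℂ) 1) :=
    isPreconnected_sphere (by rw [Complex.rank_real_complex]; exact Cardinal.one_lt_two) 0 1
  have h2 : IsPreconnected (Ici r ×ˢ sphere (0 : ℂ) 1) := isPreconnected_Ici.prod h1
  have h3 := h2.image (fun p : ℝ × ℂ => v + (p.1 : ℂ) * p.2) (by fun_prop)
  have h4 : {w : ℂ | r ≤ dist w v} =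
      (fun p : ℝ × ℂ => v + (p.1 : ℂ) * p.2) '' (Ici r ×ˢ sphere (0 : ℂ) 1) := by
    ext w
    constructor
    · intro hw
      have hw' : r ≤ dist w v := hw
      have h0 : 0 < dist w v := lt_of_lt_of_le hr hw'
      refine ⟨(dist w v, (w - v) / (dist w v : ℂ)), ⟨hw', ?_⟩, ?_⟩
      · rw [mem_sphere_zero_iff_norm]
        simp only
        rw [norm_div, Complex.norm_real, Real.norm_eq_abs, abs_of_pos h0, dist_eq_norm]
        rw [dist_eq_norm] at h0
        exact div_self h0.ne'
      · have : (dist w v : ℂ) ≠ 0 := by exact_mod_cast h0.ne'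
        simp only
        rw [mul_div_cancel₀ _ this]
        ring
    · rintro ⟨⟨t, u⟩, ⟨ht, hu⟩, rfl⟩
      have ht' : r ≤ t := ht
      have hu' : ‖u‖ = 1 := mem_sphere_zero_iff_norm.1 hu
      show r ≤ dist (v + (t : ℂ) * u) v
      rw [dist_eq_norm, add_sub_cancel_left, norm_mul, hu', mul_one, Complex.norm_real,
        Real.norm_eq_abs]
      exact ht'.trans (le_abs_self t)
  rw [h4]
  exact h3

theorem far (hr : 0 < r) {e : ℂ} (he : e ∈ E) (her : r < dist e v) {a : ℂ} (ha : r ≤ dist a v) :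
    ∃ C : Set ℂ, IsPreconnected C ∧ C ⊆ (Wd E v h r)ᶜ ∧ a ∈ C ∧ (C ∩ E).Nonempty := by
  refine ⟨{w : ℂ | r ≤ dist w v}, ext_conn hr, ?_, ha, ⟨e, her.le, he⟩⟩
  intro w hw hwW
  have h1 := (wd_sub hwW).2
  rw [mem_ball] at h1
  exact absurd h1 (not_lt.2 hw)

/-- every point of the complement is joined to `E` -/
theorem join (hE : IsClosed E) (hr : 0 < r) (hh : 0 < h) {e : ℂ} (he : e ∈ E) (her : r < dist e v)
    {a : ℂ} (ha : a ∈ (Wd E v h r)ᶜ) :
    ∃ C : Set ℂ, IsPreconnected C ∧ C ⊆ (Wd E v h r)ᶜ ∧ a ∈ C ∧ (C ∩ E).Nonempty := by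
  have hnot : ∀ b : ℂ, b ∉ UU E v h r →
      ∃ C : Set ℂ, IsPreconnected C ∧ C ⊆ (Wd E v h r)ᶜ ∧ b ∈ C ∧ (C ∩ E).Nonempty := by
    intro b hb
    by_cases h1 : infDist b E ≤ 20 * h
    · exact near hE ⟨e, he⟩ h1
    · rw [not_le] at h1
      refine far hr he her ?_
      by_contra h2
      rw [not_le] at h2
      exact hb ⟨h1, mem_ball.2 h2⟩
  by_cases haU : a ∈ UU E v h r
  · -- the component of `a`
    obtain ⟨K, hK⟩ : ∃ K, K = connectedComponentIn (UU E v h r) a := ⟨_, rfl⟩
    have haK : a ∈ K := by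
      rw [hK]
      exact mem_connectedComponentIn haU
    have hKU : K ⊆ UU E v h r := by
      rw [hK]
      exact connectedComponentIn_subset _ _
    have hKo : IsOpen K := by
      rw [hK]
      exact isOpen_UU.connectedComponentIn
    have hKc : IsPreconnected K := by
      rw [hK]
      exact isPreconnected_connectedComponentIn
    have hdis : Disjoint K (Wd E v h r) := by
      rw [disjoint_left]
      intro w hwK hwW
      apply ha
      have h1 : connectedComponentIn (UU E v h r) a = connectedComponentIn (UU E v h r) w := by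
        rw [hK] at hwK
        exact connectedComponentIn_eq hwK
      have h2 : connectedComponentIn (UU E v h r) v = connectedComponentIn (UU E v h r) w :=
        connectedComponentIn_eq hwW
      show a ∈ connectedComponentIn (UU E v h r) v
      rw [h2, ← h1, ← hK]
      exact haK
    have hcl : closure K ⊆ (Wd E v h r)ᶜ := by
      exact subset_compl_iff_disjoint_right.2 (hdis.closure_left isOpen_Wd)
    obtain ⟨b, hb, hbU⟩ : ∃ b ∈ closure K, b ∉ UU E v h r := by
      by_contra hcon
      push Not at hcon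
      have h1 : closure K ⊆ K := by
        conv_rhs => rw [hK]
        exact hKc.closure.subset_connectedComponentIn (subset_closure haK) hcon
      have h2 : IsClosed K := isClosed_of_closure_subset h1
      have h3 : K = univ := IsClopen.eq_univ ⟨h2, hKo⟩ ⟨a, haK⟩
      have h4 : e ∈ UU E v h r := hKU (h3 ▸ mem_univ e)
      have h5 : 20 * h < infDist e E := h4.1
      rw [infDist_zero_of_mem he] at h5
      linarith
    obtain ⟨C, hC1, hC2, hC3, hC4⟩ := hnot b hbU
    refine ⟨closure K ∪ C, ?_, union_subset hcl hC2, Or.inl (subset_closure haK), ?_⟩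
    · exact IsPreconnected.union b hb hC3 hKc.closure hC1
    · exact hC4.mono (inter_subset_inter_left _ subset_union_right)
  · exact hnot a haU

end PG1

open PG1 in
theorem pG1 : S_G1 := by
  intro E v h r e hE hh hv hr he her H
  have hWc : IsClosed (Wd E v h r)ᶜ := isOpen_Wd.isClosed_compl
  have heW : e ∈ (Wd E v h r)ᶜ := by
    intro h1
    have h5 : 20 * h < infDist e E := (wd_sub h1).1
    rw [infDist_zero_of_mem he] at h5
    linarith
  refine ⟨⟨e, heW⟩, ?_⟩
  rw [isPreconnected_iff_subset_of_fully_disjoint_closed hWc]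
  intro A B hA hB hAB hdis
  have key : ∀ A B : Set ℂ, IsClosed A → IsClosed B → (Wd E v h r)ᶜ ⊆ A ∪ B → Disjoint A B →
      ¬ ((A ∩ (Wd E v h r)ᶜ) ∩ E).Nonempty → (Wd E v h r)ᶜ ⊆ B := by
    intro A B hA hB hAB hdis hno a ha
    rcases hAB ha with haA | haB
    · exfalso
      obtain ⟨C, hC1, hC2, hC3, e', he'C, he'E⟩ := join hE hr hh he her ha
      have h1 : e' ∈ B := by
        rcases hAB (hC2 he'C) with h2 | h2
        · exact absurd ⟨e', ⟨h2, hC2 he'C⟩, he'E⟩ hno
        · exact h2
      obtain ⟨w, -, hw1, hw2⟩ := isPreconnected_closed_iff.1 hC1 A B hA hB (hC2.trans hAB)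
        ⟨a, hC3, haA⟩ ⟨e', he'C, h1⟩
      exact disjoint_left.1 hdis hw1 hw2
    · exact haB
  by_cases h1 : ((A ∩ (Wd E v h r)ᶜ) ∩ E).Nonempty
  · by_cases h2 : ((B ∩ (Wd E v h r)ᶜ) ∩ E).Nonempty
    · exfalso
      refine H (A ∩ (Wd E v h r)ᶜ) (B ∩ (Wd E v h r)ᶜ) (hA.inter hWc) (hB.inter hWc)
        (hdis.mono inter_subset_left inter_subset_left) ?_ h1 h2
      rw [← union_inter_distrib_right]
      exact inter_eq_right.2 hAB
    · left
      exact key B A hB hA (by rw [union_comm]; exact hAB) hdis.symm h2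
  · right
    exact key A B hA hB hAB hdis h1

end Pool.Agent.Z55B
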