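import Pool.Agent.Z55B.Stm

/-! # Statements of the last pieces (assembly) -/

set_option autoImplicit false
open MeasureTheory ProbabilityTheory Set Metric Filter Topology
open scoped NNReal ENNReal

namespace Pool.Agent.Z55B

/-- G1: if no splitting of the complement of `Wd` has both parts meeting `E` then the complement is
connected.  Sketch.  `W = Wd E v h r`, `U = {20 h < d} ∩ ball v r`.  Let `Wᶜ ⊆ A ∪ B`, `A`, `B` closed
disjoint (`isPreconnected_iff_subset_of_fully_disjoint_closed`); by the hypothesis (with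
`A ∩ Wᶜ`, `B ∩ Wᶜ`) one of them, say `A ∩ Wᶜ`, does not meet `E`; claim `Wᶜ ⊆ B`.  Every `a ∈ Wᶜ` is joined
inside `Wᶜ` by a connected set to a point of `E`: (i) if `infDist a E ≤ 20 h`, by the segment to the
nearest point; (ii) if `r ≤ dist a v`, by the exterior `{r ≤ dist w v}` (image of `Ici r × sphere`), which
contains `e`; (iii) otherwise `a ∈ U \ W`, the closure of the component of `a` in `U` is disjoint from `W`
and has a frontier point `b ∉ U`; then (i) or (ii) for `b`. -/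
def S_G1 : Prop := ∀ (E : Set ℂ) (v : ℂ) (h r : ℝ) (e : ℂ), IsClosed E → 0 < h →
  20 * h < infDist v E → 0 < r → e ∈ E → r < dist e v →
  (∀ A B : Set ℂ, IsClosed A → IsClosed B → Disjoint A B → A ∪ B = (Wd E v h r)ᶜ →
    (A ∩ E).Nonempty → (B ∩ E).Nonempty → False) → IsConnected (Wd E v h r)ᶜ

/-- G2: maximum principle in the exterior of a disc.  Sketch: `u - τ log (‖w‖ / R0) + s ‖w‖ ^ 2` on the
closed annulus `R0 ≤ ‖w‖ ≤ R`, `τ log (R / R0) ≥ 1`; then `s → 0`, `τ → 0`. -/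
def S_G2 : Prop := ∀ (E : Set ℂ) (u : ℂ → ℝ) (R0 c : ℝ), IsClosed E → 0 < R0 → E ⊆ ball 0 R0 →
  UpperSemicontinuous u → (∀ w, 0 ≤ u w ∧ u w ≤ 1) →
  (∀ (v : ℂ) (ρ : ℝ), 0 < ρ → Disjoint (closedBall v ρ) E → u v ≤ Real.circleAverage u v ρ) →
  0 ≤ c → (∀ w, ‖w‖ = R0 → u w ≤ c) → ∀ w, R0 ≤ ‖w‖ → u w ≤ c

/-- G3: dyadic covers of null sets.  Sketch: `Pool.Agent.N673.Mak.exists_cover` (file `N673/QC/MakC.lean`),
compactness, radii rounded to powers of `1 / 2`. -/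
def S_G3 : Prop := ∀ (E : Set ℂ) (s : ℝ), IsCompact E → E.Nonempty → 0 < s → μH[s] E = 0 →
  ∀ η δ : ℝ, 0 < η → 0 < δ → ∃ (KK : Finset ℕ) (J : ℕ → Finset ℂ),
    (∀ k ∈ KK, (J k).Nonempty ∧ (∀ x ∈ J k, x ∈ E) ∧ (1 / 2 : ℝ) ^ k ≤ δ ∧
      ((J k).card : ℝ) * ((1 / 2 : ℝ) ^ k) ^ s ≤ η) ∧
    ∀ e ∈ E, ∃ k ∈ KK, ∃ x ∈ J k, dist e x ≤ (1 / 2 : ℝ) ^ k

/-- the conclusion in the plane `ℂ` -/
def S_Z : Prop := ∀ E : Set ℂ, IsCompact E → E.Nontrivial → dimH E < 1 → ∀ μ : Measure Pth, IsW μ →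
  ∀ v, v ∉ E → uu μ E v = 0

/-- G5: from `S_Z` and `S_A5` to the frozen statement (the body of `Pool/Templates/S19381.lean.txt`). -/
def S_G5 : Prop := S_A5 → S_Z →
    ∀ (E : Set (ℝ × ℝ)), IsCompact E → E.Nontrivial → dimH E < 1 →
    ∀ z : ℝ × ℝ, z ∉ E →
    ∀ (Ω : Type) [MeasurableSpace Ω] (P : Measure Ω) [IsProbabilityMeasure P]
      (B : ℝ≥0 → Ω → ℝ × ℝ),
      (∀ u, Measurable (B u)) →
      (∀ ω, Continuous (fun u => B u ω)) →
      (∀ ω, B 0 ω = z) →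
      (∀ s t : ℝ≥0, s ≤ t →
        Measure.map (fun ω => B t ω - B s ω) P
            = (gaussianReal 0 (t - s)).prod (gaussianReal 0 (t - s)) ∧
        Indep (MeasurableSpace.comap (fun ω => B t ω - B s ω) inferInstance)
          (⨆ (u : ℝ≥0) (_ : u ≤ s), MeasurableSpace.comap (B u) inferInstance) P) →
      ∀ᵐ ω ∂P, ∃ s t : ℝ≥0, s < t ∧ B s ω = B t ω ∧
        (∀ u : ℝ≥0, u ≤ t → B u ω ∉ E) ∧
        ∃ x ∈ E, ∃ y ∈ E,
          connectedComponentIn ((fun u => B u ω) '' Set.Icc s t)ᶜ x ≠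
          connectedComponentIn ((fun u => B u ω) '' Set.Icc s t)ᶜ y

end Pool.Agent.Z55B
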