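import Mathlib
import Pool.Agent.Z55B.Stm2
import Pool.Agent.Z55B.F

/-!
# Z55B, piece G2: maximum principle in the exterior of a disc
-/

set_option autoImplicit false
open MeasureTheory ProbabilityTheory Set Metric Filter Topology
open scoped NNReal ENNReal

namespace Pool.Agent.Z55B.PG2

open Pool.Agent.Z55B.PF

lemma sphere_norm_sq {w w₀ : ℂ} {ρ : ℝ} (hw : w ∈ sphere w₀ ρ) :
    ‖w‖ ^ 2 = ‖w₀‖ ^ 2 + 2 * ((starRingEnd ℂ) w₀ * (w - w₀)).re + ρ ^ 2 := by
  have h7 : ‖w - w₀‖ = ρ := by simpa [dist_eq_norm] using hw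
  rw [← h7, ← Complex.normSq_eq_norm_sq, ← Complex.normSq_eq_norm_sq,
    ← Complex.normSq_eq_norm_sq, Complex.normSq_apply, Complex.normSq_apply,
    Complex.normSq_apply]
  simp only [Complex.mul_re, Complex.conj_re, Complex.conj_im, Complex.sub_re,
    Complex.sub_im]
  ring

/-- no interior maximum of `u - τ log ‖w‖ + s ‖w‖ ^ 2` -/
lemma no_interior {E : Set ℂ} {u : ℂ → ℝ} (husc : UpperSemicontinuous u)
    (h01 : ∀ w, 0 ≤ u w ∧ u w ≤ 1)
    (hsub : ∀ (v : ℂ) (ρ : ℝ), 0 < ρ → Disjoint (closedBall v ρ) E →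
      u v ≤ Real.circleAverage u v ρ) {τ s : ℝ} (hs : 0 < s) {w₀ : ℂ} {ρ : ℝ} (hρ : 0 < ρ)
    (hρ0 : ρ < ‖w₀‖) (hdis : Disjoint (closedBall w₀ ρ) E)
    (hmax : ∀ w ∈ sphere w₀ ρ, u w - τ * Real.log ‖w‖ + s * ‖w‖ ^ 2 ≤
      u w₀ - τ * Real.log ‖w₀‖ + s * ‖w₀‖ ^ 2) : False := by
  have hsm := hsub w₀ ρ hρ hdis
  have hne : ∀ w ∈ closedBall w₀ ρ, w ≠ 0 := by
    intro w hw h0
    rw [h0, mem_closedBall, dist_zero_left] at hw
    linarith
  let H : ℂ → ℂ := fun w => -(((2 * s : ℝ) : ℂ) * ((starRingEnd ℂ) w₀ * (w - w₀)))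
  have hH : Differentiable ℂ H := by
    intro w
    fun_prop
  have hav := circleAverage_re_eq hρ (hH.differentiableOn (s := closedBall w₀ ρ))
  have hH0 : (H w₀).re = 0 := by simp [H]
  have hlog : Real.circleAverage (fun w : ℂ => Real.log ‖w‖) w₀ ρ = Real.log ‖w₀‖ := by
    have h1 : AnalyticOnNhd ℂ (fun w : ℂ => w) (closedBall w₀ |ρ|) := fun w _ => analyticAt_id
    refine h1.circleAverage_log_norm_of_ne_zero ?_
    rw [abs_of_pos hρ]
    exact hne
  have hle : ∀ w ∈ sphere w₀ ρ,
      u w ≤ (τ * Real.log ‖w‖ + (H w).re) + (u w₀ - τ * Real.log ‖w₀‖ - s * ρ ^ 2) := by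
    intro w hw
    have h5 := hmax w hw
    have h6 := sphere_norm_sq hw
    have h8 : (H w).re = - (2 * s * ((starRingEnd ℂ) w₀ * (w - w₀)).re) := by
      simp only [H, Complex.neg_re]
      rw [Complex.re_ofReal_mul]
    rw [h8]
    rw [h6] at h5
    nlinarith
  have hui : CircleIntegrable u w₀ ρ := by
    refine circleIntegrable_of_measurable ?_ fun θ => ?_
    · exact (husc.measurable.comp (continuous_circleMap w₀ ρ).measurable).aestronglyMeasurable
    · rw [abs_of_nonneg (h01 _).1]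
      exact (h01 _).2
  have hHi : CircleIntegrable (fun w => (H w).re) w₀ ρ := by
    refine ContinuousOn.circleIntegrable' ?_
    rw [abs_of_pos hρ]
    exact (Complex.continuous_re.comp hH.continuous).continuousOn
  have hLi0 : CircleIntegrable (fun w : ℂ => Real.log ‖w‖) w₀ ρ := by
    refine ContinuousOn.circleIntegrable' ?_
    rw [abs_of_pos hρ]
    intro w hw
    have : ‖w‖ ≠ 0 := norm_ne_zero_iff.2 (hne w (sphere_subset_closedBall hw))
    exact (continuous_norm.continuousAt.log this).continuousWithinAt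
  have hLi : CircleIntegrable (fun w : ℂ => τ * Real.log ‖w‖) w₀ ρ := by
    have := hLi0.const_smul (a := τ)
    exact this
  have hLH : CircleIntegrable (fun w : ℂ => τ * Real.log ‖w‖ + (H w).re) w₀ ρ := hLi.add hHi
  have hci : CircleIntegrable (fun _ : ℂ => (u w₀ - τ * Real.log ‖w₀‖ - s * ρ ^ 2)) w₀ ρ :=
    circleIntegrable_const _ _ _
  have h9 : Real.circleAverage u w₀ ρ ≤
      Real.circleAverage (fun w => (τ * Real.log ‖w‖ + (H w).re) +
        (u w₀ - τ * Real.log ‖w₀‖ - s * ρ ^ 2)) w₀ ρ := by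
    refine Real.circleAverage_mono hui (hLH.add hci) ?_
    rw [abs_of_pos hρ]
    exact hle
  have h11 : Real.circleAverage (fun w : ℂ => τ * Real.log ‖w‖) w₀ ρ = τ * Real.log ‖w₀‖ := by
    have := Real.circleAverage_fun_smul (a := τ) (f := fun w : ℂ => Real.log ‖w‖) (c := w₀) (R := ρ)
    simp only [smul_eq_mul] at this
    rw [this, hlog]
  rw [Real.circleAverage_fun_add hLH hci, Real.circleAverage_fun_add hLi hHi, hav, hH0,
    h11, Real.circleAverage_const] at h9
  have : 0 < s * ρ ^ 2 := by positivity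
  linarith

/-- **Piece G2.** -/
theorem pG2 : S_G2 := by
  intro E u R0 c hE hR0 hER husc h01 hsub hc hbd w0 hw0
  rcases hw0.eq_or_lt with heq | hlt
  · exact hbd w0 heq.symm
  have hw0pos : 0 < ‖w0‖ := hR0.trans hlt
  -- for all τ > 0
  have key : ∀ τ : ℝ, 0 < τ → u w0 ≤ c + τ * (Real.log ‖w0‖ - Real.log R0) := by
    intro τ hτ
    obtain ⟨R, hR, hRw⟩ : ∃ R : ℝ, 1 ≤ τ * (Real.log R - Real.log R0) ∧ ‖w0‖ < R := by
      have h1 : Tendsto (fun R : ℝ => τ * (Real.log R - Real.log R0)) atTop atTop :=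
        Tendsto.const_mul_atTop hτ (tendsto_atTop_add_const_right _ _ Real.tendsto_log_atTop)
      exact ((h1.eventually_ge_atTop 1).and (eventually_gt_atTop ‖w0‖)).exists
    have hRpos : 0 < R := hw0pos.trans hRw
    have step : ∀ s : ℝ, 0 < s → u w0 ≤ c + τ * (Real.log ‖w0‖ - Real.log R0) + s * R ^ 2 := by
      intro s hs
      set A : Set ℂ := {w | R0 ≤ ‖w‖} ∩ closedBall 0 R with hA
      have hAc : IsCompact A :=
        (isCompact_closedBall (0 : ℂ) R).inter_left (isClosed_le continuous_const continuous_norm)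
      have hw0A : w0 ∈ A := ⟨hw0, mem_closedBall_zero_iff.2 hRw.le⟩
      let φ : ℂ → ℝ := fun w => u w + (s * ‖w‖ ^ 2 - τ * Real.log ‖w‖)
      have h2 : ContinuousOn (fun w : ℂ => s * ‖w‖ ^ 2 - τ * Real.log ‖w‖) A := by
        intro w hw
        have hn : ‖w‖ ≠ 0 := (hR0.trans_le hw.1).ne'
        have h3 : ContinuousAt (fun w : ℂ => Real.log ‖w‖) w := continuous_norm.continuousAt.log hn
        have h4 : ContinuousAt (fun w : ℂ => s * ‖w‖ ^ 2) w := by fun_prop
        exact (h4.sub (h3.const_mul τ)).continuousWithinAt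
      have husc' : UpperSemicontinuousOn φ A :=
        (husc.upperSemicontinuousOn A).add h2.upperSemicontinuousOn
      obtain ⟨m, hmA, hmax⟩ := husc'.exists_isMaxOn ⟨w0, hw0A⟩ hAc
      have h0 : φ w0 ≤ φ m := hmax hw0A
      have hmR : ‖m‖ ≤ R := mem_closedBall_zero_iff.1 hmA.2
      have hm2 : s * ‖m‖ ^ 2 ≤ s * R ^ 2 := by gcongr
      have hw2 : 0 ≤ s * ‖w0‖ ^ 2 := by positivity
      simp only [φ] at h0
      rcases (show R0 ≤ ‖m‖ from hmA.1).eq_or_lt with hm0 | hm0
      · -- on the inner circle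
        have h5 := hbd m hm0.symm
        rw [← hm0] at h0
        have h6 : s * R0 ^ 2 ≤ s * R ^ 2 := by rw [← hm0] at hm2; exact hm2
        nlinarith
      · rcases hmR.eq_or_lt with hmR' | hmR'
        · -- on the outer circle
          rw [hmR'] at h0
          have h5 := (h01 m).2
          nlinarith
        · -- interior
          exfalso
          set ρ : ℝ := min (‖m‖ - R0) (R - ‖m‖) / 2 with hρdef
          have hmin : 0 < min (‖m‖ - R0) (R - ‖m‖) := lt_min (by linarith) (by linarith)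
          have hρ : 0 < ρ := by positivity
          have hρ1 : ρ < ‖m‖ - R0 := by
            have := min_le_left (‖m‖ - R0) (R - ‖m‖)
            rw [hρdef]; linarith
          have hρ2 : ρ < R - ‖m‖ := by
            have := min_le_right (‖m‖ - R0) (R - ‖m‖)
            rw [hρdef]; linarith
          have hball : ∀ w ∈ closedBall m ρ, R0 < ‖w‖ ∧ ‖w‖ < R := by
            intro w hw
            have h5 : ‖w - m‖ ≤ ρ := by simpa [dist_eq_norm] using hw
            have h6 : ‖m‖ ≤ ‖w‖ + ‖w - m‖ := by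
              calc ‖m‖ = ‖w - (w - m)‖ := by ring_nf
                _ ≤ _ := norm_sub_le _ _
            have h7 : ‖w‖ ≤ ‖m‖ + ‖w - m‖ := by
              calc ‖w‖ = ‖m + (w - m)‖ := by ring_nf
                _ ≤ _ := norm_add_le _ _
            constructor <;> linarith
          refine no_interior husc h01 hsub (τ := τ) hs hρ (by linarith) ?_ ?_
          · refine Set.disjoint_left.2 fun w hw hwE => ?_
            have h5 := (hball w hw).1
            have h6 : ‖w‖ < R0 := mem_ball_zero_iff.1 (hER hwE)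
            linarith
          · intro w hw
            have h5 := hball w (sphere_subset_closedBall hw)
            have h6 : φ w ≤ φ m := hmax ⟨h5.1.le, mem_closedBall_zero_iff.2 h5.2.le⟩
            simp only [φ] at h6
            linarith
    refine le_of_forall_pos_le_add fun δ hδ => ?_
    have h1 := step (δ / R ^ 2) (by positivity)
    rwa [div_mul_cancel₀ _ (by positivity)] at h1
  have hL : 0 < Real.log ‖w0‖ - Real.log R0 := by
    have := Real.log_lt_log hR0 hlt
    linarith
  refine le_of_forall_pos_le_add fun δ hδ => ?_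
  have h1 := key (δ / (Real.log ‖w0‖ - Real.log R0)) (by positivity)
  rwa [div_mul_cancel₀ _ hL.ne'] at h1

end Pool.Agent.Z55B.PG2
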