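import Pool.Agent.Z55B.Stm2

/-! # G3: dyadic covers of null sets -/

set_option autoImplicit false
open MeasureTheory ProbabilityTheory Set Metric Filter Topology
open scoped NNReal ENNReal

namespace Pool.Agent.Z55B.PG3

/-- covers of a null set (as `Pool.Agent.N673.Mak.exists_cover`) -/
theorem exists_cover {E : Set ℂ} {s : ℝ} (hs : 0 < s) (h : μH[s] E = 0) {δ η : ℝ} (hδ : 0 < δ)
    (hη : 0 < η) : ∃ (t : ℕ → Set ℂ) (l : ℕ → ℝ), E ⊆ ⋃ n, t n ∧
      (∀ n, 0 < l n ∧ l n ≤ δ ∧ ∀ x ∈ t n, ∀ y ∈ t n, dist x y ≤ l n) ∧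
      ∑' n, ENNReal.ofReal (l n ^ s) ≤ ENNReal.ofReal η := by
  rw [Measure.hausdorffMeasure_apply] at h
  have h1 := (ENNReal.iSup_eq_zero.1 h) (ENNReal.ofReal δ)
  have h2 := (ENNReal.iSup_eq_zero.1 h1) (ENNReal.ofReal_pos.2 hδ)
  have h3 : (⨅ (t : ℕ → Set ℂ) (_ : E ⊆ ⋃ n, t n) (_ : ∀ n, ediam (t n) ≤ ENNReal.ofReal δ),
      ∑' n, ⨆ _ : (t n).Nonempty, ediam (t n) ^ s) < ENNReal.ofReal (η / 2) := by
    rw [h2]; exact ENNReal.ofReal_pos.2 (by linarith)
  simp only [iInf_lt_iff] at h3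
  obtain ⟨t, ht1, ht2, ht3⟩ := h3
  have hne : ∀ n, ediam (t n) ≠ ⊤ := fun n => ne_top_of_le_ne_top ENNReal.ofReal_ne_top (ht2 n)
  have h4 : ∀ n, (⨆ _ : (t n).Nonempty, ediam (t n) ^ s) = ediam (t n) ^ s := by
    intro n
    rcases (t n).eq_empty_or_nonempty with h5 | h5
    · rw [h5]
      simp [ENNReal.zero_rpow_of_pos hs]
    · simp [h5]
  simp only [h4] at ht3
  refine ⟨t, fun n => max (ediam (t n)).toReal (min δ ((η / 2 * (1 / 2) ^ (n + 1)) ^ (1 / s))),
    ht1, fun n => ⟨?_, ?_, ?_⟩, ?_⟩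
  · exact lt_max_of_lt_right (lt_min hδ (by positivity))
  · exact max_le (ENNReal.toReal_le_of_le_ofReal hδ.le (ht2 n)) (min_le_left _ _)
  · intro x hx y hy
    refine le_max_of_le_left ?_
    have h5 := edist_le_ediam_of_mem hx hy
    rw [edist_dist] at h5
    exact (ENNReal.ofReal_le_iff_le_toReal (hne n)).1 h5
  · have h5 : ∀ n, ENNReal.ofReal ((max (ediam (t n)).toReal
        (min δ ((η / 2 * (1 / 2) ^ (n + 1)) ^ (1 / s)))) ^ s) ≤
        ediam (t n) ^ s + ENNReal.ofReal (η / 2 * (1 / 2) ^ (n + 1)) := by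
      intro n
      have h6 : (max (ediam (t n)).toReal
        (min δ ((η / 2 * (1 / 2) ^ (n + 1)) ^ (1 / s)))) ^ s ≤
          (ediam (t n)).toReal ^ s + η / 2 * (1 / 2) ^ (n + 1) := by
        rcases le_total (ediam (t n)).toReal (min δ ((η / 2 * (1 / 2) ^ (n + 1)) ^ (1 / s)))
          with h7 | h7
        · rw [max_eq_right h7]
          have h8 : (min δ ((η / 2 * (1 / 2) ^ (n + 1)) ^ (1 / s))) ^ s ≤
              η / 2 * (1 / 2) ^ (n + 1) := by
            calc (min δ ((η / 2 * (1 / 2) ^ (n + 1)) ^ (1 / s))) ^ s ≤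
                ((η / 2 * (1 / 2) ^ (n + 1)) ^ (1 / s)) ^ s :=
                  Real.rpow_le_rpow (by positivity) (min_le_right _ _) hs.le
              _ = η / 2 * (1 / 2) ^ (n + 1) := by
                  rw [← Real.rpow_mul (by positivity), one_div_mul_cancel hs.ne', Real.rpow_one]
          have : 0 ≤ (ediam (t n)).toReal ^ s := by positivity
          linarith
        · rw [max_eq_left h7]
          have : 0 ≤ η / 2 * (1 / 2) ^ (n + 1) := by positivity
          linarith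
      refine (ENNReal.ofReal_le_ofReal h6).trans ?_
      rw [ENNReal.ofReal_add (by positivity) (by positivity),
        ← ENNReal.ofReal_rpow_of_nonneg ENNReal.toReal_nonneg hs.le, ENNReal.ofReal_toReal (hne n)]
    refine (ENNReal.tsum_le_tsum h5).trans ?_
    rw [ENNReal.tsum_add]
    have h6 : ∑' n : ℕ, ENNReal.ofReal (η / 2 * (1 / 2) ^ (n + 1)) = ENNReal.ofReal (η / 2) := by
      rw [← ENNReal.ofReal_tsum_of_nonneg (fun n => by positivity)]
      · congr 1
        rw [tsum_mul_left]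
        have : ∑' n : ℕ, (1 / 2 : ℝ) ^ (n + 1) = 1 := by
          simp only [pow_succ]
          rw [tsum_mul_right, tsum_geometric_two]
          norm_num
        rw [this, mul_one]
      · exact ((summable_nat_add_iff 1).2
          (summable_geometric_of_lt_one (by norm_num) (by norm_num : (1 / 2 : ℝ) < 1))).mul_left _
    rw [h6]
    refine (add_le_add_left ht3.le _).trans ?_
    rw [← ENNReal.ofReal_add (by linarith) (by linarith)]
    apply ENNReal.ofReal_le_ofReal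
    linarith

end Pool.Agent.Z55B.PG3

namespace Pool.Agent.Z55B

theorem pG3 : S_G3 := by
  intro E s hE hne hs hμ η δ hη hδ
  set δ' : ℝ := min (δ / 4) (1 / 4) with hδ'
  have hδ'0 : 0 < δ' := lt_min (by linarith) (by norm_num)
  set η' : ℝ := η / 4 ^ s with hη'
  have h4s : (0 : ℝ) < 4 ^ s := by positivity
  have hη'0 : 0 < η' := by positivity
  obtain ⟨t, l, hcov, hl, hsum⟩ := PG3.exists_cover hs hμ hδ'0 hη'0
  obtain ⟨e0, he0⟩ := hne
  have hx : ∀ n, ∃ x ∈ E, t n ∩ E ⊆ ball x (2 * l n) := by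
    intro n
    rcases (t n ∩ E).eq_empty_or_nonempty with h | ⟨x, hx⟩
    · exact ⟨e0, he0, by rw [h]; exact empty_subset _⟩
    · refine ⟨x, hx.2, fun y hy => ?_⟩
      have := (hl n).2.2 y hy.1 x hx.1
      rw [mem_ball]
      linarith [(hl n).1]
  choose x hxE hxb using hx
  have hk : ∀ n, ∃ k : ℕ, (1 / 2 : ℝ) ^ (k + 1) < 2 * l n ∧ 2 * l n ≤ (1 / 2 : ℝ) ^ k := by
    intro n
    have h1 : 2 * l n ≤ 1 := by
      have : l n ≤ 1 / 4 := (hl n).2.1.trans (min_le_right _ _)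
      linarith
    exact exists_nat_pow_near_of_lt_one (by linarith [(hl n).1]) h1 (by norm_num) (by norm_num)
  choose k hk1 hk2 using hk
  have hk3 : ∀ n, (1 / 2 : ℝ) ^ (k n) ≤ 4 * l n := by
    intro n
    have := hk1 n
    rw [pow_succ] at this
    linarith
  have hcov2 : E ⊆ ⋃ n, ball (x n) (2 * l n) := by
    intro e he
    obtain ⟨n, hn⟩ := mem_iUnion.1 (hcov he)
    exact mem_iUnion.2 ⟨n, hxb n ⟨hn, he⟩⟩
  obtain ⟨F, hF⟩ := hE.elim_finite_subcover (fun n => ball (x n) (2 * l n))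
    (fun n => isOpen_ball) hcov2
  refine ⟨F.image k, fun j => (F.filter (fun n => k n = j)).image x, ?_, ?_⟩
  · intro j hj
    obtain ⟨n, hnF, hnj⟩ := Finset.mem_image.1 hj
    refine ⟨⟨x n, Finset.mem_image.2 ⟨n, Finset.mem_filter.2 ⟨hnF, hnj⟩, rfl⟩⟩, ?_, ?_, ?_⟩
    · intro y hy
      obtain ⟨m, _, rfl⟩ := Finset.mem_image.1 hy
      exact hxE m
    · rw [← hnj]
      refine (hk3 n).trans ?_
      have : l n ≤ δ / 4 := (hl n).2.1.trans (min_le_left _ _)
      linarith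
    · have hcard : ((((F.filter (fun n => k n = j)).image x).card : ℕ) : ℝ) ≤
          ((F.filter (fun n => k n = j)).card : ℝ) := by
        exact_mod_cast Finset.card_image_le
      have hpos : (0 : ℝ) ≤ ((1 / 2 : ℝ) ^ j) ^ s := by positivity
      have hterm : ∀ n, ((1 / 2 : ℝ) ^ (k n)) ^ s ≤ 4 ^ s * (l n) ^ s := by
        intro n
        rw [← Real.mul_rpow (by norm_num) (hl n).1.le]
        exact Real.rpow_le_rpow (by positivity) (hk3 n) hs.le
      calc ((((F.filter (fun n => k n = j)).image x).card : ℕ) : ℝ) * ((1 / 2 : ℝ) ^ j) ^ s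
          ≤ ((F.filter (fun n => k n = j)).card : ℝ) * ((1 / 2 : ℝ) ^ j) ^ s :=
            mul_le_mul_of_nonneg_right hcard hpos
        _ = ∑ n ∈ F.filter (fun n => k n = j), ((1 / 2 : ℝ) ^ j) ^ s := by
            rw [Finset.sum_const, nsmul_eq_mul]
        _ = ∑ n ∈ F.filter (fun n => k n = j), ((1 / 2 : ℝ) ^ (k n)) ^ s := by
            refine Finset.sum_congr rfl fun n hn => ?_
            rw [(Finset.mem_filter.1 hn).2]
        _ ≤ ∑ n ∈ F, ((1 / 2 : ℝ) ^ (k n)) ^ s :=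
            Finset.sum_le_sum_of_subset_of_nonneg (Finset.filter_subset _ _)
              (fun n _ _ => by positivity)
        _ ≤ ∑ n ∈ F, 4 ^ s * (l n) ^ s := Finset.sum_le_sum fun n _ => hterm n
        _ = 4 ^ s * ∑ n ∈ F, (l n) ^ s := by rw [Finset.mul_sum]
        _ ≤ 4 ^ s * η' := by
            refine mul_le_mul_of_nonneg_left ?_ h4s.le
            have h5 : ENNReal.ofReal (∑ n ∈ F, (l n) ^ s) ≤ ENNReal.ofReal η' := by
              rw [ENNReal.ofReal_sum_of_nonneg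
                (fun n _ => Real.rpow_nonneg (hl n).1.le s)]
              exact (ENNReal.sum_le_tsum F).trans hsum
            exact (ENNReal.ofReal_le_ofReal_iff hη'0.le).1 h5
        _ = η := by
            rw [hη']; field_simp
  · intro e he
    obtain ⟨n, hn⟩ := mem_iUnion.1 (hF he)
    obtain ⟨hnF, hn2⟩ := mem_iUnion.1 hn
    refine ⟨k n, Finset.mem_image.2 ⟨n, hnF, rfl⟩, x n,
      Finset.mem_image.2 ⟨n, Finset.mem_filter.2 ⟨hnF, rfl⟩, rfl⟩, ?_⟩
    exact (mem_ball.1 hn2).le.trans (hk2 n)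

end Pool.Agent.Z55B
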