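import Pool.Agent.Z55B.E7
import Pool.Agent.Z55B.Stm2

/-! # G4: the maximum principle -/

set_option autoImplicit false

namespace Pool.Agent.Z55B

open Complex Metric Set Filter Topology MeasureTheory
open Pool.Agent.W677.Mar (pt lam bloch_exp norm_pt pt_periodic continuous_pt norm_pt_sub lam_pos)
open scoped NNReal ENNReal

/-- the potential at a small distance from one of the points -/
theorem Tx_near {q a r : ℝ} (hq : 0 ≤ q) (hq1 : q ≤ 1) (ha : 0 < a) (hr : 0 < r) {E : Set ℂ} {x w : ℂ}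
    (hne : w ≠ x) (hw : ‖w - x‖ ≤ 2 * r) : 1 / 4 ≤ Tx q a r E x w := by
  have hd := infDist_nonneg (x := w) (s := E)
  have hx : 0 < ‖w - x‖ := norm_pos_iff.2 (sub_ne_zero.2 hne)
  unfold Tx
  have h1 : (2 * r) ^ (-(q + 1 / 8)) ≤ ‖w - x‖ ^ (-(q + 1 / 8)) :=
    Real.rpow_le_rpow_of_nonpos hx hw (by linarith)
  have h2 : r ^ (1 / 8 : ℝ) ≤ (r ^ a + infDist w E ^ a) ^ (1 / (8 * a)) := by
    calc r ^ (1 / 8 : ℝ) = (r ^ a) ^ (1 / (8 * a)) := by
          rw [← Real.rpow_mul hr.le]; congr 1; field_simp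
      _ ≤ _ := by
          apply Real.rpow_le_rpow (by positivity) _ (by positivity)
          have : 0 ≤ infDist w E ^ a := by positivity
          linarith
  calc (1 / 4 : ℝ) ≤ 2 ^ (-(q + 1 / 8)) := by
        have := Real.rpow_le_rpow_of_exponent_le (x := 2) (by norm_num) (y := -2)
          (z := -(q + 1 / 8)) (by linarith)
        rw [Real.rpow_neg (by norm_num)] at this
        norm_num at this ⊢
        linarith
    _ = r ^ q * (2 * r) ^ (-(q + 1 / 8)) * r ^ (1 / 8 : ℝ) := by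
        rw [Real.mul_rpow (by norm_num) hr.le]
        have : r ^ q * (2 ^ (-(q + 1 / 8)) * r ^ (-(q + 1 / 8))) * r ^ (1 / 8 : ℝ) =
            2 ^ (-(q + 1 / 8)) * (r ^ q * r ^ (-(q + 1 / 8)) * r ^ (1 / 8 : ℝ)) := by ring
        rw [this, ← Real.rpow_add hr, ← Real.rpow_add hr,
          show q + -(q + 1 / 8) + 1 / 8 = (0 : ℝ) by ring, Real.rpow_zero, mul_one]
    _ ≤ _ := by
        apply mul_le_mul _ h2 (by positivity) (by positivity)
        exact mul_le_mul_of_nonneg_left h1 (by positivity)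

/-- the potential at a fixed point, small radius -/
theorem Ux_far {q a r δ : ℝ} (hq : 0 ≤ q) (ha : 0 < a) (hr : 0 < r) (hδ : 0 < δ) (hrδ : r ≤ δ)
    {E : Set ℂ} {J : Finset ℂ} (hJ : ∀ x ∈ J, x ∈ E) {w : ℂ} (hw : infDist w E = δ) :
    Ux q a r J E w ≤ (2 ^ (1 / (8 * a)) * δ ^ (-q)) * (J.card * r ^ q) := by
  have hterm : ∀ x ∈ J, Tx q a r E x w ≤ (2 ^ (1 / (8 * a)) * δ ^ (-q)) * r ^ q := by
    intro x hx
    have h1 : δ ≤ ‖w - x‖ := by
      rw [← hw, ← dist_eq_norm]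
      exact infDist_le_dist_of_mem (hJ x hx)
    unfold Tx
    rw [hw]
    have h2 : ‖w - x‖ ^ (-(q + 1 / 8)) ≤ δ ^ (-(q + 1 / 8)) :=
      Real.rpow_le_rpow_of_nonpos hδ h1 (by linarith)
    have h3 : (r ^ a + δ ^ a) ^ (1 / (8 * a)) ≤ 2 ^ (1 / (8 * a)) * δ ^ (1 / 8 : ℝ) := by
      calc (r ^ a + δ ^ a) ^ (1 / (8 * a)) ≤ (2 * δ ^ a) ^ (1 / (8 * a)) := by
            apply Real.rpow_le_rpow (by positivity) _ (by positivity)
            have := Real.rpow_le_rpow hr.le hrδ ha.le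
            linarith
        _ = _ := by
            rw [Real.mul_rpow (by norm_num) (by positivity), ← Real.rpow_mul hδ.le]
            congr 2
            field_simp
    calc r ^ q * ‖w - x‖ ^ (-(q + 1 / 8)) * (r ^ a + δ ^ a) ^ (1 / (8 * a))
        ≤ r ^ q * δ ^ (-(q + 1 / 8)) * (2 ^ (1 / (8 * a)) * δ ^ (1 / 8 : ℝ)) := by
          apply mul_le_mul _ h3 (by positivity) (by positivity)
          exact mul_le_mul_of_nonneg_left h2 (by positivity)
      _ = (2 ^ (1 / (8 * a)) * (δ ^ (-(q + 1 / 8)) * δ ^ (1 / 8 : ℝ))) * r ^ q := by ring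
      _ = _ := by
          rw [← Real.rpow_add hδ]
          congr 3
          ring
  unfold Ux
  refine (Finset.sum_le_sum hterm).trans (le_of_eq ?_)
  rw [Finset.sum_const, nsmul_eq_mul]
  ring

theorem Ux_contOn {q a r : ℝ} (ha : 0 < a) (hr : 0 < r) {E : Set ℂ} {J : Finset ℂ}
    (hJ : ∀ x ∈ J, x ∈ E) : ContinuousOn (Ux q a r J E) Eᶜ := by
  unfold Ux
  refine continuousOn_finset_sum _ fun x hx => ?_
  unfold Tx
  have h1 : ContinuousOn (fun w : ℂ => ‖w - x‖ ^ (-(q + 1 / 8))) Eᶜ := by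
    refine ((continuous_id.sub continuous_const).norm).continuousOn.rpow_const fun w hw => ?_
    left
    have : w ≠ x := fun h => hw (h ▸ hJ x hx)
    exact (norm_pos_iff.2 (sub_ne_zero.2 this)).ne'
  have h2 : Continuous fun w : ℂ => r ^ a + infDist w E ^ a := by
    refine continuous_const.add ?_
    exact (continuous_infDist_pt E).rpow_const fun w => Or.inr ha.le
  have h3 : Continuous fun w : ℂ => (r ^ a + infDist w E ^ a) ^ (1 / (8 * a)) :=
    h2.rpow_const fun w => Or.inr (by positivity)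
  exact (continuousOn_const.mul h1).mul h3.continuousOn

/-- **The maximum principle.** -/
theorem pZ (hB : S_B) (hC : S_C) (hD : S_D) (hH : S_H) (hF : S_F) (hG1 : S_G1) (hG2 : S_G2)
    (hG3 : S_G3) : S_Z := by
  intro E hE hnt hdim μ hμ
  have hprob := hμ.prob
  have hpi := Real.pi_pos
  have hEc : IsClosed E := hE.isClosed
  have hEne : E.Nonempty := hnt.nonempty
  obtain ⟨husc, hsub, hdich⟩ := hB μ hμ E hE
  set u : ℂ → ℝ := uu μ E with hu
  have hu01 : ∀ w, 0 ≤ u w ∧ u w ≤ 1 := fun w => ⟨measureReal_nonneg, measureReal_le_one⟩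
  -- lattice loops
  have hloop : ∀ N : ℕ, ∃ c : ℝ, 0 < c ∧ ∀ (v : ℂ) (h : ℝ) (n : ℕ) (p : ℕ → ℂ), 0 < h → n ≤ N →
      Loop E v h n p → u v ≤ 1 - c := by
    intro N
    obtain ⟨c, hc, hc2⟩ := hC N
    refine ⟨c, hc, fun v h n p h0 hn hL => ?_⟩
    have h1 := hc2 μ hμ E hE v h n p h0 hn hL
    have hcont : Continuous (mv v) := by
      refine ContinuousMap.continuous_of_continuous_uncurry _ ?_
      show Continuous fun q : Pth × ℝ≥0 => v + q.1 q.2
      fun_prop
    have hopen : IsOpen {x : Pth | mv v x ∈ Cert E} :=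
      (isOpen_iUnion fun T => isOpen_interior).preimage hcont
    have h2 : μ.real {x | mv v x ∈ Cert E} + μ.real {x | mv v x ∈ Cert E}ᶜ = 1 :=
      probReal_add_probReal_compl hopen.measurableSet
    have h3 : u v = μ.real {x | mv v x ∈ Cert E}ᶜ := rfl
    linarith
  have hlt : ∀ v, v ∉ E → u v < 1 := by
    intro v hv
    obtain ⟨h, n, p, h0, hL⟩ := hH E hE hnt hdim v hv
    obtain ⟨c, hc, hc2⟩ := hloop n
    have := hc2 v h n p h0 le_rfl hL
    linarith
  -- the exponents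
  obtain ⟨s, hs1, hs2⟩ : ∃ s : ℝ≥0, max (dimH E) (1 / 2) < s ∧ (s : ℝ≥0∞) < 1 := by
    apply ENNReal.lt_iff_exists_nnreal_btwn.1
    apply max_lt hdim
    rw [one_div]
    exact ENNReal.inv_lt_one.2 (by norm_num)
  have hsE : μH[(s : ℝ)] E = 0 := hausdorffMeasure_of_dimH_lt ((le_max_left _ _).trans_lt hs1)
  have hs12 : (1 / 2 : ℝ) < s := by
    have h1 : (1 / 2 : ℝ≥0∞) < s := (le_max_right _ _).trans_lt hs1
    have h2 := (ENNReal.toReal_lt_toReal (by simp) ENNReal.coe_ne_top).2 h1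
    simpa using h2
  have hs1' : (s : ℝ) < 1 := by exact_mod_cast hs2
  set q : ℝ := (1 + s) / 2 with hq
  have hq34 : 3 / 4 ≤ q := by rw [hq]; linarith
  have hq1 : q < 1 := by rw [hq]; linarith
  have hqs : 0 < q - s := by rw [hq]; linarith
  obtain ⟨η, K, l, a, α, u0, hη, hη2, hK, hl, hl1, ha, hα, hα1, hu0, H⟩ := one_step hq34 hq1
  -- the constants
  obtain ⟨N, hN⟩ := hD (20 * K / η) (by positivity)
  obtain ⟨c1, hc1, hc1'⟩ := hloop N
  obtain ⟨e1, he1, e2, he2, he12⟩ := hnt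
  set d0 : ℝ := dist e1 e2 with hd0
  have hd00 : 0 < d0 := dist_pos.2 he12
  set ρ0 : ℝ := d0 / (4 * K) with hρ0
  have hρ00 : 0 < ρ0 := by positivity
  obtain ⟨R0, hR0, hER⟩ : ∃ R0 : ℝ, 0 < R0 ∧ E ⊆ ball 0 R0 := by
    obtain ⟨R, hR⟩ := hE.isBounded.subset_ball 0
    exact ⟨max R 1, by positivity, hR.trans (ball_subset_ball (le_max_left _ _))⟩
  set C0 : Set ℂ := ({w | ρ0 ≤ infDist w E} ∩ closedBall 0 R0) ∪ sphere 0 R0 with hC0
  have hC0c : IsCompact C0 := by
    apply IsCompact.union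
    · exact (isCompact_closedBall 0 R0).inter_left
        (isClosed_le continuous_const (continuous_infDist_pt E))
    · exact isCompact_sphere 0 R0
  have hC0E : ∀ w ∈ C0, w ∉ E := by
    rintro w (⟨hw, -⟩ | hw) hwE
    · have h1 : ρ0 ≤ infDist w E := hw
      rw [infDist_zero_of_mem hwE] at h1
      linarith
    · have h1 := hER hwE
      rw [mem_ball_zero_iff] at h1
      rw [mem_sphere_zero_iff_norm] at hw
      linarith
  have hC0ne : C0.Nonempty := ⟨(R0 : ℂ), Or.inr (by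
    rw [mem_sphere_zero_iff_norm, Complex.norm_real, Real.norm_of_nonneg hR0.le])⟩
  obtain ⟨w0, hw0, hw0max⟩ := (husc.upperSemicontinuousOn C0).exists_isMaxOn hC0ne hC0c
  set c0 : ℝ := 1 - u w0 with hc0
  have hc00 : 0 < c0 := by
    have := hlt w0 (hC0E w0 hw0)
    rw [hc0]; linarith
  have hC0u : ∀ w ∈ C0, u w ≤ 1 - c0 := by
    intro w hw
    have h1 : u w ≤ u w0 := hw0max hw
    rw [hc0]; linarith
  have hc01 : c0 ≤ 1 := by
    have := (hu01 w0).1
    rw [hc0]; linarith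
  have hext : ∀ w, R0 ≤ ‖w‖ → u w ≤ 1 - c0 :=
    hG2 E u R0 (1 - c0) hEc hR0 hER husc hu01 hsub (by linarith)
      (fun w hw => hC0u w (Or.inr (mem_sphere_zero_iff_norm.2 hw)))
  -- contradiction
  by_contra hcon
  push Not at hcon
  obtain ⟨v1, hv1, hv1u⟩ := hcon
  have hv1pos : 0 < u v1 := lt_of_le_of_ne (hu01 v1).1 (Ne.symm hv1u)
  set ε1 : ℝ := min c0 c1 / 2 with hε1
  have hε10 : 0 < ε1 := by positivity
  have hε1c0 : ε1 < c0 := by
    have := min_le_left c0 c1
    rw [hε1]; linarith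
  have hε1c1 : ε1 < c1 := by
    have := min_le_right c0 c1
    rw [hε1]; linarith
  obtain ⟨v0, hv0, hv0u⟩ := hdich ⟨v1, hv1, hv1pos⟩ (ε1 / 2) (by positivity)
  set δ0 : ℝ := infDist v0 E with hδ0
  have hδ00 : 0 < δ0 := (hEc.notMem_iff_infDist_pos hEne).1 hv0
  set C1 : ℝ := max 4 (u0 ^ (-α)) with hC1
  have hC14 : 4 ≤ C1 := le_max_left _ _
  have hC10 : 0 < C1 := by linarith
  set lam0 : ℝ := (1 / 2 : ℝ) ^ (α * (q - s)) with hlam
  have hlam0 : 0 < lam0 := by positivity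
  have hlam1 : lam0 < 1 := Real.rpow_lt_one (by norm_num) (by norm_num) (by positivity)
  set A : ℝ := 2 ^ (1 / (8 * a)) * δ0 ^ (-q) with hA
  have hA0 : 0 < A := by positivity
  set B : ℝ := ε1 * (1 - lam0) / (4 * C1) with hBd
  have hB0 : 0 < B := by
    have : 0 < 1 - lam0 := by linarith
    positivity
  set η0 : ℝ := B ^ (1 / α) / A with hη0
  have hη00 : 0 < η0 := by positivity
  obtain ⟨KK, J, hJ, hcov⟩ := hG3 E s hE hEne (by linarith) hsE η0 δ0 hη00 hδ00
  set F : ℂ → ℝ := fun w => C1 * ∑ k ∈ KK, Ux q a ((1 / 2) ^ k) (J k) E w ^ α with hFd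
  have hrk : ∀ k : ℕ, (0 : ℝ) < (1 / 2) ^ k := fun k => by positivity
  have hUn : ∀ k w, 0 ≤ Ux q a ((1 / 2) ^ k) (J k) E w := fun k w =>
    Ux_nonneg q a (hrk k).le _ E w
  have hF0 : ∀ w, 0 ≤ F w := by
    intro w
    apply mul_nonneg hC10.le
    exact Finset.sum_nonneg fun k _ => Real.rpow_nonneg (hUn k w) α
  have hFk : ∀ k ∈ KK, ∀ w, C1 * Ux q a ((1 / 2) ^ k) (J k) E w ^ α ≤ F w := by
    intro k hk w
    apply mul_le_mul_of_nonneg_left _ hC10.le
    exact Finset.single_le_sum (f := fun k => Ux q a ((1 / 2) ^ k) (J k) E w ^ α)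
      (fun k _ => Real.rpow_nonneg (hUn k w) α) hk
  have hFc : ContinuousOn F Eᶜ := by
    refine continuousOn_const.mul (continuousOn_finset_sum _ fun k hk => ?_)
    exact (Ux_contOn ha (hrk k) (hJ k hk).2.1).rpow_const fun w _ => Or.inr hα.le
  have hKKne : KK.Nonempty := by
    obtain ⟨e, he⟩ := hEne
    obtain ⟨k, hk, -⟩ := hcov e he
    exact ⟨k, hk⟩
  -- small radius
  obtain ⟨kmax, hkmax, hkm⟩ := KK.exists_max_image id hKKne
  set rm : ℝ := (1 / 2) ^ kmax with hrm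
  have hrm0 : 0 < rm := hrk kmax
  have hrmk : ∀ k ∈ KK, rm ≤ (1 / 2 : ℝ) ^ k := fun k hk =>
    pow_le_pow_of_le_one (by norm_num) (by norm_num) (hkm k hk)
  have hFnear : ∀ w, w ∉ E → infDist w E ≤ rm → 1 ≤ F w := by
    intro w hw hwr
    obtain ⟨e, he, hwe⟩ := hEc.exists_infDist_eq_dist hEne w
    obtain ⟨k, hk, x, hx, hex⟩ := hcov e he
    have h1 : ‖w - x‖ ≤ 2 * (1 / 2 : ℝ) ^ k := by
      rw [← dist_eq_norm]
      calc dist w x ≤ dist w e + dist e x := dist_triangle _ _ _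
        _ ≤ rm + (1 / 2 : ℝ) ^ k := by rw [← hwe]; linarith
        _ ≤ _ := by linarith [hrmk k hk]
    have hne : w ≠ x := fun h => hw (h ▸ (hJ k hk).2.1 x hx)
    have h2 : 1 / 4 ≤ Ux q a ((1 / 2) ^ k) (J k) E w :=
      (Tx_near (by linarith) hq1.le ha (hrk k) hne h1).trans
        (Finset.single_le_sum (f := fun x => Tx q a ((1 / 2) ^ k) E x w)
          (fun y _ => Tx_nonneg q a (hrk k).le E y w) hx)
    have h3 : (1 / 4 : ℝ) ≤ Ux q a ((1 / 2) ^ k) (J k) E w ^ α := by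
      calc (1 / 4 : ℝ) = (1 / 4 : ℝ) ^ (1 : ℝ) := (Real.rpow_one _).symm
        _ ≤ (1 / 4 : ℝ) ^ α := Real.rpow_le_rpow_of_exponent_ge (by norm_num) (by norm_num) hα1
        _ ≤ _ := Real.rpow_le_rpow (by norm_num) h2 hα.le
    calc (1 : ℝ) = 4 * (1 / 4) := by norm_num
      _ ≤ C1 * Ux q a ((1 / 2) ^ k) (J k) E w ^ α :=
          mul_le_mul hC14 h3 (by norm_num) hC10.le
      _ ≤ F w := hFk k hk w
  -- the value at `v0`
  have hFv0 : F v0 ≤ ε1 / 4 := by
    have h1 : ∀ k ∈ KK, Ux q a ((1 / 2) ^ k) (J k) E v0 ^ α ≤ B * lam0 ^ k := by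
      intro k hk
      obtain ⟨-, hJE, hkδ, hcard⟩ := hJ k hk
      have h2 := Ux_far (q := q) (by linarith) ha (hrk k) hδ00 hkδ hJE rfl
      have h3 : ((J k).card : ℝ) * ((1 / 2 : ℝ) ^ k) ^ q ≤ η0 * ((1 / 2 : ℝ) ^ k) ^ (q - s) := by
        have h4 : ((1 / 2 : ℝ) ^ k) ^ q = ((1 / 2 : ℝ) ^ k) ^ (s : ℝ) * ((1 / 2 : ℝ) ^ k) ^ (q - s) := by
          rw [← Real.rpow_add (hrk k)]; congr 1; ring
        rw [h4, ← mul_assoc]
        exact mul_le_mul_of_nonneg_right hcard (by positivity)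
      have h5 : Ux q a ((1 / 2) ^ k) (J k) E v0 ≤ A * (η0 * ((1 / 2 : ℝ) ^ k) ^ (q - s)) :=
        h2.trans (mul_le_mul_of_nonneg_left h3 hA0.le)
      calc Ux q a ((1 / 2) ^ k) (J k) E v0 ^ α ≤ (A * (η0 * ((1 / 2 : ℝ) ^ k) ^ (q - s))) ^ α :=
            Real.rpow_le_rpow (hUn k v0) h5 hα.le
        _ = (B ^ (1 / α) * ((1 / 2 : ℝ) ^ k) ^ (q - s)) ^ α := by
            rw [hη0]
            congr 1
            field_simp
        _ = B * lam0 ^ k := by
            rw [Real.mul_rpow (by positivity) (by positivity), ← Real.rpow_mul hB0.le,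
              one_div_mul_cancel hα.ne', Real.rpow_one, hlam, ← Real.rpow_natCast,
              ← Real.rpow_natCast, ← Real.rpow_mul (by norm_num), ← Real.rpow_mul (by norm_num),
              ← Real.rpow_mul (by norm_num)]
            congr 2
            ring
    have h6 : ∑ k ∈ KK, Ux q a ((1 / 2) ^ k) (J k) E v0 ^ α ≤ B * (1 - lam0)⁻¹ := by
      refine (Finset.sum_le_sum h1).trans ?_
      rw [← Finset.mul_sum]
      apply mul_le_mul_of_nonneg_left _ hB0.le
      have hg := hasSum_geometric_of_lt_one hlam0.le hlam1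
      exact sum_le_hasSum KK (fun k _ => by positivity) hg
    calc F v0 ≤ C1 * (B * (1 - lam0)⁻¹) := mul_le_mul_of_nonneg_left h6 hC10.le
      _ = ε1 / 4 := by
          rw [hBd]
          have : 1 - lam0 ≠ 0 := by linarith
          field_simp
  -- the maximum
  set C2 : Set ℂ := {w | rm ≤ infDist w E} ∩ closedBall 0 R0 with hC2
  have hC2c : IsCompact C2 := (isCompact_closedBall 0 R0).inter_left
    (isClosed_le continuous_const (continuous_infDist_pt E))
  have hC2E : C2 ⊆ Eᶜ := by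
    rintro w ⟨hw, -⟩ hwE
    have h1 : rm ≤ infDist w E := hw
    rw [infDist_zero_of_mem hwE] at h1
    linarith
  have hv0C : v0 ∈ C2 := by
    refine ⟨?_, ?_⟩
    · obtain ⟨k, hk⟩ := hKKne
      exact (hrmk k hk).trans (hJ k hk).2.2.1
    · rw [mem_closedBall_zero_iff]
      by_contra h
      rw [not_le] at h
      have := hext v0 h.le
      linarith
  have hΦ : UpperSemicontinuousOn (fun w => u w + -F w) C2 :=
    (husc.upperSemicontinuousOn C2).add ((hFc.mono hC2E).neg.upperSemicontinuousOn)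
  obtain ⟨vs, hvs, hvsmax⟩ := hΦ.exists_isMaxOn ⟨v0, hv0C⟩ hC2c
  have hmax0 : u v0 + -F v0 ≤ u vs + -F vs := hvsmax hv0C
  have hm1 : 1 - ε1 < u vs - F vs := by linarith
  have hmall : ∀ w, w ∉ E → u w - F w ≤ u vs - F vs := by
    intro w hw
    by_cases h1 : w ∈ C2
    · have : u w + -F w ≤ u vs + -F vs := hvsmax h1
      linarith
    · by_cases h2 : rm ≤ infDist w E
      · have h3 : R0 < ‖w‖ := by
          by_contra h
          exact h1 ⟨h2, mem_closedBall_zero_iff.2 (not_lt.1 h)⟩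
        have h4 := hext w h3.le
        have h5 := hF0 w
        linarith
      · have h3 := hFnear w hw (not_le.1 h2).le
        have h4 := (hu01 w).2
        have h5 : c0 ≤ 1 := hc01
        linarith
  have hvsE : vs ∉ E := hC2E hvs
  have hvsu : 1 - ε1 < u vs := by linarith [hF0 vs]
  have hvsF : F vs < 1 := by
    have h1 := (hu01 vs).2
    have h2 : ε1 < 1 := by linarith
    linarith
  set δ : ℝ := infDist vs E with hδ
  have hδ0' : 0 < δ := (hEc.notMem_iff_infDist_pos hEne).1 hvsE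
  have hδρ : δ < ρ0 := by
    by_contra h
    rw [not_lt] at h
    have := hC0u vs (Or.inl ⟨h, hvs.2⟩)
    linarith
  -- a far point
  have hKδ : 2 * (K * δ) < d0 := by
    have h1 : K * δ < K * ρ0 := mul_lt_mul_of_pos_left hδρ (by linarith)
    have h2 : K * ρ0 = d0 / 4 := by
      rw [hρ0]; field_simp
    linarith
  obtain ⟨ef, hef, hefd⟩ : ∃ e ∈ E, K * δ < dist e vs := by
    by_contra h
    push Not at h
    have h1 := h e1 he1
    have h2 := h e2 he2
    have h3 := dist_triangle_right e1 e2 vs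
    linarith
  have hWconn : IsConnected (Wd E vs (η * δ / 20) (K * δ))ᶜ := by
    refine hG1 E vs (η * δ / 20) (K * δ) ef hEc (by positivity) ?_ (by positivity) hef hefd ?_
    · rw [← hδ]
      have : 20 * (η * δ / 20) = η * δ := by ring
      rw [this]
      nlinarith
    · intro A' B' hA' hB' hAB hU hAE hBE
      have hR : 20 * K / η * (η * δ / 20) = K * δ := by field_simp
      obtain ⟨n, hn, p, hL⟩ := hN E vs (η * δ / 20) hEc (by positivity) (by
        rw [← hδ]
        have : 20 * (η * δ / 20) = η * δ := by ring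
        rw [this]
        nlinarith) A' B' hA' hB' hAB (by rw [hR]; exact hU) hAE hBE
      have := hc1' vs (η * δ / 20) n p (by positivity) hn hL
      linarith
  obtain ⟨f, hf, hinj, hf0, hfE, hone⟩ := H E vs δ hEc hEne hδ0' rfl hWconn
  -- the potential decreases
  have hstep : ∀ k ∈ KK, ∫ θ in Ioc 0 (2 * Real.pi),
      Ux q a ((1 / 2) ^ k) (J k) E (f (pt (1 - l) θ)) ^ α <
      2 * Real.pi * Ux q a ((1 / 2) ^ k) (J k) E vs ^ α := by
    intro k hk
    refine hone (J k) _ (hrk k) (hJ k hk).1 (hJ k hk).2.1 ?_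
    by_contra h
    rw [not_le] at h
    have h1 : u0 ^ α < Ux q a ((1 / 2) ^ k) (J k) E vs ^ α := Real.rpow_lt_rpow hu0.le h hα
    have h2 : u0 ^ (-α) ≤ C1 := le_max_right _ _
    have h3 : 1 ≤ C1 * u0 ^ α := by
      calc (1 : ℝ) = u0 ^ (-α) * u0 ^ α := by
            rw [← Real.rpow_add hu0, neg_add_cancel, Real.rpow_zero]
        _ ≤ C1 * u0 ^ α := mul_le_mul_of_nonneg_right h2 (by positivity)
    have h4 : C1 * u0 ^ α < C1 * Ux q a ((1 / 2) ^ k) (J k) E vs ^ α :=
      mul_lt_mul_of_pos_left h1 hC10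
    have h5 := hFk k hk vs
    linarith
  have hball : ∀ θ : ℝ, pt (1 - l) θ ∈ ball (0 : ℂ) 1 := fun θ => by
    rw [mem_ball_zero_iff, norm_pt _ θ (by linarith)]; linarith
  have hwc : Continuous fun θ : ℝ => f (pt (1 - l) θ) :=
    hf.continuousOn.comp_continuous (continuous_pt _) hball
  have hFwc : Continuous fun θ : ℝ => F (f (pt (1 - l) θ)) :=
    hFc.comp_continuous hwc fun θ => hfE _ (hball θ)
  have hFint : ∫ θ in Ioc 0 (2 * Real.pi), F (f (pt (1 - l) θ)) < 2 * Real.pi * F vs := by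
    simp only [hFd]
    rw [integral_const_mul, integral_finsetSum]
    · have h1 : ∑ k ∈ KK, ∫ θ in Ioc 0 (2 * Real.pi),
          Ux q a ((1 / 2) ^ k) (J k) E (f (pt (1 - l) θ)) ^ α <
          ∑ k ∈ KK, 2 * Real.pi * Ux q a ((1 / 2) ^ k) (J k) E vs ^ α :=
        Finset.sum_lt_sum_of_nonempty hKKne hstep
      rw [← Finset.mul_sum] at h1
      have h2 := mul_lt_mul_of_pos_left h1 hC10
      linarith
    · intro k hk
      have hc : Continuous fun θ : ℝ => Ux q a ((1 / 2) ^ k) (J k) E (f (pt (1 - l) θ)) :=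
        (Ux_contOn ha (hrk k) (hJ k hk).2.1).comp_continuous hwc fun θ => hfE _ (hball θ)
      exact (hc.rpow_const fun θ => Or.inr hα.le).integrableOn_Icc.mono_set
        Ioc_subset_Icc_self
  -- the function `u`
  have hsm := hF E u hEc husc hu01 hsub f hf hinj hfE (1 - l) (by linarith) (by linarith)
  rw [hf0, Real.circleAverage, intervalIntegral.integral_of_le (by positivity), smul_eq_mul] at hsm
  have huint : Integrable (fun θ : ℝ => u (f (pt (1 - l) θ)))
      (volume.restrict (Ioc 0 (2 * Real.pi))) := by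
    refine Measure.integrableOn_of_bounded (M := 1) (by
      rw [Real.volume_Ioc]; exact ENNReal.ofReal_ne_top) ?_ ?_
    · exact (husc.measurable.comp hwc.measurable).aestronglyMeasurable
    · refine Eventually.of_forall fun θ => ?_
      rw [Real.norm_of_nonneg (hu01 _).1]
      exact (hu01 _).2
  have hdiff : ∫ θ in Ioc 0 (2 * Real.pi), (u (f (pt (1 - l) θ)) - F (f (pt (1 - l) θ))) ≤
      2 * Real.pi * (u vs - F vs) := by
    have h1 : ∫ θ in Ioc 0 (2 * Real.pi), (u (f (pt (1 - l) θ)) - F (f (pt (1 - l) θ))) ≤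
        ∫ θ in Ioc 0 (2 * Real.pi), (u vs - F vs) := by
      apply integral_mono (huint.sub (hFwc.integrableOn_Icc.mono_set Ioc_subset_Icc_self))
        (integrable_const _)
      intro θ
      exact hmall _ (hfE _ (hball θ))
    refine h1.trans (le_of_eq ?_)
    simp [Real.volume_real_Ioc_of_le (by positivity : (0 : ℝ) ≤ 2 * Real.pi)]
  rw [integral_sub huint (hFwc.integrableOn_Icc.mono_set Ioc_subset_Icc_self)] at hdiff
  have h1 : 2 * Real.pi * u vs ≤ ∫ θ in Ioc 0 (2 * Real.pi), u (f (pt (1 - l) θ)) := by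
    have h2 := mul_le_mul_of_nonneg_left hsm (by positivity : 0 ≤ 2 * Real.pi)
    rw [← mul_assoc, mul_inv_cancel₀ (by positivity), one_mul] at h2
    exact h2
  linarith

end Pool.Agent.Z55B
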