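import Pool.Agent.Z55B.Stm2

/-! # G5: from the plane `ℂ` to the frozen statement -/

set_option autoImplicit false

namespace Pool.Agent.Z55B

open Complex Metric Set Filter Topology MeasureTheory ProbabilityTheory
open scoped NNReal ENNReal

/-- the components of the complement of an image -/
theorem comp_compl_image {X Y : Type*} [TopologicalSpace X] [TopologicalSpace Y] (e : X ≃ₜ Y)
    (K : Set X) {x : X} (hx : x ∉ K) :
    connectedComponentIn (e '' K)ᶜ (e x) = e '' connectedComponentIn Kᶜ x := by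
  rw [← image_compl_eq e.bijective]
  exact (e.image_connectedComponentIn (s := Kᶜ) hx).symm

/-- the path of the frozen statement, moved back -/
theorem mv_pathOf {Ω : Type} (B : ℝ≥0 → Ω → ℝ × ℝ) (z : ℝ × ℝ)
    (hc : ∀ ω, Continuous (fun u => B u ω)) (ω : Ω) (u : ℝ≥0) :
    mv (Complex.equivRealProdCLM.symm z) (pathOf B z hc ω) u =
      Complex.equivRealProdCLM.symm (B u ω) := by
  simp only [mv, pathOf, ContinuousMap.coe_mk, Complex.equivRealProdCLM_symm_apply]
  apply Complex.ext <;> simp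

theorem pG5 : S_G5 := by
  intro hA5 hZ E hE hnt hdim z hz Ω _ P _ B hmeas hc h0 hinc
  obtain ⟨hm, hW⟩ := hA5 Ω P B z hmeas hc h0 hinc
  set e : (ℝ × ℝ) ≃L[ℝ] ℂ := Complex.equivRealProdCLM.symm with he
  have hE' : IsCompact (e '' E) := hE.image e.continuous
  have hnt' : (e '' E).Nontrivial := hnt.image e.injective
  have hdim' : dimH (e '' E) < 1 := by rw [e.dimH_image]; exact hdim
  have hz' : e z ∉ e '' E := by
    rintro ⟨w, hw, hwz⟩
    exact hz (e.injective hwz ▸ hw)
  have h := hZ (e '' E) hE' hnt' hdim' (P.map (pathOf B z hc)) hW (e z) hz'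
  have := hW.prob
  have h1 : (P.map (pathOf B z hc)) {x | mv (e z) x ∉ Cert (e '' E)} = 0 := by
    have := h
    unfold uu at this
    rwa [measureReal_eq_zero_iff] at this
  have h2 : ∀ᵐ x ∂(P.map (pathOf B z hc)), mv (e z) x ∈ Cert (e '' E) := h1
  have h3 := ae_of_ae_map hm.aemeasurable h2
  filter_upwards [h3] with ω hω
  obtain ⟨T, hT⟩ := mem_iUnion.1 hω
  have hS : SepT (e '' E) T (mv (e z) (pathOf B z hc ω)) :=
    (interior_subset : interior {y : Pth | SepT (e '' E) T y} ⊆ _) hT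
  have hy : ∀ u, mv (e z) (pathOf B z hc ω) u = e (B u ω) := mv_pathOf B z hc ω
  obtain ⟨hav, s, t, hst, htT, heq, x, ⟨x₀, hx₀, rfl⟩, x', ⟨x₁, hx₁, rfl⟩, hne⟩ := hS
  have hav' : ∀ u : ℝ≥0, u ≤ T → B u ω ∉ E := by
    intro u hu hmem
    apply hav u hu
    rw [hy]
    exact mem_image_of_mem _ hmem
  refine ⟨s, t, hst, ?_, fun u hu => hav' u (hu.trans htT), x₀, hx₀, x₁, hx₁, ?_⟩
  · rw [hy, hy] at heq
    exact e.injective heq
  · have him : (mv (e z) (pathOf B z hc ω)) '' Icc s t = e '' ((fun u => B u ω) '' Icc s t) := by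
      rw [image_image]
      exact image_congr fun u _ => hy u
    have hK : ∀ w ∈ E, w ∉ (fun u => B u ω) '' Icc s t := by
      rintro w hw ⟨u, hu, rfl⟩
      exact hav' u (hu.2.trans htT) hw
    intro hcc
    apply hne
    rw [him]
    have e0 := comp_compl_image e.toHomeomorph ((fun u => B u ω) '' Icc s t) (hK x₀ hx₀)
    have e1 := comp_compl_image e.toHomeomorph ((fun u => B u ω) '' Icc s t) (hK x₁ hx₁)
    have hcoe : ∀ w, e.toHomeomorph w = e w := fun _ => rfl
    have hco : (e.toHomeomorph : ℝ × ℝ → ℂ) = e := rfl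
    rw [hco] at e0 e1
    rw [e0, e1, hcc]

end Pool.Agent.Z55B
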