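import Pool.Agent.Z55B.D

/-!
# Project Z55B, piece H (helper23): lattice loops around nontrivial sets of dimension less than one
-/

set_option autoImplicit false
open Set Metric Filter Topology
open scoped NNReal ENNReal

namespace Pool.Agent.Z55B

/-- a radius in an interval whose circle misses `E` -/
lemma exists_radius {E : Set ℂ} (hd : dimH E < 1) (e0 : ℂ) {a : ℝ} (ha : 0 < a) :
    ∃ r, 0 < r ∧ r < a ∧ ∀ w ∈ E, ‖w - e0‖ ≠ r := by
  have h1 : dimH ((fun w : ℂ => ‖w - e0‖) '' E) < 1 := by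
    have h2 : LipschitzWith 1 (fun w : ℂ => ‖w - e0‖) := by
      refine LipschitzWith.of_dist_le_mul fun x y => ?_
      rw [NNReal.coe_one, one_mul, Real.dist_eq, dist_eq_norm]
      have := abs_norm_sub_norm_le (x - e0) (y - e0)
      rwa [sub_sub_sub_cancel_right] at this
    exact (h2.dimH_image_le E).trans_lt hd
  have h3 : Dense (((fun w : ℂ => ‖w - e0‖) '' E)ᶜ) := by
    refine dense_compl_of_dimH_lt_finrank ?_
    simpa using h1
  obtain ⟨r, hr1, hr2⟩ := h3.exists_mem_open (isOpen_Ioo (a := (0 : ℝ)) (b := a))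
    (nonempty_Ioo.2 ha)
  exact ⟨r, hr2.1, hr2.2, fun w hw hwr => hr1 ⟨w, hw, hwr⟩⟩

/-- a slope such that the ray misses `E` -/
lemma exists_slope {E : Set ℂ} (hd : dimH E < 1) {v u : ℂ} (hu : u ≠ 0) (hv : v ∉ E) {ε : ℝ}
    (hε : 0 < ε) :
    ∃ s : ℝ, 0 < s ∧ s < ε ∧ ∀ t : ℝ, 0 ≤ t → v + t * (u * (1 + s * Complex.I)) ∉ E := by
  set H : Set ℂ := {w | 0 < ((w - v) / u).re} with hH
  set g : ℂ → ℝ := fun w => ((w - v) / u).im / ((w - v) / u).re with hg
  have hl : ContDiff ℝ 1 (fun w : ℂ => (w - v) / u) := by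
    simp only [div_eq_mul_inv]
    fun_prop
  have hre : ContDiff ℝ 1 (fun w : ℂ => ((w - v) / u).re) := Complex.reCLM.contDiff.comp hl
  have him : ContDiff ℝ 1 (fun w : ℂ => ((w - v) / u).im) := Complex.imCLM.contDiff.comp hl
  have hgc : ContDiffOn ℝ 1 g H := by
    refine him.contDiffOn.div hre.contDiffOn ?_
    intro w hw
    exact (show 0 < ((w - v) / u).re from hw).ne'
  have hconv : Convex ℝ H := by
    have h1 : H = (fun w : ℂ => ((w - v) / u).re) ⁻¹' Ioi 0 := rfl
    intro x hx y hy a b ha hb hab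
    have h2 : ((a • x + b • y - v) / u).re = a * ((x - v) / u).re + b * ((y - v) / u).re := by
      have h3 : (a • x + b • y - v) / u = a * ((x - v) / u) + b * ((y - v) / u) := by
        have h4 : (a : ℂ) + b = 1 := by exact_mod_cast hab
        simp only [Complex.real_smul]
        field_simp
        linear_combination v * h4
      rw [h3]
      simp
    simp only [hH, mem_ofPred_eq] at hx hy ⊢
    rw [h2]
    rcases ha.lt_or_eq with ha | rfl
    · have := mul_pos ha hx
      have := mul_nonneg hb hy.le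
      linarith
    · have : b = 1 := by linarith
      rw [this]
      linarith
  have h1 : dimH (g '' (E ∩ H)) < 1 :=
    ((hgc.dimH_image_le hconv inter_subset_right).trans (dimH_mono inter_subset_left)).trans_lt hd
  have h3 : Dense ((g '' (E ∩ H))ᶜ) := by
    refine dense_compl_of_dimH_lt_finrank ?_
    simpa using h1
  obtain ⟨s, hs1, hs2⟩ := h3.exists_mem_open (isOpen_Ioo (a := (0 : ℝ)) (b := ε))
    (nonempty_Ioo.2 hε)
  refine ⟨s, hs2.1, hs2.2, fun t ht hmem => ?_⟩
  rcases ht.lt_or_eq with ht | rfl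
  · apply hs1
    have h4 : (v + t * (u * (1 + s * Complex.I)) - v) / u = t * (1 + s * Complex.I) := by
      field_simp
      ring
    refine ⟨_, ⟨hmem, ?_⟩, ?_⟩
    · simp only [hH, mem_ofPred_eq]
      rw [h4]
      simpa using ht
    · simp only [hg]
      rw [h4]
      simp
      field_simp
  · apply hv
    simpa using hmem

theorem pH : S_H := by
  intro E hEc hEn hd v hv
  obtain ⟨e0, he0, e1, he1, hne⟩ := hEn
  have hdist : 0 < ‖e1 - e0‖ := norm_pos_iff.2 (sub_ne_zero.2 hne.symm)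
  obtain ⟨r, hr0, hr1, hrE⟩ := exists_radius hd e0 hdist
  set u := e0 - v with hu
  have hu0 : u ≠ 0 := sub_ne_zero.2 (fun h => hv (h ▸ he0))
  have hun : 0 < ‖u‖ := norm_pos_iff.2 hu0
  obtain ⟨s, hs0, hs1, hsE⟩ := exists_slope hd hu0 hv (show 0 < r / ‖u‖ by positivity)
  set q : ℝ → ℂ := fun t => v + t * (u * (1 + s * Complex.I)) with hq
  have hqc : Continuous q := by rw [hq]; fun_prop
  -- the ray meets the circle
  have hq1 : ‖q 1 - e0‖ < r := by
    have h1 : q 1 - e0 = s * (u * Complex.I) := by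
      simp only [hq, hu]
      push_cast
      ring
    rw [h1, norm_mul, norm_mul, Complex.norm_I, mul_one, Complex.norm_real, Real.norm_eq_abs,
      abs_of_pos hs0]
    exact (lt_div_iff₀ hun).1 hs1
  have hc0 : 0 < ‖u * (1 + s * Complex.I)‖ := by
    rw [norm_mul]
    refine mul_pos hun (norm_pos_iff.2 fun h => ?_)
    have := congrArg Complex.re h
    simp at this
  set T : ℝ := 1 + (r + ‖v - e0‖) / ‖u * (1 + s * Complex.I)‖ with hT
  have hT1 : 1 ≤ T := by
    rw [hT]
    have : 0 ≤ (r + ‖v - e0‖) / ‖u * (1 + s * Complex.I)‖ := by positivity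
    linarith
  have hqT : r ≤ ‖q T - e0‖ := by
    have h1 : (T : ℂ) * (u * (1 + s * Complex.I)) = (q T - e0) - (v - e0) := by
      simp only [hq]
      ring
    have h2 : ‖(T : ℂ) * (u * (1 + s * Complex.I))‖ ≤ ‖q T - e0‖ + ‖v - e0‖ := by
      rw [h1]
      exact norm_sub_le _ _
    rw [norm_mul, Complex.norm_real, Real.norm_eq_abs, abs_of_pos (by linarith)] at h2
    have h3 : T * ‖u * (1 + s * Complex.I)‖ = ‖u * (1 + s * Complex.I)‖ + (r + ‖v - e0‖) := by
      rw [hT]
      field_simp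
    linarith
  obtain ⟨t1, ht1, ht1r⟩ : ∃ t ∈ Icc (1 : ℝ) T, ‖q t - e0‖ = r := by
    have h1 : ContinuousOn (fun t => ‖q t - e0‖) (Icc 1 T) := by
      have : Continuous (fun t => ‖q t - e0‖) := (hqc.sub continuous_const).norm
      exact this.continuousOn
    exact intermediate_value_Icc hT1 h1 ⟨hq1.le, hqT⟩
  -- the connected set
  set Γ : Set ℂ := q '' Icc 0 t1 ∪ sphere e0 r with hΓ
  have hΓc : IsCompact Γ := (isCompact_Icc.image hqc).union (isCompact_sphere e0 r)
  have hvq : v ∈ q '' Icc 0 t1 := ⟨0, ⟨le_rfl, by linarith [ht1.1]⟩, by simp [hq]⟩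
  have hΓp : IsPreconnected Γ := by
    refine IsPreconnected.union (q t1) ⟨t1, ⟨by linarith [ht1.1], le_rfl⟩, rfl⟩ ?_ ?_ ?_
    · rw [mem_sphere, dist_eq_norm]
      exact ht1r
    · exact isPreconnected_Icc.image q hqc.continuousOn
    · exact isPreconnected_sphere (by simp) e0 r
  have hΓE : ∀ w ∈ Γ, w ∉ E := by
    rintro w (⟨t, ht, rfl⟩ | hw) hwE
    · exact hsE t ht.1 hwE
    · rw [mem_sphere, dist_eq_norm] at hw
      exact hrE w hwE hw
  have hEne : E.Nonempty := ⟨e0, he0⟩
  obtain ⟨w1, hw1, hmin⟩ := hΓc.exists_isMinOn ⟨v, Or.inl hvq⟩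
    (continuous_infDist_pt E).continuousOn
  have hδ : 0 < infDist w1 E :=
    (hEc.isClosed.notMem_iff_infDist_pos hEne).1 (hΓE w1 hw1)
  set h : ℝ := infDist w1 E / 21 with hh
  have hhp : 0 < h := by positivity
  have hfar : ∀ w ∈ Γ, 20 * h < infDist w E := by
    intro w hw
    have h1 : infDist w1 E ≤ infDist w E := hmin hw
    have h2 : 20 * h < infDist w1 E := by rw [hh]; linarith
    linarith
  obtain ⟨ρ, hρ0, hρ⟩ := hΓc.isBounded.subset_ball_lt 0 v
  have hR : 0 < ρ / h := by positivity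
  obtain ⟨N, hN⟩ := pD (ρ / h) hR
  have hRh : ρ / h * h = ρ := by field_simp
  set W := Wd E v h (ρ / h * h) with hW
  have hΓW : Γ ⊆ W := by
    refine hΓp.subset_connectedComponentIn (Or.inl hvq) fun w hw => ⟨hfar w hw, ?_⟩
    rw [hRh]
    exact hρ hw
  have hWo : IsOpen W := open_base.connectedComponentIn
  have hsubW : W ⊆ {w | 20 * h < infDist w E} ∩ ball v (ρ / h * h) :=
    connectedComponentIn_subset _ _
  have hnW : ∀ w ∈ E, w ∈ Wᶜ := by
    intro w hw hwW
    have h1 : 20 * h < infDist w E := (hsubW hwW).1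
    rw [infDist_zero_of_mem hw] at h1
    linarith
  obtain ⟨n, -, p, hp⟩ := hN E v h hEc.isClosed hhp (hfar v (Or.inl hvq))
    (Wᶜ ∩ closedBall e0 r) (Wᶜ ∩ {w | r ≤ dist w e0})
    (hWo.isClosed_compl.inter isClosed_closedBall)
    (hWo.isClosed_compl.inter (isClosed_le continuous_const (continuous_id.dist continuous_const)))
    (by
      rw [disjoint_left]
      rintro w ⟨hw1, hw2⟩ ⟨-, hw3⟩
      exact hw1 (hΓW (Or.inr (mem_sphere.2 (le_antisymm hw2 hw3)))))
    (by
      ext w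
      constructor
      · rintro (h1 | h1)
        · exact h1.1
        · exact h1.1
      · intro h1
        rcases le_total (dist w e0) r with h2 | h2
        · exact Or.inl ⟨h1, h2⟩
        · exact Or.inr ⟨h1, h2⟩)
    ⟨e0, ⟨hnW e0 he0, mem_closedBall_self hr0.le⟩, he0⟩
    ⟨e1, ⟨hnW e1 he1, by rw [mem_ofPred_eq, dist_eq_norm]; exact hr1.le⟩, he1⟩
  exact ⟨h, n, p, hhp, hp⟩

end Pool.Agent.Z55B
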