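import Pool.Agent.Z55B.Stm

/-!
# Z55B, piece A: laws on the path space
-/

set_option autoImplicit false
open MeasureTheory ProbabilityTheory Set Metric Filter Topology
open scoped NNReal ENNReal

namespace Pool.Agent.Z55B

/-! ### The σ-algebra of the path space -/

lemma measurable_ev (t : ℝ≥0) : Measurable (fun x : Pth => x t) :=
  (continuous_eval_const (F := Pth) t).measurable

lemma measurable_re (t : ℝ≥0) : Measurable (fun x : Pth => (x t).re) :=
  Complex.measurable_re.comp (measurable_ev t)

lemma measurable_im (t : ℝ≥0) : Measurable (fun x : Pth => (x t).im) :=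
  Complex.measurable_im.comp (measurable_ev t)

lemma mapsTo_iff {K D : Set ℝ≥0} {U : Set ℂ} (hK : IsCompact K) (hU : IsOpen U) (hD : D ⊆ K)
    (hD' : K ⊆ closure D) (x : Pth) :
    MapsTo x K U ↔ ∃ n : ℕ, ∀ t ∈ D, x t ∈ (thickening (1 / ((n : ℝ) + 1)) Uᶜ)ᶜ := by
  constructor
  · intro h
    have h1 : Disjoint (x '' K) Uᶜ := by
      rw [disjoint_compl_right_iff_subset]
      exact h.image_subset
    obtain ⟨δ, hδ, h2⟩ := h1.exists_thickenings (hK.image x.continuous) hU.isClosed_compl
    obtain ⟨n, hn⟩ := exists_nat_one_div_lt hδ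
    refine ⟨n, fun t ht h3 => ?_⟩
    have h4 : x t ∈ thickening δ (x '' K) := self_subset_thickening hδ _ ⟨t, hD ht, rfl⟩
    exact Set.disjoint_left.mp h2 h4 (thickening_mono hn.le _ h3)
  · rintro ⟨n, hn⟩ t ht
    have h1 : IsClosed (x ⁻¹' (thickening (1 / ((n : ℝ) + 1)) Uᶜ)ᶜ) :=
      isOpen_thickening.isClosed_compl.preimage x.continuous
    have h2 : closure D ⊆ x ⁻¹' (thickening (1 / ((n : ℝ) + 1)) Uᶜ)ᶜ :=
      closure_minimal (fun t ht => hn t ht) h1
    have h3 := h2 (hD' ht)
    by_contra h4
    exact h3 (self_subset_thickening (by positivity) _ h4)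

/-- A map to the path space is measurable as soon as its evaluations are. -/
lemma measurable_pth {Ω : Type*} [MeasurableSpace Ω] {f : Ω → Pth}
    (h : ∀ t, Measurable (fun ω => f ω t)) : Measurable f := by
  have h0 : (instMeasPth : MeasurableSpace Pth) = MeasurableSpace.generateFrom
      (image2 (fun K U ↦ {f : C(ℝ≥0, ℂ) | MapsTo f K U}) {K | IsCompact K} {U | IsOpen U}) :=
    borel_eq_generateFrom_of_subbasis ContinuousMap.compactOpen_eq
  rw [h0]
  refine measurable_generateFrom ?_
  rintro _ ⟨K, hK, U, hU, rfl⟩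
  obtain ⟨D, hD, hDc, hD'⟩ := (TopologicalSpace.IsSeparable.of_separableSpace K).exists_countable_dense_subset
  have h1 : f ⁻¹' {f : C(ℝ≥0, ℂ) | MapsTo f K U} =
      ⋃ n : ℕ, ⋂ t ∈ D, {ω | f ω t ∈ (thickening (1 / ((n : ℝ) + 1)) Uᶜ)ᶜ} := by
    ext ω
    simp only [mem_preimage, mem_ofPred_eq, mem_iUnion, mem_iInter]
    exact mapsTo_iff hK hU hD hD' (f ω)
  rw [h1]
  refine MeasurableSet.iUnion fun n => MeasurableSet.biInter hDc fun t _ => ?_
  exact (h t) isOpen_thickening.measurableSet.compl

/-- The coordinates of a path. -/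
noncomputable def crd (x : Pth) : (ℝ≥0 → ℝ) × (ℝ≥0 → ℝ) := (fun t => (x t).re, fun t => (x t).im)

lemma measurable_crd : Measurable crd :=
  (measurable_pi_iff.mpr measurable_re).prodMk (measurable_pi_iff.mpr measurable_im)

lemma comap_crd : MeasurableSpace.comap crd inferInstance = (instMeasPth : MeasurableSpace Pth) := by
  refine le_antisymm measurable_crd.comap_le ?_
  have h : @Measurable Pth Pth (MeasurableSpace.comap crd inferInstance) instMeasPth id := by
    refine @measurable_pth Pth (MeasurableSpace.comap crd inferInstance) id fun t => ?_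
    have h1 : @Measurable Pth _ (MeasurableSpace.comap crd inferInstance) _ crd :=
      comap_measurable crd
    have h2 : Measurable (fun p : (ℝ≥0 → ℝ) × (ℝ≥0 → ℝ) => ((p.1 t : ℝ) : ℂ) + (p.2 t : ℝ) *
        Complex.I) := by fun_prop
    have h3 : (fun x : Pth => id x t) = (fun p : (ℝ≥0 → ℝ) × (ℝ≥0 → ℝ) => ((p.1 t : ℝ) : ℂ) +
        (p.2 t : ℝ) * Complex.I) ∘ crd := by
      funext x
      exact (Complex.re_add_im (x t)).symm
    rw [h3]
    exact h2.comp h1
  have h2 := h.comap_le
  rwa [MeasurableSpace.comap_id] at h2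

lemma comap_ev : MeasurableSpace.comap (fun (x : Pth) (t : ℝ≥0) => x t) inferInstance =
    (instMeasPth : MeasurableSpace Pth) := by
  refine le_antisymm (measurable_pi_iff.mpr measurable_ev).comap_le ?_
  have h : @Measurable Pth Pth (MeasurableSpace.comap (fun (x : Pth) (t : ℝ≥0) => x t)
      inferInstance) instMeasPth id := by
    refine @measurable_pth Pth (MeasurableSpace.comap (fun (x : Pth) (t : ℝ≥0) => x t)
      inferInstance) id fun t => ?_
    have h1 : @Measurable Pth _ (MeasurableSpace.comap (fun (x : Pth) (t : ℝ≥0) => x t)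
      inferInstance) _ (fun (x : Pth) (t : ℝ≥0) => x t) := comap_measurable _
    exact (measurable_pi_apply t).comp h1
  have h2 := h.comap_le
  rwa [MeasurableSpace.comap_id] at h2

/-- Two measures on the path space with the same joint law of the coordinates are equal. -/
lemma ext_crd {μ ν : Measure Pth} (h : μ.map crd = ν.map crd) : μ = ν := by
  refine Measure.ext fun s hs => ?_
  have h1 : MeasurableSet[MeasurableSpace.comap crd inferInstance] s := by
    rw [comap_crd]
    exact hs
  obtain ⟨t, ht, rfl⟩ := h1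
  rw [← Measure.map_apply measurable_crd ht, ← Measure.map_apply measurable_crd ht, h]

/-- The law of the path of a real Brownian motion is unique. -/
lemma real_law {Ω Ω' : Type} [MeasurableSpace Ω] [MeasurableSpace Ω'] {P : Measure Ω}
    {P' : Measure Ω'} {B : ℝ≥0 → Ω → ℝ} {B' : ℝ≥0 → Ω' → ℝ} (hB : IsPreBrownianReal B P)
    (hB' : IsPreBrownianReal B' P') (hm : ∀ t, Measurable (B t)) (hm' : ∀ t, Measurable (B' t)) :
    P.map (fun ω t => B t ω) = P'.map (fun ω t => B' t ω) := by
  have key : ∀ {Ω : Type} [MeasurableSpace Ω] {P : Measure Ω} {B : ℝ≥0 → Ω → ℝ},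
      IsPreBrownianReal B P → (∀ t, Measurable (B t)) →
      IsProjectiveLimit (P.map (fun ω t => B t ω)) (BrownianReal.projectiveFamily) := by
    intro Ω _ P B hB hm I
    have h1 : Measurable (fun ω t => B t ω) := measurable_pi_iff.mpr hm
    rw [Measure.map_map (Finset.measurable_restrict I) h1]
    exact (hB.hasLaw I).map_eq
  exact (key hB hm).unique (key hB' hm')

/-- A1 -/
theorem pA1 : S_A1 := by
  intro μ ν hμ hν
  refine ext_crd ?_
  have hr : Measurable (fun (x : Pth) (t : ℝ≥0) => (x t).re) := measurable_pi_iff.mpr measurable_re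
  have hi : Measurable (fun (x : Pth) (t : ℝ≥0) => (x t).im) := measurable_pi_iff.mpr measurable_im
  have := hμ.prob
  have := hν.prob
  have : IsProbabilityMeasure (μ.map (fun (x : Pth) (t : ℝ≥0) => (x t).re)) :=
    Measure.isProbabilityMeasure_map hr.aemeasurable
  have : IsProbabilityMeasure (μ.map (fun (x : Pth) (t : ℝ≥0) => (x t).im)) :=
    Measure.isProbabilityMeasure_map hi.aemeasurable
  have : IsProbabilityMeasure (ν.map (fun (x : Pth) (t : ℝ≥0) => (x t).re)) :=
    Measure.isProbabilityMeasure_map hr.aemeasurable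
  have : IsProbabilityMeasure (ν.map (fun (x : Pth) (t : ℝ≥0) => (x t).im)) :=
    Measure.isProbabilityMeasure_map hi.aemeasurable
  have h1 := (indepFun_iff_map_prod_eq_prod_map_map hr.aemeasurable hi.aemeasurable).mp hμ.ind
  have h2 := (indepFun_iff_map_prod_eq_prod_map_map hr.aemeasurable hi.aemeasurable).mp hν.ind
  have h3 := real_law hμ.re hν.re measurable_re measurable_re
  have h4 := real_law hμ.im hν.im measurable_im measurable_im
  change μ.map (fun x : Pth => ((fun t => (x t).re), (fun t => (x t).im))) =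
    ν.map (fun x : Pth => ((fun t => (x t).re), (fun t => (x t).im)))
  rw [h1, h2, h3, h4]

end Pool.Agent.Z55B
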