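import Pool.Agent.Z55B.A

/-!
# Z55B, piece A: rotation, scaling, Markov property, the law of the frozen process
-/

set_option autoImplicit false
open MeasureTheory ProbabilityTheory Set Metric Filter Topology
open scoped NNReal ENNReal InnerProductSpace

namespace Pool.Agent.Z55B

section
variable {Ω : Type*} [MeasurableSpace Ω] {P : Measure Ω}

/-- a random path with the law of Brownian motion -/
structure IsWf (P : Measure Ω) (f : Ω → Pth) : Prop where
  meas : Measurable f
  re : IsPreBrownianReal (fun (t : ℝ≥0) (ω : Ω) => (f ω t).re) P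
  im : IsPreBrownianReal (fun (t : ℝ≥0) (ω : Ω) => (f ω t).im) P
  ind : IndepFun (fun ω (t : ℝ≥0) => (f ω t).re) (fun ω (t : ℝ≥0) => (f ω t).im) P

lemma isPre_map {f : Ω → Pth} (hf : Measurable f) {g : ℝ≥0 → Pth → ℝ} (hg : ∀ t, Measurable (g t))
    (h : IsPreBrownianReal (fun t ω => g t (f ω)) P) : IsPreBrownianReal g (P.map f) where
  hasLaw I := by
    have h1 : Measurable (fun x => I.restrict (fun t => g t x)) :=
      (Finset.measurable_restrict I).comp (measurable_pi_iff.mpr hg)
    refine ⟨h1.aemeasurable, ?_⟩
    rw [Measure.map_map h1 hf]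
    exact (h.hasLaw I).map_eq

lemma IsWf.isW {f : Ω → Pth} (h : IsWf P f) : IsW (P.map f) where
  prob := by
    have := h.re.isGaussianProcess.isProbabilityMeasure
    exact Measure.isProbabilityMeasure_map h.meas.aemeasurable
  zero := by
    have h0 : MeasurableSet {x : Pth | x 0 = 0} := (measurable_ev 0) (measurableSet_singleton 0)
    refine (ae_map_iff h.meas.aemeasurable h0).mpr ?_
    filter_upwards [h.re.eval_zero_ae_eq_zero, h.im.eval_zero_ae_eq_zero] with ω h1 h2
    exact Complex.ext h1 h2
  re := isPre_map h.meas measurable_re h.re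
  im := isPre_map h.meas measurable_im h.im
  ind := by
    have := h.re.isGaussianProcess.isProbabilityMeasure
    have hr : Measurable (fun (x : Pth) (t : ℝ≥0) => (x t).re) := measurable_pi_iff.mpr measurable_re
    have hi : Measurable (fun (x : Pth) (t : ℝ≥0) => (x t).im) := measurable_pi_iff.mpr measurable_im
    have : IsProbabilityMeasure (P.map f) := Measure.isProbabilityMeasure_map h.meas.aemeasurable
    rw [indepFun_iff_map_prod_eq_prod_map_map hr.aemeasurable hi.aemeasurable,
      Measure.map_map (hr.prodMk hi) h.meas, Measure.map_map hr h.meas, Measure.map_map hi h.meas]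
    exact (indepFun_iff_map_prod_eq_prod_map_map (hr.comp h.meas).aemeasurable
      (hi.comp h.meas).aemeasurable).mp h.ind

/-- A3 -/
theorem pA3 : S_A3 := by
  intro μ hμ h hh
  have hc : Real.toNNReal (h ^ 2) ≠ 0 := by
    rw [Ne, Real.toNNReal_eq_zero, not_le]
    positivity
  have hsq : √((Real.toNNReal (h ^ 2) : ℝ≥0) : ℝ) = h := by
    rw [Real.coe_toNNReal _ (by positivity), Real.sqrt_sq hh.le]
  refine IsWf.isW ⟨?_, ?_, ?_, ?_⟩
  · refine measurable_pth fun t => ?_
    exact (measurable_ev _).const_mul _
  · have h1 := hμ.re.smul hc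
    rw [hsq] at h1
    convert h1 using 3 with t x
    simp [sc]
  · have h1 := hμ.im.smul hc
    rw [hsq] at h1
    convert h1 using 3 with t x
    simp [sc]
  · have h1 : Measurable (fun (w : ℝ≥0 → ℝ) (t : ℝ≥0) => h⁻¹ * w (Real.toNNReal (h ^ 2) * t)) :=
      measurable_pi_iff.mpr fun t => (measurable_pi_apply _).const_mul _
    convert hμ.ind.comp h1 h1 using 3 with x
    · simp [sc]
    · simp [sc]

/-- Brownian motion as a Gaussian process in the plane. -/
lemma IsW.gauss {μ : Measure Pth} (h : IsW μ) : IsGaussianProcess (fun (t : ℝ≥0) (x : Pth) => x t) μ where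
  hasGaussianLaw I := by
    have h1 := h.re.isGaussianProcess.hasGaussianLaw I
    have h2 := h.im.isGaussianProcess.hasGaussianLaw I
    have h3 : IndepFun (fun x : Pth => I.restrict (fun t => (x t).re))
        (fun x : Pth => I.restrict (fun t => (x t).im)) μ :=
      h.ind.comp (Finset.measurable_restrict I) (Finset.measurable_restrict I)
    have h4 := h3.hasGaussianLaw h1 h2
    let L : (I → ℝ) × (I → ℝ) →L[ℝ] (I → ℂ) :=
      { toFun p i := (p.1 i : ℂ) + (p.2 i : ℂ) * Complex.I
        map_add' p q := by ext i; simp; ring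
        map_smul' c p := by ext i; simp; ring
        cont := by fun_prop }
    have h5 : (fun x : Pth => I.restrict (fun t => x t)) = L ∘ (fun x : Pth =>
        (I.restrict (fun t => (x t).re), I.restrict (fun t => (x t).im))) := by
      funext x
      funext i
      exact (Complex.re_add_im (x i)).symm
    rw [h5]
    exact h4.map L

/-- a real linear function of a point of the plane -/
noncomputable def lin (a b : ℝ) : ℂ →L[ℝ] ℝ := a • Complex.reCLM + b • Complex.imCLM

lemma lin_apply (a b : ℝ) (z : ℂ) : lin a b z = a * z.re + b * z.im := by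
  simp [lin]

lemma IsW.memLp_re {μ : Measure Pth} (h : IsW μ) (t : ℝ≥0) : MemLp (fun x : Pth => (x t).re) 2 μ :=
  (h.re.isGaussianProcess.hasGaussianLaw_eval t).memLp_two

lemma IsW.memLp_im {μ : Measure Pth} (h : IsW μ) (t : ℝ≥0) : MemLp (fun x : Pth => (x t).im) 2 μ :=
  (h.im.isGaussianProcess.hasGaussianLaw_eval t).memLp_two

lemma IsW.memLp_lin {μ : Measure Pth} (h : IsW μ) (t : ℝ≥0) (a b : ℝ) :
    MemLp (fun x : Pth => lin a b (x t)) 2 μ := by
  simp_rw [lin_apply]
  exact ((h.memLp_re t).const_mul a).add ((h.memLp_im t).const_mul b)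

lemma IsW.mean_lin {μ : Measure Pth} (h : IsW μ) (t : ℝ≥0) (a b : ℝ) :
    ∫ x : Pth, lin a b (x t) ∂μ = 0 := by
  simp_rw [lin_apply]
  rw [integral_add ((h.re.integrable_eval t).const_mul a) ((h.im.integrable_eval t).const_mul b),
    integral_const_mul, integral_const_mul, h.re.integral_eval, h.im.integral_eval]
  simp

lemma IsW.cov_re_im {μ : Measure Pth} (h : IsW μ) (s t : ℝ≥0) :
    cov[fun x : Pth => (x s).re, fun x : Pth => (x t).im; μ] = 0 := by
  have := h.prob
  have h1 : IndepFun (fun x : Pth => (x s).re) (fun x : Pth => (x t).im) μ :=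
    h.ind.comp (measurable_pi_apply s) (measurable_pi_apply t)
  exact h1.covariance_eq_zero (h.memLp_re s) (h.memLp_im t)

/-- covariances of real linear functions of the coordinates -/
lemma IsW.cov_lin {μ : Measure Pth} (h : IsW μ) (s t : ℝ≥0) (a b c d : ℝ) :
    cov[fun x : Pth => lin a b (x s), fun x : Pth => lin c d (x t); μ]
      = (a * c + b * d) * min s t := by
  have := h.prob
  have m1 := (h.memLp_re s).const_mul a
  have m2 := (h.memLp_im s).const_mul b
  have m3 := (h.memLp_re t).const_mul c
  have m4 := (h.memLp_im t).const_mul d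
  simp_rw [lin_apply]
  have e1 : (fun x : Pth => a * (x s).re + b * (x s).im) =
    (fun x : Pth => a * (x s).re) + (fun x : Pth => b * (x s).im) := rfl
  have e2 : (fun x : Pth => c * (x t).re + d * (x t).im) =
    (fun x : Pth => c * (x t).re) + (fun x : Pth => d * (x t).im) := rfl
  rw [e1, e2, covariance_add_left m1 m2 (m3.add m4), covariance_add_right m1 m3 m4,
    covariance_add_right m2 m3 m4]
  simp only [covariance_const_mul_left, covariance_const_mul_right]
  rw [h.re.covariance_fun_eval, h.im.covariance_fun_eval, h.cov_re_im,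
    covariance_comm (fun x : Pth => (x s).im), h.cov_re_im]
  ring

/-- A2 -/
theorem pA2 : S_A2 := by
  intro μ h c hc
  have hc2 : c.re * c.re + c.im * c.im = 1 := by
    have := Complex.normSq_eq_norm_sq c
    rw [hc, Complex.normSq_apply] at this
    linarith
  have e1 : ∀ (t : ℝ≥0) (x : Pth), (rot c x t).re = lin c.re (-c.im) (x t) := by
    intro t x
    rw [lin_apply]
    simp [rot]
    ring
  have e2 : ∀ (t : ℝ≥0) (x : Pth), (rot c x t).im = lin c.im c.re (x t) := by
    intro t x
    rw [lin_apply]
    simp [rot]
    ring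
  refine IsWf.isW ⟨?_, ?_, ?_, ?_⟩
  · refine measurable_pth fun t => ?_
    exact (measurable_ev _).const_mul _
  · simp_rw [e1]
    refine IsGaussianProcess.isPreBrownianReal_of_covariance (h.gauss.comp_left fun _ => lin _ _)
      (fun t => h.mean_lin t _ _) (fun s t hst => ?_)
    rw [h.cov_lin, min_eq_left hst]
    linear_combination (s : ℝ) * hc2
  · simp_rw [e2]
    refine IsGaussianProcess.isPreBrownianReal_of_covariance (h.gauss.comp_left fun _ => lin _ _)
      (fun t => h.mean_lin t _ _) (fun s t hst => ?_)
    rw [h.cov_lin, min_eq_left hst]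
    linear_combination (s : ℝ) * hc2
  · simp_rw [e1, e2]
    refine IsGaussianProcess.indepFun_of_covariance_eq_zero
      (X := fun (t : ℝ≥0) (x : Pth) => lin c.re (-c.im) (x t))
      (Y := fun (t : ℝ≥0) (x : Pth) => lin c.im c.re (x t)) ?_ ?_ ?_ ?_
    · refine h.gauss.of_isGaussianProcess ?_
      rintro (t | t)
      · exact ⟨{t}, (lin c.re (-c.im)).comp (ContinuousLinearMap.proj ⟨t, by simp⟩), fun x => rfl⟩
      · exact ⟨{t}, (lin c.im c.re).comp (ContinuousLinearMap.proj ⟨t, by simp⟩), fun x => rfl⟩
    · exact fun t => ((lin _ _).measurable.comp (measurable_ev t)).aemeasurable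
    · exact fun t => ((lin _ _).measurable.comp (measurable_ev t)).aemeasurable
    · intro s t
      rw [h.cov_lin]
      ring

/-- A4 -/
theorem pA4 : S_A4 := by
  intro μ h t
  have := h.prob
  constructor
  · have key : IndepFun (fun (x : Pth) (s : ℝ≥0) => x (min s t))
        (fun (x : Pth) (u : ℝ≥0) => x (t + u) - x t) μ := by
      refine IsGaussianProcess.indepFun_of_covariance_inner
        (X := fun (s : ℝ≥0) (x : Pth) => x (min s t))
        (Y := fun (u : ℝ≥0) (x : Pth) => x (t + u) - x t) ?_ ?_ ?_ ?_
      · refine h.gauss.of_isGaussianProcess ?_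
        rintro (s | u)
        · exact ⟨{min s t}, ContinuousLinearMap.proj ⟨min s t, by simp⟩, fun x => rfl⟩
        · exact ⟨{t + u, t}, ContinuousLinearMap.proj (R := ℝ) (φ := fun _ => ℂ)
            (⟨t + u, by simp⟩ : ({t + u, t} : Finset ℝ≥0)) -
            ContinuousLinearMap.proj (R := ℝ) (φ := fun _ => ℂ)
            (⟨t, by simp⟩ : ({t + u, t} : Finset ℝ≥0)), fun x => rfl⟩
      · exact fun s => (measurable_ev _).aemeasurable
      · exact fun s => ((measurable_ev _).sub (measurable_ev _)).aemeasurable
      · intro s u a b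
        have e1 : (fun x : Pth => ⟪a, x (min s t)⟫_ℝ) = (fun x : Pth => lin a.re a.im (x (min s t))) := by
          funext x
          rw [lin_apply]
          simp [Complex.inner]
          ring
        have e2 : (fun x : Pth => ⟪b, x (t + u) - x t⟫_ℝ) =
            (fun x : Pth => lin b.re b.im (x (t + u)) - lin b.re b.im (x t)) := by
          funext x
          rw [lin_apply, lin_apply]
          simp [Complex.inner]
          ring
        rw [e1, e2, covariance_fun_sub_right (h.memLp_lin _ _ _) (h.memLp_lin _ _ _)
          (h.memLp_lin _ _ _), h.cov_lin, h.cov_lin]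
        have e3 : min (min s t) (t + u) = min (min s t) t := by
          rw [min_eq_left ((min_le_right s t).trans le_self_add), min_eq_left (min_le_right s t)]
        rw [e3, sub_self]
    rw [IndepFun_iff_Indep] at key ⊢
    have e1 : MeasurableSpace.comap (stp t) (instMeasPth : MeasurableSpace Pth) =
        MeasurableSpace.comap (fun (x : Pth) (s : ℝ≥0) => x (min s t)) inferInstance := by
      rw [← comap_ev, MeasurableSpace.comap_comp]
      rfl
    have e2 : MeasurableSpace.comap (rs t) (instMeasPth : MeasurableSpace Pth) =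
        MeasurableSpace.comap (fun (x : Pth) (u : ℝ≥0) => x (t + u) - x t) inferInstance := by
      rw [← comap_ev, MeasurableSpace.comap_comp]
      rfl
    change Indep (MeasurableSpace.comap (stp t) (instMeasPth : MeasurableSpace Pth))
      (MeasurableSpace.comap (rs t) (instMeasPth : MeasurableSpace Pth)) μ
    rw [e1, e2]
    exact key
  · refine IsWf.isW ⟨?_, ?_, ?_, ?_⟩
    · exact measurable_pth fun u => (measurable_ev _).sub (measurable_ev _)
    · exact h.re.shift t
    · exact h.im.shift t
    · have h1 : Measurable (fun (w : ℝ≥0 → ℝ) (u : ℝ≥0) => w (t + u) - w t) :=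
        measurable_pi_iff.mpr fun u => (measurable_pi_apply _).sub (measurable_pi_apply _)
      exact h.ind.comp h1 h1

end

end Pool.Agent.Z55B
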