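import Mathlib

/-!
# Piece C, part 1: continuous logarithms along loops and components of the complement
-/

set_option autoImplicit false
open Set Metric Filter Topology

namespace Pool.Agent.Z55B.CW

/-- continuous logarithms along paths -/
theorem exists_log (f : ℝ → ℂ) (hf : Continuous f) (h0 : ∀ r, f r ≠ 0) :
    ∃ L : ℝ → ℂ, Continuous L ∧ ∀ r, Complex.exp (L r) = f r := by
  have hs : IsSimplyConnected (univ : Set ℝ) :=
    (Homeomorph.Set.univ ℝ).toHomotopyEquiv.simplyConnectedSpace_iff.2 inferInstance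
  obtain ⟨L, hL, he⟩ := Complex.exists_continuousOn_eqOn_exp_comp hs isOpen_univ
    hf.continuousOn (by
      rintro ⟨r, -, hr⟩
      exact h0 r hr)
  exact ⟨L, continuousOn_univ.1 hL, fun r => he (mem_univ r)⟩

theorem discrete_int : IsDiscrete (range ((↑) : ℤ → ℝ)) :=
  Int.isClosedEmbedding_coe_real.isEmbedding.isInducing.isDiscrete_range

/-- a continuous function with exponential one is constant -/
theorem const_of_exp_one {g : ℝ → ℂ} {S : Set ℝ} (hS : IsPreconnected S) (hg : ContinuousOn g S)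
    (h1 : ∀ r ∈ S, Complex.exp (g r) = 1) {a b : ℝ} (ha : a ∈ S) (hb : b ∈ S) : g a = g b := by
  have key : ∀ r ∈ S, ∃ n : ℤ, g r = n * (2 * Real.pi * Complex.I) := fun r hr =>
    Complex.exp_eq_one_iff.1 (h1 r hr)
  have hpi : (2 * Real.pi : ℝ) ≠ 0 := by positivity
  have hm : MapsTo (fun r => (g r).im / (2 * Real.pi)) S (range ((↑) : ℤ → ℝ)) := by
    intro r hr
    obtain ⟨n, hn⟩ := key r hr
    refine ⟨n, ?_⟩
    simp only [hn]
    have : ((n : ℂ) * (2 * Real.pi * Complex.I)).im = n * (2 * Real.pi) := by simp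
    rw [this]
    field_simp
  have hc : ContinuousOn (fun r => (g r).im / (2 * Real.pi)) S :=
    (Complex.continuous_im.comp_continuousOn hg).div_const _
  have h2 := hS.constant_of_mapsTo discrete_int hc hm ha hb
  obtain ⟨n, hn⟩ := key a ha
  obtain ⟨m, hm'⟩ := key b hb
  have e1 : (g a).im = n * (2 * Real.pi) := by rw [hn]; simp
  have e2 : (g b).im = m * (2 * Real.pi) := by rw [hm']; simp
  have h3 : (n : ℝ) = m := by
    have h2' : (g a).im / (2 * Real.pi) = (g b).im / (2 * Real.pi) := h2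
    rw [e1, e2] at h2'
    field_simp at h2'
    exact h2'
  have h4 : n = m := by exact_mod_cast h3
  rw [hn, hm', h4]

/-- `c` is the increment of a continuous logarithm of `y - x` from `s` to `t` -/
def HasInd (y : ℝ → ℂ) (s t : ℝ) (x c : ℂ) : Prop :=
  ∃ L : ℝ → ℂ, ContinuousOn L (Icc s t) ∧ (∀ r ∈ Icc s t, Complex.exp (L r) = y r - x) ∧
    L t - L s = c

theorem HasInd.unique {y : ℝ → ℂ} {s t : ℝ} (hst : s ≤ t) {x c c' : ℂ} (h : HasInd y s t x c)
    (h' : HasInd y s t x c') : c = c' := by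
  obtain ⟨L, hL, he, hc⟩ := h
  obtain ⟨L', hL', he', hc'⟩ := h'
  have h1 := const_of_exp_one (isPreconnected_Icc (a := s) (b := t)) (hL.sub hL') (by
    intro r hr
    simp only [Pi.sub_apply]
    rw [Complex.exp_sub, he r hr, he' r hr, div_self]
    rw [← he r hr]
    exact Complex.exp_ne_zero _) (right_mem_Icc.2 hst) (left_mem_Icc.2 hst)
  simp only [Pi.sub_apply] at h1
  rw [← hc, ← hc']
  linear_combination h1

theorem HasInd.exists' {y : ℝ → ℂ} {s t : ℝ} (hst : s ≤ t) (hy : ContinuousOn y (Icc s t)) {x : ℂ}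
    (hx : x ∉ y '' Icc s t) : ∃ c, HasInd y s t x c := by
  have hc : Continuous (fun r => y (projIcc s t hst r) - x) := by
    refine Continuous.sub ?_ continuous_const
    exact (continuousOn_iff_continuous_domRestrict.1 hy).comp continuous_projIcc
  obtain ⟨L, hL, he⟩ := exists_log _ hc (fun r h0 => hx
    ⟨projIcc s t hst r, (projIcc s t hst r).2, sub_eq_zero.1 h0⟩)
  refine ⟨L t - L s, L, hL.continuousOn, fun r hr => ?_, rfl⟩
  rw [he r, projIcc_of_mem hst hr]

theorem HasInd.isOpen {y : ℝ → ℂ} {s t : ℝ} (hy : ContinuousOn y (Icc s t))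
    (hyst : y s = y t) (c : ℂ) : IsOpen {x | x ∉ y '' Icc s t ∧ HasInd y s t x c} := by
  rw [Metric.isOpen_iff]
  rintro x₀ ⟨hx₀, L, hL, he, hc⟩
  have hcl : IsClosed (y '' Icc s t) := (isCompact_Icc.image_of_continuousOn hy).isClosed
  obtain ⟨ε, hε, hball⟩ := Metric.isOpen_iff.1 hcl.isOpen_compl x₀ hx₀
  refine ⟨ε, hε, fun x hx => ⟨hball hx, ?_⟩⟩
  have hd : ∀ r ∈ Icc s t, ε ≤ ‖y r - x₀‖ := by
    intro r hr
    by_contra hlt
    push Not at hlt
    have : y r ∈ ball x₀ ε := by rwa [mem_ball, dist_eq_norm]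
    exact hball this ⟨r, hr, rfl⟩
  have hne : ∀ r ∈ Icc s t, y r - x₀ ≠ 0 := fun r hr h0 => by
    have := hd r hr
    rw [h0, norm_zero] at this
    linarith
  have hq : ∀ r ∈ Icc s t, (y r - x) / (y r - x₀) = 1 + (x₀ - x) / (y r - x₀) := by
    intro r hr
    have := hne r hr
    field_simp
    ring
  have hslit : ∀ r ∈ Icc s t, (y r - x) / (y r - x₀) ∈ Complex.slitPlane := by
    intro r hr
    rw [hq r hr]
    apply Complex.mem_slitPlane_of_norm_lt_one
    rw [norm_div, div_lt_one (norm_pos_iff.2 (hne r hr))]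
    have : ‖x₀ - x‖ < ε := by
      rw [← dist_eq_norm, dist_comm]
      exact hx
    exact this.trans_le (hd r hr)
  refine ⟨fun r => L r + Complex.log ((y r - x) / (y r - x₀)), ?_, ?_, ?_⟩
  · refine hL.add (ContinuousOn.clog ?_ hslit)
    exact (hy.sub continuousOn_const).div (hy.sub continuousOn_const) hne
  · intro r hr
    rw [Complex.exp_add, he r hr, Complex.exp_log (Complex.slitPlane_ne_zero (hslit r hr))]
    have := hne r hr
    field_simp
  · simp only
    rw [← hc, hyst]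
    ring

/-- points in the same component of the complement of a loop have the same index -/
theorem HasInd.eq_of_component {y : ℝ → ℂ} {s t : ℝ} (hst : s ≤ t) (hy : ContinuousOn y (Icc s t))
    (hyst : y s = y t) {x x' c c' : ℂ} (hx : x ∉ y '' Icc s t) (hx' : x' ∉ y '' Icc s t)
    (h : HasInd y s t x c) (h' : HasInd y s t x' c')
    (hcomp : connectedComponentIn (y '' Icc s t)ᶜ x = connectedComponentIn (y '' Icc s t)ᶜ x') :
    c = c' := by
  set F := (y '' Icc s t)ᶜ with hF
  set S := connectedComponentIn F x with hS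
  have hSp : IsPreconnected S := isPreconnected_connectedComponentIn
  have hSF : S ⊆ F := connectedComponentIn_subset F x
  have hxS : x ∈ S := mem_connectedComponentIn hx
  have hx'S : x' ∈ S := by
    rw [hcomp]
    exact mem_connectedComponentIn hx'
  by_contra hne
  set U : Set ℂ := {z | z ∉ y '' Icc s t ∧ HasInd y s t z c} with hU
  set V : Set ℂ := ⋃ d : {d : ℂ // d ≠ c}, {z | z ∉ y '' Icc s t ∧ HasInd y s t z d} with hV
  have hUo : IsOpen U := HasInd.isOpen hy hyst c
  have hVo : IsOpen V := isOpen_iUnion fun d => HasInd.isOpen hy hyst d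
  have hcov : S ⊆ U ∪ V := by
    intro z hz
    obtain ⟨d, hd⟩ := HasInd.exists' hst hy (hSF hz)
    by_cases hdc : d = c
    · left
      exact ⟨hSF hz, hdc ▸ hd⟩
    · right
      exact mem_iUnion.2 ⟨⟨d, hdc⟩, hSF hz, hd⟩
  have h1 : (S ∩ U).Nonempty := ⟨x, hxS, hx, h⟩
  have h2 : (S ∩ V).Nonempty := ⟨x', hx'S, mem_iUnion.2 ⟨⟨c', fun e => hne e.symm⟩, hx', h'⟩⟩
  obtain ⟨z, -, hzU, hzV⟩ := hSp U V hUo hVo hcov h1 h2
  obtain ⟨⟨d, hd⟩, hzd⟩ := mem_iUnion.1 hzV
  exact hd (HasInd.unique hst hzd.2 hzU.2)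

/-- the increment of the logarithm on an interval on which the path moves little -/
theorem log_step {y : ℝ → ℂ} {a b : ℝ} (hab : a ≤ b) (hy : ContinuousOn y (Icc a b)) {x : ℂ}
    {L : ℝ → ℂ} (hL : ContinuousOn L (Icc a b)) (he : ∀ r ∈ Icc a b, Complex.exp (L r) = y r - x)
    (hsm : ∀ r ∈ Icc a b, ‖y r - y a‖ < ‖y a - x‖) :
    L b - L a = Complex.log ((y b - x) / (y a - x)) := by
  have ha : a ∈ Icc a b := left_mem_Icc.2 hab
  have hb : b ∈ Icc a b := right_mem_Icc.2 hab
  have hne : y a - x ≠ 0 := by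
    rw [← he a ha]
    exact Complex.exp_ne_zero _
  have hslit : ∀ r ∈ Icc a b, (y r - x) / (y a - x) ∈ Complex.slitPlane := by
    intro r hr
    have : (y r - x) / (y a - x) = 1 + (y r - y a) / (y a - x) := by
      field_simp
      ring
    rw [this]
    apply Complex.mem_slitPlane_of_norm_lt_one
    rw [norm_div, div_lt_one (norm_pos_iff.2 hne)]
    exact hsm r hr
  have hcont : ContinuousOn (fun r => Complex.log ((y r - x) / (y a - x))) (Icc a b) :=
    ContinuousOn.clog ((hy.sub continuousOn_const).div_const _) hslit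
  have h1 := const_of_exp_one (isPreconnected_Icc (a := a) (b := b)) (hL.sub hcont) (a := a) (b := b)
  have h2 : ∀ r ∈ Icc a b, Complex.exp ((fun r => L r - L a - Complex.log ((y r - x) / (y a - x))) r)
      = 1 := by
    intro r hr
    simp only
    rw [Complex.exp_sub, Complex.exp_sub, he r hr, he a ha,
      Complex.exp_log (Complex.slitPlane_ne_zero (hslit r hr))]
    exact div_self (Complex.slitPlane_ne_zero (hslit r hr))
  have h3 := const_of_exp_one (isPreconnected_Icc (a := a) (b := b))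
    ((hL.sub continuousOn_const).sub hcont) h2 ha hb
  simp only [Pi.sub_apply, sub_self, div_self hne, Complex.log_one] at h3
  linear_combination -h3

/-- a small number with exponential one is zero -/
theorem eq_zero_of_exp {z : ℂ} (h : Complex.exp z = 1) (hz : ‖z‖ < 2 * Real.pi) : z = 0 := by
  obtain ⟨n, hn⟩ := Complex.exp_eq_one_iff.1 h
  have h1 : ‖z‖ = |(n : ℝ)| * (2 * Real.pi) := by
    rw [hn]
    simp [abs_of_pos Real.pi_pos]
  rw [h1] at hz
  have h2 : |(n : ℝ)| < 1 := by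
    by_contra hge
    push Not at hge
    have : 0 < 2 * Real.pi := by positivity
    nlinarith
  have h3 : |n| < 1 := by exact_mod_cast h2
  have h4 : n = 0 := Int.abs_lt_one_iff.1 h3
  rw [hn, h4]
  simp

theorem norm_log_le {u w : ℂ} (hw : w ≠ 0) (h : ‖u - w‖ ≤ ‖w‖ / 2) : ‖Complex.log (u / w)‖ ≤ 3 / 4 := by
  have hw' : 0 < ‖w‖ := norm_pos_iff.2 hw
  have e : u / w = 1 + (u - w) / w := by
    field_simp
    ring
  have h1 : ‖(u - w) / w‖ ≤ 1 / 2 := by
    rw [norm_div, div_le_iff₀ hw']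
    linarith
  rw [e]
  refine (Complex.norm_log_one_add_half_le_self h1).trans ?_
  linarith

theorem sum_norm4 (a b c d : ℂ) (ha : ‖a‖ ≤ 3 / 4) (hb : ‖b‖ ≤ 3 / 4) (hc : ‖c‖ ≤ 3 / 4)
    (hd : ‖d‖ ≤ 3 / 4) : ‖a + b - c + d‖ < 2 * Real.pi := by
  have h1 : ‖a + b - c + d‖ ≤ ‖a‖ + ‖b‖ + ‖c‖ + ‖d‖ := by
    calc ‖a + b - c + d‖ ≤ ‖a + b - c‖ + ‖d‖ := norm_add_le _ _
      _ ≤ ‖a + b‖ + ‖c‖ + ‖d‖ := by gcongr; exact norm_sub_le _ _
      _ ≤ ‖a‖ + ‖b‖ + ‖c‖ + ‖d‖ := by gcongr; exact norm_add_le _ _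
  have := Real.pi_gt_three
  linarith

end Pool.Agent.Z55B.CW
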