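import Pool.Agent.Z55B.Stm
import Pool.Agent.Z55B.CW
import Pool.Agent.Helper627.PM

/-!
# Piece C, part 2: a path which follows the pattern makes a loop which winds like the lattice loop
-/

set_option autoImplicit false
open Set Metric Filter Topology
open scoped NNReal

namespace Pool.Agent.Z55B.CW

/-- The index of the loop of `y` about `x` is the one of the lattice loop `p`. -/
theorem core {h : ℝ} (hh : 0 < h) {v : ℂ} {y : ℝ → ℂ} (hy : Continuous y) {n : ℕ} {p : ℕ → ℂ}
    {x : ℂ} (p0 : p 0 = v) (pn : p n = v) (far : ∀ i ≤ n, 15 * h ≤ ‖p i - x‖)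
    (step : ∀ i < n, ‖p (i + 1) - p i‖ ≤ h) {s t : ℝ} (hs0 : 0 ≤ s) (hs1 : s ≤ 1)
    (ht0 : (n : ℝ) + 4 ≤ t) (ht1 : t ≤ n + 5) (hst : y s = y t)
    (h1 : ∀ r : ℝ, 0 ≤ r → r ≤ 2 → ‖y r - v‖ ≤ 7 / 2 * h)
    (h3 : ∀ r : ℝ, (n : ℝ) + 2 ≤ r → r ≤ n + 5 → ‖y r - v‖ ≤ 7 / 2 * h)
    (hk : ∀ k ≤ n, ‖y (k + 2) - p k‖ ≤ h / 4)
    (h2 : ∀ k < n, ∀ r : ℝ, (k : ℝ) + 2 ≤ r → r ≤ k + 3 → ‖y r - y (k + 2)‖ ≤ 2 * h)
    {L : ℝ → ℂ} (hL : ContinuousOn L (Icc s t))
    (he : ∀ r ∈ Icc s t, Complex.exp (L r) = y r - x) :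
    (L t - L s).im = wn p n x := by
  have hvx : 15 * h ≤ ‖v - x‖ := by
    have := far 0 (Nat.zero_le _)
    rwa [p0] at this
  -- the differences
  have hb : ∀ k ≤ n, p k - x ≠ 0 := fun k hkn h0 => by
    have := far k hkn
    rw [h0, norm_zero] at this
    linarith
  have hst' : s ≤ t := by
    have : (0 : ℝ) ≤ n := Nat.cast_nonneg n
    linarith
  have hyx : ∀ r ∈ Icc s t, y r - x ≠ 0 := fun r hr => by
    rw [← he r hr]
    exact Complex.exp_ne_zero _
  have hn0 : (0 : ℝ) ≤ n := Nat.cast_nonneg n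
  have hmem : ∀ k ≤ n, ((k : ℝ) + 2) ∈ Icc s t := by
    intro k hkn
    have h0 : (0 : ℝ) ≤ k := Nat.cast_nonneg k
    have h1' : (k : ℝ) ≤ n := by exact_mod_cast hkn
    constructor <;> linarith
  have ha : ∀ k ≤ n, y (k + 2) - x ≠ 0 := fun k hkn => hyx _ (hmem k hkn)
  -- norms of the small logarithms
  have hd : ∀ k ≤ n, ‖Complex.log ((y (k + 2) - x) / (p k - x))‖ ≤ 3 / 4 := by
    intro k hkn
    apply norm_log_le (hb k hkn)
    have e : (y (k + 2) - x) - (p k - x) = y (k + 2) - p k := by ring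
    rw [e]
    have := far k hkn
    have := hk k hkn
    linarith
  have hbb : ∀ k < n, ‖Complex.log ((p (k + 1) - x) / (p k - x))‖ ≤ 3 / 4 := by
    intro k hkn
    apply norm_log_le (hb k hkn.le)
    have e : (p (k + 1) - x) - (p k - x) = p (k + 1) - p k := by ring
    rw [e]
    have := far k hkn.le
    have := step k hkn
    linarith
  have hyk : ∀ k ≤ n, 14 * h ≤ ‖y (k + 2) - x‖ := by
    intro k hkn
    have h1' := far k hkn
    have h2' := hk k hkn
    have e : p k - x = (y (k + 2) - x) - (y (k + 2) - p k) := by ring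
    have h3' : ‖p k - x‖ ≤ ‖y (k + 2) - x‖ + ‖y (k + 2) - p k‖ := by
      rw [e]
      exact norm_sub_le _ _
    linarith
  have haa : ∀ k < n, ‖Complex.log ((y (k + 1 + 2) - x) / (y (k + 2) - x))‖ ≤ 3 / 4 := by
    intro k hkn
    apply norm_log_le (ha k hkn.le)
    have e : (y (k + 1 + 2) - x) - (y (k + 2) - x) = y (k + 1 + 2) - y (k + 2) := by ring
    rw [e]
    have h1' := hyk k hkn.le
    have h2' := h2 k hkn (k + 1 + 2) (by linarith) (by linarith)
    linarith
  -- one step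
  have hone : ∀ k < n, L (k + 1 + 2) - L (k + 2) =
      Complex.log ((p (k + 1) - x) / (p k - x)) +
        Complex.log ((y (k + 1 + 2) - x) / (p (k + 1) - x)) -
        Complex.log ((y (k + 2) - x) / (p k - x)) := by
    intro k hkn
    have m1 := hmem k hkn.le
    have m2 := hmem (k + 1) hkn
    push_cast at m2
    have hsub : Icc ((k : ℝ) + 2) (k + 1 + 2) ⊆ Icc s t := Icc_subset_Icc m1.1 m2.2
    have e1 : L (k + 1 + 2) - L (k + 2) =
        Complex.log ((y (k + 1 + 2) - x) / (y (k + 2) - x)) := by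
      apply log_step (by linarith) hy.continuousOn (hL.mono hsub) (fun r hr => he r (hsub hr))
      intro r hr
      have h1' := hyk k hkn.le
      have h2' := h2 k hkn r hr.1 (by linarith [hr.2])
      linarith
    rw [e1]
    have hd1 := hd (k + 1) hkn
    push_cast at hd1
    have hz := eq_zero_of_exp (z := Complex.log ((y (k + 1 + 2) - x) / (y (k + 2) - x)) +
        Complex.log ((y (k + 2) - x) / (p k - x)) -
        Complex.log ((p (k + 1) - x) / (p k - x)) +
        -Complex.log ((y (k + 1 + 2) - x) / (p (k + 1) - x))) (by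
      have a1 := ha k hkn.le
      have a2 := ha (k + 1) hkn
      push_cast at a2
      have b1 := hb k hkn.le
      have b2 := hb (k + 1) hkn
      rw [Complex.exp_add, Complex.exp_sub, Complex.exp_add, Complex.exp_neg,
        Complex.exp_log (div_ne_zero a2 a1), Complex.exp_log (div_ne_zero a1 b1),
        Complex.exp_log (div_ne_zero b2 b1), Complex.exp_log (div_ne_zero a2 b2)]
      field_simp) (by
      apply sum_norm4 _ _ _ _ (haa k hkn) (hd k hkn.le) (hbb k hkn)
      rw [norm_neg]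
      exact hd1)
    linear_combination hz
  -- all the steps
  have hall : ∀ k ≤ n, L (k + 2) - L 2 =
      ∑ i ∈ Finset.range k, Complex.log ((p (i + 1) - x) / (p i - x)) +
        Complex.log ((y (k + 2) - x) / (p k - x)) - Complex.log ((y 2 - x) / (p 0 - x)) := by
    intro k
    induction k with
    | zero =>
      intro _
      simp
    | succ k ih =>
      intro hkn
      have i1 := ih (by omega)
      have i2 := hone k (by omega)
      rw [Finset.sum_range_succ]
      push_cast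
      linear_combination i1 + i2
  have hlast := hall n le_rfl
  -- first and last pieces
  have hs2 : L 2 - L s = Complex.log ((y 2 - x) / (y s - x)) := by
    have hsub : Icc s 2 ⊆ Icc s t := Icc_subset_Icc le_rfl (by linarith)
    apply log_step (by linarith) hy.continuousOn (hL.mono hsub) (fun r hr => he r (hsub hr))
    intro r hr
    have b1 := h1 r (by linarith [hr.1]) hr.2
    have b2 := h1 s hs0 (by linarith)
    have b3 : ‖y r - y s‖ ≤ ‖y r - v‖ + ‖y s - v‖ := by
      have e : y r - y s = (y r - v) - (y s - v) := by ring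
      rw [e]
      exact norm_sub_le _ _
    have b4 : ‖v - x‖ ≤ ‖y s - x‖ + ‖y s - v‖ := by
      have e : v - x = (y s - x) - (y s - v) := by ring
      rw [e]
      exact norm_sub_le _ _
    linarith
  have ht2 : L t - L (n + 2) = Complex.log ((y t - x) / (y (n + 2) - x)) := by
    have hsub : Icc ((n : ℝ) + 2) t ⊆ Icc s t := Icc_subset_Icc (by linarith) le_rfl
    apply log_step (by linarith) hy.continuousOn (hL.mono hsub) (fun r hr => he r (hsub hr))
    intro r hr
    have b1 := h3 r (by linarith [hr.1]) (by linarith [hr.2])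
    have b2 := h3 (n + 2) le_rfl (by linarith)
    have b3 : ‖y r - y (n + 2)‖ ≤ ‖y r - v‖ + ‖y (n + 2) - v‖ := by
      have e : y r - y (n + 2) = (y r - v) - (y (n + 2) - v) := by ring
      rw [e]
      exact norm_sub_le _ _
    have b4 : ‖v - x‖ ≤ ‖y (n + 2) - x‖ + ‖y (n + 2) - v‖ := by
      have e : v - x = (y (n + 2) - x) - (y (n + 2) - v) := by ring
      rw [e]
      exact norm_sub_le _ _
    linarith
  have hys : y s - x ≠ 0 := hyx s ⟨le_rfl, hst'⟩
  have hy2 : y 2 - x ≠ 0 := by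
    have := ha 0 (Nat.zero_le _)
    simpa using this
  have hyn : y (n + 2) - x ≠ 0 := ha n le_rfl
  have hv : v - x ≠ 0 := by
    have := hb 0 (Nat.zero_le _)
    rwa [p0] at this
  have n1 : ‖Complex.log ((y t - x) / (y (n + 2) - x))‖ ≤ 3 / 4 := by
    apply norm_log_le hyn
    have b1 := h3 t (by linarith) ht1
    have b2 := hk n le_rfl
    rw [pn] at b2
    have b3 : ‖(y t - x) - (y (n + 2) - x)‖ ≤ ‖y t - v‖ + ‖y (n + 2) - v‖ := by
      have e : (y t - x) - (y (n + 2) - x) = (y t - v) - (y (n + 2) - v) := by ring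
      rw [e]
      exact norm_sub_le _ _
    have := hyk n le_rfl
    linarith
  have n2 : ‖Complex.log ((y 2 - x) / (y s - x))‖ ≤ 3 / 4 := by
    apply norm_log_le hys
    have b1 : ‖y 2 - v‖ ≤ h / 4 := by
      have := hk 0 (Nat.zero_le _)
      rw [p0] at this
      simpa using this
    have b2 := h1 s hs0 (by linarith)
    have b3 : ‖(y 2 - x) - (y s - x)‖ ≤ ‖y 2 - v‖ + ‖y s - v‖ := by
      have e : (y 2 - x) - (y s - x) = (y 2 - v) - (y s - v) := by ring
      rw [e]
      exact norm_sub_le _ _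
    have b4 : ‖v - x‖ ≤ ‖y s - x‖ + ‖y s - v‖ := by
      have e : v - x = (y s - x) - (y s - v) := by ring
      rw [e]
      exact norm_sub_le _ _
    linarith
  have n3 : ‖Complex.log ((y (n + 2) - x) / (v - x))‖ ≤ 3 / 4 := by
    have := hd n le_rfl
    rwa [pn] at this
  have n4 : ‖Complex.log ((y 2 - x) / (v - x))‖ ≤ 3 / 4 := by
    have := hd 0 (Nat.zero_le _)
    rw [p0] at this
    simpa using this
  have hz := eq_zero_of_exp (z := Complex.log ((y t - x) / (y (n + 2) - x)) +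
      Complex.log ((y (n + 2) - x) / (v - x)) - Complex.log ((y 2 - x) / (v - x)) +
      Complex.log ((y 2 - x) / (y s - x))) (by
    rw [Complex.exp_add, Complex.exp_sub, Complex.exp_add, ← hst,
      Complex.exp_log (div_ne_zero hys hyn), Complex.exp_log (div_ne_zero hyn hv),
      Complex.exp_log (div_ne_zero hy2 hv), Complex.exp_log (div_ne_zero hy2 hys)]
    field_simp) (sum_norm4 _ _ _ _ n1 n3 n4 n2)
  have htot : L t - L s = ∑ i ∈ Finset.range n, Complex.log ((p (i + 1) - x) / (p i - x)) := by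
    rw [pn, p0] at hlast
    linear_combination hlast + hs2 + ht2 + hz
  rw [htot, Complex.im_sum]
  unfold wn
  exact Finset.sum_congr rfl fun i _ => Complex.log_im _

/-! ### The pattern -/

/-- the steps of the pattern: a horizontal traverse, back, the loop, and a way around to the
vertical traverse -/
noncomputable def V (n : ℕ) (u : ℕ → ℂ) (i : ℕ) : ℂ :=
  if i = 0 then -2 else if i = 1 then 2 else if i < n + 2 then u (i - 2) else
    if i = n + 2 then 2 * Complex.I else if i = n + 3 then -1 else -(4 * Complex.I)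

theorem V_zero (n : ℕ) (u : ℕ → ℂ) : V n u 0 = -2 := by simp [V]

theorem V_one (n : ℕ) (u : ℕ → ℂ) : V n u 1 = 2 := by simp [V]

theorem V_mid {n : ℕ} (u : ℕ → ℂ) {k : ℕ} (hk : k < n) : V n u (k + 2) = u k := by
  simp [V, hk]

theorem V_a (n : ℕ) (u : ℕ → ℂ) : V n u (n + 2) = 2 * Complex.I := by simp [V]

theorem V_b (n : ℕ) (u : ℕ → ℂ) : V n u (n + 3) = -1 := by simp [V]

theorem V_c (n : ℕ) (u : ℕ → ℂ) : V n u (n + 4) = -(4 * Complex.I) := by simp [V]

theorem sumV {n : ℕ} (u : ℕ → ℂ) {k : ℕ} (hk : k ≤ n) :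
    ∑ j ∈ Finset.range (k + 2), V n u j = ∑ j ∈ Finset.range k, u j := by
  induction k with
  | zero =>
    simp [Finset.sum_range_succ, V_zero, V_one]
  | succ k ih =>
    rw [show k + 1 + 2 = (k + 2) + 1 by ring, Finset.sum_range_succ, ih (by omega),
      V_mid u (by omega), Finset.sum_range_succ]

theorem sumV_one (n : ℕ) (u : ℕ → ℂ) : ∑ j ∈ Finset.range 1, V n u j = -2 := by
  simp [V_zero]

theorem sumV_a (n : ℕ) (u : ℕ → ℂ) (hu : ∑ j ∈ Finset.range n, u j = 0) :
    ∑ j ∈ Finset.range (n + 2), V n u j = 0 := by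
  rw [sumV u le_rfl, hu]

theorem sumV_b (n : ℕ) (u : ℕ → ℂ) (hu : ∑ j ∈ Finset.range n, u j = 0) :
    ∑ j ∈ Finset.range (n + 3), V n u j = 2 * Complex.I := by
  rw [Finset.sum_range_succ, sumV_a n u hu, V_a, zero_add]

theorem sumV_c (n : ℕ) (u : ℕ → ℂ) (hu : ∑ j ∈ Finset.range n, u j = 0) :
    ∑ j ∈ Finset.range (n + 4), V n u j = 2 * Complex.I - 1 := by
  rw [Finset.sum_range_succ, sumV_b n u hu, V_b]
  ring

/-- the path `z` follows the pattern -/
def Tube (n : ℕ) (u : ℕ → ℂ) (z : ℝ≥0 → ℂ) : Prop :=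
  ∀ i < n + 5, ∀ r : ℝ≥0, (i : ℝ) ≤ r → (r : ℝ) ≤ i + 1 →
    ‖z r - (∑ j ∈ Finset.range i, V n u j + (((r : ℝ) - i : ℝ) : ℂ) * V n u i)‖ < 1 / 4

theorem norm_V_le {n : ℕ} {u : ℕ → ℂ} (hu : ∀ j < n, ‖u j‖ ≤ 1) (a : ℝ) (ha0 : 0 ≤ a)
    (ha1 : a ≤ 1) {k : ℕ} (hk : k < n) : ‖(a : ℂ) * V n u (k + 2)‖ ≤ 1 := by
  rw [V_mid u hk, norm_mul, Complex.norm_real, Real.norm_eq_abs, abs_of_nonneg ha0]
  have := hu k hk
  nlinarith [norm_nonneg (u k)]

/-- the pattern stays close to the lattice loop -/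
theorem near_loop {n : ℕ} {u : ℕ → ℂ} (hu1 : ∀ j < n, ‖u j‖ ≤ 1)
    (hu : ∑ j ∈ Finset.range n, u j = 0) {i : ℕ} (hi : i < n + 5) {a : ℝ} (ha0 : 0 ≤ a)
    (ha1 : a ≤ 1) : ∃ k ≤ n, ‖(∑ j ∈ Finset.range i, V n u j + (a : ℂ) * V n u i) -
      ∑ j ∈ Finset.range k, u j‖ ≤ 13 / 4 ∧ ((i < 2 ∨ n + 2 ≤ i) → k = 0) := by
  have na : ‖(a : ℂ)‖ = a := by
    rw [Complex.norm_real, Real.norm_eq_abs, abs_of_nonneg ha0]
  have n2 : ‖(2 : ℂ)‖ = 2 := by simp
  by_cases h0 : i = 0
  · subst h0
    refine ⟨0, Nat.zero_le _, ?_, fun _ => rfl⟩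
    rw [V_zero]
    simp only [Finset.range_zero, Finset.sum_empty, zero_add, sub_zero]
    rw [norm_mul, norm_neg, na, n2]
    linarith
  by_cases h1 : i = 1
  · subst h1
    refine ⟨0, Nat.zero_le _, ?_, fun _ => rfl⟩
    rw [V_one, sumV_one]
    simp only [Finset.range_zero, Finset.sum_empty, sub_zero]
    have e : (-2 : ℂ) + a * 2 = ((-2 + a * 2 : ℝ) : ℂ) := by push_cast; ring
    rw [e, Complex.norm_real, Real.norm_eq_abs, abs_le]
    constructor <;> linarith
  by_cases h2 : i < n + 2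
  · obtain ⟨k, rfl⟩ : ∃ k, i = k + 2 := ⟨i - 2, by omega⟩
    refine ⟨k, by omega, ?_, fun h => by omega⟩
    rw [sumV u (by omega), add_sub_cancel_left]
    exact (norm_V_le hu1 a ha0 ha1 (by omega)).trans (by norm_num)
  obtain rfl | rfl | rfl : i = n + 2 ∨ i = n + 3 ∨ i = n + 4 := by omega
  · refine ⟨0, Nat.zero_le _, ?_, fun _ => rfl⟩
    rw [sumV_a n u hu, V_a]
    simp only [Finset.range_zero, Finset.sum_empty, sub_zero, zero_add]
    rw [norm_mul, norm_mul, na, n2, Complex.norm_I]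
    linarith
  · refine ⟨0, Nat.zero_le _, ?_, fun _ => rfl⟩
    rw [sumV_b n u hu, V_b]
    simp only [Finset.range_zero, Finset.sum_empty, sub_zero]
    refine (norm_add_le _ _).trans ?_
    rw [norm_mul, norm_mul, norm_neg, na, n2, Complex.norm_I, norm_one]
    linarith
  · refine ⟨0, Nat.zero_le _, ?_, fun _ => rfl⟩
    rw [sumV_c n u hu, V_c]
    simp only [Finset.range_zero, Finset.sum_empty, sub_zero]
    have e : 2 * Complex.I - 1 + (a : ℂ) * -(4 * Complex.I) =
      ((2 - 4 * a : ℝ) : ℂ) * Complex.I - 1 := by push_cast; ring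
    rw [e]
    refine (norm_sub_le _ _).trans ?_
    rw [norm_mul, Complex.norm_I, norm_one, Complex.norm_real, Real.norm_eq_abs]
    have : |2 - 4 * a| ≤ 2 := by
      rw [abs_le]
      constructor <;> linarith
    linarith

/-- **A path which follows the pattern separates.** -/
theorem sep_of_tube {E : Set ℂ} {v : ℂ} {h : ℝ} {n : ℕ} {p : ℕ → ℂ} (hh : 0 < h)
    (hl : Loop E v h n p) {y : Pth} {τ : ℝ≥0} (hτ : 0 < τ)
    (ht : Tube n (fun j => (p (j + 1) - p j) / h) (fun r => (y (τ * r) - v) / h)) :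
    SepT E (τ * (n + 5)) y := by
  set u : ℕ → ℂ := fun j => (p (j + 1) - p j) / h with hu_def
  have hhc : (h : ℂ) ≠ 0 := by exact_mod_cast hh.ne'
  have nh : ‖(h : ℂ)‖ = h := by rw [Complex.norm_real, Real.norm_eq_abs, abs_of_pos hh]
  -- the lattice loop
  have hpk : ∀ k, p k = v + h * ∑ j ∈ Finset.range k, u j := by
    intro k
    induction k with
    | zero => simp [hl.start]
    | succ k ih =>
      rw [Finset.sum_range_succ, mul_add, ← add_assoc, ← ih, hu_def]
      simp only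
      field_simp
      ring
  have hu0 : ∑ j ∈ Finset.range n, u j = 0 := by
    have h1 := hpk n
    rw [hl.fin] at h1
    have h2 : (h : ℂ) * ∑ j ∈ Finset.range n, u j = 0 := by linear_combination -h1
    exact (mul_eq_zero.1 h2).resolve_left hhc
  have hstep : ∀ i < n, ‖p (i + 1) - p i‖ ≤ h := by
    intro i hi
    rcases hl.step i hi with h1 | h1 | h1 | h1 <;> rw [h1] <;> simp [abs_of_pos hh]
  have hu1 : ∀ j < n, ‖u j‖ ≤ 1 := by
    intro j hj
    rw [hu_def]
    simp only
    rw [norm_div, nh, div_le_one hh]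
    exact hstep j hj
  have far : ∀ x ∈ E, ∀ i ≤ n, 15 * h ≤ ‖p i - x‖ := by
    intro x hx i hi
    rw [← dist_eq_norm]
    exact (hl.far i hi).trans (infDist_le_dist_of_mem hx)
  -- the path near the loop
  have hnear : ∀ i < n + 5, ∀ r : ℝ≥0, (i : ℝ) ≤ r → (r : ℝ) ≤ i + 1 →
      ∃ k ≤ n, ‖y (τ * r) - p k‖ ≤ 7 / 2 * h ∧ ((i < 2 ∨ n + 2 ≤ i) → k = 0) := by
    intro i hi r hr0 hr1
    have h1 := ht i hi r hr0 hr1
    simp only at h1
    obtain ⟨k, hk, h2, h3⟩ := near_loop (a := (r : ℝ) - i) hu1 hu0 hi (by linarith) (by linarith)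
    refine ⟨k, hk, ?_, h3⟩
    set Q := ∑ j ∈ Finset.range i, V n u j + (((r : ℝ) - i : ℝ) : ℂ) * V n u i with hQ
    have e : y (τ * r) - p k = h * (((y (τ * r) - v) / h - Q) + (Q - ∑ j ∈ Finset.range k, u j)) := by
      rw [hpk k]
      field_simp
      ring
    rw [e, norm_mul, nh]
    have h4 := norm_add_le ((y (τ * r) - v) / h - Q) (Q - ∑ j ∈ Finset.range k, u j)
    nlinarith
  -- avoiding `E`
  have havoid : ∀ a : ℝ≥0, a ≤ τ * (n + 5) → y a ∉ E := by
    intro a ha hE
    set r : ℝ≥0 := a / τ with hr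
    have har : a = τ * r := by rw [hr, mul_div_cancel₀ _ hτ.ne']
    have hr5 : (r : ℝ) ≤ n + 5 := by
      have h1 : r ≤ n + 5 := by
        rw [hr, div_le_iff₀ hτ, mul_comm]
        exact ha
      exact_mod_cast h1
    obtain ⟨i, hi, hi0, hi1⟩ : ∃ i < n + 5, (i : ℝ) ≤ r ∧ (r : ℝ) ≤ i + 1 := by
      by_cases hlt : (r : ℝ) < n + 5
      · refine ⟨⌊(r : ℝ)⌋₊, ?_, Nat.floor_le (NNReal.coe_nonneg r), (Nat.lt_floor_add_one _).le⟩
        rw [Nat.floor_lt (NNReal.coe_nonneg r)]
        push_cast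
        exact hlt
      · push Not at hlt
        refine ⟨n + 4, by omega, ?_, ?_⟩ <;> push_cast <;> linarith
    obtain ⟨k, hk, h1, -⟩ := hnear i hi r hi0 hi1
    rw [har] at hE
    have h2 := far _ hE k hk
    rw [norm_sub_rev] at h1
    linarith
  -- the path as a function on the real line
  set Y : ℝ → ℂ := fun r => y (τ * Real.toNNReal r) with hY_def
  have hY : Continuous Y := by
    rw [hY_def]
    exact y.continuous.comp (continuous_const.mul continuous_real_toNNReal)
  have hco : ∀ r : ℝ, 0 ≤ r → ((Real.toNNReal r : ℝ≥0) : ℝ) = r := fun r hr => Real.coe_toNNReal r hr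
  have hnR : ∀ i < n + 5, ∀ r : ℝ, (i : ℝ) ≤ r → r ≤ i + 1 →
      ∃ k ≤ n, ‖Y r - p k‖ ≤ 7 / 2 * h ∧ ((i < 2 ∨ n + 2 ≤ i) → k = 0) := by
    intro i hi r hr0 hr1
    have h0 : 0 ≤ r := (Nat.cast_nonneg i).trans hr0
    exact hnear i hi (Real.toNNReal r) (by rwa [hco r h0]) (by rwa [hco r h0])
  have htR : ∀ i < n + 5, ∀ r : ℝ, (i : ℝ) ≤ r → r ≤ i + 1 →
      ‖(Y r - v) / h - (∑ j ∈ Finset.range i, V n u j + ((r - i : ℝ) : ℂ) * V n u i)‖ < 1 / 4 := by
    intro i hi r hr0 hr1
    have h0 : 0 ≤ r := (Nat.cast_nonneg i).trans hr0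
    have h1 := ht i hi (Real.toNNReal r) (by rwa [hco r h0]) (by rwa [hco r h0])
    rw [hco r h0] at h1
    exact h1
  have hn0 : (0 : ℝ) ≤ n := Nat.cast_nonneg n
  have c1 : ∀ r : ℝ, 0 ≤ r → r ≤ 2 → ‖Y r - v‖ ≤ 7 / 2 * h := by
    intro r hr0 hr2
    rcases le_total r 1 with hr1 | hr1
    · obtain ⟨k, -, h1, h2⟩ := hnR 0 (by omega) r (by simpa using hr0) (by simpa using hr1)
      rw [h2 (Or.inl (by norm_num)), hl.start] at h1
      exact h1
    · obtain ⟨k, -, h1, h2⟩ := hnR 1 (by omega) r (by simpa using hr1) (by push_cast; linarith)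
      rw [h2 (Or.inl (by norm_num)), hl.start] at h1
      exact h1
  have c3 : ∀ r : ℝ, (n : ℝ) + 2 ≤ r → r ≤ n + 5 → ‖Y r - v‖ ≤ 7 / 2 * h := by
    intro r hr0 hr2
    by_cases ha : r ≤ n + 3
    · obtain ⟨k, -, h1, h2⟩ := hnR (n + 2) (by omega) r (by push_cast; linarith)
        (by push_cast; linarith)
      rw [h2 (Or.inr (by omega)), hl.start] at h1
      exact h1
    push Not at ha
    by_cases hb : r ≤ n + 4
    · obtain ⟨k, -, h1, h2⟩ := hnR (n + 3) (by omega) r (by push_cast; linarith)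
        (by push_cast; linarith)
      rw [h2 (Or.inr (by omega)), hl.start] at h1
      exact h1
    push Not at hb
    obtain ⟨k, -, h1, h2⟩ := hnR (n + 4) (by omega) r (by push_cast; linarith)
      (by push_cast; linarith)
    rw [h2 (Or.inr (by omega)), hl.start] at h1
    exact h1
  have ck : ∀ k ≤ n, ‖Y (k + 2) - p k‖ ≤ h / 4 := by
    intro k hk
    have h1 := htR (k + 2) (by omega) (k + 2) (by push_cast; linarith) (by push_cast; linarith)
    rw [sumV u hk] at h1
    push_cast at h1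
    rw [sub_self, zero_mul, add_zero] at h1
    have e : Y (k + 2) - p k = h * ((Y (k + 2) - v) / h - ∑ j ∈ Finset.range k, u j) := by
      rw [hpk k]
      field_simp
      ring
    rw [e, norm_mul, nh]
    nlinarith
  have c2 : ∀ k < n, ∀ r : ℝ, (k : ℝ) + 2 ≤ r → r ≤ k + 3 → ‖Y r - Y (k + 2)‖ ≤ 2 * h := by
    intro k hk r hr0 hr1
    have h1 := htR (k + 2) (by omega) r (by push_cast; linarith) (by push_cast; linarith)
    rw [sumV u hk.le, V_mid u hk] at h1
    push_cast at h1
    have h2 := ck k hk.le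
    have e : Y r - Y (k + 2) = h * ((Y r - v) / h - (∑ j ∈ Finset.range k, u j +
        ((r : ℂ) - (k + 2)) * u k)) - (Y (k + 2) - p k) + h * (((r - (k + 2) : ℝ) : ℂ) * u k) := by
      rw [hpk k]
      push_cast
      field_simp
      ring
    rw [e]
    have h3 : ‖(h : ℂ) * (((r - (k + 2) : ℝ) : ℂ) * u k)‖ ≤ h := by
      rw [norm_mul, nh, norm_mul, Complex.norm_real, Real.norm_eq_abs, abs_of_nonneg (by linarith)]
      have h4 := hu1 k hk
      have h5 : (r - (k + 2)) * ‖u k‖ ≤ 1 := by nlinarith [norm_nonneg (u k)]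
      nlinarith
    refine (norm_add_le _ _).trans ?_
    refine (add_le_add (norm_sub_le _ _) h3).trans ?_
    rw [norm_mul, nh]
    nlinarith
  -- the crossing
  obtain ⟨s, ⟨hs0, hs1⟩, t, ⟨ht0, ht1⟩, hst⟩ : ∃ s ∈ Icc (0 : ℝ) 1,
      ∃ t ∈ Icc ((n : ℝ) + 4) (n + 5), Y s = Y t := by
    have t0 : ∀ r ∈ Icc (0 : ℝ) 1, |((Y r - v) / h).re + 2 * r| < 1 / 4 ∧
        |((Y r - v) / h).im| < 1 / 4 := by
      intro r hr
      have h1 := htR 0 (by omega) r (by simpa using hr.1) (by simpa using hr.2)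
      rw [V_zero] at h1
      simp only [Finset.range_zero, Finset.sum_empty, Nat.cast_zero, sub_zero, zero_add] at h1
      have h2 := (Complex.abs_re_le_norm _).trans_lt h1
      have h3 := (Complex.abs_im_le_norm _).trans_lt h1
      simp only [Complex.sub_re, Complex.mul_re, Complex.sub_im, Complex.mul_im, Complex.neg_re,
        Complex.neg_im, Complex.ofReal_re, Complex.ofReal_im, Complex.re_ofNat,
        Complex.im_ofNat, neg_zero, mul_zero, sub_zero, zero_mul, add_zero] at h2 h3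
      constructor
      · have e : ((Y r - v) / h).re + 2 * r = ((Y r - v) / h).re - r * -2 := by ring
        rw [e]
        exact h2
      · exact h3
    have t4 : ∀ r ∈ Icc ((n : ℝ) + 4) (n + 5), |((Y r - v) / h).re + 1| < 1 / 4 ∧
        |((Y r - v) / h).im - (2 - 4 * (r - (n + 4)))| < 1 / 4 := by
      intro r hr
      have h1 := htR (n + 4) (by omega) r (by push_cast; linarith [hr.1])
        (by push_cast; linarith [hr.2])
      rw [V_c, sumV_c n u hu0] at h1
      have h2 := (Complex.abs_re_le_norm _).trans_lt h1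
      have h3 := (Complex.abs_im_le_norm _).trans_lt h1
      simp only [Complex.sub_re, Complex.mul_re, Complex.sub_im, Complex.mul_im, Complex.neg_re,
        Complex.neg_im, Complex.ofReal_re, Complex.ofReal_im, Complex.re_ofNat, Complex.add_re,
        Complex.add_im, Complex.I_re, Complex.I_im, Complex.one_re, Complex.one_im,
        Complex.im_ofNat, neg_zero, mul_zero, sub_zero, zero_mul, add_zero, mul_one, zero_sub,
        Nat.cast_add, Nat.cast_ofNat] at h2 h3
      constructor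
      · have e : ((Y r - v) / h).re + 1 = ((Y r - v) / h).re - -1 := by ring
        rw [e]
        exact h2
      · have e : ((Y r - v) / h).im - (2 - 4 * (r - (n + 4))) =
            ((Y r - v) / h).im - (2 + (r - (n + 4)) * -4) := by ring
        rw [e]
        exact h3
    have hcr : Continuous (fun r => ((Y r - v) / h).re) :=
      Complex.continuous_re.comp ((hY.sub continuous_const).div_const _)
    have hci : Continuous (fun r => ((Y r - v) / h).im) :=
      Complex.continuous_im.comp ((hY.sub continuous_const).div_const _)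
    obtain ⟨s, hs, t, ht', e1, e2⟩ := Pool.Agent.Helper627.PM.poincare_miranda 0 1 ((n : ℝ) + 4)
      (n + 5) (by norm_num) (by linarith)
      (fun q => ((Y q.1 - v) / h).im - ((Y q.2 - v) / h).im)
      (fun q => ((Y q.2 - v) / h).re - ((Y q.1 - v) / h).re)
      ((hci.comp continuous_fst).sub (hci.comp continuous_snd)).continuousOn
      ((hcr.comp continuous_snd).sub (hcr.comp continuous_fst)).continuousOn
      (by
        intro r hr
        have h1 := abs_lt.1 (t0 0 ⟨le_rfl, zero_le_one⟩).1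
        have h2 := abs_lt.1 (t4 r hr).1
        simp only
        linarith [h1.1, h2.2])
      (by
        intro r hr
        have h1 := abs_lt.1 (t0 1 ⟨zero_le_one, le_rfl⟩).1
        have h2 := abs_lt.1 (t4 r hr).1
        simp only
        linarith [h1.2, h2.1])
      (by
        intro r hr
        have h1 := abs_lt.1 (t0 r hr).2
        have h2 := abs_lt.1 (t4 (n + 4) ⟨le_rfl, by linarith⟩).2
        simp only
        linarith [h1.2, h2.1])
      (by
        intro r hr
        have h1 := abs_lt.1 (t0 r hr).2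
        have h2 := abs_lt.1 (t4 (n + 5) ⟨by linarith, le_rfl⟩).2
        simp only
        linarith [h1.1, h2.2])
    refine ⟨s, hs, t, ht', ?_⟩
    simp only at e1 e2
    have e3 : (Y s - v) / h = (Y t - v) / h := Complex.ext (by linarith) (by linarith)
    have e4 := mul_right_cancel₀ (inv_ne_zero hhc) (by simpa only [div_eq_mul_inv] using e3)
    exact sub_left_inj.1 e4
  -- conclusion
  have hslt : s < t := by linarith
  have hs'0 : 0 ≤ s := hs0
  have ht'0 : 0 ≤ t := by linarith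
  have himg : y '' Icc (τ * Real.toNNReal s) (τ * Real.toNNReal t) = Y '' Icc s t := by
    ext z
    constructor
    · rintro ⟨a, ⟨ha0, ha1⟩, rfl⟩
      have har : a = τ * (a / τ) := (mul_div_cancel₀ _ hτ.ne').symm
      refine ⟨((a / τ : ℝ≥0) : ℝ), ⟨?_, ?_⟩, ?_⟩
      · rw [har] at ha0
        have h1 := le_of_mul_le_mul_left ha0 hτ
        have h2 : ((Real.toNNReal s : ℝ≥0) : ℝ) ≤ ((a / τ : ℝ≥0) : ℝ) := by exact_mod_cast h1
        rwa [hco s hs'0] at h2
      · rw [har] at ha1
        have h1 := le_of_mul_le_mul_left ha1 hτ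
        have h2 : ((a / τ : ℝ≥0) : ℝ) ≤ ((Real.toNNReal t : ℝ≥0) : ℝ) := by exact_mod_cast h1
        rwa [hco t ht'0] at h2
      · rw [hY_def]
        simp only
        rw [Real.toNNReal_coe, ← har]
    · rintro ⟨r, ⟨hr0, hr1⟩, rfl⟩
      refine ⟨τ * Real.toNNReal r, ⟨?_, ?_⟩, rfl⟩
      · exact mul_le_mul_of_nonneg_left (Real.toNNReal_le_toNNReal hr0) bot_le
      · exact mul_le_mul_of_nonneg_left (Real.toNNReal_le_toNNReal hr1) bot_le
  have htle : τ * Real.toNNReal t ≤ τ * (n + 5) := by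
    refine mul_le_mul_of_nonneg_left ?_ bot_le
    rw [Real.toNNReal_le_iff_le_coe]
    push_cast
    exact ht1
  refine ⟨havoid, τ * Real.toNNReal s, τ * Real.toNNReal t, ?_, htle, hst, ?_⟩
  · refine mul_lt_mul_of_pos_left ?_ hτ
    exact (Real.toNNReal_lt_toNNReal_iff_of_nonneg hs'0).2 hslt
  obtain ⟨x, hx, x', hx', hne⟩ := hl.sep
  refine ⟨x, hx, x', hx', fun hcomp => hne ?_⟩
  rw [himg] at hcomp
  have hout : ∀ z ∈ E, z ∉ Y '' Icc s t := by
    rintro z hz ⟨r, hr, rfl⟩
    refine havoid (τ * Real.toNNReal r) ?_ hz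
    refine (mul_le_mul_of_nonneg_left (Real.toNNReal_le_toNNReal hr.2) bot_le).trans htle
  obtain ⟨c, hc⟩ := HasInd.exists' hslt.le hY.continuousOn (hout x hx)
  obtain ⟨c', hc'⟩ := HasInd.exists' hslt.le hY.continuousOn (hout x' hx')
  have hcc := HasInd.eq_of_component hslt.le hY.continuousOn hst (hout x hx) (hout x' hx') hc hc'
    hcomp
  obtain ⟨L, hL, he, hLc⟩ := hc
  obtain ⟨L', hL', he', hLc'⟩ := hc'
  have w1 := core hh hY hl.start hl.fin (far x hx) hstep hs0 hs1 ht0 ht1 hst c1 c3 ck c2 hL he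
  have w2 := core hh hY hl.start hl.fin (far x' hx') hstep hs0 hs1 ht0 ht1 hst c1 c3 ck c2 hL' he'
  rw [← w1, ← w2, hLc, hLc', hcc]

end Pool.Agent.Z55B.CW
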