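import Mathlib

/-!
# Project Z55B, piece D, part 1 (helper23): continuous logarithms in the plane
-/

set_option autoImplicit false
open Set Metric Filter Topology

namespace Pool.Agent.Z55B

/-- a continuous nowhere vanishing function on the plane has a continuous logarithm -/
lemma exists_log (G : C(ℂ, ℂ)) (h : ∀ w, G w ≠ 0) : ∃ l : C(ℂ, ℂ), ∀ w, Complex.exp (l w) = G w := by
  rcases Complex.isCoveringMapOn_exp.existsUnique_continuousMap_lifts
    G (Complex.exp_log (h 0)) (fun x => h x) with ⟨f, ⟨-, hf⟩, -⟩
  exact ⟨f, fun w => congr($hf w)⟩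

/-- a continuous function on the line with values in the kernel of `exp` is constant -/
lemma const_of_exp_one (g : ℝ → ℂ) (hg : Continuous g) (h : ∀ t, Complex.exp (g t) = 1) (s t : ℝ) :
    g s = g t := by
  have h1 : ∀ t, ∃ n : ℤ, g t = n * (2 * Real.pi * Complex.I) := fun t =>
    Complex.exp_eq_one_iff.1 (h t)
  choose n hn using h1
  have h2 : Continuous n := by
    rw [Int.isClosedEmbedding_coe_real.isEmbedding.continuous_iff]
    have h3 : (Int.cast ∘ n : ℝ → ℝ) = fun t => (g t).im / (2 * Real.pi) := by
      funext t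
      have : (g t).im = n t * (2 * Real.pi) := by
        rw [hn t]
        simp
      simp only [Function.comp_apply]
      rw [this]
      field_simp
    rw [h3]
    fun_prop
  have h4 : n s = n t := PreconnectedSpace.constant inferInstance h2
  rw [hn s, hn t, h4]

lemma no_log (v e : ℂ) (ρ : ℝ) (he : ‖e - v‖ < ρ) (l : ℂ → ℂ) (hl : Continuous l)
    (hexp : ∀ w, ‖w - v‖ = ρ → Complex.exp (l w) = w - e) : False := by
  have hρ : 0 < ρ := lt_of_le_of_lt (norm_nonneg _) he
  set c : ℝ → ℂ := fun t => ρ * Complex.exp (t * Complex.I) with hc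
  have hcn : ∀ t, ‖c t‖ = ρ := by
    intro t
    simp [hc, Complex.norm_exp_ofReal_mul_I, abs_of_pos hρ]
  have hc0 : ∀ t, c t ≠ 0 := fun t h0 => by
    have := hcn t
    rw [h0, norm_zero] at this
    exact hρ.ne this
  have hcc : Continuous c := by rw [hc]; fun_prop
  set k : ℝ → ℂ := fun t => 1 - (e - v) / c t with hk
  have hkc : Continuous k := by
    rw [hk]
    exact continuous_const.sub (continuous_const.div hcc hc0)
  have hks : ∀ t, k t ∈ Complex.slitPlane := by
    intro t
    refine Complex.mem_slitPlane_iff.2 (Or.inl ?_)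
    have h1 : ‖(e - v) / c t‖ < 1 := by
      rw [norm_div, hcn, div_lt_one hρ]
      exact he
    have h2 := Complex.re_le_norm ((e - v) / c t)
    simp only [hk, Complex.sub_re, Complex.one_re]
    linarith
  set g : ℝ → ℂ := fun t => l (v + c t) - (Real.log ρ + t * Complex.I) - Complex.log (k t) with hg
  have hgc : Continuous g := by
    rw [hg]
    refine Continuous.sub (Continuous.sub ?_ ?_) ?_
    · exact hl.comp (continuous_const.add hcc)
    · fun_prop
    · exact hkc.clog hks
  have hg1 : ∀ t, Complex.exp (g t) = 1 := by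
    intro t
    have h1 : Complex.exp (l (v + c t)) = v + c t - e := by
      apply hexp
      rw [add_sub_cancel_left, hcn]
    have h2 : Complex.exp (Real.log ρ + t * Complex.I) = c t := by
      rw [Complex.exp_add, ← Complex.ofReal_exp, Real.exp_log hρ]
    have h3 : Complex.exp (Complex.log (k t)) = k t :=
      Complex.exp_log (Complex.slitPlane_ne_zero (hks t))
    simp only [hg]
    rw [Complex.exp_sub, Complex.exp_sub, h1, h2, h3]
    have h4 : k t ≠ 0 := Complex.slitPlane_ne_zero (hks t)
    have h5 : k t = (v + c t - e) / c t := by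
      simp only [hk]
      have := hc0 t
      field_simp
      ring
    rw [h5] at h4 ⊢
    exact div_self h4
  have h5 := const_of_exp_one g hgc hg1 0 (2 * Real.pi)
  have h6 : c (2 * Real.pi) = c 0 := by
    simp only [hc]
    push_cast
    rw [Complex.exp_two_pi_mul_I]
    simp
  have h7 : k (2 * Real.pi) = k 0 := by
    simp only [hk]
    rw [h6]
  simp only [hg] at h5
  rw [h6, h7] at h5
  have h8 : ((0 : ℝ) : ℂ) * Complex.I = ((2 * Real.pi : ℝ) : ℂ) * Complex.I := by
    linear_combination -h5
  have h9 := mul_right_cancel₀ Complex.I_ne_zero h8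
  have h10 : (0 : ℝ) = 2 * Real.pi := by exact_mod_cast h9
  have := Real.pi_pos
  linarith

/-- two closed sets `A`, `B` whose union is the complement of `W`, with `B` outside of a disc: there
is no continuous branch of `log ((w - e) / (w - e'))` on `W`, `e ∈ A`, `e' ∈ B` -/
lemma no_branch (W A B : Set ℂ) (hA : IsClosed A) (hB : IsClosed B) (hd : Disjoint A B)
    (hW : A ∪ B = Wᶜ) (e e' : ℂ) (heA : e ∈ A) (heB : e' ∈ B) (L : ℂ → ℂ) (hL : ContinuousOn L W)
    (hLe : ∀ w ∈ W, w - e = (w - e') * Complex.exp (L w)) (v : ℂ) (ρ : ℝ)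
    (hext : ∀ w, ρ ≤ ‖w - v‖ → w ∈ B) : False := by
  classical
  have hWo : IsOpen W := by
    rw [← isClosed_compl_iff, ← hW]
    exact hA.union hB
  have heρ : ‖e - v‖ < ρ := by
    by_contra hcon
    exact disjoint_left.1 hd heA (hext e (not_lt.1 hcon))
  obtain ⟨χ, hχB, hχA, -⟩ := exists_continuous_zero_one_of_isClosed hB hA hd.symm
  -- cut off
  set θ : ℂ → ℝ := fun w => max 0 (min 1 (3 * χ w - 1)) with hθ
  have hθc : Continuous θ := by
    rw [hθ]
    fun_prop
  have hθA : ∀ w, 2 / 3 < χ w → θ w = 1 := by
    intro w hw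
    simp only [hθ]
    rw [min_eq_left (by linarith), max_eq_right (by norm_num)]
  have hθB : ∀ w, χ w < 1 / 3 → θ w = 0 := by
    intro w hw
    simp only [hθ]
    rw [min_eq_right (by linarith), max_eq_left (by linarith)]
  set G : ℂ → ℂ := fun w => if w ∈ A then w - e' else if w ∈ B then w - e
    else (w - e') * Complex.exp ((1 - θ w : ℝ) * L w) with hG
  have hcase : ∀ w, w ∉ A → w ∉ B → w ∈ W := by
    intro w h1 h2
    by_contra h3
    have : w ∈ Wᶜ := h3
    rw [← hW] at this
    exact this.elim h1 h2
  have hWA : ∀ w ∈ W, w ∉ A := fun w hw h => by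
    have : w ∈ Wᶜ := by rw [← hW]; exact Or.inl h
    exact this hw
  have hWB : ∀ w ∈ W, w ∉ B := fun w hw h => by
    have : w ∈ Wᶜ := by rw [← hW]; exact Or.inr h
    exact this hw
  have hGc : Continuous G := by
    rw [continuous_iff_continuousAt]
    intro w0
    by_cases hwA : w0 ∈ A
    · have h1 : ∀ᶠ w in 𝓝 w0, G w = w - e' := by
        have h2 : ∀ᶠ w in 𝓝 w0, 2 / 3 < χ w := by
          have : χ w0 = 1 := hχA hwA
          exact χ.continuous.continuousAt.eventually (lt_mem_nhds (by rw [this]; norm_num))
        filter_upwards [h2] with w hw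
        simp only [hG]
        by_cases hwA' : w ∈ A
        · rw [if_pos hwA']
        · have hwB : w ∉ B := fun h => by
            have : χ w = 0 := hχB h
            rw [this] at hw
            norm_num at hw
          rw [if_neg hwA', if_neg hwB, hθA w hw]
          simp
      exact (continuousAt_id.sub continuousAt_const).congr (h1.mono fun w hw => hw.symm)
    · by_cases hwB : w0 ∈ B
      · have h1 : ∀ᶠ w in 𝓝 w0, G w = w - e := by
          have h2 : ∀ᶠ w in 𝓝 w0, χ w < 1 / 3 := by
            have : χ w0 = 0 := hχB hwB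
            exact χ.continuous.continuousAt.eventually (gt_mem_nhds (by rw [this]; norm_num))
          filter_upwards [h2] with w hw
          simp only [hG]
          have hwA' : w ∉ A := fun h => by
            have : χ w = 1 := hχA h
            rw [this] at hw
            norm_num at hw
          by_cases hwB' : w ∈ B
          · rw [if_neg hwA', if_pos hwB']
          · rw [if_neg hwA', if_neg hwB', hθB w hw, hLe w (hcase w hwA' hwB')]
            simp
        exact (continuousAt_id.sub continuousAt_const).congr (h1.mono fun w hw => hw.symm)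
      · have hw0 : w0 ∈ W := hcase w0 hwA hwB
        have h1 : ∀ᶠ w in 𝓝 w0, G w = (w - e') * Complex.exp ((1 - θ w : ℝ) * L w) := by
          filter_upwards [hWo.mem_nhds hw0] with w hw
          simp only [hG]
          rw [if_neg (hWA w hw), if_neg (hWB w hw)]
        have h2 : ContinuousAt L w0 := hL.continuousAt (hWo.mem_nhds hw0)
        have h3 : ContinuousAt (fun w => ((1 - θ w : ℝ) : ℂ)) w0 := by
          have : Continuous (fun w => ((1 - θ w : ℝ) : ℂ)) := by fun_prop
          exact this.continuousAt
        have h4 : ContinuousAt (fun w => (w - e') * Complex.exp ((1 - θ w : ℝ) * L w)) w0 :=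
          (continuousAt_id.sub continuousAt_const).mul (h3.mul h2).cexp
        exact h4.congr (h1.mono fun w hw => hw.symm)
  have hG0 : ∀ w, G w ≠ 0 := by
    intro w
    simp only [hG]
    split_ifs with h1 h2
    · intro h
      rw [sub_eq_zero.1 h] at h1
      exact disjoint_left.1 hd h1 heB
    · intro h
      rw [sub_eq_zero.1 h] at h2
      exact disjoint_left.1 hd heA h2
    · refine mul_ne_zero (fun h => ?_) (Complex.exp_ne_zero _)
      rw [sub_eq_zero.1 h] at h2
      exact h2 heB
  obtain ⟨l, hl⟩ := exists_log ⟨G, hGc⟩ hG0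
  refine no_log v e ρ heρ l l.continuous ?_
  intro w hw
  rw [hl]
  have h1 : w ∈ B := hext w hw.ge
  have h2 : w ∉ A := fun h => disjoint_left.1 hd h h1
  simp only [ContinuousMap.coe_mk, hG]
  rw [if_neg h2, if_pos h1]

end Pool.Agent.Z55B
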