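import Pool.Agent.Z55B.Stm
import Pool.Agent.Z55B.D1

/-!
# Project Z55B, piece D, part 2 (helper23): the lattice graph and its potential
-/

set_option autoImplicit false
open Set Metric Filter Topology

namespace Pool.Agent.Z55B

/-- lattice points -/
noncomputable def pt (v : ℂ) (h : ℝ) (a : ℤ × ℤ) : ℂ := v + h * (a.1 + a.2 * Complex.I)

/-- unit steps of the index -/
def Stp (a b : ℤ × ℤ) : Prop :=
  (b.1 = a.1 + 1 ∧ b.2 = a.2) ∨ (b.1 = a.1 - 1 ∧ b.2 = a.2) ∨ (b.1 = a.1 ∧ b.2 = a.2 + 1) ∨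
    (b.1 = a.1 ∧ b.2 = a.2 - 1)

lemma Stp.symm {a b : ℤ × ℤ} (h : Stp a b) : Stp b a := by
  unfold Stp at *
  omega

lemma Stp.ne {a b : ℤ × ℤ} (h : Stp a b) : a ≠ b := by
  rintro rfl
  unfold Stp at h
  omega

/-- admissible vertices -/
def Ok (E : Set ℂ) (v : ℂ) (h : ℝ) (K : ℕ) (a : ℤ × ℤ) : Prop :=
  |a.1| ≤ K ∧ |a.2| ≤ K ∧ 15 * h ≤ infDist (pt v h a) E

/-- the lattice graph -/
def Gr (E : Set ℂ) (v : ℂ) (h : ℝ) (K : ℕ) : SimpleGraph (ℤ × ℤ) where
  Adj a b := Stp a b ∧ Ok E v h K a ∧ Ok E v h K b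
  symm := ⟨fun _ _ hab => ⟨hab.1.symm, hab.2.2, hab.2.1⟩⟩
  loopless := ⟨fun _ ha => ha.1.ne rfl⟩

lemma pt_step {v : ℂ} {h : ℝ} {a b : ℤ × ℤ} (hs : Stp a b) :
    pt v h b - pt v h a = h ∨ pt v h b - pt v h a = -h ∨
    pt v h b - pt v h a = h * Complex.I ∨ pt v h b - pt v h a = -(h * Complex.I) := by
  unfold pt
  rcases hs with ⟨h1, h2⟩ | ⟨h1, h2⟩ | ⟨h1, h2⟩ | ⟨h1, h2⟩
  · left; rw [h1, h2]; push_cast; ring
  · right; left; rw [h1, h2]; push_cast; ring
  · right; right; left; rw [h1, h2]; push_cast; ring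
  · right; right; right; rw [h1, h2]; push_cast; ring

lemma pt_step_norm {v : ℂ} {h : ℝ} (hh : 0 < h) {a b : ℤ × ℤ} (hs : Stp a b) :
    ‖pt v h b - pt v h a‖ = h := by
  rcases pt_step (v := v) (h := h) hs with h1 | h1 | h1 | h1 <;> rw [h1] <;> simp [abs_of_pos hh]

/-- sum of a function of the steps over a walk -/
lemma sum_walk {V : Type*} {G : SimpleGraph V} {M : Type*} [AddCommMonoid M] (f : V → V → M) :
    ∀ {a b : V} (w : G.Walk a b), ∑ i ∈ Finset.range w.length, f (w.getVert i) (w.getVert (i + 1)) =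
      (w.darts.map (fun d => f d.fst d.snd)).sum
  | _, _, .nil => by simp
  | _, _, .cons h p => by
      rw [SimpleGraph.Walk.length_cons, Finset.sum_range_succ', add_comm]
      simp only [SimpleGraph.Walk.getVert_cons_succ, SimpleGraph.Walk.darts_cons, List.map_cons,
        List.sum_cons, SimpleGraph.Walk.getVert_zero]
      rw [sum_walk f p]

/-- logarithmic increment -/
noncomputable def inc (v : ℂ) (h : ℝ) (e : ℂ) (a b : ℤ × ℤ) : ℂ :=
  Complex.log ((pt v h b - e) / (pt v h a - e))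

/-- logarithmic sum over a walk -/
noncomputable def ls {G : SimpleGraph (ℤ × ℤ)} (v : ℂ) (h : ℝ) (e : ℂ) {a b : ℤ × ℤ}
    (w : G.Walk a b) : ℂ := (w.darts.map (fun d => inc v h e d.fst d.snd)).sum

lemma ls_append {G : SimpleGraph (ℤ × ℤ)} (v : ℂ) (h : ℝ) (e : ℂ) {a b c : ℤ × ℤ}
    (w : G.Walk a b) (w' : G.Walk b c) : ls v h e (w.append w') = ls v h e w + ls v h e w' := by
  simp [ls, SimpleGraph.Walk.darts_append]

lemma ls_im {G : SimpleGraph (ℤ × ℤ)} (v : ℂ) (h : ℝ) (e : ℂ) {a b : ℤ × ℤ}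
    (w : G.Walk a b) : (ls v h e w).im = wn (fun i => pt v h (w.getVert i)) w.length e := by
  have h1 := sum_walk (fun a b => (inc v h e a b).im) w
  have h2 : (ls v h e w).im = (w.darts.map (fun d => (inc v h e d.fst d.snd).im)).sum := by
    unfold ls
    generalize w.darts = l
    induction l with
    | nil => simp
    | cons d l ih => simp [ih]
  rw [h2, ← h1]
  unfold wn inc
  simp only [Complex.log_im]

lemma ne_of_ok {E : Set ℂ} {v : ℂ} {h : ℝ} (_hh : 0 < h) {K : ℕ} {a : ℤ × ℤ} (ha : Ok E v h K a)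
    {e : ℂ} (he : e ∈ E) : 15 * h ≤ ‖pt v h a - e‖ := by
  have h1 := infDist_le_dist_of_mem (x := pt v h a) he
  rw [dist_eq_norm] at h1
  exact ha.2.2.trans h1

lemma log_mul_near {x y : ℂ} (hx : ‖x - 1‖ < 1 / 2) (hy : ‖y - 1‖ < 1 / 2) :
    Complex.log (x * y) = Complex.log x + Complex.log y := by
  have key : ∀ z : ℂ, ‖z - 1‖ < 1 / 2 → 0 < z.re := by
    intro z hz
    have h1 := Complex.abs_re_le_norm (z - 1)
    have h2 := abs_le.1 h1
    simp only [Complex.sub_re, Complex.one_re] at h2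
    linarith [h2.1]
  have hx1 := key x hx
  have hy1 := key y hy
  have hx0 : x ≠ 0 := fun h => by rw [h] at hx1; simp at hx1
  have hy0 : y ≠ 0 := fun h => by rw [h] at hy1; simp at hy1
  have hxa := abs_lt.1 (Complex.abs_arg_lt_pi_div_two_iff.2 (Or.inl hx1))
  have hya := abs_lt.1 (Complex.abs_arg_lt_pi_div_two_iff.2 (Or.inl hy1))
  exact Complex.log_mul hx0 hy0 ⟨by linarith [hxa.1, hya.1], by linarith [hxa.2, hya.2]⟩

lemma near_ratio {h : ℝ} (hh : 0 < h) {w a e : ℂ} (h1 : ‖w - a‖ ≤ 3 * h) (h2 : 15 * h ≤ ‖a - e‖) :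
    ‖(w - e) / (a - e) - 1‖ < 1 / 2 := by
  have h3 : 0 < ‖a - e‖ := by linarith
  have h4 : a - e ≠ 0 := norm_pos_iff.1 h3
  have h5 : (w - e) / (a - e) - 1 = (w - a) / (a - e) := by
    field_simp
    ring
  rw [h5, norm_div, div_lt_iff₀ h3]
  linarith

/-- cocycle property of the near logarithms -/
lemma log_near {h : ℝ} (hh : 0 < h) {w a b e : ℂ} (h1 : ‖w - b‖ ≤ 3 * h) (h2 : ‖b - a‖ ≤ 3 * h)
    (h3 : 15 * h ≤ ‖a - e‖) (h4 : 15 * h ≤ ‖b - e‖) :
    Complex.log ((w - e) / (a - e)) =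
      Complex.log ((w - e) / (b - e)) + Complex.log ((b - e) / (a - e)) := by
  rw [← log_mul_near (near_ratio hh h1 h4) (near_ratio hh h2 h3)]
  have h5 : b - e ≠ 0 := norm_pos_iff.1 (by linarith)
  congr 1
  field_simp

lemma inc_symm {E : Set ℂ} {v : ℂ} {h : ℝ} (hh : 0 < h) {K : ℕ} {a b : ℤ × ℤ}
    (hab : (Gr E v h K).Adj a b) {e : ℂ} (he : e ∈ E) : inc v h e b a = - inc v h e a b := by
  have ha := ne_of_ok hh hab.2.1 he
  have hb := ne_of_ok hh hab.2.2 he
  have h1 := log_near hh (w := pt v h a) (a := pt v h a) (b := pt v h b) (e := e)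
    (by rw [norm_sub_rev, pt_step_norm hh hab.1]; linarith)
    (by rw [pt_step_norm hh hab.1]; linarith) ha hb
  have h2 : pt v h a - e ≠ 0 := norm_pos_iff.1 (by linarith)
  rw [div_self h2, Complex.log_one] at h1
  unfold inc
  linear_combination -h1

lemma ls_reverse {E : Set ℂ} {v : ℂ} {h : ℝ} (hh : 0 < h) {K : ℕ} {e : ℂ} (he : e ∈ E) :
    ∀ {a b : ℤ × ℤ} (w : (Gr E v h K).Walk a b), ls v h e w.reverse = - ls v h e w
  | _, _, .nil => by simp [ls]
  | _, _, .cons hab p => by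
      rw [SimpleGraph.Walk.reverse_cons, ls_append, ls_reverse hh he p]
      simp only [ls, SimpleGraph.Walk.darts_cons, SimpleGraph.Walk.darts_nil, List.map_cons,
        List.map_nil, List.sum_cons, List.sum_nil, add_zero]
      rw [inc_symm hh hab he]
      ring

lemma exp_ls {E : Set ℂ} {v : ℂ} {h : ℝ} (hh : 0 < h) {K : ℕ} {e : ℂ} (he : e ∈ E) :
    ∀ {a b : ℤ × ℤ} (w : (Gr E v h K).Walk a b), Ok E v h K a →
      Complex.exp (ls v h e w) = (pt v h b - e) / (pt v h a - e)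
  | a, _, .nil, ha => by
      have h1 : pt v h a - e ≠ 0 := norm_pos_iff.1 (by linarith [ne_of_ok hh ha he])
      simp [ls, div_self h1]
  | a, b, .cons (v := c) hab p, ha => by
      have ih := exp_ls hh he p hab.2.2
      have h1 : pt v h a - e ≠ 0 := norm_pos_iff.1 (by linarith [ne_of_ok hh ha he])
      have h2 : pt v h c - e ≠ 0 := norm_pos_iff.1 (by linarith [ne_of_ok hh hab.2.2 he])
      have h3 : ls v h e (.cons hab p) = inc v h e a c + ls v h e p := by
        simp [ls]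
      rw [h3, Complex.exp_add, ih]
      unfold inc
      rw [Complex.exp_log (div_ne_zero h2 h1)]
      field_simp

/-- the box of vertices -/
noncomputable def box (K : ℕ) : Finset (ℤ × ℤ) := Finset.Icc (-(K : ℤ)) K ×ˢ Finset.Icc (-(K : ℤ)) K

lemma supp_box {E : Set ℂ} {v : ℂ} {h : ℝ} {K : ℕ} :
    ∀ {a b : ℤ × ℤ} (w : (Gr E v h K).Walk a b), Ok E v h K a → ∀ x ∈ w.support, x ∈ box K
  | a, _, .nil, ha, x, hx => by
      simp only [SimpleGraph.Walk.support_nil, List.mem_singleton] at hx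
      subst hx
      simp only [box, Finset.mem_product, Finset.mem_Icc]
      exact ⟨abs_le.1 ha.1, abs_le.1 ha.2.1⟩
  | a, b, .cons hab p, ha, x, hx => by
      rw [SimpleGraph.Walk.support_cons, List.mem_cons] at hx
      rcases hx with rfl | hx
      · simp only [box, Finset.mem_product, Finset.mem_Icc]
        exact ⟨abs_le.1 ha.1, abs_le.1 ha.2.1⟩
      · exact supp_box p hab.2.2 x hx

/-- reachable vertices are joined by short walks -/
lemma short_walk {E : Set ℂ} {v : ℂ} {h : ℝ} {K : ℕ} {a b : ℤ × ℤ} (ha : Ok E v h K a)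
    (hr : (Gr E v h K).Reachable a b) : ∃ w : (Gr E v h K).Walk a b, w.length ≤ (box K).card := by
  classical
  obtain ⟨w, hw⟩ := hr.exists_isPath
  refine ⟨w, ?_⟩
  have h1 : w.support.toFinset ⊆ box K := by
    intro x hx
    exact supp_box w ha x (List.mem_toFinset.1 hx)
  have h2 := Finset.card_le_card h1
  rw [List.toFinset_card_of_nodup hw.support_nodup, SimpleGraph.Walk.length_support] at h2
  omega

end Pool.Agent.Z55B
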