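import Pool.Agent.Z55B.D2

/-!
# Project Z55B, piece D, part 3 (helper23): the branch of the logarithm and the lattice loop
-/

set_option autoImplicit false
open Set Metric Filter Topology

namespace Pool.Agent.Z55B

lemma pt_zero (v : ℂ) (h : ℝ) : pt v h (0, 0) = v := by simp [pt]

section
variable {E : Set ℂ} {v : ℂ} {h : ℝ} {K : ℕ} {e e' : ℂ}

/-- closed walks at the origin of length at most `N` do not distinguish `e` and `e'` -/
def NoSep (E : Set ℂ) (v : ℂ) (h : ℝ) (K N : ℕ) (e e' : ℂ) : Prop :=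
  ∀ w : (Gr E v h K).Walk (0, 0) (0, 0), w.length ≤ N →
    wn (fun i => pt v h (w.getVert i)) w.length e = wn (fun i => pt v h (w.getVert i)) w.length e'

lemma closed_zero (hh : 0 < h) {N : ℕ} (he : e ∈ E) (he' : e' ∈ E) (ho : Ok E v h K (0, 0))
    (hno : NoSep E v h K N e e') (w : (Gr E v h K).Walk (0, 0) (0, 0)) (hw : w.length ≤ N) :
    ls v h e w = ls v h e' w := by
  have h1 := exp_ls hh he w ho
  have h2 := exp_ls hh he' w ho
  have h3 : pt v h (0, 0) - e ≠ 0 := norm_pos_iff.1 (by linarith [ne_of_ok hh ho he])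
  have h4 : pt v h (0, 0) - e' ≠ 0 := norm_pos_iff.1 (by linarith [ne_of_ok hh ho he'])
  rw [div_self h3] at h1
  rw [div_self h4] at h2
  obtain ⟨n, hn⟩ := Complex.exp_eq_one_iff.1 h1
  obtain ⟨m, hm⟩ := Complex.exp_eq_one_iff.1 h2
  have h5 := hno w hw
  rw [← ls_im, ← ls_im, hn, hm] at h5
  simp only [Complex.mul_im, Complex.intCast_re, Complex.intCast_im, Complex.re_ofNat,
    Complex.im_ofNat, Complex.ofReal_re, Complex.ofReal_im, Complex.I_re, Complex.I_im,
    Complex.mul_re] at h5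
  have h6 : (n : ℝ) = m := by
    have := Real.pi_pos
    have h7 : (n : ℝ) * (2 * Real.pi) = m * (2 * Real.pi) := by
      ring_nf at h5 ⊢
      linarith
    exact mul_right_cancel₀ (by positivity) h7
  have h8 : n = m := by exact_mod_cast h6
  rw [hn, hm, h8]

open Classical in
/-- the potential -/
noncomputable def Psi (E : Set ℂ) (v : ℂ) (h : ℝ) (K : ℕ) (e e' : ℂ) (ho : Ok E v h K (0, 0))
    (a : ℤ × ℤ) : ℂ :=
  if hr : (Gr E v h K).Reachable (0, 0) a then
    ls v h e (short_walk ho hr).choose - ls v h e' (short_walk ho hr).choose else 0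

lemma Psi_step (hh : 0 < h) {N : ℕ} (he : e ∈ E) (he' : e' ∈ E) (ho : Ok E v h K (0, 0))
    (hno : NoSep E v h K N e e') (hN : 2 * (box K).card + 1 ≤ N) {a b : ℤ × ℤ}
    (hab : (Gr E v h K).Adj a b) (hr : (Gr E v h K).Reachable (0, 0) a) :
    Psi E v h K e e' ho b = Psi E v h K e e' ho a + inc v h e a b - inc v h e' a b := by
  have hr' : (Gr E v h K).Reachable (0, 0) b := hr.trans hab.reachable
  unfold Psi
  rw [dif_pos hr, dif_pos hr']
  have ha := (short_walk ho hr).choose_spec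
  have hb := (short_walk ho hr').choose_spec
  set p := (short_walk ho hr).choose
  set q := (short_walk ho hr').choose
  have h1 := closed_zero hh he he' ho hno ((p.append (.cons hab .nil)).append q.reverse) (by
    rw [SimpleGraph.Walk.length_append, SimpleGraph.Walk.length_append,
      SimpleGraph.Walk.length_reverse, SimpleGraph.Walk.length_cons, SimpleGraph.Walk.length_nil]
    omega)
  rw [ls_append, ls_append, ls_append, ls_append, ls_reverse hh he, ls_reverse hh he'] at h1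
  have h2 : ∀ x : ℂ, ls v h x (SimpleGraph.Walk.cons hab .nil) = inc v h x a b := by
    intro x
    simp [ls]
  rw [h2, h2] at h1
  linear_combination -h1

lemma exp_Psi (hh : 0 < h) (he : e ∈ E) (he' : e' ∈ E) (ho : Ok E v h K (0, 0)) {a : ℤ × ℤ}
    (hr : (Gr E v h K).Reachable (0, 0) a) :
    Complex.exp (Psi E v h K e e' ho a) =
      ((pt v h a - e) / (v - e)) / ((pt v h a - e') / (v - e')) := by
  unfold Psi
  rw [dif_pos hr, Complex.exp_sub, exp_ls hh he _ ho, exp_ls hh he' _ ho, pt_zero]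

/-- the branch near the vertex `a` -/
noncomputable def FF (E : Set ℂ) (v : ℂ) (h : ℝ) (K : ℕ) (e e' : ℂ) (ho : Ok E v h K (0, 0))
    (a : ℤ × ℤ) (w : ℂ) : ℂ :=
  Psi E v h K e e' ho a + Complex.log ((w - e) / (pt v h a - e)) -
    Complex.log ((w - e') / (pt v h a - e'))

lemma FF_step (hh : 0 < h) {N : ℕ} (he : e ∈ E) (he' : e' ∈ E) (ho : Ok E v h K (0, 0))
    (hno : NoSep E v h K N e e') (hN : 2 * (box K).card + 1 ≤ N) {a b : ℤ × ℤ}
    (hab : (Gr E v h K).Adj a b) (hr : (Gr E v h K).Reachable (0, 0) a) {w : ℂ}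
    (hb : ‖w - pt v h b‖ ≤ 3 * h) :
    FF E v h K e e' ho a w = FF E v h K e e' ho b w := by
  unfold FF
  have h0 : ‖pt v h b - pt v h a‖ ≤ 3 * h := by
    rw [pt_step_norm hh hab.1]; linarith
  rw [Psi_step hh he he' ho hno hN hab hr,
    log_near hh hb h0 (ne_of_ok hh hab.2.1 he) (ne_of_ok hh hab.2.2 he),
    log_near hh hb h0 (ne_of_ok hh hab.2.1 he') (ne_of_ok hh hab.2.2 he')]
  unfold inc
  ring

lemma exp_FF (hh : 0 < h) (he : e ∈ E) (he' : e' ∈ E) (ho : Ok E v h K (0, 0)) {a : ℤ × ℤ}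
    (hr : (Gr E v h K).Reachable (0, 0) a) (ha : Ok E v h K a) {w : ℂ} (hwe : w ≠ e)
    (hwe' : w ≠ e') :
    Complex.exp (FF E v h K e e' ho a w) = ((w - e) / (v - e)) / ((w - e') / (v - e')) := by
  unfold FF
  have h1 : pt v h a - e ≠ 0 := norm_pos_iff.1 (by linarith [ne_of_ok hh ha he])
  have h2 : pt v h a - e' ≠ 0 := norm_pos_iff.1 (by linarith [ne_of_ok hh ha he'])
  have h3 : v - e ≠ 0 := by
    rw [← pt_zero v h]
    exact norm_pos_iff.1 (by linarith [ne_of_ok hh ho he])
  have h4 : v - e' ≠ 0 := by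
    rw [← pt_zero v h]
    exact norm_pos_iff.1 (by linarith [ne_of_ok hh ho he'])
  have h5 : w - e ≠ 0 := sub_ne_zero.2 hwe
  have h6 : w - e' ≠ 0 := sub_ne_zero.2 hwe'
  rw [Complex.exp_sub, Complex.exp_add, exp_Psi hh he he' ho hr,
    Complex.exp_log (div_ne_zero h5 h1), Complex.exp_log (div_ne_zero h6 h2)]
  field_simp

/-- rounding to the lattice -/
noncomputable def rd (v : ℂ) (h : ℝ) (w : ℂ) : ℤ × ℤ :=
  (round ((w - v).re / h), round ((w - v).im / h))

lemma norm_le_of_coord {z : ℂ} {a b : ℝ} (h1 : |z.re| ≤ a) (h2 : |z.im| ≤ b) : ‖z‖ ≤ a + b :=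
  (Complex.norm_le_abs_re_add_abs_im z).trans (add_le_add h1 h2)

lemma sub_pt_re (w v : ℂ) (h : ℝ) (a : ℤ × ℤ) : (w - pt v h a).re = (w - v).re - h * a.1 := by
  simp [pt]
  ring

lemma sub_pt_im (w v : ℂ) (h : ℝ) (a : ℤ × ℤ) : (w - pt v h a).im = (w - v).im - h * a.2 := by
  simp [pt]
  ring

lemma coord_rd (hh : 0 < h) (x : ℝ) : |x - h * (round (x / h) : ℝ)| ≤ h / 2 := by
  have h1 := abs_sub_round (x / h)
  have h2 : x - h * (round (x / h) : ℝ) = h * (x / h - round (x / h)) := by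
    field_simp
  rw [h2, abs_mul, abs_of_pos hh]
  nlinarith

lemma coord_near (hh : 0 < h) {x y : ℝ} (hxy : |x - y| < h / 4) :
    |x - h * (round (y / h) : ℝ)| ≤ 3 / 4 * h := by
  have h1 := coord_rd hh y
  have h2 : x - h * (round (y / h) : ℝ) = (x - y) + (y - h * (round (y / h) : ℝ)) := by ring
  rw [h2]
  exact (abs_add_le _ _).trans (by linarith)

lemma round_near (hh : 0 < h) {x y : ℝ} (hxy : |x - y| < h / 4) :
    |round (x / h) - round (y / h)| ≤ 1 := by
  have h1 := coord_rd hh x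
  have h2 := coord_near hh hxy
  have h3 : |h * ((round (x / h) : ℝ) - (round (y / h) : ℝ))| ≤ 5 / 4 * h := by
    have h4 : h * ((round (x / h) : ℝ) - (round (y / h) : ℝ)) =
      -(x - h * (round (x / h) : ℝ)) + (x - h * (round (y / h) : ℝ)) := by ring
    rw [h4]
    refine (abs_add_le _ _).trans ?_
    rw [abs_neg]
    linarith
  rw [abs_mul, abs_of_pos hh] at h3
  have h5 : |(round (x / h) : ℝ) - (round (y / h) : ℝ)| < 2 := by
    by_contra h6
    push Not at h6
    nlinarith
  have h7 : |round (x / h) - round (y / h)| < 2 := by exact_mod_cast h5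
  omega

/-- near points of the lattice are admissible -/
lemma ok_near {R : ℝ} (hh : 0 < h) (hK : R + 3 ≤ K) {w : ℂ} (h1 : 20 * h < infDist w E)
    (h2 : ‖w - v‖ < R * h) {a : ℤ × ℤ} (ha : ‖w - pt v h a‖ ≤ 3 * h) : Ok E v h K a := by
  have h3 : ‖pt v h a - v‖ < (R + 3) * h := by
    have : pt v h a - v = (w - v) - (w - pt v h a) := by ring
    rw [this]
    refine (norm_sub_le _ _).trans_lt ?_
    linarith
  have h4 : pt v h a - v = h * (a.1 + a.2 * Complex.I) := by
    unfold pt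
    ring
  have h5 : |(a.1 : ℝ)| * h < (R + 3) * h := by
    refine lt_of_le_of_lt ?_ h3
    have := Complex.abs_re_le_norm (pt v h a - v)
    rw [h4] at this ⊢
    refine le_trans ?_ this
    simp [abs_mul, abs_of_pos hh, mul_comm]
  have h6 : |(a.2 : ℝ)| * h < (R + 3) * h := by
    refine lt_of_le_of_lt ?_ h3
    have := Complex.abs_im_le_norm (pt v h a - v)
    rw [h4] at this ⊢
    refine le_trans ?_ this
    simp [abs_mul, abs_of_pos hh, mul_comm]
  have h7 : |(a.1 : ℝ)| < K := lt_of_lt_of_le (lt_of_mul_lt_mul_right h5 hh.le) hK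
  have h8 : |(a.2 : ℝ)| < K := lt_of_lt_of_le (lt_of_mul_lt_mul_right h6 hh.le) hK
  refine ⟨?_, ?_, ?_⟩
  · have : |a.1| < (K : ℤ) := by exact_mod_cast h7
    exact this.le
  · have : |a.2| < (K : ℤ) := by exact_mod_cast h8
    exact this.le
  · have h9 := infDist_le_infDist_add_dist (s := E) (x := w) (y := pt v h a)
    rw [dist_eq_norm] at h9
    linarith

/-- passage between the roundings of two near points -/
lemma rd_pass {R : ℝ} (hh : 0 < h) (hK : R + 3 ≤ K) {w w0 : ℂ} (h1 : 20 * h < infDist w E)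
    (h2 : ‖w - v‖ < R * h) (hw : ‖w - w0‖ < h / 4) :
    ∃ c : ℤ × ℤ, (rd v h w0 = c ∨ (Gr E v h K).Adj (rd v h w0) c) ∧
      (c = rd v h w ∨ (Gr E v h K).Adj c (rd v h w)) ∧ ‖w - pt v h (rd v h w0)‖ ≤ 3 * h ∧
      ‖w - pt v h c‖ ≤ 3 * h ∧ ‖w - pt v h (rd v h w)‖ ≤ 3 * h := by
  have hre : |(w - v).re - (w0 - v).re| < h / 4 := by
    have : (w - v).re - (w0 - v).re = (w - w0).re := by simp
    rw [this]
    exact (Complex.abs_re_le_norm _).trans_lt hw
  have him : |(w - v).im - (w0 - v).im| < h / 4 := by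
    have : (w - v).im - (w0 - v).im = (w - w0).im := by simp
    rw [this]
    exact (Complex.abs_im_le_norm _).trans_lt hw
  have a1 := coord_rd hh (w - v).re
  have a2 := coord_rd hh (w - v).im
  have b1 := coord_near hh hre
  have b2 := coord_near hh him
  have c1 := abs_le.1 (round_near hh hre)
  have c2 := abs_le.1 (round_near hh him)
  have n1 : ‖w - pt v h (rd v h w0)‖ ≤ 3 * h := by
    refine (norm_le_of_coord (a := 3 / 4 * h) (b := 3 / 4 * h) ?_ ?_).trans (by linarith)
    · rw [sub_pt_re]; exact b1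
    · rw [sub_pt_im]; exact b2
  have n2 : ‖w - pt v h (round ((w - v).re / h), round ((w0 - v).im / h))‖ ≤ 3 * h := by
    refine (norm_le_of_coord (a := 1 / 2 * h) (b := 3 / 4 * h) ?_ ?_).trans (by linarith)
    · rw [sub_pt_re]; linarith [a1]
    · rw [sub_pt_im]; exact b2
  have n3 : ‖w - pt v h (rd v h w)‖ ≤ 3 * h := by
    refine (norm_le_of_coord (a := 1 / 2 * h) (b := 1 / 2 * h) ?_ ?_).trans (by linarith)
    · rw [sub_pt_re]; simp only [rd]; linarith [a1]
    · rw [sub_pt_im]; simp only [rd]; linarith [a2]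
  have o1 := ok_near hh hK h1 h2 n1
  have o2 := ok_near hh hK h1 h2 n2
  have o3 := ok_near hh hK h1 h2 n3
  refine ⟨(round ((w - v).re / h), round ((w0 - v).im / h)), ?_, ?_, n1, n2, n3⟩
  · by_cases h5 : round ((w - v).re / h) = round ((w0 - v).re / h)
    · left
      simp only [rd, h5]
    · right
      have h6 : round ((w - v).re / h) = round ((w0 - v).re / h) + 1 ∨
          round ((w - v).re / h) = round ((w0 - v).re / h) - 1 := by omega
      refine ⟨?_, o1, o2⟩
      rcases h6 with h6 | h6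
      · exact Or.inl ⟨h6, rfl⟩
      · exact Or.inr (Or.inl ⟨h6, rfl⟩)
  · by_cases h5 : round ((w - v).im / h) = round ((w0 - v).im / h)
    · left
      simp only [rd, h5]
    · right
      have h6 : round ((w - v).im / h) = round ((w0 - v).im / h) + 1 ∨
          round ((w - v).im / h) = round ((w0 - v).im / h) - 1 := by omega
      refine ⟨?_, o2, o3⟩
      rcases h6 with h6 | h6
      · exact Or.inr (Or.inr (Or.inl ⟨rfl, h6⟩))
      · exact Or.inr (Or.inr (Or.inr ⟨rfl, h6⟩))

end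

end Pool.Agent.Z55B
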