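import Pool.Agent.N673.QC.MakB
import Pool.Agent.T6.H4.SG.KG

/-! # E1: uniform bound of the angles with irregular growth -/

set_option autoImplicit false

namespace Pool.Agent.Z55B

open Complex Metric Set Filter Topology MeasureTheory
open Pool.Agent.W677.Mar (pt lam bloch_exp norm_pt pt_periodic continuous_pt norm_pt_sub lam_pos)
open Pool.Agent.N673.Mak (exists_log near_scale exists_scale)

/-- one scale -/
theorem scale_bd {g : ℂ → ℂ} (hg : DifferentiableOn ℂ g (ball 0 1)) (h0 : g 0 = 0)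
    (hB : ∀ w ∈ ball (0 : ℂ) 1, ‖deriv g w‖ * (1 - ‖w‖) ≤ 4) {ε : ℝ} (hε : 0 < ε) (n : ℕ) :
    (volume.restrict (Ioc 0 (2 * Real.pi)))
      {θ : ℝ | ¬ ‖g (pt (1 - (1 / 2) ^ (n + 1)) θ)‖ < ε * (n + 1)} ≤
      ENNReal.ofReal (4 * Real.pi * (Real.exp (-(1 / 128 * ε ^ 2 / Real.log 2))) ^ (n + 1)) := by
  have hpi := Real.pi_pos
  have hl2 : 0 < Real.log 2 := Real.log_pos one_lt_two
  set κ : ℝ := Real.exp (-(1 / 128 * ε ^ 2 / Real.log 2)) with hκ
  have hκ0 : 0 < κ := Real.exp_pos _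
  set r : ℝ := 1 - (1 / 2) ^ (n + 1) with hr
  have hp : (0 : ℝ) < (1 / 2) ^ (n + 1) := by positivity
  have hp1 : ((1 : ℝ) / 2) ^ (n + 1) < 1 := pow_lt_one₀ (by norm_num) (by norm_num) (by omega)
  have hr0 : 0 < r := by rw [hr]; linarith
  have hr1 : r < 1 := by rw [hr]; linarith
  have h1 := bloch_exp hg h0 hB (c := 1 / 128) (by norm_num) (by norm_num) hr0 hr1
  have hlam : lam (r ^ 2) ≤ (n + 1) * Real.log 2 := by
    unfold lam
    have h2 : (1 / 2 : ℝ) ^ (n + 1) ≤ 1 - r ^ 2 := by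
      have : r ^ 2 ≤ r := by nlinarith
      rw [hr] at this ⊢
      linarith
    have h3 := Real.log_le_log hp h2
    rw [Real.log_pow, one_div, Real.log_inv] at h3
    push_cast at h3
    linarith
  have hlam0 : 0 < lam (r ^ 2) := lam_pos (by positivity) (pow_lt_one₀ hr0.le hr1 two_ne_zero)
  have hgc : Continuous fun θ : ℝ => g (pt r θ) := by
    refine hg.continuousOn.comp_continuous (continuous_pt r) fun θ => ?_
    rw [mem_ball_zero_iff, norm_pt r θ hr0.le]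
    exact hr1
  have hfc : Continuous fun θ : ℝ => Real.exp (1 / 128 * ‖g (pt r θ)‖ ^ 2 / lam (r ^ 2)) :=
    Real.continuous_exp.comp ((continuous_const.mul (hgc.norm.pow 2)).div_const _)
  have h4 := mul_meas_ge_le_integral_of_nonneg (μ := volume.restrict (Ioc 0 (2 * Real.pi)))
    (f := fun θ : ℝ => Real.exp (1 / 128 * ‖g (pt r θ)‖ ^ 2 / lam (r ^ 2)))
    (Eventually.of_forall fun θ => (Real.exp_pos _).le)
    ((hfc.integrableOn_Icc (a := 0) (b := 2 * Real.pi)).mono_set Ioc_subset_Icc_self)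
    (κ⁻¹ ^ (n + 1))
  rw [intervalIntegral.integral_of_le (by positivity)] at h1
  have h5 : {θ : ℝ | ¬ ‖g (pt r θ)‖ < ε * (n + 1)} ⊆
      {θ : ℝ | κ⁻¹ ^ (n + 1) ≤ Real.exp (1 / 128 * ‖g (pt r θ)‖ ^ 2 / lam (r ^ 2))} := by
    intro θ hθ
    rw [mem_ofPred_eq, not_lt] at hθ
    rw [mem_ofPred_eq, hκ, ← Real.exp_neg, neg_neg, ← Real.exp_nat_mul]
    apply Real.exp_le_exp.2
    rw [le_div_iff₀ hlam0]
    have h6 : (ε * (n + 1)) ^ 2 ≤ ‖g (pt r θ)‖ ^ 2 := pow_le_pow_left₀ (by positivity) hθ 2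
    calc ((n + 1 : ℕ) : ℝ) * (1 / 128 * ε ^ 2 / Real.log 2) * lam (r ^ 2)
        ≤ ((n + 1 : ℕ) : ℝ) * (1 / 128 * ε ^ 2 / Real.log 2) * ((n + 1) * Real.log 2) := by
          apply mul_le_mul_of_nonneg_left hlam (by positivity)
      _ = 1 / 128 * (ε * (n + 1)) ^ 2 := by
          push_cast
          field_simp
      _ ≤ 1 / 128 * ‖g (pt r θ)‖ ^ 2 := by linarith
  refine (measure_mono h5).trans ?_
  have h7 : (volume.restrict (Ioc 0 (2 * Real.pi))).real
      {θ : ℝ | κ⁻¹ ^ (n + 1) ≤ Real.exp (1 / 128 * ‖g (pt r θ)‖ ^ 2 / lam (r ^ 2))} ≤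
      4 * Real.pi * κ ^ (n + 1) := by
    have h8 := h4.trans h1
    generalize (volume.restrict (Ioc 0 (2 * Real.pi))).real
      {θ : ℝ | κ⁻¹ ^ (n + 1) ≤ Real.exp (1 / 128 * ‖g (pt r θ)‖ ^ 2 / lam (r ^ 2))} = V at h8 ⊢
    rw [inv_pow, inv_mul_le_iff₀ (by positivity)] at h8
    refine h8.trans_eq ?_
    norm_num
    ring
  rw [measureReal_def] at h7
  rwa [← ENNReal.le_ofReal_iff_toReal_le (measure_ne_top _ _) (by positivity)] at h7

/-- all the scales from `N` on -/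
theorem vol_compl_G {ε : ℝ} (hε : 0 < ε) {p0 : ℝ} (hp0 : 0 < p0) : ∃ N : ℕ, 1 ≤ N ∧
    ∀ φ : ℂ → ℂ, DifferentiableOn ℂ φ (ball 0 1) → InjOn φ (ball 0 1) →
      1 / 2 ≤ ‖deriv φ 0‖ → ‖deriv φ 0‖ ≤ 4 →
      volume (Ioc 0 (2 * Real.pi) \ Pool.Agent.N673.Mak.G φ ε N) ≤ ENNReal.ofReal p0 := by
  have hpi := Real.pi_pos
  have hl2 : 0 < Real.log 2 := Real.log_pos one_lt_two
  set ε' : ℝ := ε * Real.log 2 / 2 with hε'
  have hε'0 : 0 < ε' := by positivity
  set κ : ℝ := Real.exp (-(1 / 128 * ε' ^ 2 / Real.log 2)) with hκ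
  have hκ0 : 0 < κ := Real.exp_pos _
  have hκ1 : κ < 1 := by
    rw [hκ, Real.exp_lt_one_iff]
    have : 0 < 1 / 128 * ε' ^ 2 / Real.log 2 := by positivity
    linarith
  -- choice of N
  have hT : Tendsto (fun N : ℕ => 4 * Real.pi * κ ^ (N + 1) * (1 - κ)⁻¹) atTop (𝓝 0) := by
    have h1 : Tendsto (fun N : ℕ => κ ^ (N + 1)) atTop (𝓝 0) :=
      (tendsto_pow_atTop_nhds_zero_of_lt_one hκ0.le hκ1).comp (tendsto_add_atTop_nat 1)
    have h2 := (h1.const_mul (4 * Real.pi)).mul_const ((1 - κ)⁻¹)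
    simpa using h2
  have hlim : ∀ᶠ n : ℕ in atTop, Real.log 4 + 4 ≤ ε * Real.log 2 / 2 * (n + 1) := by
    have : Tendsto (fun n : ℕ => ε * Real.log 2 / 2 * ((n : ℝ) + 1)) atTop atTop :=
      (tendsto_natCast_atTop_atTop.atTop_add tendsto_const_nhds).const_mul_atTop (by positivity)
    exact this.eventually_ge_atTop _
  obtain ⟨N, hN⟩ := eventually_atTop.1 (hlim.and (hT.eventually (gt_mem_nhds hp0)))
  refine ⟨N + 1, by omega, fun φ hφ hinj hd1 hd2 => ?_⟩
  obtain ⟨g, hg, hg0, hB, hne, hexp⟩ := exists_log hφ hinj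
  have hlogd : |Real.log ‖deriv φ 0‖| ≤ Real.log 4 := by
    rw [abs_le]
    constructor
    · rw [← Real.log_inv]
      exact Real.log_le_log (by norm_num) (by linarith)
    · exact Real.log_le_log (by linarith) hd2
  -- inclusion
  have hsub : Ioc 0 (2 * Real.pi) \ Pool.Agent.N673.Mak.G φ ε (N + 1) ⊆
      ⋃ n : ℕ, Ioc 0 (2 * Real.pi) ∩
        {θ : ℝ | ¬ ‖g (pt (1 - (1 / 2) ^ (n + N + 1)) θ)‖ < ε' * ((n + N : ℕ) + 1)} := by
    rintro θ ⟨hθ, hθG⟩
    by_contra hcon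
    apply hθG
    rw [mem_iUnion] at hcon
    push Not at hcon
    have hall : ∀ n : ℕ, N ≤ n → ‖g (pt (1 - (1 / 2) ^ (n + 1)) θ)‖ < ε' * (n + 1) := by
      intro n hn
      obtain ⟨m, rfl⟩ := Nat.exists_eq_add_of_le hn
      by_contra h
      refine hcon m ⟨hθ, ?_⟩
      rw [show m + N = N + m by ring]
      first
        | exact h
        | exact not_lt.1 h
    refine ⟨hθ, fun r hr => ?_⟩
    have hp : (0 : ℝ) < (1 / 2) ^ (N + 1) := by positivity
    have hr12 : 1 / 2 ≤ r := by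
      have : ((1 : ℝ) / 2) ^ (N + 1) ≤ (1 / 2) ^ 1 :=
        pow_le_pow_of_le_one (by norm_num) (by norm_num) (by omega)
      linarith [hr.1]
    have hr1 : r < 1 := hr.2
    obtain ⟨n, hn1, hn2⟩ := exists_scale hr12 hr1
    have hnN : N ≤ n := by
      by_contra h
      rw [not_le] at h
      have h3 : (1 / 2 : ℝ) ^ (N + 1) ≤ (1 / 2) ^ (n + 2) :=
        pow_le_pow_of_le_one (by norm_num) (by norm_num) (by omega)
      linarith [hr.1]
    have h3 := hall n hnN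
    have h4 := (hN n hnN).1
    have h5 := near_scale hg hB n hn1 hn2.le θ
    have h6 : ‖g (pt r θ)‖ ≤ ε' * (n + 1) + 4 := by
      calc ‖g (pt r θ)‖ = ‖(g (pt r θ) - g (pt (1 - (1 / 2) ^ (n + 1)) θ)) +
            g (pt (1 - (1 / 2) ^ (n + 1)) θ)‖ := by rw [sub_add_cancel]
        _ ≤ _ := norm_add_le _ _
        _ ≤ _ := by linarith
    have hlog : (n + 1) * Real.log 2 ≤ -Real.log (1 - r) := by
      have h7 : 1 - r ≤ (1 / 2) ^ (n + 1) := by linarith
      have h8 := Real.log_le_log (by linarith) h7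
      rw [Real.log_pow, one_div, Real.log_inv] at h8
      push_cast at h8
      linarith
    have hw : pt r θ ∈ ball (0 : ℂ) 1 := by
      rw [mem_ball_zero_iff, norm_pt r θ (by linarith)]; exact hr1
    have hnorm : Real.log ‖deriv φ (pt r θ)‖ = Real.log ‖deriv φ 0‖ + (g (pt r θ)).re := by
      rw [hexp _ hw, norm_mul, norm_exp, Real.log_mul (norm_ne_zero_iff.2 hne) (Real.exp_ne_zero _),
        Real.log_exp]
    have hre := abs_le.1 (abs_re_le_norm (g (pt r θ)))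
    have habs := neg_abs_le (Real.log ‖deriv φ 0‖)
    have habs2 := le_abs_self (Real.log ‖deriv φ 0‖)
    have hmain : |Real.log ‖deriv φ 0‖| + (ε' * (n + 1) + 4) ≤ ε * (-Real.log (1 - r)) := by
      have h10 := mul_le_mul_of_nonneg_left hlog hε.le
      rw [hε'] at *
      nlinarith
    have hpos : 0 < ‖deriv φ (pt r θ)‖ := by
      rw [hexp _ hw, norm_mul]
      exact mul_pos (norm_pos_iff.2 hne) (norm_pos_iff.2 (exp_ne_zero _))
    constructor
    · rw [← Real.log_le_log_iff (by have : 0 < 1 - r := by linarith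
                                    positivity) hpos, Real.log_rpow (by linarith), hnorm]
      nlinarith [hre.1]
    · rw [← Real.log_le_log_iff hpos (by have : 0 < 1 - r := by linarith
                                         positivity), Real.log_rpow (by linarith), hnorm]
      nlinarith [hre.2]
  refine (measure_mono hsub).trans ((measure_iUnion_le _).trans ?_)
  have hkey : ∀ n : ℕ, volume (Ioc 0 (2 * Real.pi) ∩
        {θ : ℝ | ¬ ‖g (pt (1 - (1 / 2) ^ (n + N + 1)) θ)‖ < ε' * ((n + N : ℕ) + 1)}) ≤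
      ENNReal.ofReal (4 * Real.pi * κ ^ (N + 1) * κ ^ n) := by
    intro n
    have h1 := scale_bd hg hg0 hB hε'0 (n + N)
    rw [Measure.restrict_apply' measurableSet_Ioc] at h1
    rw [inter_comm]
    refine h1.trans (le_of_eq ?_)
    rw [← hκ, show n + N + 1 = (N + 1) + n by ring, pow_add, mul_assoc (4 * Real.pi)]
  refine (ENNReal.tsum_le_tsum hkey).trans ?_
  have hsumm : Summable fun n : ℕ => 4 * Real.pi * κ ^ (N + 1) * κ ^ n :=
    (summable_geometric_of_lt_one hκ0.le hκ1).mul_left _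
  rw [← ENNReal.ofReal_tsum_of_nonneg (fun n => by positivity) hsumm, tsum_mul_left,
    tsum_geometric_of_lt_one hκ0.le hκ1]
  exact ENNReal.ofReal_le_ofReal (hN N le_rfl).2.le

end Pool.Agent.Z55B
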