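import Pool.Agent.Z55B.E1

/-! # E2: a univalent function which omits a point near the centre is rarely large -/

set_option autoImplicit false

namespace Pool.Agent.Z55B

open Complex Metric Set Filter Topology MeasureTheory
open Pool.Agent.W677.Mar (pt lam bloch_exp norm_pt pt_periodic continuous_pt norm_pt_sub lam_pos)

theorem ball_log {h : ℂ → ℂ} (hd : DifferentiableOn ℂ h (ball 0 1))
    (hne : ∀ z ∈ ball (0 : ℂ) 1, h z ≠ 0) : ∃ M : ℂ → ℂ, DifferentiableOn ℂ M (ball 0 1) ∧
      ∀ z ∈ ball (0 : ℂ) 1, h z = exp (M z) := by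
  have h0 : (0 : ℂ) ∈ ball (0 : ℂ) 1 := mem_ball_self one_pos
  have hdd : DifferentiableOn ℂ (fun z => deriv h z / h z) (ball 0 1) :=
    (hd.deriv isOpen_ball).div hd hne
  obtain ⟨F, hF0, hF⟩ := hdd.isExactOn_ball.with_val_at 0 (Complex.log (h 0))
  have hFd : DifferentiableOn ℂ F (ball 0 1) :=
    fun z hz => (hF z hz).differentiableAt.differentiableWithinAt
  refine ⟨F, hFd, fun z hz => ?_⟩
  have hc : h z * exp (-F z) = h 0 * exp (-F 0) := by
    refine isOpen_ball.is_const_of_deriv_eq_zero (convex_ball (0 : ℂ) 1).isPreconnected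
      (f := fun z => h z * exp (-F z)) (hd.mul hFd.neg.cexp) ?_ hz h0
    intro x hx
    have h1 : HasDerivAt h (deriv h x) x :=
      (hd.differentiableAt (isOpen_ball.mem_nhds hx)).hasDerivAt
    have h2 := h1.mul (hF x hx).neg.cexp
    simp only [Pi.zero_apply]
    refine Eq.trans h2.deriv ?_
    have := hne x hx
    field_simp
    ring
  rw [hF0, exp_neg (Complex.log _), exp_log (hne 0 h0), mul_inv_cancel₀ (hne 0 h0)] at hc
  calc h z = (h z * exp (-F z)) * exp (F z) := by
        rw [mul_assoc, ← exp_add, neg_add_cancel, exp_zero, mul_one]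
    _ = exp (F z) := by rw [hc, one_mul]

/-- the logarithm of the modulus of a bounded below, nowhere vanishing function -/
theorem meas_large {H : ℂ → ℂ} (hd : DifferentiableOn ℂ H (ball 0 1)) {m : ℝ} (hm : 0 < m)
    (hm1 : m ≤ 1)
    (hlow : ∀ z ∈ ball (0 : ℂ) 1, m ≤ ‖H z‖) (h0 : ‖H 0‖ ≤ 2) {T : ℝ} (hT : 1 < T) {r : ℝ}
    (hr0 : 0 < r) (hr1 : r < 1) :
    volume {θ | θ ∈ Ioc 0 (2 * Real.pi) ∧ T ≤ ‖H (pt r θ)‖} ≤
      ENNReal.ofReal (2 * Real.pi * (Real.log 2 - Real.log m) / Real.log T) := by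
  have hpi := Real.pi_pos
  obtain ⟨M, hM, hMe⟩ := ball_log hd (fun z hz h => by
    have := hlow z hz
    rw [h, norm_zero] at this
    linarith)
  have hball : ∀ θ : ℝ, pt r θ ∈ ball (0 : ℂ) 1 := fun θ => by
    rw [mem_ball_zero_iff, norm_pt r θ hr0.le]; exact hr1
  have hcb : closedBall (0 : ℂ) |r| ⊆ ball 0 1 := by
    intro z hz
    rw [mem_closedBall_zero_iff, abs_of_pos hr0] at hz
    rw [mem_ball_zero_iff]
    linarith
  have hmean : Real.circleAverage M 0 r = M 0 := by
    apply DiffContOnCl.circleAverage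
    refine DifferentiableOn.diffContOnCl ?_
    rw [closure_ball _ (by rw [abs_of_pos hr0]; exact hr0.ne')]
    exact hM.mono hcb
  -- real parts
  have hlog : ∀ z ∈ ball (0 : ℂ) 1, (M z).re = Real.log ‖H z‖ := by
    intro z hz
    rw [hMe z hz, norm_exp, Real.log_exp]
  have hcont : Continuous fun θ : ℝ => M (pt r θ) :=
    hM.continuousOn.comp_continuous (continuous_pt r) hball
  have hint : ∫ θ in (0 : ℝ)..(2 * Real.pi), (M (pt r θ)).re = 2 * Real.pi * (M 0).re := by
    have h1 : ∫ θ in (0 : ℝ)..(2 * Real.pi), M (pt r θ) = (2 * Real.pi) * M 0 := by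
      rw [← hmean, Real.circleAverage]
      rw [Complex.real_smul]
      push_cast
      rw [← mul_assoc, mul_inv_cancel₀ (by norm_cast; positivity), one_mul]
      rfl
    have h2 := reCLM.intervalIntegral_comp_comm
      (hcont.intervalIntegrable (μ := volume) 0 (2 * Real.pi))
    simp only [reCLM_apply] at h2
    rw [h2, h1, show ((2 : ℂ) * (Real.pi : ℂ)) = ((2 * Real.pi : ℝ) : ℂ) by push_cast; ring,
      re_ofReal_mul]
  set S : Set ℝ := {θ | θ ∈ Ioc 0 (2 * Real.pi) ∧ T ≤ ‖H (pt r θ)‖} with hS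
  have hHc : Continuous fun θ : ℝ => ‖H (pt r θ)‖ :=
    (hd.continuousOn.comp_continuous (continuous_pt r) hball).norm
  have hSm : MeasurableSet S :=
    measurableSet_Ioc.inter (isClosed_le continuous_const hHc).measurableSet
  have hSsub : S ⊆ Ioc 0 (2 * Real.pi) := fun θ h => h.1
  have hSfin : volume S ≠ ⊤ := by
    refine ne_top_of_le_ne_top ?_ (measure_mono hSsub)
    rw [Real.volume_Ioc]
    exact ENNReal.ofReal_ne_top
  have hlogT : 0 < Real.log T := Real.log_pos hT
  have hlogm : Real.log m ≤ 0 := Real.log_nonpos hm.le hm1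
  -- lower bound of the integral
  have hge : volume.real S * Real.log T + 2 * Real.pi * Real.log m ≤
      ∫ θ in (0 : ℝ)..(2 * Real.pi), (M (pt r θ)).re := by
    rw [intervalIntegral.integral_of_le (by positivity)]
    have h1 : ∫ θ in Ioc 0 (2 * Real.pi), (S.indicator (fun _ => Real.log T) θ + Real.log m) =
        volume.real S * Real.log T + 2 * Real.pi * Real.log m := by
      rw [integral_add, integral_indicator hSm, Measure.restrict_restrict hSm,
        inter_eq_left.2 hSsub]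
      · simp [Real.volume_real_Ioc_of_le (by positivity : (0 : ℝ) ≤ 2 * Real.pi)]
      · exact (integrable_const _).indicator hSm
      · exact integrable_const _
    rw [← h1]
    apply setIntegral_mono_on
    · exact ((integrable_const _).indicator hSm).add (integrable_const _)
    · exact (continuous_re.comp hcont).integrableOn_Icc.mono_set Ioc_subset_Icc_self
    · exact measurableSet_Ioc
    · intro θ hθ
      rw [hlog _ (hball θ)]
      by_cases h : θ ∈ S
      · rw [indicator_of_mem h]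
        have := Real.log_le_log (by linarith) h.2
        linarith
      · rw [indicator_of_notMem h, zero_add]
        exact Real.log_le_log hm (hlow _ (hball θ))
  have h0b : (0 : ℂ) ∈ ball (0 : ℂ) 1 := mem_ball_self one_pos
  have hM0 : (M 0).re ≤ Real.log 2 := by
    rw [hlog 0 h0b]
    exact Real.log_le_log (by linarith [hlow 0 h0b]) h0
  rw [← ENNReal.ofReal_toReal hSfin]
  apply ENNReal.ofReal_le_ofReal
  rw [le_div_iff₀ hlogT]
  rw [hint] at hge
  have : volume.real S = (volume S).toReal := rfl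
  rw [this] at hge
  nlinarith

theorem vol_large {p0 : ℝ} (hp0 : 0 < p0) : ∃ K : ℝ, 1 < K ∧
    ∀ φ : ℂ → ℂ, DifferentiableOn ℂ φ (ball 0 1) → InjOn φ (ball 0 1) → φ 0 = 0 →
      1 / 2 ≤ ‖deriv φ 0‖ → ∀ e : ℂ, ‖e‖ = 1 → (∀ z ∈ ball (0 : ℂ) 1, φ z ≠ e) →
      ∀ r : ℝ, 0 < r → r < 1 →
      volume {θ | θ ∈ Ioc 0 (2 * Real.pi) ∧ K ≤ ‖φ (pt r θ)‖} ≤ ENNReal.ofReal p0 := by
  have hpi := Real.pi_pos
  set C : ℝ := 2 * Real.pi * (Real.log 2 - Real.log (1 / 16)) / p0 with hC
  set T : ℝ := max 2 (Real.exp C) with hT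
  have hT1 : 1 < T := by
    rw [hT]
    exact lt_of_lt_of_le (by norm_num) (le_max_left _ _)
  refine ⟨(T + 1) ^ 2 + 1, by nlinarith, ?_⟩
  intro φ hφ hinj h0 hd e he hne r hr0 hr1
  have h0b : (0 : ℂ) ∈ ball (0 : ℂ) 1 := mem_ball_self one_pos
  obtain ⟨L, hL, hLe⟩ := ball_log (h := fun z => φ z - e) (hφ.sub_const e)
    (fun z hz => sub_ne_zero.2 (hne z hz))
  set g : ℂ → ℂ := fun z => exp (L z / 2) with hg
  have hgd : DifferentiableOn ℂ g (ball 0 1) := (hL.div_const 2).cexp
  have hgsq : ∀ z ∈ ball (0 : ℂ) 1, g z ^ 2 = φ z - e := by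
    intro z hz
    rw [hLe z hz, hg]
    simp only
    rw [← exp_nat_mul]
    congr 1
    push_cast
    ring
  have hginj : InjOn g (ball 0 1) := by
    intro z hz w hw hzw
    have h1 := hgsq z hz
    have h2 := hgsq w hw
    rw [hzw, h2] at h1
    exact (hinj hz hw (sub_left_inj.1 h1.symm))
  have hg0n : ‖g 0‖ = 1 := by
    have h1 := congrArg norm (hgsq 0 h0b)
    rw [h0, zero_sub, norm_neg, he, norm_pow] at h1
    have h2 := norm_nonneg (g 0)
    nlinarith
  have hg0 : g 0 ≠ 0 := fun h => by rw [h, norm_zero] at hg0n; norm_num at hg0n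
  have hderiv : 2 * g 0 * deriv g 0 = deriv φ 0 := by
    have h1 : HasDerivAt g (deriv g 0) 0 :=
      (hgd.differentiableAt (isOpen_ball.mem_nhds h0b)).hasDerivAt
    have h2 := h1.pow 2
    have h3 : HasDerivAt (fun z => φ z - e) (deriv φ 0) 0 :=
      ((hφ.differentiableAt (isOpen_ball.mem_nhds h0b)).hasDerivAt).sub_const e
    have h4 : (fun z => g z ^ 2) =ᶠ[𝓝 0] (fun z => φ z - e) := by
      filter_upwards [isOpen_ball.mem_nhds h0b] with z hz
      exact hgsq z hz
    have h5 := (h3.congr_of_eventuallyEq h4).unique h2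
    rw [h5]
    norm_num
  have hgd1 : 1 / 4 ≤ ‖deriv g 0‖ := by
    have h1 := congrArg norm hderiv
    rw [norm_mul, norm_mul, hg0n] at h1
    norm_num at h1
    linarith
  have hKG := Pool.Agent.T6.H4.SG.t_KG g 0 1 one_pos hgd hginj
  have hlow : ∀ z ∈ ball (0 : ℂ) 1, 1 / 16 ≤ ‖g z + g 0‖ := by
    intro z hz
    by_contra hcon
    rw [not_le] at hcon
    have h1 : -g z ∈ ball (g 0) (1 * ‖deriv g 0‖ / 4) := by
      rw [mem_ball, dist_eq_norm, ← norm_neg, show -(-g z - g 0) = g z + g 0 by ring]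
      linarith
    obtain ⟨w, hw, hwz⟩ := hKG.2.2.2 h1
    have h2 := hgsq w hw
    have h3 := hgsq z hz
    rw [hwz, neg_sq, h3] at h2
    have h4 := hinj hz hw (sub_left_inj.1 h2)
    rw [h4] at hwz
    have h5 : g w = 0 := by
      have : 2 * g w = 0 := by linear_combination hwz
      simpa using this
    exact exp_ne_zero _ h5
  have hfin := meas_large (H := fun z => g z + g 0) (hgd.add_const (g 0)) (m := 1 / 16)
    (by norm_num) (by norm_num) hlow (by
      calc ‖g 0 + g 0‖ ≤ ‖g 0‖ + ‖g 0‖ := norm_add_le _ _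
        _ = 2 := by rw [hg0n]; norm_num) hT1 hr0 hr1
  refine (measure_mono ?_).trans (hfin.trans (ENNReal.ofReal_le_ofReal ?_))
  · rintro θ ⟨hθ, hK⟩
    refine ⟨hθ, ?_⟩
    have hb : pt r θ ∈ ball (0 : ℂ) 1 := by
      rw [mem_ball_zero_iff, norm_pt r θ hr0.le]; exact hr1
    have h1 := congrArg norm (hgsq _ hb)
    rw [norm_pow] at h1
    have h2 : ‖φ (pt r θ)‖ - ‖e‖ ≤ ‖φ (pt r θ) - e‖ := norm_sub_norm_le _ _
    rw [he] at h2
    have h3 : (T + 1) ^ 2 ≤ ‖g (pt r θ)‖ ^ 2 := by rw [h1]; linarith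
    have h4 : T + 1 ≤ ‖g (pt r θ)‖ :=
      (pow_le_pow_iff_left₀ (by linarith) (norm_nonneg _) two_ne_zero).1 h3
    have h5 : ‖g (pt r θ)‖ - ‖g 0‖ ≤ ‖g (pt r θ) + g 0‖ := by
      have := norm_sub_norm_le (g (pt r θ)) (-g 0)
      rwa [norm_neg, sub_neg_eq_add] at this
    show T ≤ ‖g (pt r θ) + g 0‖
    rw [hg0n] at h5
    linarith
  · have hlT : C ≤ Real.log T := by
      rw [Real.le_log_iff_exp_le (by linarith)]
      exact le_max_right _ _
    have hlT0 : 0 < Real.log T := Real.log_pos hT1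
    rw [div_le_iff₀ hlT0]
    have : 2 * Real.pi * (Real.log 2 - Real.log (1 / 16)) = C * p0 := by
      rw [hC]; field_simp
    rw [this, mul_comm]
    exact mul_le_mul_of_nonneg_left hlT hp0.le

end Pool.Agent.Z55B
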