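import Pool.Agent.Z55B.E2

/-! # E3: the potential of the harmonic measure at a point -/

set_option autoImplicit false

namespace Pool.Agent.Z55B

open Complex Metric Set Filter Topology MeasureTheory
open Pool.Agent.W677.Mar (pt lam bloch_exp norm_pt pt_periodic continuous_pt norm_pt_sub lam_pos)
open Pool.Agent.N673.Mak (G vol_le length_le measurableSet_G cont_pt half_pow_le)

variable {φ : ℂ → ℂ} {ε : ℝ} {N : ℕ}

/-- the measure of the regular angles whose point is close to `x` -/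
theorem vol_near (hφ : DifferentiableOn ℂ φ (ball 0 1)) (hinj : InjOn φ (ball 0 1)) (hN : 1 ≤ N)
    (hε : 0 < ε) (hε1 : ε ≤ 1 / 8) {l : ℝ} (hl : 0 < l) (x : ℂ) {ρ : ℝ}
    (h1 : l ^ (1 - ε) ≤ ρ) (h2 : ρ ≤ ((1 / 2 : ℝ) ^ N) ^ (1 - ε)) :
    volume {θ | θ ∈ G φ ε N ∧ ‖φ (pt (1 - l) θ) - x‖ ≤ ρ} ≤
      ENNReal.ofReal (400 * Real.pi * ρ ^ (1 - 4 * ε)) := by
  have hh2 := half_pow_le hN
  have hρ0 : 0 < ρ := lt_of_lt_of_le (by positivity) h1
  have hρ1 : ρ ≤ 1 := h2.trans (Real.rpow_le_one (by positivity) (by linarith) (by linarith))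
  set h : ℝ := ρ ^ (1 / (1 - ε)) with hh
  have hh0 : 0 < h := by positivity
  have hhρ : h ^ (1 - ε) = ρ := by
    rw [hh, ← Real.rpow_mul hρ0.le, one_div_mul_cancel (by linarith), Real.rpow_one]
  have hhN : h ≤ (1 / 2) ^ N := by
    have := Real.rpow_le_rpow hρ0.le h2 (z := 1 / (1 - ε)) (by
      have : 0 < 1 - ε := by linarith
      positivity)
    rwa [← Real.rpow_mul (by positivity), mul_one_div_cancel (by linarith), Real.rpow_one] at this
  have hlh : l ≤ h := by
    have := Real.rpow_le_rpow (by positivity) h1 (z := 1 / (1 - ε)) (by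
      have : 0 < 1 - ε := by linarith
      positivity)
    rwa [← Real.rpow_mul hl.le, mul_one_div_cancel (by linarith), Real.rpow_one] at this
  refine (measure_mono ?_).trans ((vol_le hφ hinj hN hε hε1 hh0 hhN x).trans ?_)
  · rintro θ ⟨hθ, hx⟩
    refine ⟨hθ, ?_⟩
    have h3 := length_le hφ hN (by linarith : ε ≤ 1 / 2) hθ (r := 1 - h) (s := 1 - l)
      (by linarith) (by linarith) (by linarith)
    rw [sub_sub_cancel, hhρ] at h3
    rw [hhρ]
    calc ‖φ (pt (1 - h) θ) - x‖ = ‖(φ (pt (1 - l) θ) - x) -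
          (φ (pt (1 - l) θ) - φ (pt (1 - h) θ))‖ := by congr 1; ring
      _ ≤ _ := norm_sub_le _ _
      _ ≤ 3 * ρ := by linarith
  · apply ENNReal.ofReal_le_ofReal
    apply mul_le_mul_of_nonneg_left _ (by positivity)
    rw [hh, ← Real.rpow_mul hρ0.le]
    apply Real.rpow_le_rpow_of_exponent_ge hρ0 hρ1
    rw [one_div, inv_mul_eq_div, le_div_iff₀ (by linarith)]
    nlinarith

/-- pointwise dyadic bound of the kernel -/
theorem dyadic_bd {η D p : ℝ} (hη : 0 < η) (hD : η < D) (hp : 0 < p) (n : ℕ) :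
    D ^ (-p) ≤ ∑ j ∈ Finset.range n, (if D ≤ 2 ^ (j + 1) * η then ((2 : ℝ) ^ j * η) ^ (-p) else 0) +
      ((2 : ℝ) ^ n * η) ^ (-p) := by
  induction n with
  | zero =>
    simp only [Finset.range_zero, Finset.sum_empty, pow_zero, one_mul, zero_add]
    exact Real.rpow_le_rpow_of_nonpos hη hD.le (by linarith)
  | succ n ih =>
    rw [Finset.sum_range_succ]
    by_cases h : D ≤ 2 ^ (n + 1) * η
    · rw [if_pos h]
      have : 0 ≤ ((2 : ℝ) ^ (n + 1) * η) ^ (-p) := by positivity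
      linarith
    · rw [if_neg h, add_zero]
      rw [not_le] at h
      have h1 : D ^ (-p) ≤ ((2 : ℝ) ^ (n + 1) * η) ^ (-p) :=
        Real.rpow_le_rpow_of_nonpos (by positivity) h.le (by linarith)
      have h2 : 0 ≤ ∑ j ∈ Finset.range n,
          (if D ≤ 2 ^ (j + 1) * η then ((2 : ℝ) ^ j * η) ^ (-p) else 0) := by
        apply Finset.sum_nonneg
        intro j _
        split_ifs
        · positivity
        · exact le_rfl
      linarith

/-- the potential of the harmonic measure, restricted to regular angles -/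
theorem kernel_int (hφ : DifferentiableOn ℂ φ (ball 0 1)) (hinj : InjOn φ (ball 0 1)) (hN : 1 ≤ N)
    (hε : 0 < ε) (hε1 : ε ≤ 1 / 8) {l : ℝ} (hl : 0 < l) (hl1 : l < 1) (x : ℂ) {η p : ℝ}
    (h1 : l ^ (1 - ε) ≤ η) (hp : 1 - 4 * ε ≤ p) (hp2 : p ≤ 2) {n : ℕ}
    (h2 : 2 ^ n * η ≤ ((1 / 2 : ℝ) ^ N) ^ (1 - ε)) (h3 : ((1 / 2 : ℝ) ^ N) ^ (1 - ε) ≤ 2 * (2 ^ n * η))
    (hx : ∀ θ, η < ‖φ (pt (1 - l) θ) - x‖) {S : Set ℝ} (hS : MeasurableSet S)
    (hSG : S ⊆ G φ ε N) :
    ∫ θ in S, ‖φ (pt (1 - l) θ) - x‖ ^ (-p) ≤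
      n * (800 * Real.pi * η ^ (1 - 4 * ε - p)) + 2 * Real.pi * (2 * 2 ^ N) ^ (2 : ℝ) := by
  have hpi := Real.pi_pos
  have hη : 0 < η := lt_of_lt_of_le (by positivity) h1
  have hh2 := half_pow_le hN
  have hp0 : 0 < p := by linarith
  set D : ℝ → ℝ := fun θ => ‖φ (pt (1 - l) θ) - x‖ with hDdef
  have hDc : Continuous D :=
    ((cont_pt hφ (by linarith) (by linarith)).sub continuous_const).norm
  set M : ℝ := ((1 / 2 : ℝ) ^ N) ^ (1 - ε) with hM
  have hSfin : volume S ≤ ENNReal.ofReal (2 * Real.pi) := by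
    refine (measure_mono (hSG.trans fun θ h => h.1)).trans ?_
    rw [Real.volume_Ioc, sub_zero]
  have hSfin' : volume S ≠ ⊤ := ne_top_of_le_ne_top ENNReal.ofReal_ne_top hSfin
  have : IsFiniteMeasure (volume.restrict S) := ⟨by
    rw [Measure.restrict_apply_univ]
    exact hSfin'.lt_top⟩
  have hT : ∀ j : ℕ, MeasurableSet {θ | D θ ≤ 2 ^ (j + 1) * η} := fun j =>
    (isClosed_le hDc continuous_const).measurableSet
  -- the majorant
  have hmaj : ∫ θ in S, D θ ^ (-p) ≤ ∫ θ in S, (∑ j ∈ Finset.range n,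
      ({θ | D θ ≤ 2 ^ (j + 1) * η}.indicator (fun _ => ((2 : ℝ) ^ j * η) ^ (-p)) θ) +
      ((2 : ℝ) ^ n * η) ^ (-p)) := by
    apply integral_mono_of_nonneg
    · exact Eventually.of_forall fun θ => by positivity
    · apply Integrable.add
      · apply integrable_finsetSum
        intro j _
        exact (integrable_const _).indicator (hT j)
      · exact integrable_const _
    · refine Eventually.of_forall fun θ => ?_
      have := dyadic_bd hη (hx θ) hp0 n
      simpa only [indicator, mem_ofPred_eq] using this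
  refine hmaj.trans ?_
  rw [integral_add (integrable_finsetSum _ fun j _ => (integrable_const _).indicator (hT j))
    (integrable_const _), integral_finsetSum _ fun j _ => (integrable_const _).indicator (hT j)]
  have hterm : ∀ j ∈ Finset.range n, ∫ θ in S,
      ({θ | D θ ≤ 2 ^ (j + 1) * η}.indicator (fun _ => ((2 : ℝ) ^ j * η) ^ (-p)) θ) ≤
      800 * Real.pi * η ^ (1 - 4 * ε - p) := by
    intro j hj
    rw [Finset.mem_range] at hj
    rw [integral_indicator (hT j), setIntegral_const, smul_eq_mul]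
    have hjη : 0 < (2 : ℝ) ^ j * η := by positivity
    have hle : (2 : ℝ) ^ (j + 1) * η ≤ M := by
      refine le_trans ?_ h2
      apply mul_le_mul_of_nonneg_right _ hη.le
      exact pow_le_pow_right₀ (by norm_num) (by omega)
    have hge : l ^ (1 - ε) ≤ 2 ^ (j + 1) * η := by
      refine h1.trans ?_
      have : (1 : ℝ) ≤ 2 ^ (j + 1) := one_le_pow₀ (by norm_num)
      nlinarith
    have hv := vol_near hφ hinj hN hε hε1 hl x hge hle
    have hreal : (volume.restrict S).real {θ | D θ ≤ 2 ^ (j + 1) * η} ≤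
        400 * Real.pi * (2 ^ (j + 1) * η) ^ (1 - 4 * ε) := by
      rw [measureReal_def]
      apply ENNReal.toReal_le_of_le_ofReal (by positivity)
      refine le_trans ?_ hv
      rw [Measure.restrict_apply (hT j)]
      exact measure_mono fun θ hθ => ⟨hSG hθ.2, hθ.1⟩
    have h4 : ((2 : ℝ) ^ (j + 1) * η) ^ (1 - 4 * ε) ≤ 2 * ((2 : ℝ) ^ j * η) ^ (1 - 4 * ε) := by
      rw [pow_succ, show (2 : ℝ) ^ j * 2 * η = 2 * (2 ^ j * η) by ring,
        Real.mul_rpow (by norm_num) hjη.le]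
      apply mul_le_mul_of_nonneg_right _ (by positivity)
      have := Real.rpow_le_rpow_of_exponent_le (x := 2) (by norm_num) (y := 1 - 4 * ε) (z := 1)
        (by linarith)
      rwa [Real.rpow_one] at this
    have h5 : ((2 : ℝ) ^ j * η) ^ (1 - 4 * ε) * ((2 : ℝ) ^ j * η) ^ (-p) ≤ η ^ (1 - 4 * ε - p) := by
      rw [← Real.rpow_add hjη, ← sub_eq_add_neg]
      apply Real.rpow_le_rpow_of_nonpos hη
      · have : (1 : ℝ) ≤ 2 ^ j := one_le_pow₀ (by norm_num)
        nlinarith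
      · linarith
    calc (volume.restrict S).real {θ | D θ ≤ 2 ^ (j + 1) * η} * ((2 : ℝ) ^ j * η) ^ (-p)
        ≤ (400 * Real.pi * (2 * ((2 : ℝ) ^ j * η) ^ (1 - 4 * ε))) * ((2 : ℝ) ^ j * η) ^ (-p) := by
          apply mul_le_mul_of_nonneg_right _ (by positivity)
          exact hreal.trans (mul_le_mul_of_nonneg_left h4 (by positivity))
      _ = 800 * Real.pi * (((2 : ℝ) ^ j * η) ^ (1 - 4 * ε) * ((2 : ℝ) ^ j * η) ^ (-p)) := by ring
      _ ≤ _ := mul_le_mul_of_nonneg_left h5 (by positivity)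
  have hlast : ∫ _ in S, ((2 : ℝ) ^ n * η) ^ (-p) ≤ 2 * Real.pi * (2 * 2 ^ N) ^ (2 : ℝ) := by
    rw [setIntegral_const, smul_eq_mul]
    have h4 : volume.real S ≤ 2 * Real.pi := by
      rw [measureReal_def]
      exact ENNReal.toReal_le_of_le_ofReal (by positivity) hSfin
    apply mul_le_mul h4 _ (by positivity) (by positivity)
    have h5 : (2 * (2 : ℝ) ^ N)⁻¹ ≤ 2 ^ n * η := by
      have h6 : (1 / 2 : ℝ) ^ N ≤ M := by
        rw [hM]
        have := Real.rpow_le_rpow_of_exponent_ge (x := (1 / 2 : ℝ) ^ N) (by positivity)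
          (by linarith) (y := 1) (z := 1 - ε) (by linarith)
        rwa [Real.rpow_one] at this
      rw [mul_inv, ← inv_pow]
      rw [one_div] at h6
      linarith
    calc ((2 : ℝ) ^ n * η) ^ (-p) ≤ ((2 * (2 : ℝ) ^ N)⁻¹) ^ (-p) :=
          Real.rpow_le_rpow_of_nonpos (by positivity) h5 (by linarith)
      _ = (2 * (2 : ℝ) ^ N) ^ p := by
          rw [Real.rpow_neg (by positivity), Real.inv_rpow (by positivity), inv_inv]
      _ ≤ _ := by
          apply Real.rpow_le_rpow_of_exponent_le _ hp2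
          have : (1 : ℝ) ≤ 2 ^ N := one_le_pow₀ (by norm_num)
          linarith
  refine add_le_add ((Finset.sum_le_sum hterm).trans (le_of_eq ?_)) hlast
  rw [Finset.sum_const, Finset.card_range, nsmul_eq_mul]

end Pool.Agent.Z55B
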