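import Pool.Agent.Z55B.E3

/-! # E4: the one step estimate, both regimes -/

set_option autoImplicit false

namespace Pool.Agent.Z55B

open Complex Metric Set Filter Topology MeasureTheory
open Pool.Agent.W677.Mar (pt lam bloch_exp norm_pt pt_periodic continuous_pt norm_pt_sub lam_pos)
open Pool.Agent.N673.Mak (G vol_le length_le measurableSet_G cont_pt half_pow_le)

/-- one term of the potential -/
noncomputable def Tx (q a r : ℝ) (E : Set ℂ) (x w : ℂ) : ℝ :=
  r ^ q * ‖w - x‖ ^ (-(q + 1 / 8)) * (r ^ a + infDist w E ^ a) ^ (1 / (8 * a))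

/-- the potential -/
noncomputable def Ux (q a r : ℝ) (J : Finset ℂ) (E : Set ℂ) (w : ℂ) : ℝ :=
  ∑ x ∈ J, Tx q a r E x w

/-- the normalised Riemann map of the domain `{d > η} ∩ B(0,K)` -/
structure Dm (E : Set ℂ) (f : ℂ → ℂ) (η K : ℝ) : Prop where
  diff : DifferentiableOn ℂ f (ball 0 1)
  inj : InjOn f (ball 0 1)
  zero : f 0 = 0
  d1 : 1 / 2 ≤ ‖deriv f 0‖
  d2 : ‖deriv f 0‖ ≤ 4
  inE : ∀ z ∈ ball (0 : ℂ) 1, η < infDist (f z) E
  inK : ∀ z ∈ ball (0 : ℂ) 1, ‖f z‖ < K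
  edge : ∀ z ∈ ball (0 : ℂ) 1, ∀ ρ : ℝ, 0 < ρ → η + ρ ≤ infDist (f z) E → ‖f z‖ + ρ ≤ K →
    ρ ≤ 2 * (1 - ‖z‖) * ‖deriv f z‖

/-- the good angles -/
def SS (f : ℂ → ℂ) (ε : ℝ) (N : ℕ) (K l : ℝ) : Set ℝ :=
  {θ | θ ∈ G f ε N ∧ ‖f (pt (1 - l) θ)‖ < K / 2}

/-- `t ^ α` lies below its tangents -/
theorem tangent {α s t : ℝ} (h0 : 0 ≤ α) (h1 : α ≤ 1) (hs : 0 < s) (ht : 0 ≤ t) :
    t ^ α ≤ α * (s ^ α / s) * t + (1 - α) * s ^ α := by
  have h := Real.geom_mean_le_arith_mean2_weighted h0 (by linarith : 0 ≤ 1 - α) ht hs.le (by ring)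
  have h2 : s ^ (1 - α) = s / s ^ α := by rw [Real.rpow_sub hs, Real.rpow_one]
  rw [h2] at h
  have h3 : 0 < s ^ α := by positivity
  have h4 : t ^ α * (s / s ^ α) * (s ^ α / s) ≤ (α * t + (1 - α) * s) * (s ^ α / s) :=
    mul_le_mul_of_nonneg_right h (by positivity)
  have h5 : t ^ α * (s / s ^ α) * (s ^ α / s) = t ^ α := by field_simp
  rw [h5] at h4
  refine h4.trans (le_of_eq ?_)
  field_simp

variable {E : Set ℂ} {f : ℂ → ℂ} {η K l ε : ℝ} {N : ℕ}

section

variable (hD : Dm E f η K) (hl : 0 < l) (hl1 : l < 1)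

include hD hl hl1

theorem mem_b (θ : ℝ) : pt (1 - l) θ ∈ ball (0 : ℂ) 1 := by
  rw [mem_ball_zero_iff, norm_pt _ θ (by linarith)]; linarith

theorem cont_w : Continuous fun θ : ℝ => f (pt (1 - l) θ) :=
  hD.diff.continuousOn.comp_continuous (continuous_pt _) (mem_b hD hl hl1)

theorem meas_SS (hN : 1 ≤ N) : MeasurableSet (SS f ε N K l) :=
  (measurableSet_G hD.diff hN).inter
    (isOpen_lt (cont_w hD hl hl1).norm continuous_const).measurableSet

theorem SS_d (hlN : l ≤ (1 / 2 : ℝ) ^ N) (hlη : l ^ (1 - ε) = η / 4) (hη : 0 < η)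
    (hηK : η ≤ K / 2) {θ : ℝ} (hθ : θ ∈ SS f ε N K l) : infDist (f (pt (1 - l) θ)) E ≤ 2 * η := by
  by_contra h
  rw [not_le] at h
  have h1 := hD.edge (pt (1 - l) θ) (mem_b hD hl hl1 θ) η hη (by linarith) (by
    have := hθ.2
    linarith)
  rw [norm_pt _ θ (by linarith), sub_sub_cancel] at h1
  have h2 := (hθ.1.2 (1 - l) ⟨by linarith, by linarith⟩).2
  rw [sub_sub_cancel] at h2
  have h3 : l * l ^ (-ε) = η / 4 := by
    rw [← hlη, Real.rpow_sub hl, Real.rpow_one, Real.rpow_neg hl.le]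
    rfl
  have h4 : 2 * l * ‖deriv f (pt (1 - l) θ)‖ ≤ 2 * l * l ^ (-ε) :=
    mul_le_mul_of_nonneg_left h2 (by positivity)
  nlinarith

end

theorem Tx_nonneg (q a : ℝ) {r : ℝ} (hr : 0 ≤ r) (E : Set ℂ) (x w : ℂ) : 0 ≤ Tx q a r E x w := by
  unfold Tx
  have := infDist_nonneg (x := w) (s := E)
  positivity

theorem Ux_nonneg (q a : ℝ) {r : ℝ} (hr : 0 ≤ r) (J : Finset ℂ) (E : Set ℂ) (w : ℂ) :
    0 ≤ Ux q a r J E w := Finset.sum_nonneg fun x _ => Tx_nonneg q a hr E x w

theorem Tx_pos (q a : ℝ) {r : ℝ} (hr : 0 < r) (E : Set ℂ) {x w : ℂ} (h : w ≠ x) :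
    0 < Tx q a r E x w := by
  unfold Tx
  have h1 := infDist_nonneg (x := w) (s := E)
  have h2 : 0 < ‖w - x‖ := norm_pos_iff.2 (sub_ne_zero.2 h)
  have h3 : 0 < r ^ a := by positivity
  have h4 : 0 ≤ infDist w E ^ a := by positivity
  positivity

/-- continuity of the potential along a continuous curve off `E` -/
theorem Tx_cont {q a r : ℝ} (ha : 0 < a) (hr : 0 < r) {x : ℂ} {w : ℝ → ℂ} (hw : Continuous w)
    (hne : ∀ θ, w θ ≠ x) : Continuous fun θ => Tx q a r E x (w θ) := by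
  unfold Tx
  have h1 : Continuous fun θ => ‖w θ - x‖ ^ (-(q + 1 / 8)) :=
    (hw.sub continuous_const).norm.rpow_const fun θ =>
      Or.inl (norm_pos_iff.2 (sub_ne_zero.2 (hne θ))).ne'
  have h2 : Continuous fun θ => r ^ a + infDist (w θ) E ^ a := by
    refine continuous_const.add ?_
    exact ((continuous_infDist_pt E).comp hw).rpow_const fun θ => Or.inr ha.le
  have h3 : Continuous fun θ => (r ^ a + infDist (w θ) E ^ a) ^ (1 / (8 * a)) :=
    h2.rpow_const fun θ => Or.inr (by positivity)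
  exact (continuous_const.mul h1).mul h3

theorem Ux_cont {q a r : ℝ} (ha : 0 < a) (hr : 0 < r) {J : Finset ℂ} {w : ℝ → ℂ}
    (hw : Continuous w) (hne : ∀ x ∈ J, ∀ θ, w θ ≠ x) : Continuous fun θ => Ux q a r J E (w θ) :=
  continuous_finsetSum _ fun x hx => Tx_cont ha hr hw (hne x hx)

/-- the large regime -/
theorem large (hD : Dm E f η K) (hE0 : infDist 0 E = 1) {e : ℂ} (he : e ∈ E) (he1 : ‖e‖ = 1)
    (hl : 0 < l) (hl1 : l < 1) (hN : 1 ≤ N)
    (hlN : l ≤ (1 / 2 : ℝ) ^ N) (hlη : l ^ (1 - ε) = η / 4) (hη : 0 < η) (hη1 : η ≤ 1)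
    (hK : 2 ≤ K) {p0 : ℝ} (hp0 : 0 ≤ p0) (hp1 : p0 ≤ 1 / 8)
    (hbad : volume (Ioc 0 (2 * Real.pi) \ SS f ε N K l) ≤ ENNReal.ofReal (2 * Real.pi * p0))
    {q a α r : ℝ} (hq : 3 / 4 ≤ q) (hq1 : q < 1) (ha : 0 < a) (ha1 : a ≤ 1 / 8)
    (haK : (2 * K) ^ a ≤ 2) (haη : (2 * η) ^ a ≤ 1 / 4) (hα : 0 < α) (hβ : α / (8 * a) ≤ 1)
    (hr : η < r) {J : Finset ℂ} (hJ : J.Nonempty) (hJE : ∀ x ∈ J, x ∈ E)
    (hU : Ux q a r J E 0 ≤ (100 * K / η ^ 2) ^ (-2 : ℝ)) :
    ∫ θ in Ioc 0 (2 * Real.pi), Ux q a r J E (f (pt (1 - l) θ)) ^ α <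
      2 * Real.pi * Ux q a r J E 0 ^ α := by
  have hpi := Real.pi_pos
  have hr0 : 0 < r := hη.trans hr
  set M : ℝ := 100 * K / η ^ 2 with hM
  have hM1 : 1 ≤ M := by
    rw [hM, le_div_iff₀ (by positivity)]
    nlinarith
  have hM0 : 0 < M := by linarith
  set w : ℝ → ℂ := fun θ => f (pt (1 - l) θ) with hw
  have hwc : Continuous w := cont_w hD hl hl1
  set d : ℝ → ℝ := fun θ => infDist (w θ) E with hd
  have hdc : Continuous d := (continuous_infDist_pt E).comp hwc
  have hdη : ∀ θ, η < d θ := fun θ => hD.inE _ (mem_b hD hl hl1 θ)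
  have hd0 : ∀ θ, 0 < d θ := fun θ => hη.trans (hdη θ)
  have hwK : ∀ θ, ‖w θ‖ < K := fun θ => hD.inK _ (mem_b hD hl hl1 θ)
  have hdK : ∀ θ, d θ ≤ 2 * K := by
    intro θ
    have h1 : d θ ≤ dist (w θ) e := infDist_le_dist_of_mem he
    rw [dist_eq_norm] at h1
    have h2 := norm_sub_le (w θ) e
    have h3 := hwK θ
    linarith
  have hx1 : ∀ x ∈ J, 1 ≤ ‖x‖ := by
    intro x hx
    have h1 : infDist 0 E ≤ dist 0 x := infDist_le_dist_of_mem (hJE x hx)
    rw [hE0, dist_zero_left] at h1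
    exact h1
  have hne : ∀ x ∈ J, ∀ θ, w θ ≠ x := by
    intro x hx θ h
    have h1 : d θ ≤ dist (w θ) x := infDist_le_dist_of_mem (hJE x hx)
    rw [h, dist_self] at h1
    linarith [hd0 θ]
  have hra : 0 < r ^ a := by positivity
  -- the size of the points
  have hTU : ∀ x ∈ J, Tx q a r E x 0 ≤ Ux q a r J E 0 := fun x hx =>
    Finset.single_le_sum (f := fun x => Tx q a r E x 0)
      (fun y _ => Tx_nonneg q a hr0.le E y 0) hx
  have hpow : (r ^ a) ^ (1 / (8 * a)) = r ^ (1 / 8 : ℝ) := by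
    rw [← Real.rpow_mul hr0.le]
    congr 1
    field_simp
  have hxM : ∀ x ∈ J, M * r ≤ ‖x‖ := by
    intro x hx
    have hx0 : 0 < ‖x‖ := by linarith [hx1 x hx]
    have h1 : (r / ‖x‖) ^ (q + 1 / 8) ≤ M ^ (-(q + 1 / 8)) := by
      calc (r / ‖x‖) ^ (q + 1 / 8) = r ^ q * ‖x‖ ^ (-(q + 1 / 8)) * r ^ (1 / 8 : ℝ) := by
            rw [Real.div_rpow hr0.le hx0.le, Real.rpow_neg hx0.le, Real.rpow_add hr0]
            ring
        _ ≤ Tx q a r E x 0 := by
            unfold Tx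
            rw [zero_sub, norm_neg, hE0, Real.one_rpow]
            apply mul_le_mul_of_nonneg_left _ (by positivity)
            rw [← hpow]
            exact Real.rpow_le_rpow hra.le (by linarith) (by positivity)
        _ ≤ M ^ (-2 : ℝ) := (hTU x hx).trans hU
        _ ≤ M ^ (-(q + 1 / 8)) := Real.rpow_le_rpow_of_exponent_le hM1 (by linarith)
    rw [Real.rpow_neg hM0.le, ← Real.inv_rpow hM0.le] at h1
    have h2 := (Real.rpow_le_rpow_iff (by positivity) (by positivity)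
      (by linarith : 0 < q + 1 / 8)).1 h1
    rw [div_le_iff₀ hx0, inv_mul_eq_div, le_div_iff₀ hM0] at h2
    linarith
  set c : ℝ := 6 * (K / (M * r)) with hc
  have hc0 : 0 ≤ c := by positivity
  have hKM : K / (M * r) = η ^ 2 / (100 * r) := by
    rw [hM]
    field_simp
  have hKM2 : K / (M * r) ≤ 1 / 100 := by
    rw [hKM, div_le_div_iff₀ (by positivity) (by norm_num)]
    nlinarith
  -- the bound of one term
  have hterm : ∀ x ∈ J, ∀ θ, Tx q a r E x (w θ) ≤
      (1 + c) * ((r ^ a + d θ ^ a) / (r ^ a + 1)) ^ (1 / (8 * a)) * Tx q a r E x 0 := by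
    intro x hx θ
    have hx0 : 0 < ‖x‖ := by linarith [hx1 x hx]
    have hxK : K / ‖x‖ ≤ K / (M * r) :=
      div_le_div_of_nonneg_left (by linarith) (by positivity) (hxM x hx)
    set t : ℝ := K / (M * r) with ht
    have ht0 : 0 ≤ t := by positivity
    have h1 : ‖x‖ * (1 - t) ≤ ‖w θ - x‖ := by
      have h2 := norm_sub_norm_le x (w θ)
      rw [norm_sub_rev] at h2
      have h3 : K ≤ ‖x‖ * t := by
        rw [div_le_iff₀ hx0] at hxK
        linarith
      have h4 := hwK θ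
      linarith
    have h2 : ‖w θ - x‖ ^ (-(q + 1 / 8)) ≤ (1 + c) * ‖x‖ ^ (-(q + 1 / 8)) := by
      calc ‖w θ - x‖ ^ (-(q + 1 / 8)) ≤ (‖x‖ * (1 - t)) ^ (-(q + 1 / 8)) :=
            Real.rpow_le_rpow_of_nonpos (mul_pos hx0 (by linarith)) h1 (by linarith)
        _ = (1 - t) ^ (-(q + 1 / 8)) * ‖x‖ ^ (-(q + 1 / 8)) := by
            rw [Real.mul_rpow hx0.le (by linarith), mul_comm]
        _ ≤ (1 + c) * ‖x‖ ^ (-(q + 1 / 8)) := by
            apply mul_le_mul_of_nonneg_right _ (by positivity)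
            calc (1 - t) ^ (-(q + 1 / 8)) ≤ (1 - t) ^ (-2 : ℝ) :=
                  Real.rpow_le_rpow_of_exponent_ge (by linarith) (by linarith) (by linarith)
              _ = ((1 - t) ^ 2)⁻¹ := by
                  rw [Real.rpow_neg (by linarith)]
                  norm_cast
              _ ≤ 1 + c := by
                  rw [inv_le_iff_one_le_mul₀ (by nlinarith), hc]
                  nlinarith [mul_nonneg ht0 (sub_nonneg.2 hKM2), mul_nonneg ht0 ht0]
    unfold Tx
    rw [zero_sub, norm_neg, hE0, Real.one_rpow, Real.div_rpow (by have := hd0 θ; positivity)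
      (by positivity)]
    have h3 : 0 < (r ^ a + 1) ^ (1 / (8 * a)) := by positivity
    have h4 : 0 ≤ (r ^ a + infDist (w θ) E ^ a) ^ (1 / (8 * a)) := by
      have := infDist_nonneg (x := w θ) (s := E)
      positivity
    calc r ^ q * ‖w θ - x‖ ^ (-(q + 1 / 8)) * (r ^ a + infDist (w θ) E ^ a) ^ (1 / (8 * a))
        ≤ r ^ q * ((1 + c) * ‖x‖ ^ (-(q + 1 / 8))) *
          (r ^ a + infDist (w θ) E ^ a) ^ (1 / (8 * a)) := by
          apply mul_le_mul_of_nonneg_right _ h4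
          exact mul_le_mul_of_nonneg_left h2 (by positivity)
      _ = _ := by
          simp only [hd]
          field_simp
  set U0 : ℝ := Ux q a r J E 0 with hU0
  have hU0p : 0 < U0 := by
    obtain ⟨x, hx⟩ := hJ
    refine lt_of_lt_of_le (Tx_pos q a hr0 E (x := x) (w := 0) ?_) (hTU x hx)
    intro h
    have := hx1 x hx
    rw [← h, norm_zero] at this
    linarith
  set Y : ℝ → ℝ := fun θ => (r ^ a + d θ ^ a) / (r ^ a + 1) with hY
  have hY0 : ∀ θ, 0 ≤ Y θ := fun θ => by have := hd0 θ; positivity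
  have hsum : ∀ θ, Ux q a r J E (w θ) ≤ (1 + c) * Y θ ^ (1 / (8 * a)) * U0 := by
    intro θ
    rw [hU0]
    unfold Ux
    rw [Finset.mul_sum]
    exact Finset.sum_le_sum fun x hx => hterm x hx θ
  set β : ℝ := α / (8 * a) with hβd
  have hβ0 : 0 ≤ β := by positivity
  have hpw : ∀ θ, Ux q a r J E (w θ) ^ α ≤ ((1 + c) ^ α * U0 ^ α) * Y θ ^ β := by
    intro θ
    refine (Real.rpow_le_rpow (Ux_nonneg q a hr0.le J E _) (hsum θ) hα.le).trans (le_of_eq ?_)
    rw [Real.mul_rpow (by have := hY0 θ; positivity) hU0p.le,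
      Real.mul_rpow (by positivity) (by have := hY0 θ; positivity), ← Real.rpow_mul (hY0 θ)]
    have : 1 / (8 * a) * α = β := by rw [hβd]; ring
    rw [this]
    ring
  set m : ℝ := (r ^ a + 1 / 2) / (r ^ a + 1) with hm
  have hm0 : 0 < m := by positivity
  have hm1 : m ≤ 1 := by rw [hm, div_le_one (by positivity)]; linarith
  have hYc : Continuous Y := by
    refine (continuous_const.add ?_).div_const _
    exact hdc.rpow_const fun θ => Or.inr ha.le
  -- the mean of `d ^ a`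
  have hSm : MeasurableSet (SS f ε N K l) := meas_SS hD hl hl1 hN
  have hSsub : SS f ε N K l ⊆ Ioc 0 (2 * Real.pi) := fun θ h => h.1.1
  have hdac : Continuous fun θ => d θ ^ a := hdc.rpow_const fun θ => Or.inr ha.le
  have hda : ∫ θ in Ioc 0 (2 * Real.pi), d θ ^ a ≤ 2 * Real.pi * (1 / 2) := by
    have hint : IntegrableOn (fun θ => d θ ^ a) (Ioc 0 (2 * Real.pi)) :=
      hdac.integrableOn_Icc.mono_set Ioc_subset_Icc_self
    have h1 : ∫ θ in Ioc 0 (2 * Real.pi), d θ ^ a = (∫ θ in SS f ε N K l, d θ ^ a) +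
        ∫ θ in Ioc 0 (2 * Real.pi) \ SS f ε N K l, d θ ^ a := by
      rw [← setIntegral_union disjoint_sdiff_right (measurableSet_Ioc.diff hSm)
        (hint.mono_set hSsub) (hint.mono_set sdiff_subset), union_sdiff_cancel hSsub]
    have hv1 : volume.real (SS f ε N K l) ≤ 2 * Real.pi := by
      rw [measureReal_def]
      apply ENNReal.toReal_le_of_le_ofReal (by positivity)
      refine (measure_mono hSsub).trans ?_
      rw [Real.volume_Ioc, sub_zero]
    have hv2 : volume.real (Ioc 0 (2 * Real.pi) \ SS f ε N K l) ≤ 2 * Real.pi * p0 := by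
      rw [measureReal_def]
      exact ENNReal.toReal_le_of_le_ofReal (by positivity) hbad
    have h2 : ∫ θ in SS f ε N K l, d θ ^ a ≤ 2 * Real.pi * (1 / 4) := by
      have h3 : ∫ θ in SS f ε N K l, d θ ^ a ≤ ∫ θ in SS f ε N K l, (1 / 4 : ℝ) := by
        apply setIntegral_mono_on (hint.mono_set hSsub) _ hSm
        · intro θ hθ
          have h4 := SS_d hD hl hl1 hlN hlη hη (by linarith) hθ
          exact (Real.rpow_le_rpow (hd0 θ).le h4 ha.le).trans haη
        · exact integrableOn_const (ne_top_of_le_ne_top (by rw [Real.volume_Ioc]; exact ENNReal.ofReal_ne_top)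
            (measure_mono hSsub))
      refine h3.trans ?_
      rw [setIntegral_const, smul_eq_mul]
      exact mul_le_mul_of_nonneg_right hv1 (by norm_num)
    have h5 : ∫ θ in Ioc 0 (2 * Real.pi) \ SS f ε N K l, d θ ^ a ≤ 2 * Real.pi * (1 / 4) := by
      have h3 : ∫ θ in Ioc 0 (2 * Real.pi) \ SS f ε N K l, d θ ^ a ≤
          ∫ θ in Ioc 0 (2 * Real.pi) \ SS f ε N K l, (2 : ℝ) := by
        apply setIntegral_mono_on (hint.mono_set sdiff_subset) _ (measurableSet_Ioc.diff hSm)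
        · intro θ _
          exact (Real.rpow_le_rpow (hd0 θ).le (hdK θ) ha.le).trans haK
        · exact integrableOn_const (ne_top_of_le_ne_top (by rw [Real.volume_Ioc]; exact ENNReal.ofReal_ne_top)
            (measure_mono sdiff_subset))
      refine h3.trans ?_
      rw [setIntegral_const, smul_eq_mul]
      have h6 : 2 * Real.pi * p0 ≤ 2 * Real.pi * (1 / 8) :=
        mul_le_mul_of_nonneg_left hp1 (by positivity)
      linarith
    linarith
  have hYint : ∫ θ in Ioc 0 (2 * Real.pi), Y θ ≤ 2 * Real.pi * m := by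
    have h1 : ∫ θ in Ioc 0 (2 * Real.pi), Y θ =
        (2 * Real.pi * r ^ a + ∫ θ in Ioc 0 (2 * Real.pi), d θ ^ a) / (r ^ a + 1) := by
      simp only [hY]
      rw [integral_div, integral_add (integrable_const _)
        (hdac.integrableOn_Icc.mono_set Ioc_subset_Icc_self)]
      simp [Real.volume_real_Ioc_of_le (by positivity : (0 : ℝ) ≤ 2 * Real.pi)]
    rw [h1, hm, div_le_iff₀ (by positivity)]
    have h2 : 2 * Real.pi * ((r ^ a + 1 / 2) / (r ^ a + 1)) * (r ^ a + 1) =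
        2 * Real.pi * (r ^ a + 1 / 2) := by field_simp
    rw [h2]
    linarith
  have hYβ : ∫ θ in Ioc 0 (2 * Real.pi), Y θ ^ β ≤ 2 * Real.pi * m ^ β := by
    have h1 : ∫ θ in Ioc 0 (2 * Real.pi), Y θ ^ β ≤
        ∫ θ in Ioc 0 (2 * Real.pi), (β * (m ^ β / m) * Y θ + (1 - β) * m ^ β) := by
      apply setIntegral_mono_on
      · exact (hYc.rpow_const fun θ => Or.inr hβ0).integrableOn_Icc.mono_set Ioc_subset_Icc_self
      · exact ((continuous_const.mul hYc).add continuous_const).integrableOn_Icc.mono_set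
          Ioc_subset_Icc_self
      · exact measurableSet_Ioc
      · intro θ _
        exact tangent hβ0 hβ hm0 (hY0 θ)
    have h2 : ∫ θ in Ioc 0 (2 * Real.pi), (β * (m ^ β / m) * Y θ + (1 - β) * m ^ β) =
        β * (m ^ β / m) * (∫ θ in Ioc 0 (2 * Real.pi), Y θ) + 2 * Real.pi * ((1 - β) * m ^ β) := by
      have hi1 : Integrable (fun θ => β * (m ^ β / m) * Y θ)
          (volume.restrict (Ioc 0 (2 * Real.pi))) :=
        (continuous_const.mul hYc).integrableOn_Icc.mono_set Ioc_subset_Icc_self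
      rw [integral_add hi1 (integrable_const _), integral_const_mul]
      simp [Real.volume_real_Ioc_of_le (by positivity : (0 : ℝ) ≤ 2 * Real.pi)]
    rw [h2] at h1
    refine h1.trans ?_
    have h3 : β * (m ^ β / m) * (∫ θ in Ioc 0 (2 * Real.pi), Y θ) ≤
        β * (m ^ β / m) * (2 * Real.pi * m) :=
      mul_le_mul_of_nonneg_left hYint (by positivity)
    have h4 : β * (m ^ β / m) * (2 * Real.pi * m) = 2 * Real.pi * (β * m ^ β) := by
      field_simp
    rw [h4] at h3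
    linarith
  -- the final inequality
  have hfin : (1 + c) * m < 1 := by
    rw [hm, ← mul_div_assoc, div_lt_one (by positivity)]
    have h1 : c * (r ^ a + 1 / 2) < 1 / 2 := by
      rw [hc, hKM]
      rcases le_or_gt r 1 with h | h
      · have h2 : r ^ a ≤ 1 := Real.rpow_le_one hr0.le h ha.le
        have h3 : η ^ 2 / (100 * r) ≤ 1 / 100 := by
          rw [← hKM]; exact hKM2
        nlinarith [mul_nonneg (sub_nonneg.2 h3) (by positivity : 0 ≤ r ^ a + 1 / 2)]
      · have h2 : r ^ a ≤ r := by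
          have := Real.rpow_le_rpow_of_exponent_le h.le (by linarith : a ≤ 1)
          rwa [Real.rpow_one] at this
        have h3 : 6 * (η ^ 2 / (100 * r)) * (r ^ a + 1 / 2) ≤
            6 * (η ^ 2 / (100 * r)) * (3 / 2 * r) := by
          apply mul_le_mul_of_nonneg_left _ (by positivity)
          linarith
        have h4 : 6 * (η ^ 2 / (100 * r)) * (3 / 2 * r) = 9 / 100 * η ^ 2 := by
          field_simp
          norm_num
        nlinarith
    nlinarith
  have hmβ : m ^ β ≤ m ^ α := by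
    apply Real.rpow_le_rpow_of_exponent_ge hm0 hm1
    rw [hβd, le_div_iff₀ (by positivity)]
    nlinarith
  have hint1 : ∫ θ in Ioc 0 (2 * Real.pi), Ux q a r J E (w θ) ^ α ≤
      ∫ θ in Ioc 0 (2 * Real.pi), ((1 + c) ^ α * U0 ^ α) * Y θ ^ β := by
    apply setIntegral_mono_on
    · exact ((Ux_cont ha hr0 hwc hne).rpow_const fun θ => Or.inr hα.le).integrableOn_Icc.mono_set
        Ioc_subset_Icc_self
    · exact (continuous_const.mul (hYc.rpow_const fun θ => Or.inr hβ0)).integrableOn_Icc.mono_set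
        Ioc_subset_Icc_self
    · exact measurableSet_Ioc
    · exact fun θ _ => hpw θ
  rw [integral_const_mul] at hint1
  have h1 : ((1 + c) ^ α * U0 ^ α) * ∫ θ in Ioc 0 (2 * Real.pi), Y θ ^ β ≤
      ((1 + c) ^ α * U0 ^ α) * (2 * Real.pi * m ^ α) := by
    apply mul_le_mul_of_nonneg_left _ (by positivity)
    exact hYβ.trans (mul_le_mul_of_nonneg_left hmβ (by positivity))
  have h2 : ((1 + c) ^ α * U0 ^ α) * (2 * Real.pi * m ^ α) =
      2 * Real.pi * U0 ^ α * ((1 + c) * m) ^ α := by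
    rw [Real.mul_rpow (by positivity) hm0.le]
    ring
  have h3 : ((1 + c) * m) ^ α < 1 := Real.rpow_lt_one (by positivity) hfin hα
  have h4 : 0 < 2 * Real.pi * U0 ^ α := by positivity
  calc ∫ θ in Ioc 0 (2 * Real.pi), Ux q a r J E (w θ) ^ α
      ≤ 2 * Real.pi * U0 ^ α * ((1 + c) * m) ^ α := by rw [← h2]; exact hint1.trans h1
    _ < 2 * Real.pi * U0 ^ α * 1 := mul_lt_mul_of_pos_left h3 h4
    _ = _ := mul_one _

end Pool.Agent.Z55B
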