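import Pool.Agent.Z55B.E4

/-! # E5: the one step estimate, small regime -/

set_option autoImplicit false

namespace Pool.Agent.Z55B

open Complex Metric Set Filter Topology MeasureTheory
open Pool.Agent.W677.Mar (pt lam bloch_exp norm_pt pt_periodic continuous_pt norm_pt_sub lam_pos)
open Pool.Agent.N673.Mak (G vol_le length_le measurableSet_G cont_pt half_pow_le)

variable {E : Set ℂ} {f : ℂ → ℂ} {η K l ε : ℝ} {N : ℕ}

/-- the small regime -/
theorem small (hD : Dm E f η K) (hE0 : infDist 0 E = 1) {e : ℂ} (he : e ∈ E) (he1 : ‖e‖ = 1)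
    (hl : 0 < l) (hl1 : l < 1) (hN : 1 ≤ N) (hε : 0 < ε) (hε1 : ε ≤ 1 / 8)
    (hlN : l ≤ (1 / 2 : ℝ) ^ N) (hlη : l ^ (1 - ε) = η / 4) (hη : 0 < η) (hη1 : η ≤ 1)
    (hK : 2 ≤ K) {p0 : ℝ} (hp0 : 0 ≤ p0)
    (hbad : volume (Ioc 0 (2 * Real.pi) \ SS f ε N K l) ≤ ENNReal.ofReal (2 * Real.pi * p0))
    {q a α r : ℝ} (hq : 3 / 4 ≤ q) (hq1 : q < 1) (hqε : 1 - 4 * ε ≤ q + 1 / 8)
    (ha : 0 < a) (hα : 0 < α) (hα1 : α ≤ 1) {n : ℕ}
    (h2 : 2 ^ n * η ≤ ((1 / 2 : ℝ) ^ N) ^ (1 - ε)) (h3 : ((1 / 2 : ℝ) ^ N) ^ (1 - ε) ≤ 2 * (2 ^ n * η))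
    {ca Λ κ H : ℝ} (hca : ca = 2 ^ (1 / (8 * a)))
    (hΛ : Λ = n * (800 * Real.pi * η ^ (1 - 4 * ε - (q + 1 / 8))) +
      2 * Real.pi * (2 * 2 ^ N) ^ (2 : ℝ))
    (hκ : κ = ca * (2 * η) ^ (1 / 8 : ℝ) * (8 * Real.pi + (2 * K) ^ 2 * Λ))
    (hH : H = ca * (2 * K) ^ 2 / η)
    (hfin : κ ^ α + p0 * H ^ α < 1)
    (hr0 : 0 < r) (hr : r ≤ η) {J : Finset ℂ} (hJ : J.Nonempty) (hJE : ∀ x ∈ J, x ∈ E) :
    ∫ θ in Ioc 0 (2 * Real.pi), Ux q a r J E (f (pt (1 - l) θ)) ^ α <
      2 * Real.pi * Ux q a r J E 0 ^ α := by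
  have hpi := Real.pi_pos
  set w : ℝ → ℂ := fun θ => f (pt (1 - l) θ) with hw
  have hwc : Continuous w := cont_w hD hl hl1
  set d : ℝ → ℝ := fun θ => infDist (w θ) E with hd
  have hdη : ∀ θ, η < d θ := fun θ => hD.inE _ (mem_b hD hl hl1 θ)
  have hd0 : ∀ θ, 0 < d θ := fun θ => hη.trans (hdη θ)
  have hwK : ∀ θ, ‖w θ‖ < K := fun θ => hD.inK _ (mem_b hD hl hl1 θ)
  have hdK : ∀ θ, d θ ≤ 2 * K := by
    intro θ
    have h1 : d θ ≤ dist (w θ) e := infDist_le_dist_of_mem he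
    rw [dist_eq_norm] at h1
    have h2 := norm_sub_le (w θ) e
    have h3 := hwK θ
    linarith
  have hx1 : ∀ x ∈ J, 1 ≤ ‖x‖ := by
    intro x hx
    have h1 : infDist 0 E ≤ dist 0 x := infDist_le_dist_of_mem (hJE x hx)
    rw [hE0, dist_zero_left] at h1
    exact h1
  have hdx : ∀ x ∈ J, ∀ θ, d θ ≤ ‖w θ - x‖ := by
    intro x hx θ
    have h1 : d θ ≤ dist (w θ) x := infDist_le_dist_of_mem (hJE x hx)
    rwa [dist_eq_norm] at h1
  have hne : ∀ x ∈ J, ∀ θ, w θ ≠ x := by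
    intro x hx θ h
    have h1 := hdx x hx θ
    rw [h, sub_self, norm_zero] at h1
    linarith [hd0 θ]
  have hra : 0 < r ^ a := by positivity
  have hca0 : 1 ≤ ca := by
    rw [hca]
    exact Real.one_le_rpow (by norm_num) (by positivity)
  have hca00 : 0 < ca := by linarith
  have hΛ0 : 0 ≤ Λ := by rw [hΛ]; positivity
  have hκ0 : 0 < κ := by rw [hκ]; positivity
  have hH0 : 0 < H := by rw [hH]; positivity
  -- the factor with the distance
  have hdf : ∀ θ, (r ^ a + d θ ^ a) ^ (1 / (8 * a)) ≤ ca * d θ ^ (1 / 8 : ℝ) := by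
    intro θ
    have h1 : r ^ a ≤ d θ ^ a := Real.rpow_le_rpow hr0.le (hr.trans (hdη θ).le) ha.le
    calc (r ^ a + d θ ^ a) ^ (1 / (8 * a)) ≤ (2 * d θ ^ a) ^ (1 / (8 * a)) := by
          apply Real.rpow_le_rpow _ (by linarith) (by positivity)
          have := hd0 θ
          positivity
      _ = ca * d θ ^ (1 / 8 : ℝ) := by
          rw [Real.mul_rpow (by norm_num) (by have := hd0 θ; positivity), hca,
            ← Real.rpow_mul (hd0 θ).le]
          congr 2
          field_simp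
  -- lower bound at the centre
  have hT0 : ∀ x : ℂ, r ^ q * ‖x‖ ^ (-(q + 1 / 8)) ≤ Tx q a r E x 0 := by
    intro x
    unfold Tx
    rw [zero_sub, norm_neg, hE0, Real.one_rpow]
    have h1 : (1 : ℝ) ≤ (r ^ a + 1) ^ (1 / (8 * a)) :=
      Real.one_le_rpow (by linarith) (by positivity)
    calc r ^ q * ‖x‖ ^ (-(q + 1 / 8)) = r ^ q * ‖x‖ ^ (-(q + 1 / 8)) * 1 := (mul_one _).symm
      _ ≤ _ := mul_le_mul_of_nonneg_left h1 (by positivity)
  have hT0near : ∀ x ∈ J, ‖x‖ ≤ 2 * K → r ^ q ≤ (2 * K) ^ 2 * Tx q a r E x 0 := by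
    intro x hx hxK
    have hx0 : 0 < ‖x‖ := by linarith [hx1 x hx]
    have h1 : ((2 * K) ^ 2)⁻¹ ≤ ‖x‖ ^ (-(q + 1 / 8)) := by
      calc ((2 * K) ^ 2)⁻¹ = (2 * K) ^ (-2 : ℝ) := by
            rw [Real.rpow_neg (by linarith)]
            norm_cast
        _ ≤ (2 * K) ^ (-(q + 1 / 8)) :=
            Real.rpow_le_rpow_of_exponent_le (by linarith) (by linarith)
        _ ≤ ‖x‖ ^ (-(q + 1 / 8)) := Real.rpow_le_rpow_of_nonpos hx0 hxK (by linarith)
    have h2 := hT0 x
    have h3 : r ^ q * ((2 * K) ^ 2)⁻¹ ≤ Tx q a r E x 0 :=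
      (mul_le_mul_of_nonneg_left h1 (by positivity)).trans h2
    rw [← div_eq_mul_inv, div_le_iff₀ (by positivity)] at h3
    linarith
  -- far points
  have hfar : ∀ x ∈ J, 2 * K < ‖x‖ → ∀ θ,
      Tx q a r E x (w θ) ≤ 4 * ca * d θ ^ (1 / 8 : ℝ) * Tx q a r E x 0 := by
    intro x hx hxK θ
    have hx0 : 0 < ‖x‖ := by linarith
    have h1 : ‖x‖ / 2 ≤ ‖w θ - x‖ := by
      have h2 := norm_sub_norm_le x (w θ)
      rw [norm_sub_rev] at h2
      have h4 := hwK θ
      linarith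
    have h2 : ‖w θ - x‖ ^ (-(q + 1 / 8)) ≤ 4 * ‖x‖ ^ (-(q + 1 / 8)) := by
      calc ‖w θ - x‖ ^ (-(q + 1 / 8)) ≤ (‖x‖ / 2) ^ (-(q + 1 / 8)) :=
            Real.rpow_le_rpow_of_nonpos (by positivity) h1 (by linarith)
        _ = 2 ^ (q + 1 / 8) * ‖x‖ ^ (-(q + 1 / 8)) := by
            rw [Real.div_rpow hx0.le (by norm_num), Real.rpow_neg (by norm_num : (0 : ℝ) ≤ 2),
              div_inv_eq_mul, mul_comm]
        _ ≤ 4 * ‖x‖ ^ (-(q + 1 / 8)) := by
            apply mul_le_mul_of_nonneg_right _ (by positivity)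
            have := Real.rpow_le_rpow_of_exponent_le (x := 2) (by norm_num) (y := q + 1 / 8)
              (z := 2) (by linarith)
            norm_num at this ⊢
            linarith
    have h5 := hd0 θ
    unfold Tx at *
    calc r ^ q * ‖w θ - x‖ ^ (-(q + 1 / 8)) * (r ^ a + infDist (w θ) E ^ a) ^ (1 / (8 * a))
        ≤ r ^ q * (4 * ‖x‖ ^ (-(q + 1 / 8))) * (ca * d θ ^ (1 / 8 : ℝ)) := by
          apply mul_le_mul _ (hdf θ) (by have := hd0 θ; positivity) (by positivity)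
          exact mul_le_mul_of_nonneg_left h2 (by positivity)
      _ = 4 * ca * d θ ^ (1 / 8 : ℝ) * (r ^ q * ‖x‖ ^ (-(q + 1 / 8))) := by ring
      _ ≤ _ := mul_le_mul_of_nonneg_left (hT0 x) (by positivity)
  -- the crude bound
  have hcrude : ∀ x ∈ J, ∀ θ, Tx q a r E x (w θ) ≤ H * Tx q a r E x 0 := by
    intro x hx θ
    have hx0 : 0 < ‖x‖ := by linarith [hx1 x hx]
    have hd00 := hd0 θ
    rcases le_or_gt ‖x‖ (2 * K) with h | h
    · have h1 : Tx q a r E x (w θ) ≤ ca * η⁻¹ * r ^ q := by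
        unfold Tx
        have h4 : ‖w θ - x‖ ^ (-(q + 1 / 8)) ≤ d θ ^ (-(q + 1 / 8)) :=
          Real.rpow_le_rpow_of_nonpos (hd0 θ) (hdx x hx θ) (by linarith)
        calc r ^ q * ‖w θ - x‖ ^ (-(q + 1 / 8)) * (r ^ a + infDist (w θ) E ^ a) ^ (1 / (8 * a))
            ≤ r ^ q * d θ ^ (-(q + 1 / 8)) * (ca * d θ ^ (1 / 8 : ℝ)) := by
              apply mul_le_mul _ (hdf θ) (by have := hd0 θ; positivity) (by positivity)
              exact mul_le_mul_of_nonneg_left h4 (by positivity)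
          _ = ca * (d θ ^ (-(q + 1 / 8)) * d θ ^ (1 / 8 : ℝ)) * r ^ q := by ring
          _ ≤ ca * η⁻¹ * r ^ q := by
              apply mul_le_mul_of_nonneg_right _ (by positivity)
              apply mul_le_mul_of_nonneg_left _ hca00.le
              rw [← Real.rpow_add (hd0 θ)]
              calc d θ ^ (-(q + 1 / 8) + 1 / 8) ≤ η ^ (-(q + 1 / 8) + 1 / 8) :=
                    Real.rpow_le_rpow_of_nonpos hη (hdη θ).le (by linarith)
                _ ≤ η ^ (-1 : ℝ) :=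
                    Real.rpow_le_rpow_of_exponent_ge hη hη1 (by linarith)
                _ = η⁻¹ := Real.rpow_neg_one η
      calc Tx q a r E x (w θ) ≤ ca * η⁻¹ * r ^ q := h1
        _ ≤ ca * η⁻¹ * ((2 * K) ^ 2 * Tx q a r E x 0) :=
            mul_le_mul_of_nonneg_left (hT0near x hx h) (by positivity)
        _ = H * Tx q a r E x 0 := by rw [hH]; ring
    · refine (hfar x hx h θ).trans ?_
      apply mul_le_mul_of_nonneg_right _ (Tx_nonneg q a hr0.le E x 0)
      have h4 : d θ ^ (1 / 8 : ℝ) ≤ 2 * K := by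
        calc d θ ^ (1 / 8 : ℝ) ≤ (2 * K) ^ (1 / 8 : ℝ) :=
              Real.rpow_le_rpow (hd0 θ).le (hdK θ) (by norm_num)
          _ ≤ (2 * K) ^ (1 : ℝ) :=
              Real.rpow_le_rpow_of_exponent_le (by linarith) (by norm_num)
          _ = 2 * K := Real.rpow_one _
      rw [hH, le_div_iff₀ hη]
      have h5 : 4 * ca * d θ ^ (1 / 8 : ℝ) * η ≤ 4 * ca * (2 * K) * 1 := by
        apply mul_le_mul _ hη1 hη.le (by positivity)
        exact mul_le_mul_of_nonneg_left h4 (by positivity)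
      nlinarith [mul_nonneg hca00.le (by linarith : 0 ≤ K - 2), mul_nonneg (mul_nonneg hca00.le
        (by linarith : 0 ≤ K)) (by linarith : 0 ≤ K - 2)]
  set U0 : ℝ := Ux q a r J E 0 with hU0
  have hU0p : 0 < U0 := by
    obtain ⟨x, hx⟩ := hJ
    have hTU : Tx q a r E x 0 ≤ Ux q a r J E 0 :=
      Finset.single_le_sum (f := fun x => Tx q a r E x 0)
        (fun y _ => Tx_nonneg q a hr0.le E y 0) hx
    refine lt_of_lt_of_le (Tx_pos q a hr0 E (x := x) (w := 0) ?_) hTU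
    intro h
    have := hx1 x hx
    rw [← h, norm_zero] at this
    linarith
  have hUc : Continuous fun θ => Ux q a r J E (w θ) := Ux_cont ha hr0 hwc hne
  have hUH : ∀ θ, Ux q a r J E (w θ) ≤ H * U0 := by
    intro θ
    rw [hU0]
    unfold Ux
    rw [Finset.mul_sum]
    exact Finset.sum_le_sum fun x hx => hcrude x hx θ
  -- the good angles
  set S : Set ℝ := SS f ε N K l with hS
  have hSm : MeasurableSet S := meas_SS hD hl hl1 hN
  have hSsub : S ⊆ Ioc 0 (2 * Real.pi) := fun θ h => h.1.1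
  have hfinI : volume (Ioc 0 (2 * Real.pi)) ≠ ⊤ := by
    rw [Real.volume_Ioc]; exact ENNReal.ofReal_ne_top
  have hSfin : volume S ≠ ⊤ := ne_top_of_le_ne_top hfinI (measure_mono hSsub)
  have hv1 : volume.real S ≤ 2 * Real.pi := by
    rw [measureReal_def]
    apply ENNReal.toReal_le_of_le_ofReal (by positivity)
    refine (measure_mono hSsub).trans ?_
    rw [Real.volume_Ioc, sub_zero]
  have hv2 : volume.real (Ioc 0 (2 * Real.pi) \ S) ≤ 2 * Real.pi * p0 := by
    rw [measureReal_def]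
    exact ENNReal.toReal_le_of_le_ofReal (by positivity) hbad
  have hkappa : ∀ x ∈ J, ∫ θ in S, Tx q a r E x (w θ) ≤ κ * Tx q a r E x 0 := by
    intro x hx
    have hTc : Continuous fun θ => Tx q a r E x (w θ) := Tx_cont ha hr0 hwc (hne x hx)
    have hTi : IntegrableOn (fun θ => Tx q a r E x (w θ)) S :=
      hTc.integrableOn_Icc.mono_set (hSsub.trans Ioc_subset_Icc_self)
    have hTn := Tx_nonneg q a hr0.le E x 0
    have hdS : ∀ θ ∈ S, d θ ^ (1 / 8 : ℝ) ≤ (2 * η) ^ (1 / 8 : ℝ) := by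
      intro θ hθ
      have h4 := SS_d hD hl hl1 hlN hlη hη (by linarith) hθ
      exact Real.rpow_le_rpow (hd0 θ).le h4 (by norm_num)
    have hη8 : 0 < (2 * η) ^ (1 / 8 : ℝ) := by positivity
    rcases le_or_gt ‖x‖ (2 * K) with h | h
    · have hker := kernel_int hD.diff hD.inj hN hε hε1 hl hl1 x (η := η) (p := q + 1 / 8)
        (by rw [hlη]; linarith) hqε (by linarith) h2 h3
        (fun θ => lt_of_lt_of_le (hdη θ) (hdx x hx θ)) hSm (fun θ hθ => hθ.1)
      rw [← hΛ] at hker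
      have hkc : Continuous fun θ => ‖w θ - x‖ ^ (-(q + 1 / 8)) :=
        (hwc.sub continuous_const).norm.rpow_const fun θ =>
          Or.inl (norm_pos_iff.2 (sub_ne_zero.2 (hne x hx θ))).ne'
      have h5 : ∫ θ in S, Tx q a r E x (w θ) ≤
          ∫ θ in S, (ca * (2 * η) ^ (1 / 8 : ℝ) * r ^ q) * ‖w θ - x‖ ^ (-(q + 1 / 8)) := by
        apply setIntegral_mono_on hTi _ hSm
        · intro θ hθ
          unfold Tx
          have h6 := hdS θ hθ
          have h7 : 0 < ‖w θ - x‖ := norm_pos_iff.2 (sub_ne_zero.2 (hne x hx θ))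
          calc r ^ q * ‖w θ - x‖ ^ (-(q + 1 / 8)) * (r ^ a + infDist (w θ) E ^ a) ^ (1 / (8 * a))
              ≤ r ^ q * ‖w θ - x‖ ^ (-(q + 1 / 8)) * (ca * (2 * η) ^ (1 / 8 : ℝ)) := by
                apply mul_le_mul_of_nonneg_left _ (by positivity)
                exact (hdf θ).trans (mul_le_mul_of_nonneg_left h6 hca00.le)
            _ = _ := by ring
        · exact (continuous_const.mul hkc).integrableOn_Icc.mono_set
            (hSsub.trans Ioc_subset_Icc_self)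
      rw [integral_const_mul] at h5
      refine h5.trans ?_
      calc ca * (2 * η) ^ (1 / 8 : ℝ) * r ^ q * ∫ θ in S, ‖w θ - x‖ ^ (-(q + 1 / 8))
          ≤ ca * (2 * η) ^ (1 / 8 : ℝ) * r ^ q * Λ :=
            mul_le_mul_of_nonneg_left hker (by positivity)
        _ ≤ ca * (2 * η) ^ (1 / 8 : ℝ) * ((2 * K) ^ 2 * Tx q a r E x 0) * Λ := by
            apply mul_le_mul_of_nonneg_right _ hΛ0
            exact mul_le_mul_of_nonneg_left (hT0near x hx h) (by positivity)
        _ = ca * (2 * η) ^ (1 / 8 : ℝ) * ((2 * K) ^ 2 * Λ) * Tx q a r E x 0 := by ring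
        _ ≤ κ * Tx q a r E x 0 := by
            apply mul_le_mul_of_nonneg_right _ hTn
            rw [hκ]
            apply mul_le_mul_of_nonneg_left _ (by positivity)
            linarith
    · have h5 : ∫ θ in S, Tx q a r E x (w θ) ≤
          ∫ θ in S, (4 * ca * (2 * η) ^ (1 / 8 : ℝ) * Tx q a r E x 0) := by
        apply setIntegral_mono_on hTi (integrableOn_const hSfin) hSm
        intro θ hθ
        refine (hfar x hx h θ).trans ?_
        apply mul_le_mul_of_nonneg_right _ hTn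
        exact mul_le_mul_of_nonneg_left (hdS θ hθ) (by positivity)
      rw [setIntegral_const, smul_eq_mul] at h5
      refine h5.trans ?_
      calc volume.real S * (4 * ca * (2 * η) ^ (1 / 8 : ℝ) * Tx q a r E x 0)
          ≤ 2 * Real.pi * (4 * ca * (2 * η) ^ (1 / 8 : ℝ) * Tx q a r E x 0) :=
            mul_le_mul_of_nonneg_right hv1 (by positivity)
        _ = ca * (2 * η) ^ (1 / 8 : ℝ) * (8 * Real.pi) * Tx q a r E x 0 := by ring
        _ ≤ κ * Tx q a r E x 0 := by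
            apply mul_le_mul_of_nonneg_right _ hTn
            rw [hκ]
            apply mul_le_mul_of_nonneg_left _ (by positivity)
            have : 0 ≤ (2 * K) ^ 2 * Λ := by positivity
            linarith
  have hUS : ∫ θ in S, Ux q a r J E (w θ) ≤ κ * U0 := by
    rw [hU0]
    unfold Ux
    rw [integral_finsetSum _ fun x hx => ?_, Finset.mul_sum]
    · exact Finset.sum_le_sum hkappa
    · exact (Tx_cont ha hr0 hwc (hne x hx)).integrableOn_Icc.mono_set
        (hSsub.trans Ioc_subset_Icc_self)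
  -- the power
  have hUαc : Continuous fun θ => Ux q a r J E (w θ) ^ α :=
    hUc.rpow_const fun θ => Or.inr hα.le
  have hint : IntegrableOn (fun θ => Ux q a r J E (w θ) ^ α) (Ioc 0 (2 * Real.pi)) :=
    hUαc.integrableOn_Icc.mono_set Ioc_subset_Icc_self
  have h1 : ∫ θ in Ioc 0 (2 * Real.pi), Ux q a r J E (w θ) ^ α =
      (∫ θ in S, Ux q a r J E (w θ) ^ α) +
      ∫ θ in Ioc 0 (2 * Real.pi) \ S, Ux q a r J E (w θ) ^ α := by
    rw [← setIntegral_union disjoint_sdiff_right (measurableSet_Ioc.diff hSm)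
      (hint.mono_set hSsub) (hint.mono_set sdiff_subset), union_sdiff_cancel hSsub]
  have hs0 : 0 < κ * U0 := by positivity
  have h4 : ∫ θ in S, Ux q a r J E (w θ) ^ α ≤ 2 * Real.pi * (κ * U0) ^ α := by
    have hi1 : Integrable (fun θ => α * ((κ * U0) ^ α / (κ * U0)) * Ux q a r J E (w θ))
        (volume.restrict S) :=
      (continuous_const.mul hUc).integrableOn_Icc.mono_set (hSsub.trans Ioc_subset_Icc_self)
    have h5 : ∫ θ in S, Ux q a r J E (w θ) ^ α ≤ ∫ θ in S,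
        (α * ((κ * U0) ^ α / (κ * U0)) * Ux q a r J E (w θ) + (1 - α) * (κ * U0) ^ α) := by
      apply setIntegral_mono_on (hint.mono_set hSsub) _ hSm
      · intro θ _
        exact tangent hα.le hα1 hs0 (Ux_nonneg q a hr0.le J E _)
      · exact hi1.add (integrableOn_const hSfin)
    rw [integral_add hi1 (integrableOn_const hSfin), integral_const_mul, setIntegral_const,
      smul_eq_mul] at h5
    have h6 : α * ((κ * U0) ^ α / (κ * U0)) * ∫ θ in S, Ux q a r J E (w θ) ≤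
        α * ((κ * U0) ^ α / (κ * U0)) * (κ * U0) :=
      mul_le_mul_of_nonneg_left hUS (by positivity)
    have h7 : α * ((κ * U0) ^ α / (κ * U0)) * (κ * U0) = α * (κ * U0) ^ α := by
      field_simp
    rw [h7] at h6
    have h8 : volume.real S * ((1 - α) * (κ * U0) ^ α) ≤
        2 * Real.pi * ((1 - α) * (κ * U0) ^ α) := by
      apply mul_le_mul_of_nonneg_right hv1
      have : 0 ≤ 1 - α := by linarith
      positivity
    have h9 : α * (κ * U0) ^ α ≤ 2 * Real.pi * (α * (κ * U0) ^ α) := by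
      have : 0 ≤ α * (κ * U0) ^ α := by positivity
      nlinarith [Real.pi_gt_three]
    linarith
  have h5 : ∫ θ in Ioc 0 (2 * Real.pi) \ S, Ux q a r J E (w θ) ^ α ≤
      2 * Real.pi * p0 * (H * U0) ^ α := by
    have h6 : ∫ θ in Ioc 0 (2 * Real.pi) \ S, Ux q a r J E (w θ) ^ α ≤
        ∫ θ in Ioc 0 (2 * Real.pi) \ S, (H * U0) ^ α := by
      apply setIntegral_mono_on (hint.mono_set sdiff_subset) _ (measurableSet_Ioc.diff hSm)
      · intro θ _
        exact Real.rpow_le_rpow (Ux_nonneg q a hr0.le J E _) (hUH θ) hα.le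
      · exact integrableOn_const (ne_top_of_le_ne_top hfinI (measure_mono sdiff_subset))
    rw [setIntegral_const, smul_eq_mul] at h6
    exact h6.trans (mul_le_mul_of_nonneg_right hv2 (by positivity))
  rw [h1]
  have h6 : 2 * Real.pi * (κ * U0) ^ α + 2 * Real.pi * p0 * (H * U0) ^ α =
      2 * Real.pi * U0 ^ α * (κ ^ α + p0 * H ^ α) := by
    rw [Real.mul_rpow hκ0.le hU0p.le, Real.mul_rpow hH0.le hU0p.le]
    ring
  have h7 : 0 < 2 * Real.pi * U0 ^ α := by positivity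
  calc (∫ θ in S, Ux q a r J E (w θ) ^ α) +
      ∫ θ in Ioc 0 (2 * Real.pi) \ S, Ux q a r J E (w θ) ^ α
      ≤ 2 * Real.pi * U0 ^ α * (κ ^ α + p0 * H ^ α) := by rw [← h6]; exact add_le_add h4 h5
    _ < 2 * Real.pi * U0 ^ α * 1 := mul_lt_mul_of_pos_left hfin h7
    _ = _ := mul_one _

end Pool.Agent.Z55B
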