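import Pool.Agent.Z55B.E5

/-! # E6: choice of the parameters, normalised form of the one step estimate -/

set_option autoImplicit false

namespace Pool.Agent.Z55B

open Complex Metric Set Filter Topology MeasureTheory
open Pool.Agent.W677.Mar (pt lam bloch_exp norm_pt pt_periodic continuous_pt norm_pt_sub lam_pos)
open Pool.Agent.N673.Mak (G vol_le length_le measurableSet_G cont_pt half_pow_le)

/-- choice of `η` -/
theorem choose_eta {ε a A K ca : ℝ} (hε : 0 < ε) (hε1 : ε ≤ 1 / 32) (ha : 0 < a)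
    (hA : A = 2 / ε) (hK : 2 ≤ K) (hca : 1 ≤ ca) (N : ℕ) :
    ∃ η : ℝ, 0 < η ∧ η ≤ 1 / 2 ∧ (2 * η) ^ a ≤ 1 / 4 ∧ η ≤ (1 / 2 : ℝ) ^ N ∧
      η ≤ ((1 / 2 : ℝ) ^ N) ^ (1 - ε) ∧
      ca * (2 * η) ^ (1 / 8 : ℝ) * (8 * Real.pi + (2 * K) ^ 2 *
        ((2 * -Real.log η) * (800 * Real.pi * η ^ (4 * ε - 1 / 8)) +
          2 * Real.pi * (2 * 2 ^ N) ^ (2 : ℝ))) ≤ η ^ ε ∧
      0 < A / -Real.log η ∧ A / -Real.log η ≤ 1 ∧ A / -Real.log η / (8 * a) ≤ 1 ∧
      (ca * (2 * K) ^ 2) ^ (A / -Real.log η) ≤ 2 := by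
  have hpi := Real.pi_pos
  have hA0 : 0 < A := by rw [hA]; positivity
  have hlog : Tendsto (fun η : ℝ => -Real.log η) (𝓝[>] 0) atTop :=
    tendsto_neg_atBot_atTop.comp Real.tendsto_log_nhdsGT_zero
  have hα : Tendsto (fun η : ℝ => A / -Real.log η) (𝓝[>] 0) (𝓝 0) :=
    tendsto_const_nhds.div_atTop hlog
  have hrp : ∀ s : ℝ, 0 < s → Tendsto (fun η : ℝ => η ^ s) (𝓝[>] 0) (𝓝 0) := by
    intro s hs
    have h1 : Tendsto (fun η : ℝ => η ^ s) (𝓝 0) (𝓝 (0 ^ s)) :=
      (Real.continuousAt_rpow_const 0 s (Or.inr hs.le)).tendsto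
    rw [Real.zero_rpow hs.ne'] at h1
    exact h1.mono_left nhdsWithin_le_nhds
  have e0 : ∀ᶠ η : ℝ in 𝓝[>] 0, 0 < η := self_mem_nhdsWithin
  have hid : Tendsto (fun η : ℝ => η) (𝓝[>] 0) (𝓝 0) := nhdsWithin_le_nhds
  have e1 : ∀ᶠ η : ℝ in 𝓝[>] 0, η < 1 / 2 := hid.eventually (gt_mem_nhds (by norm_num))
  have e2 : ∀ᶠ η : ℝ in 𝓝[>] 0, (2 * η) ^ a < 1 / 4 := by
    have h1 : Tendsto (fun η : ℝ => (2 : ℝ) ^ a * η ^ a) (𝓝[>] 0) (𝓝 0) := by
      have := (hrp a ha).const_mul ((2 : ℝ) ^ a)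
      simpa using this
    filter_upwards [h1.eventually (gt_mem_nhds (show (0 : ℝ) < 1 / 4 by norm_num)), e0] with η h h0
    rwa [Real.mul_rpow (by norm_num) h0.le]
  have e3 : ∀ᶠ η : ℝ in 𝓝[>] 0, η < (1 / 2 : ℝ) ^ N := hid.eventually (gt_mem_nhds (by positivity))
  have e4 : ∀ᶠ η : ℝ in 𝓝[>] 0, η < ((1 / 2 : ℝ) ^ N) ^ (1 - ε) :=
    hid.eventually (gt_mem_nhds (by positivity))
  set CN : ℝ := 2 * Real.pi * (2 * 2 ^ N) ^ (2 : ℝ) with hCN
  have hCN0 : 0 < CN := by positivity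
  set C1 : ℝ := ca * 2 * (8 * Real.pi + (2 * K) ^ 2 * CN) with hC1
  set C2 : ℝ := ca * 2 * ((2 * K) ^ 2 * (2 * (800 * Real.pi))) with hC2
  have e5 : ∀ᶠ η : ℝ in 𝓝[>] 0, C1 * η ^ (1 / 8 - ε) + C2 * (-(Real.log η * η ^ (3 * ε))) < 1 := by
    have h1 : Tendsto (fun η : ℝ => C1 * η ^ (1 / 8 - ε) + C2 * (-(Real.log η * η ^ (3 * ε))))
        (𝓝[>] 0) (𝓝 (C1 * 0 + C2 * (-0))) :=
      ((hrp (1 / 8 - ε) (by linarith)).const_mul C1).add
        ((tendsto_log_mul_rpow_nhdsGT_zero (by positivity : 0 < 3 * ε)).neg.const_mul C2)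
    rw [neg_zero, mul_zero, mul_zero, add_zero] at h1
    exact h1.eventually (gt_mem_nhds one_pos)
  have e6 : ∀ᶠ η : ℝ in 𝓝[>] 0, A / -Real.log η < min 1 (8 * a) :=
    hα.eventually (gt_mem_nhds (by positivity))
  have e7 : ∀ᶠ η : ℝ in 𝓝[>] 0, (ca * (2 * K) ^ 2) ^ (A / -Real.log η) < 2 := by
    have h1 : Tendsto (fun η : ℝ => (ca * (2 * K) ^ 2) ^ (A / -Real.log η)) (𝓝[>] 0)
        (𝓝 ((ca * (2 * K) ^ 2) ^ (0 : ℝ))) :=
      tendsto_const_nhds.rpow hα (Or.inl (by positivity))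
    rw [Real.rpow_zero] at h1
    exact h1.eventually (gt_mem_nhds (by norm_num))
  obtain ⟨η, h0, h1, h2, h3, h4, h5, h6, h7⟩ :=
    (e0.and (e1.and (e2.and (e3.and (e4.and (e5.and (e6.and e7))))))).exists
  have hlogη : 0 < -Real.log η := by
    have := Real.log_neg h0 (by linarith)
    linarith
  refine ⟨η, h0, h1.le, h2.le, h3.le, h4.le, ?_, div_pos hA0 hlogη, (h6.trans_le (min_le_left _ _)).le,
    ?_, h7.le⟩
  · have h8 : (2 * η) ^ (1 / 8 : ℝ) ≤ 2 * η ^ (1 / 8 : ℝ) := by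
      rw [Real.mul_rpow (by norm_num) h0.le]
      apply mul_le_mul_of_nonneg_right _ (by positivity)
      have := Real.rpow_le_rpow_of_exponent_le (x := 2) (by norm_num) (y := 1 / 8) (z := 1)
        (by norm_num)
      rwa [Real.rpow_one] at this
    have hX : 0 ≤ 8 * Real.pi + (2 * K) ^ 2 *
        ((2 * -Real.log η) * (800 * Real.pi * η ^ (4 * ε - 1 / 8)) + CN) := by positivity
    calc ca * (2 * η) ^ (1 / 8 : ℝ) * (8 * Real.pi + (2 * K) ^ 2 *
        ((2 * -Real.log η) * (800 * Real.pi * η ^ (4 * ε - 1 / 8)) + CN))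
        ≤ ca * (2 * η ^ (1 / 8 : ℝ)) * (8 * Real.pi + (2 * K) ^ 2 *
        ((2 * -Real.log η) * (800 * Real.pi * η ^ (4 * ε - 1 / 8)) + CN)) := by
          apply mul_le_mul_of_nonneg_right _ hX
          exact mul_le_mul_of_nonneg_left h8 (by linarith)
      _ = (C1 * η ^ (1 / 8 - ε) + C2 * (-(Real.log η * η ^ (3 * ε)))) * η ^ ε := by
          have e1 : η ^ (1 / 8 : ℝ) = η ^ (1 / 8 - ε) * η ^ ε := by
            rw [← Real.rpow_add h0]; congr 1; ring
          have e2 : η ^ (1 / 8 : ℝ) * η ^ (4 * ε - 1 / 8) = η ^ (3 * ε) * η ^ ε := by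
            rw [← Real.rpow_add h0, ← Real.rpow_add h0]; congr 1; ring
          calc ca * (2 * η ^ (1 / 8 : ℝ)) * (8 * Real.pi + (2 * K) ^ 2 *
              ((2 * -Real.log η) * (800 * Real.pi * η ^ (4 * ε - 1 / 8)) + CN))
              = C1 * η ^ (1 / 8 : ℝ) + C2 * (-Real.log η *
                (η ^ (1 / 8 : ℝ) * η ^ (4 * ε - 1 / 8))) := by rw [hC1, hC2]; ring
            _ = _ := by rw [e2]; rw [e1]; ring
      _ ≤ 1 * η ^ ε := mul_le_mul_of_nonneg_right h5.le (by positivity)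
      _ = η ^ ε := one_mul _
  · rw [div_le_one (by positivity)]
    exact (h6.trans_le (min_le_right _ _)).le

/-- the one step estimate, normalised -/
theorem one_norm {q : ℝ} (hq : 3 / 4 ≤ q) (hq1 : q < 1) : ∃ η K l a α u0 : ℝ,
    0 < η ∧ η ≤ 1 / 2 ∧ 2 ≤ K ∧ 0 < l ∧ l < 1 ∧ 0 < a ∧ 0 < α ∧ α ≤ 1 ∧ 0 < u0 ∧
    ∀ (E : Set ℂ) (f : ℂ → ℂ) (e : ℂ), infDist 0 E = 1 → e ∈ E → ‖e‖ = 1 → Dm E f η K →
      ∀ (J : Finset ℂ) (r : ℝ), 0 < r → J.Nonempty → (∀ x ∈ J, x ∈ E) → Ux q a r J E 0 ≤ u0 →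
      ∫ θ in Ioc 0 (2 * Real.pi), Ux q a r J E (f (pt (1 - l) θ)) ^ α <
        2 * Real.pi * Ux q a r J E 0 ^ α := by
  have hpi := Real.pi_pos
  set ε : ℝ := (1 - q) / 8 with hε
  have hε0 : 0 < ε := by rw [hε]; linarith
  have hε1 : ε ≤ 1 / 32 := by rw [hε]; linarith
  set A : ℝ := 2 / ε with hA
  set p0 : ℝ := Real.exp (-A) / 8 with hp0
  have hp00 : 0 < p0 := by positivity
  have hA0 : 0 < A := by positivity
  have hp08 : p0 ≤ 1 / 8 := by
    rw [hp0]
    have : Real.exp (-A) ≤ 1 := Real.exp_le_one_iff.2 (by linarith)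
    linarith
  obtain ⟨N, hN, hNv⟩ := vol_compl_G hε0 (p0 := Real.pi * p0) (by positivity)
  obtain ⟨K1, hK1, hKv⟩ := vol_large (p0 := Real.pi * p0) (by positivity)
  set K : ℝ := 2 * K1 with hK
  have hK2 : 2 ≤ K := by rw [hK]; linarith
  set a : ℝ := min (1 / 8) (Real.log 2 / Real.log (2 * K)) with ha
  have hl2 : 0 < Real.log 2 := Real.log_pos one_lt_two
  have hlK : 0 < Real.log (2 * K) := Real.log_pos (by linarith)
  have ha0 : 0 < a := by positivity
  have ha1 : a ≤ 1 / 8 := min_le_left _ _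
  have haK : (2 * K) ^ a ≤ 2 := by
    rw [Real.rpow_def_of_pos (by linarith)]
    have h1 : Real.log (2 * K) * a ≤ Real.log 2 := by
      have := min_le_right (1 / 8) (Real.log 2 / Real.log (2 * K))
      rw [← ha, le_div_iff₀ hlK] at this
      linarith
    calc Real.exp (Real.log (2 * K) * a) ≤ Real.exp (Real.log 2) := Real.exp_le_exp.2 h1
      _ = 2 := Real.exp_log (by norm_num)
  set ca : ℝ := 2 ^ (1 / (8 * a)) with hca
  have hca1 : 1 ≤ ca := Real.one_le_rpow (by norm_num) (by positivity)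
  obtain ⟨η, hη, hη2, h2, h3, h4, h5, h6, h7, h8, h9⟩ := choose_eta hε0 hε1 ha0 hA hK2 hca1 N
  set α : ℝ := A / -Real.log η with hα
  set l : ℝ := (η / 4) ^ (1 / (1 - ε)) with hl
  have hl0 : 0 < l := by positivity
  have hlη : l ^ (1 - ε) = η / 4 := by
    rw [hl, ← Real.rpow_mul (by positivity), one_div_mul_cancel (by linarith), Real.rpow_one]
  have hle : l ≤ η / 4 := by
    have := Real.rpow_le_rpow_of_exponent_ge (x := η / 4) (by positivity) (by linarith)
      (y := 1 / (1 - ε)) (z := 1) (by rw [le_div_iff₀ (by linarith)]; linarith)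
    rwa [Real.rpow_one] at this
  have hl1 : l < 1 := by linarith
  have hlN : l ≤ (1 / 2 : ℝ) ^ N := by linarith
  have hlogη : 0 < -Real.log η := by
    have := Real.log_neg hη (by linarith)
    linarith
  refine ⟨η, K, l, a, α, (100 * K / η ^ 2) ^ (-2 : ℝ), hη, hη2, hK2, hl0, hl1, ha0, h6, h7,
    by positivity, ?_⟩
  intro E f e hE0 he he1 hD J r hr hJ hJE hU
  have hbad : volume (Ioc 0 (2 * Real.pi) \ SS f ε N K l) ≤ ENNReal.ofReal (2 * Real.pi * p0) := by
    have hsub : Ioc 0 (2 * Real.pi) \ SS f ε N K l ⊆ (Ioc 0 (2 * Real.pi) \ G f ε N) ∪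
        {θ | θ ∈ Ioc 0 (2 * Real.pi) ∧ K1 ≤ ‖f (pt (1 - l) θ)‖} := by
      rintro θ ⟨hθ, hθS⟩
      by_cases h : θ ∈ G f ε N
      · right
        refine ⟨hθ, ?_⟩
        by_contra hcon
        rw [not_le] at hcon
        apply hθS
        refine ⟨h, ?_⟩
        rw [hK]
        linarith
      · exact Or.inl ⟨hθ, h⟩
    refine (measure_mono hsub).trans ((measure_union_le _ _).trans ?_)
    have h10 := hNv f hD.diff hD.inj hD.d1 hD.d2
    have h11 := hKv f hD.diff hD.inj hD.zero hD.d1 e he1 (fun z hz h => by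
      have h12 := hD.inE z hz
      rw [h] at h12
      have h13 : infDist e E ≤ dist e e := infDist_le_dist_of_mem he
      rw [dist_self] at h13
      linarith) (1 - l) (by linarith) (by linarith)
    refine (add_le_add h10 h11).trans ?_
    rw [← ENNReal.ofReal_add (by positivity) (by positivity)]
    exact ENNReal.ofReal_le_ofReal (by linarith)
  rcases le_or_gt r η with hrη | hrη
  · -- small regime
    obtain ⟨n, hn1, hn2⟩ := exists_nat_pow_near (x := ((1 / 2 : ℝ) ^ N) ^ (1 - ε) / η) (y := 2)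
      (by rw [le_div_iff₀ hη, one_mul]; exact h4) (by norm_num)
    rw [le_div_iff₀ hη] at hn1
    rw [div_lt_iff₀ hη] at hn2
    have hnlog : (n : ℝ) ≤ 2 * -Real.log η := by
      have h10 : (2 : ℝ) ^ n * η ≤ 1 :=
        hn1.trans (Real.rpow_le_one (by positivity) (by
          have := half_pow_le hN
          linarith) (by linarith))
      have h11 : Real.log ((2 : ℝ) ^ n * η) ≤ 0 := Real.log_nonpos (by positivity) h10
      rw [Real.log_mul (by positivity) hη.ne', Real.log_pow] at h11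
      have h12 : (1 / 2 : ℝ) ≤ Real.log 2 := by
        have := Real.log_two_gt_d9
        linarith
      have h13 : (n : ℝ) * (1 / 2) ≤ n * Real.log 2 :=
        mul_le_mul_of_nonneg_left h12 (Nat.cast_nonneg n)
      linarith
    set Λ : ℝ := n * (800 * Real.pi * η ^ (1 - 4 * ε - (q + 1 / 8))) +
      2 * Real.pi * (2 * 2 ^ N) ^ (2 : ℝ) with hΛ
    set κ : ℝ := ca * (2 * η) ^ (1 / 8 : ℝ) * (8 * Real.pi + (2 * K) ^ 2 * Λ) with hκ
    set H : ℝ := ca * (2 * K) ^ 2 / η with hH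
    have hκ0 : 0 < κ := by
      have : 0 ≤ Λ := by rw [hΛ]; positivity
      positivity
    have hexpo : 1 - 4 * ε - (q + 1 / 8) = 4 * ε - 1 / 8 := by rw [hε]; ring
    have hκη : κ ≤ η ^ ε := by
      refine le_trans ?_ h5
      rw [hκ, hΛ, hexpo]
      apply mul_le_mul_of_nonneg_left _ (by positivity)
      have h10 : (n : ℝ) * (800 * Real.pi * η ^ (4 * ε - 1 / 8)) ≤
          (2 * -Real.log η) * (800 * Real.pi * η ^ (4 * ε - 1 / 8)) :=
        mul_le_mul_of_nonneg_right hnlog (by positivity)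
      have h11 : 0 ≤ (2 * K) ^ 2 := by positivity
      nlinarith [mul_le_mul_of_nonneg_left h10 h11]
    have hlne : Real.log η ≠ 0 := by
      intro h
      rw [h] at hlogη
      simp at hlogη
    have hfin : κ ^ α + p0 * H ^ α < 1 := by
      have h10 : κ ^ α ≤ Real.exp (-2) := by
        calc κ ^ α ≤ (η ^ ε) ^ α := Real.rpow_le_rpow hκ0.le hκη h6.le
          _ = Real.exp (-2) := by
              rw [← Real.rpow_mul hη.le, Real.rpow_def_of_pos hη, hα, hA]
              congr 1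
              field_simp
      have h11 : H ^ α ≤ 2 * Real.exp A := by
        rw [hH, Real.div_rpow (by positivity) hη.le, div_eq_mul_inv]
        apply mul_le_mul h9 _ (by positivity) (by norm_num)
        rw [← Real.rpow_neg hη.le, Real.rpow_def_of_pos hη]
        apply Real.exp_le_exp.2
        rw [hα]
        apply le_of_eq
        field_simp
      have h12 : p0 * H ^ α ≤ 1 / 4 := by
        calc p0 * H ^ α ≤ p0 * (2 * Real.exp A) := mul_le_mul_of_nonneg_left h11 hp00.le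
          _ = 1 / 4 := by
              rw [hp0, Real.exp_neg]
              field_simp
              norm_num
      have h13 : Real.exp (-2) < 1 / 2 := by
        rw [Real.exp_neg, one_div]
        apply inv_strictAnti₀ (by norm_num)
        have := Real.add_one_lt_exp (show (2 : ℝ) ≠ 0 by norm_num)
        linarith
      linarith
    exact small hD hE0 he he1 hl0 hl1 hN hε0 (by linarith) hlN hlη hη (by linarith) hK2
      hp00.le hbad hq hq1 (by rw [hε]; linarith) ha0 h6 h7 hn1 (by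
        rw [pow_succ] at hn2; linarith) hca hΛ hκ hH hfin hr hrη hJ hJE
  · exact large hD hE0 he he1 hl0 hl1 hN hlN hlη hη (by linarith) hK2 hp00.le hp08 hbad hq hq1
      ha0 ha1 haK h2 h6 h8 hrη hJ hJE hU

end Pool.Agent.Z55B
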