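import Pool.Agent.Z55B.E6
import Pool.Agent.Z55B.Stm
import Pool.Agent.W538.JQ.Rmt

/-! # E7: the one step estimate -/

set_option autoImplicit false

namespace Pool.Agent.Z55B

open Complex Metric Set Filter Topology MeasureTheory
open Pool.Agent.W677.Mar (pt lam bloch_exp norm_pt pt_periodic continuous_pt norm_pt_sub lam_pos)

/-- Blaschke factor (copied from `Pool.Agent.Helper34.Cp.Riemann`) -/
noncomputable def bl (c w : ℂ) : ℂ := (w - c) / (1 - (starRingEnd ℂ) c * w)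

theorem bl_den_ne {c w : ℂ} (hc : ‖c‖ < 1) (hw : ‖w‖ < 1) : 1 - (starRingEnd ℂ) c * w ≠ 0 := by
  intro h
  have h1 : (starRingEnd ℂ) c * w = 1 := by linear_combination -h
  have h2 : ‖(starRingEnd ℂ) c * w‖ = 1 := by rw [h1]; simp
  rw [norm_mul, RCLike.norm_conj] at h2
  have : ‖c‖ * ‖w‖ < 1 := by
    nlinarith [norm_nonneg c, norm_nonneg w]
  linarith

theorem bl_norm_lt {c w : ℂ} (hc : ‖c‖ < 1) (hw : ‖w‖ < 1) : ‖bl c w‖ < 1 := by
  have hne := bl_den_ne hc hw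
  rw [bl, norm_div, div_lt_one (norm_pos_iff.2 hne)]
  have h1 : ‖w - c‖ ^ 2 < ‖1 - (starRingEnd ℂ) c * w‖ ^ 2 := by
    have e1 : ‖w - c‖ ^ 2 = ‖w‖ ^ 2 + ‖c‖ ^ 2 - 2 * (w * (starRingEnd ℂ) c).re := by
      rw [← Complex.normSq_eq_norm_sq, ← Complex.normSq_eq_norm_sq, ← Complex.normSq_eq_norm_sq,
        Complex.normSq_sub]
    have e2 : ‖1 - (starRingEnd ℂ) c * w‖ ^ 2 = 1 + ‖w‖ ^ 2 * ‖c‖ ^ 2 - 2 * (w * (starRingEnd ℂ) c).re := by
      rw [← Complex.normSq_eq_norm_sq, ← Complex.normSq_eq_norm_sq, ← Complex.normSq_eq_norm_sq,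
        Complex.normSq_sub]
      simp [Complex.normSq_mul, Complex.normSq_conj, mul_comm]
    rw [e1, e2]
    have h3 : ‖c‖ ^ 2 < 1 := by nlinarith [norm_nonneg c]
    have h4 : ‖w‖ ^ 2 < 1 := by nlinarith [norm_nonneg w]
    nlinarith
  exact lt_of_pow_lt_pow_left₀ 2 (norm_nonneg _) h1

theorem bl_hasDerivAt {c w : ℂ} (hc : ‖c‖ < 1) (hw : ‖w‖ < 1) :
    HasDerivAt (bl c) ((1 - (starRingEnd ℂ) c * c) / (1 - (starRingEnd ℂ) c * w) ^ 2) w := by
  have hne := bl_den_ne hc hw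
  have h1 : HasDerivAt (fun w : ℂ => w - c) 1 w := (hasDerivAt_id w).sub_const c
  have h2 : HasDerivAt (fun w : ℂ => 1 - (starRingEnd ℂ) c * w) (-(starRingEnd ℂ) c) w := by
    have := ((hasDerivAt_id w).const_mul ((starRingEnd ℂ) c)).const_sub 1
    simpa using this
  have h3 := h1.div h2 hne
  refine h3.congr_deriv ?_
  congr 1
  ring

/-- Schwarz and Pick: size of the discs in the image -/
theorem edge_ineq {f ψ : ℂ → ℂ} {W : Set ℂ} (hf : DifferentiableOn ℂ f (ball 0 1))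
    (hψ : DifferentiableOn ℂ ψ W) (hψW : ∀ w ∈ W, ψ w ∈ ball (0 : ℂ) 1)
    (hψf : ∀ z ∈ ball (0 : ℂ) 1, ψ (f z) = z) {z : ℂ} (hz : z ∈ ball (0 : ℂ) 1) {ρ : ℝ}
    (hρ : 0 < ρ) (hsub : ball (f z) ρ ⊆ W) : ρ ≤ (1 - ‖z‖ ^ 2) * ‖deriv f z‖ := by
  have hz1 : ‖z‖ < 1 := mem_ball_zero_iff.1 hz
  set g : ℂ → ℂ := fun w => bl z (ψ w) with hg
  have hψd : ∀ w ∈ ball (f z) ρ, DifferentiableAt ℂ ψ w := fun w hw =>
    (hψ.mono hsub).differentiableAt (isOpen_ball.mem_nhds hw)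
  have hψ1 : ∀ w ∈ ball (f z) ρ, ‖ψ w‖ < 1 := fun w hw => mem_ball_zero_iff.1 (hψW w (hsub hw))
  have hgd : ∀ w ∈ ball (f z) ρ, HasDerivAt g
      ((1 - (starRingEnd ℂ) z * z) / (1 - (starRingEnd ℂ) z * ψ w) ^ 2 * deriv ψ w) w :=
    fun w hw => (bl_hasDerivAt hz1 (hψ1 w hw)).comp w (hψd w hw).hasDerivAt
  have hcen : f z ∈ ball (f z) ρ := mem_ball_self hρ
  have hg0 : g (f z) = 0 := by
    simp [hg, hψf z hz, bl]
  have hS := Complex.norm_deriv_le_div_of_mapsTo_ball (f := g) (c := f z) (R₁ := ρ) (R₂ := 1)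
    (fun w hw => (hgd w hw).differentiableAt.differentiableWithinAt)
    (fun w hw => by
      rw [hg0, mem_closedBall_zero_iff]
      exact (bl_norm_lt hz1 (hψ1 w hw)).le) hρ
  rw [(hgd _ hcen).deriv, hψf z hz] at hS
  -- the derivative of the inverse
  have hinv : deriv ψ (f z) * deriv f z = 1 := by
    have h1 : HasDerivAt (fun u => ψ (f u)) (deriv ψ (f z) * deriv f z) z :=
      (hψd _ hcen).hasDerivAt.comp z (hf.differentiableAt (isOpen_ball.mem_nhds hz)).hasDerivAt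
    have h2 : (fun u => ψ (f u)) =ᶠ[𝓝 z] (fun u => u) := by
      filter_upwards [isOpen_ball.mem_nhds hz] with u hu
      exact hψf u hu
    exact (h1.congr_of_eventuallyEq h2.symm).unique (hasDerivAt_id z)
  have hzz : (starRingEnd ℂ) z * z = ((‖z‖ ^ 2 : ℝ) : ℂ) := by
    rw [mul_comm, Complex.mul_conj, Complex.normSq_eq_norm_sq]
  have h1z : 0 < 1 - ‖z‖ ^ 2 := by nlinarith [norm_nonneg z]
  have hfac : (1 - (starRingEnd ℂ) z * z) / (1 - (starRingEnd ℂ) z * z) ^ 2 =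
      (((1 - ‖z‖ ^ 2)⁻¹ : ℝ) : ℂ) := by
    rw [hzz]
    have : ((1 - ‖z‖ ^ 2 : ℝ) : ℂ) ≠ 0 := by exact_mod_cast h1z.ne'
    push_cast at this ⊢
    field_simp
  rw [hfac, norm_mul, Complex.norm_real, Real.norm_of_nonneg (by positivity)] at hS
  have hn : ‖deriv ψ (f z)‖ * ‖deriv f z‖ = 1 := by rw [← norm_mul, hinv, norm_one]
  have hf0 : 0 < ‖deriv f z‖ := by
    rcases (norm_nonneg (deriv f z)).eq_or_lt with h | h
    · rw [← h, mul_zero] at hn
      norm_num at hn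
    · exact h
  rw [inv_mul_eq_div, div_le_div_iff₀ h1z hρ] at hS
  have h3 : ‖deriv ψ (f z)‖ * ρ * ‖deriv f z‖ ≤ 1 * (1 - ‖z‖ ^ 2) * ‖deriv f z‖ :=
    mul_le_mul_of_nonneg_right hS hf0.le
  have h4 : ‖deriv ψ (f z)‖ * ρ * ‖deriv f z‖ = ρ := by
    calc ‖deriv ψ (f z)‖ * ρ * ‖deriv f z‖ = (‖deriv ψ (f z)‖ * ‖deriv f z‖) * ρ := by ring
      _ = ρ := by rw [hn, one_mul]
  rw [h4, one_mul] at h3
  exact h3

/-- scaling of the distance -/
theorem infDist_scale {E : Set ℂ} (hE : E.Nonempty) {v : ℂ} {δ : ℝ} (hδ : 0 < δ) (w : ℂ) :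
    infDist ((w - v) / δ) ((fun x => (x - v) / (δ : ℂ)) '' E) = infDist w E / δ := by
  have hd : ∀ x : ℂ, dist ((w - v) / (δ : ℂ)) ((x - v) / (δ : ℂ)) = dist w x / δ := by
    intro x
    rw [dist_eq_norm, dist_eq_norm, div_sub_div_same, sub_sub_sub_cancel_right, norm_div,
      Complex.norm_real, Real.norm_of_nonneg hδ.le]
  apply le_antisymm
  · rw [le_div_iff₀ hδ]
    refine (le_infDist hE).2 fun x hx => ?_
    have h1 : infDist ((w - v) / δ) ((fun x => (x - v) / (δ : ℂ)) '' E) ≤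
        dist ((w - v) / (δ : ℂ)) ((x - v) / (δ : ℂ)) := infDist_le_dist_of_mem ⟨x, hx, rfl⟩
    rw [hd] at h1
    rwa [le_div_iff₀ hδ] at h1
  · refine (le_infDist (hE.image _)).2 ?_
    rintro _ ⟨x, hx, rfl⟩
    simp only
    rw [hd]
    exact div_le_div_of_nonneg_right (infDist_le_dist_of_mem hx) hδ.le

/-- scaling of the potential -/
theorem Tx_scale {E : Set ℂ} (hE : E.Nonempty) {v : ℂ} {δ : ℝ} (hδ : 0 < δ) {q a r : ℝ}
    (ha : 0 < a) (hr : 0 < r) {x w : ℂ} :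
    Tx q a (r / δ) ((fun x => (x - v) / (δ : ℂ)) '' E) ((x - v) / δ) ((w - v) / δ) =
      Tx q a r E x w := by
  unfold Tx
  rw [infDist_scale hE hδ]
  have h1 : ‖(w - v) / (δ : ℂ) - (x - v) / (δ : ℂ)‖ = ‖w - x‖ / δ := by
    rw [div_sub_div_same, sub_sub_sub_cancel_right, norm_div, Complex.norm_real,
      Real.norm_of_nonneg hδ.le]
  have hd := infDist_nonneg (x := w) (s := E)
  rw [h1, Real.div_rpow hr.le hδ.le, Real.div_rpow (norm_nonneg _) hδ.le, Real.div_rpow hr.le hδ.le,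
    Real.div_rpow hd hδ.le, ← add_div, Real.div_rpow (by positivity) (by positivity),
    ← Real.rpow_mul hδ.le, Real.rpow_neg hδ.le, Real.rpow_add hδ,
    show a * (1 / (8 * a)) = (1 / 8 : ℝ) by field_simp]
  have h2 : 0 < δ ^ q := by positivity
  have h3 : 0 < δ ^ (1 / 8 : ℝ) := by positivity
  field_simp

theorem Ux_scale {E : Set ℂ} (hE : E.Nonempty) {v : ℂ} {δ : ℝ} (hδ : 0 < δ) {q a r : ℝ}
    (ha : 0 < a) (hr : 0 < r) (J : Finset ℂ) (w : ℂ) [DecidableEq ℂ] :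
    Ux q a (r / δ) (J.image fun x => (x - v) / (δ : ℂ)) ((fun x => (x - v) / (δ : ℂ)) '' E)
      ((w - v) / δ) = Ux q a r J E w := by
  unfold Ux
  rw [Finset.sum_image]
  · exact Finset.sum_congr rfl fun x _ => Tx_scale hE hδ ha hr
  · intro x _ y _ h
    have hδ' : (δ : ℂ) ≠ 0 := by exact_mod_cast hδ.ne'
    simpa [div_left_inj' hδ'] using h

/-- the one step estimate -/
theorem one_step {q : ℝ} (hq : 3 / 4 ≤ q) (hq1 : q < 1) : ∃ η K l a α u0 : ℝ,
    0 < η ∧ η ≤ 1 / 2 ∧ 2 ≤ K ∧ 0 < l ∧ l < 1 ∧ 0 < a ∧ 0 < α ∧ α ≤ 1 ∧ 0 < u0 ∧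
    ∀ (E : Set ℂ) (v : ℂ) (δ : ℝ), IsClosed E → E.Nonempty → 0 < δ → infDist v E = δ →
      IsConnected (Wd E v (η * δ / 20) (K * δ))ᶜ →
      ∃ f : ℂ → ℂ, DifferentiableOn ℂ f (ball 0 1) ∧ InjOn f (ball 0 1) ∧ f 0 = v ∧
        (∀ z ∈ ball (0 : ℂ) 1, f z ∉ E) ∧
        ∀ (J : Finset ℂ) (r : ℝ), 0 < r → J.Nonempty → (∀ x ∈ J, x ∈ E) → Ux q a r J E v ≤ u0 →
        ∫ θ in Ioc 0 (2 * Real.pi), Ux q a r J E (f (pt (1 - l) θ)) ^ α <
          2 * Real.pi * Ux q a r J E v ^ α := by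
  classical
  obtain ⟨η, K, l, a, α, u0, hη, hη2, hK, hl, hl1, ha, hα, hα1, hu0, H⟩ := one_norm hq hq1
  refine ⟨η, K, l, a, α, u0, hη, hη2, hK, hl, hl1, ha, hα, hα1, hu0, ?_⟩
  intro E v δ hE hEne hδ hvE hconn
  have h20 : 20 * (η * δ / 20) = η * δ := by ring
  set U : Set ℂ := {w | 20 * (η * δ / 20) < infDist w E} ∩ ball v (K * δ) with hU
  set W : Set ℂ := Wd E v (η * δ / 20) (K * δ) with hW
  have hWdef : W = connectedComponentIn U v := rfl
  have hUo : IsOpen U :=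
    (isOpen_lt continuous_const (continuous_infDist_pt E)).inter isOpen_ball
  have hvU : v ∈ U := by
    refine ⟨?_, mem_ball_self (by positivity)⟩
    show 20 * (η * δ / 20) < infDist v E
    rw [h20, hvE]
    nlinarith
  have hWo : IsOpen W := hUo.connectedComponentIn
  have hWc : IsConnected W := isConnected_connectedComponentIn_iff.2 hvU
  have hWU : W ⊆ U := connectedComponentIn_subset _ _
  have hWb : Bornology.IsBounded W := isBounded_ball.subset (hWU.trans inter_subset_right)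
  have hvW : v ∈ W := mem_connectedComponentIn hvU
  obtain ⟨ψ, f, hψ, hf, hψv, h1, h2⟩ := Pool.Agent.W538.JQ.rmt W v hWo hWc hWb hconn hvW
  have h0b : (0 : ℂ) ∈ ball (0 : ℂ) 1 := mem_ball_self one_pos
  have hf0 : f 0 = v := by rw [← hψv]; exact (h1 v hvW).2
  have hinj : InjOn f (ball 0 1) := by
    intro z hz w hw hzw
    rw [← (h2 z hz).2, ← (h2 w hw).2, hzw]
  have hfU : ∀ z ∈ ball (0 : ℂ) 1, η * δ < infDist (f z) E ∧ ‖f z - v‖ < K * δ := by
    intro z hz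
    obtain ⟨h3, h4⟩ := hWU (h2 z hz).1
    have h3' : 20 * (η * δ / 20) < infDist (f z) E := h3
    rw [h20] at h3'
    rw [mem_ball, dist_eq_norm] at h4
    exact ⟨h3', h4⟩
  refine ⟨f, hf, hinj, hf0, fun z hz hzE => ?_, ?_⟩
  · have h3 := (hfU z hz).1
    rw [infDist_zero_of_mem hzE] at h3
    have : 0 < η * δ := by positivity
    linarith
  intro J r hr hJ hJE hJu
  -- the normalised picture
  have hδ' : (δ : ℂ) ≠ 0 := by exact_mod_cast hδ.ne'
  set E' : Set ℂ := (fun x => (x - v) / (δ : ℂ)) '' E with hE'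
  set f' : ℂ → ℂ := fun z => (f z - v) / δ with hf'
  have hvv : (0 : ℂ) = (v - v) / δ := by simp
  have hE0 : infDist 0 E' = 1 := by
    rw [hvv, infDist_scale hEne hδ, hvE, div_self hδ.ne']
  obtain ⟨e, he, hev⟩ := hE.exists_infDist_eq_dist hEne v
  have he1 : ‖(e - v) / (δ : ℂ)‖ = 1 := by
    rw [norm_div, Complex.norm_real, Real.norm_of_nonneg hδ.le, ← dist_eq_norm, dist_comm, ← hev,
      hvE, div_self hδ.ne']
  have hd' : DifferentiableOn ℂ f' (ball 0 1) := (hf.sub_const v).div_const _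
  have hderiv : ∀ z ∈ ball (0 : ℂ) 1, deriv f' z = deriv f z / δ := by
    intro z hz
    exact (((hf.differentiableAt (isOpen_ball.mem_nhds hz)).hasDerivAt.sub_const v).div_const
      _).deriv
  have hinf : ∀ z, infDist (f' z) E' = infDist (f z) E / δ := fun z => infDist_scale hEne hδ _
  have hnorm : ∀ z, ‖f' z‖ = ‖f z - v‖ / δ := by
    intro z
    simp only [hf']
    rw [norm_div, Complex.norm_real, Real.norm_of_nonneg hδ.le]
  -- discs in `W`
  have hdisc : ∀ z ∈ ball (0 : ℂ) 1, ∀ ρ : ℝ, 0 < ρ → η + ρ ≤ infDist (f' z) E' →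
      ‖f' z‖ + ρ ≤ K → ρ ≤ (1 - ‖z‖ ^ 2) * ‖deriv f' z‖ := by
    intro z hz ρ hρ h3 h4
    rw [hinf, le_div_iff₀ hδ] at h3
    rw [hnorm, ← le_sub_iff_add_le, div_le_iff₀ hδ] at h4
    have hsub : ball (f z) (ρ * δ) ⊆ U := by
      intro w hw
      rw [mem_ball] at hw
      refine ⟨?_, ?_⟩
      · show 20 * (η * δ / 20) < infDist w E
        rw [h20]
        have h5 := infDist_le_infDist_add_dist (s := E) (x := f z) (y := w)
        rw [dist_comm] at hw
        nlinarith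
      · rw [mem_ball]
        calc dist w v ≤ dist w (f z) + dist (f z) v := dist_triangle _ _ _
          _ < ρ * δ + dist (f z) v := by linarith
          _ ≤ K * δ := by rw [dist_eq_norm]; nlinarith
    have hfz : f z ∈ W := (h2 z hz).1
    have hsubW : ball (f z) (ρ * δ) ⊆ W := by
      rw [hWdef]
      have h5 : connectedComponentIn U v = connectedComponentIn U (f z) :=
        connectedComponentIn_eq hfz
      rw [h5]
      exact (convex_ball (f z) (ρ * δ)).isPreconnected.subset_connectedComponentIn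
        (mem_ball_self (by positivity)) hsub
    have h6 := edge_ineq hf hψ (fun w hw => (h1 w hw).1) (fun z hz => (h2 z hz).2) hz
      (by positivity : 0 < ρ * δ) hsubW
    rw [hderiv z hz, norm_div, Complex.norm_real, Real.norm_of_nonneg hδ.le, ← mul_div_assoc,
      le_div_iff₀ hδ]
    exact h6
  have hf'0 : f' 0 = 0 := by simp [hf', hf0]
  have hinj' : InjOn f' (ball 0 1) := by
    intro z hz w hw hzw
    apply hinj hz hw
    simp only [hf'] at hzw
    rw [div_left_inj' hδ'] at hzw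
    exact sub_left_inj.1 hzw
  have hD : Dm E' f' η K := by
    refine ⟨hd', hinj', hf'0, ?_, ?_, ?_, ?_, ?_⟩
    · have h3 := hdisc 0 h0b (1 / 2) (by norm_num) (by rw [hf'0, hE0]; linarith)
        (by rw [hf'0, norm_zero]; linarith)
      rw [norm_zero] at h3
      linarith
    · by_contra hcon
      rw [not_le] at hcon
      have h3 := (Pool.Agent.T6.H4.SG.t_KG f' 0 1 one_pos hd' hinj').2.2.2
      have h4 : (e - v) / (δ : ℂ) ∈ ball (f' 0) (1 * ‖deriv f' 0‖ / 4) := by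
        rw [hf'0, mem_ball_zero_iff, he1]
        linarith
      obtain ⟨z, hz, hze⟩ := h3 h4
      have h5 := (hfU z hz).1
      have h6 : f z = e := by
        simp only [hf'] at hze
        rw [div_left_inj' hδ'] at hze
        exact sub_left_inj.1 hze
      rw [h6, infDist_zero_of_mem he] at h5
      have : 0 < η * δ := by positivity
      linarith
    · intro z hz
      rw [hinf, lt_div_iff₀ hδ]
      exact (hfU z hz).1
    · intro z hz
      rw [hnorm, div_lt_iff₀ hδ]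
      exact (hfU z hz).2
    · intro z hz ρ hρ h3 h4
      refine (hdisc z hz ρ hρ h3 h4).trans ?_
      apply mul_le_mul_of_nonneg_right _ (norm_nonneg _)
      have : ‖z‖ < 1 := mem_ball_zero_iff.1 hz
      nlinarith [norm_nonneg z]
  have hmain := H E' f' ((e - v) / δ) hE0 ⟨e, he, rfl⟩ he1 hD (J.image fun x => (x - v) / (δ : ℂ))
    (r / δ) (by positivity) (hJ.image _) (by
      intro y hy
      obtain ⟨x, hx, rfl⟩ := Finset.mem_image.1 hy
      exact ⟨x, hJE x hx, rfl⟩) (by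
      rw [hvv, Ux_scale hEne hδ ha hr]
      exact hJu)
  rw [hvv, Ux_scale hEne hδ ha hr] at hmain
  refine lt_of_le_of_lt (le_of_eq ?_) hmain
  congr 1
  funext θ
  simp only [hf']
  rw [Ux_scale hEne hδ ha hr]

end Pool.Agent.Z55B
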